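import Pool.Agent.Lib.MP_f80667_ag.Cv.HdB
import Pool.Agent.Lib.MP_f80667_ag.Cv.HdA

/-! Decomposition of cycles with control of the support. -/

open ZC BE PE CV

namespace DN

/-- The inductive form. -/
private theorem gub_aux {F : Type} [Field F] {V : Vr F} [Hf V] {K Ω : Type} [Field K] [Field Ω]
    [Algebra K Ω] [Algebra F K] [Algebra F Ω] [IsScalarTower F K Ω] [CharZero K]
    [IsAlgClosure K Ω]
    (h : ∀ x : V.pt Ω, ∃ M : IntermediateField K Ω, FiniteDimensional K M ∧ Fp V M x)
    {M : IntermediateField K Ω} [FiniteDimensional K M]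
    {C : AddSubgroup (V.pt Ω →₀ ℤ)} {z : V.pt Ω →₀ ℤ} (hz : Fx M z)
    (hC : ∀ (M' : IntermediateField K Ω) (x : V.pt Ω), M ≤ M' → FiniteDimensional K M' →
      Fp V M' x → x ∈ z.support → Nm M M' (Finsupp.single x 1) ∈ C) : z ∈ C := by
  classical
  induction hn : z.support.card using Nat.strong_induction_on generalizing z with
  | _ n ih =>
    by_cases h0 : z = 0
    · rw [h0]
      exact zero_mem _
    obtain ⟨x, hx⟩ := Finsupp.support_nonempty_iff.2 h0
    obtain ⟨M₀, hM₀, hfp⟩ := h x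
    let H : Subgroup (Ω ≃ₐ[K] Ω) := M.fixingSubgroup ⊓
      MulAction.stabilizer (Ω ≃ₐ[K] Ω) (Finsupp.single x 1 : V.pt Ω →₀ ℤ)
    have hopn : opn K Ω H := by
      refine ⟨M ⊔ M₀, inferInstance, fun γ hγ => ⟨fix_le le_sup_left hγ, ?_⟩⟩
      exact fx_single hfp 1 γ (fix_le le_sup_right hγ)
    obtain ⟨M', hM', hH⟩ := exists_fix hopn
    have hle : M ≤ M' := le_of_fix_le (by rw [hH]; exact inf_le_left)
    have hx' : Fp V M' x := fp_of_fx fun γ hγ => by
      rw [hH] at hγ
      exact hγ.2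
    -- values of `z` on the orbit
    have hval : ∀ γ ∈ M.fixingSubgroup, z (V.act γ x) = z x := by
      intro γ hγ
      have hinj : Function.Injective (V.act γ) := fun p q hpq => by
        have e := congrArg (V.act γ⁻¹) hpq
        rwa [← act_mul Hf.out, ← act_mul Hf.out, inv_mul_cancel, act_one Hf.out,
          act_one Hf.out] at e
      calc z (V.act γ x) = (Finsupp.mapDomain (V.act γ) z) (V.act γ x) := by
            rw [← smul_def, hz γ hγ]
        _ = z x := Finsupp.mapDomain_apply hinj z _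
    let O : Finset (V.pt Ω) := z.support.filter fun x' => ∃ γ ∈ M.fixingSubgroup, V.act γ x = x'
    have hO : ∀ x', x' ∈ O ↔ ∃ γ ∈ M.fixingSubgroup, V.act γ x = x' := by
      intro x'
      rw [Finset.mem_filter, and_iff_right_iff_imp]
      rintro ⟨γ, hγ, rfl⟩
      rw [Finsupp.mem_support_iff, hval γ hγ]
      exact Finsupp.mem_support_iff.1 hx
    have hNm : Nm M M' (Finsupp.single x 1 : V.pt Ω →₀ ℤ) = ∑ x' ∈ O, Finsupp.single x' 1 := by
      rw [nm_conj hle (P := (Finsupp.single x 1 : V.pt Ω →₀ ℤ)) (fun γ hγ => ?_)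
        (O.map ⟨fun x' => Finsupp.single x' 1, Finsupp.single_left_injective one_ne_zero⟩)
        (fun Q => ?_), Finset.sum_map]
      · rfl
      · rw [hH]
        exact ⟨fun e => ⟨hγ, e⟩, fun e => e.2⟩
      · rw [Finset.mem_map]
        constructor
        · rintro ⟨x', hx', rfl⟩
          obtain ⟨γ, hγ, rfl⟩ := (hO x').1 hx'
          exact ⟨γ, hγ, (smul_single γ x 1).symm⟩
        · rintro ⟨γ, hγ, rfl⟩
          exact ⟨V.act γ x, (hO _).2 ⟨γ, hγ, rfl⟩, (smul_single γ x 1).symm⟩
    have hfN : Fx M (Nm M M' (Finsupp.single x 1 : V.pt Ω →₀ ℤ)) :=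
      nm_fx hle (fx_single hx' 1)
    have hfz : Fx M (z x • Nm M M' (Finsupp.single x 1 : V.pt Ω →₀ ℤ)) := fun γ hγ => by
      rw [smul_comm, hfN γ hγ]
    have hvalz : ∀ x', (z - z x • Nm M M' (Finsupp.single x 1 : V.pt Ω →₀ ℤ)) x' =
        if x' ∈ O then 0 else z x' := by
      intro x'
      rw [Finsupp.sub_apply, Finsupp.smul_apply, hNm, Finsupp.finsetSum_apply]
      simp only [Finsupp.single_apply]
      rw [Finset.sum_ite_eq' O x']
      split_ifs with h1
      · obtain ⟨γ, hγ, rfl⟩ := (hO x').1 h1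
        rw [hval γ hγ, smul_eq_mul, mul_one, sub_self]
      · rw [smul_zero, sub_zero]
    have hsub : (z - z x • Nm M M' (Finsupp.single x 1 : V.pt Ω →₀ ℤ)).support ⊆
        z.support := by
      intro x' hx'
      rw [Finsupp.mem_support_iff, hvalz] at hx'
      rw [Finsupp.mem_support_iff]
      intro e
      apply hx'
      rw [e, ite_self]
    have hcard : (z - z x • Nm M M' (Finsupp.single x 1 : V.pt Ω →₀ ℤ)).support.card < n := by
      rw [← hn]
      refine Finset.card_lt_card ((Finset.ssubset_iff_of_subset hsub).2 ⟨x, hx, ?_⟩)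
      rw [Finsupp.mem_support_iff, hvalz, if_pos ((hO x).2 ⟨1, M.fixingSubgroup.one_mem,
        act_one Hf.out x⟩)]
      exact fun e => e rfl
    have h1 := ih _ hcard (hz.sub hfz) (fun M'' y h2 h3 h4 h5 => hC M'' y h2 h3 h4 (hsub h5)) rfl
    have h2 := add_mem h1 (zsmul_mem (hC M' x hle hM' hx' hx) (z x))
    rwa [sub_add_cancel] at h2

/-- Decomposition with control of the support. Proof: copy of `CV.fx_gen` (`Cv/HdB.lean`) for `M = ⊥` (`x` is in the support of `z` there, and the supports of the next cycles are contained in the support of `z`). -/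
theorem desc {F : Type} [Field F] {V : Vr F} [Hf V] {K Ω : Type} [Field K] [Field Ω] [Algebra K Ω]
    [Algebra F K] [Algebra F Ω] [IsScalarTower F K Ω] [CharZero K] [IsAlgClosure K Ω]
    (h : ∀ x : V.pt Ω, ∃ M : IntermediateField K Ω, FiniteDimensional K M ∧ Fp V M x)
    {z : V.pt Ω →₀ ℤ} (hz : z ∈ V.cyc K Ω) {C : AddSubgroup (V.pt Ω →₀ ℤ)}
    (hC : ∀ (M : IntermediateField K Ω) (x : V.pt Ω), FiniteDimensional K M → Fp V M x →
      x ∈ z.support → Nm (⊥ : IntermediateField K Ω) M (Finsupp.single x 1) ∈ C) : z ∈ C := by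
  have hfx : Fx (⊥ : IntermediateField K Ω) z := fun γ _ => hz γ
  exact gub_aux h hfx fun M' x _ h1 h2 h3 => hC M' x h1 h2 h3

end DN
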