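import Pool.Agent.Lib.MP_f80667_ag.Do.MvB
import Pool.Agent.Lib.MP_f80667_ag.Gx.XA
import Pool.Agent.Lib.MP_f80667_ag.Nf.Ee

/-! The rational map on the points over an algebraically closed field. -/

open ZC BE PE CV NE

namespace DN

variable {F F' : Type} [Field F] [Field F'] {N n : ℕ} {ι : Type}

/-- The domain of the rational map. -/
def Dn (W : Fin n → WeierstrassCurve F') (Φ : Fin N → MvPolynomial (Fin n ⊕ Fin n) F') (Ω : Type)
    [Field Ω] [Algebra F' Ω] : Set (∀ i, Pt (W i) Ω) :=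
  {Q | ∃ x, Vl W Φ Q x}

open Classical in
/-- The value of the rational map; it is the point `o` outside the domain. -/
noncomputable def fv {f : ι → MvPolynomial (Fin N) F} {W : Fin n → WeierstrassCurve F'} {Ω : Type}
    [Field Ω] [Algebra F Ω] [Algebra F' Ω] (o : (GX.Xf f).pt Ω)
    (Φ : Fin N → MvPolynomial (Fin n ⊕ Fin n) F') (Q : ∀ i, Pt (W i) Ω) : (GX.Xf f).pt Ω :=
  if h : ∃ P : (GX.Xf f).pt Ω, ∃ x, Vl W Φ Q x ∧ GX.Co P x then h.choose else o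

/-- The point over `Ω` given by a point over `K`. -/
noncomputable def up {W : Fin n → WeierstrassCurve F'} {K : Type} (Ω : Type) [Field K] [Field Ω]
    [Algebra K Ω] [Algebra F' K] [Algebra F' Ω] [IsScalarTower F' K Ω] (b : ∀ i, Pt (W i) K) :
    ∀ i, Pt (W i) Ω :=
  fun i => Pt.map (W i) (IsScalarTower.toAlgHom F' K Ω) (b i)

section val

variable [Algebra F F'] {f : ι → MvPolynomial (Fin N) F} {W : Fin n → WeierstrassCurve F'}
  {Φ : Fin N → MvPolynomial (Fin n ⊕ Fin n) F'} {h : MvPolynomial (Fin N) F} {D : ℕ} {Ω : Type}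
  [Field Ω] [Algebra F Ω] [Algebra F' Ω]

/-- The value of the vector `Φ` is unique. -/
theorem vl_uniq {Q : ∀ i, Pt (W i) Ω} {x x' : Fin N → Ω} (h : Vl W Φ Q x) (h' : Vl W Φ Q x') :
    x = x' := by
  obtain ⟨X, Y, n1, e1, -, v1⟩ := h
  obtain ⟨X', Y', n2, e2, -, v2⟩ := h'
  have hXY : ∀ i, X i = X' i ∧ Y i = Y' i := fun i => aff_inj (congrFun (e1.symm.trans e2) i)
  have hX : X = X' := funext fun i => (hXY i).1
  have hY : Y = Y' := funext fun i => (hXY i).2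
  subst hX
  subst hY
  exact funext fun j => (v1 j).trans (v2 j).symm

theorem fv_eq {o : (GX.Xf f).pt Ω} {Q : ∀ i, Pt (W i) Ω} {P : (GX.Xf f).pt Ω} {x : Fin N → Ω}
    (h : Vl W Φ Q x) (h' : GX.Co P x) : fv o Φ Q = P := by
  classical
  have hex : ∃ P : (GX.Xf f).pt Ω, ∃ x, Vl W Φ Q x ∧ GX.Co P x := ⟨P, x, h, h'⟩
  have h0 : fv o Φ Q = hex.choose := by
    unfold fv
    exact dif_pos hex
  obtain ⟨x', h1, h2⟩ := hex.choose_spec
  rw [h0]
  rw [vl_uniq h1 h] at h2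
  exact GX.co_eq h2 h'

/-- Proof: `Dom.eq`. -/
theorem fv_co [IsScalarTower F F' Ω] (hD : Dom f W Φ h D) (o : (GX.Xf f).pt Ω)
    {Q : ∀ i, Pt (W i) Ω} {x : Fin N → Ω} (hx : Vl W Φ Q x) : GX.Co (fv o Φ Q) x := by
  have h0 : x ≠ 0 := by
    obtain ⟨X, Y, n, e, h, v⟩ := hx
    exact h
  obtain ⟨P, hP⟩ := GX.co_mk h0 (hD.eq Ω Q x hx)
  rw [fv_eq hx hP]
  exact hP

end val

section act

variable [Algebra F F'] {f : ι → MvPolynomial (Fin N) F} {W : Fin n → WeierstrassCurve F'}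
  {Φ : Fin N → MvPolynomial (Fin n ⊕ Fin n) F'} {h : MvPolynomial (Fin N) F} {D : ℕ} {K Ω : Type}
  [Field K] [Field Ω] [Algebra K Ω] [Algebra F K] [Algebra F Ω] [IsScalarTower F K Ω]
  [Algebra F' K] [Algebra F' Ω] [IsScalarTower F' K Ω]

omit [Algebra F F'] [Algebra F K] [Algebra F Ω] [IsScalarTower F K Ω] in
private theorem vl_act (γ : Ω ≃ₐ[K] Ω) {Q : ∀ i, Pt (W i) Ω} {x : Fin N → Ω}
    (hx : Vl W Φ Q x) : Vl W Φ ((Vpi fun i => Ev (W i)).act γ Q) fun j => γ (x j) := by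
  obtain ⟨X, Y, hn, rfl, h0, hv⟩ := hx
  refine ⟨fun i => γ (X i), fun i => γ (Y i), fun i =>
    (WeierstrassCurve.Affine.baseChange_nonsingular (W i).toAffine
      (γ.restrictScalars F' : Ω →ₐ[F'] Ω).injective (X i) (Y i)).mpr (hn i), rfl, ?_, fun j => ?_⟩
  · intro h1
    apply h0
    funext j
    have h2 : γ (x j) = 0 := congrFun h1 j
    exact (map_eq_zero_iff γ γ.injective).1 h2
  · have h1 : (Sum.elim (fun i => γ (X i)) fun i => γ (Y i)) =
        (γ.restrictScalars F' : Ω →ₐ[F'] Ω) ∘ Sum.elim X Y := by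
      funext i
      rcases i with i | i <;> rfl
    rw [h1]
    change γ (x j) = MvPolynomial.aeval (fun i =>
      (γ.restrictScalars F' : Ω →ₐ[F'] Ω) (Sum.elim X Y i)) (Φ j)
    rw [← MvPolynomial.comp_aeval_apply, ← hv j]
    rfl

/-- Proof: apply `γ` to the coordinates. -/
theorem dn_act (γ : Ω ≃ₐ[K] Ω) {Q : ∀ i, Pt (W i) Ω} (hQ : Q ∈ Dn W Φ Ω) :
    (Vpi fun i => Ev (W i)).act γ Q ∈ Dn W Φ Ω := by
  obtain ⟨x, hx⟩ := hQ
  exact ⟨_, vl_act γ hx⟩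

theorem fv_act [IsScalarTower F F' Ω] (hD : Dom f W Φ h D) (o : (GX.Xf f).pt Ω) (γ : Ω ≃ₐ[K] Ω)
    {Q : ∀ i, Pt (W i) Ω} (hQ : Q ∈ Dn W Φ Ω) :
    (GX.Xf f).act γ (fv o Φ Q) = fv o Φ ((Vpi fun i => Ev (W i)).act γ Q) := by
  obtain ⟨x, hx⟩ := hQ
  exact (fv_eq (vl_act γ hx) (GX.co_act γ (fv_co hD o hx))).symm

/-- Points over `K` are invariant. -/
theorem up_act (γ : Ω ≃ₐ[K] Ω) (b : ∀ i, Pt (W i) K) :
    (Vpi fun i => Ev (W i)).act γ (up Ω b) = up Ω b := by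
  funext i
  change Pt.map (W i) (γ.restrictScalars F' : Ω →ₐ[F'] Ω)
    (Pt.map (W i) (IsScalarTower.toAlgHom F' K Ω) (b i)) =
      Pt.map (W i) (IsScalarTower.toAlgHom F' K Ω) (b i)
  rw [Pt.map_map']
  have h1 : (γ.restrictScalars F' : Ω →ₐ[F'] Ω).comp (IsScalarTower.toAlgHom F' K Ω) =
      IsScalarTower.toAlgHom F' K Ω := by
    ext a
    exact γ.commutes a
  rw [h1]

/-- The action of the Galois group on the points of the product. -/
noncomputable def ac (γ : Ω ≃ₐ[K] Ω) (Q : ∀ i, Pt (W i) Ω) : ∀ i, Pt (W i) Ω :=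
  (Vpi fun i => Ev (W i)).act γ Q

/-- The action is additive. -/
theorem act_add (γ : Ω ≃ₐ[K] Ω) (Q Q' : ∀ i, Pt (W i) Ω) : ac γ (Q + Q') = ac γ Q + ac γ Q' :=
  funext fun i => map_add (Pt.map (W i) (γ.restrictScalars F' : Ω →ₐ[F'] Ω)) (Q i) (Q' i)

private theorem fv_deg {V : Vr F} {V' : Vr F'} {L : Type} [Field L] [Algebra F L] [Algebra F' L]
    (g : V'.pt L → V.pt L) (z : V'.pt L →₀ ℤ) :
    V.deg L (Finsupp.mapDomain g z) = V'.deg L z := by
  have h1 : (V.deg L).comp (Finsupp.mapDomain.addMonoidHom g) = V'.deg L := by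
    refine Finsupp.addHom_ext fun x n => ?_
    simp [Vr.deg, Finsupp.mapDomain_single]
  rw [← h1]
  rfl

/-- The push-forward of a cycle supported in the domain after the translation by a point over `K`. Proof: `fv_act`, `up_act`, `act_add`; the support of `w` is Galois invariant. -/
theorem tr_mem [IsScalarTower F F' Ω] (hD : Dom f W Φ h D) (o : (GX.Xf f).pt Ω)
    {w : (∀ i, Pt (W i) Ω) →₀ ℤ} (hw : w ∈ (Vpi fun i => Ev (W i)).D0 K Ω) (b : ∀ i, Pt (W i) K)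
    (hs : ∀ Q ∈ w.support, Q + up Ω b ∈ Dn W Φ Ω) :
    Finsupp.mapDomain (fun Q => fv o Φ (Q + up Ω b)) w ∈ (GX.Xf f).D0 K Ω := by
  refine ⟨fun σ => ?_, (fv_deg (V := GX.Xf f) (V' := Vpi fun i => Ev (W i)) _ w).trans hw.2⟩
  rw [← Finsupp.mapDomain_comp]
  have h1 : Finsupp.mapDomain ((GX.Xf f).act σ ∘ fun Q => fv o Φ (Q + up Ω b)) w =
      Finsupp.mapDomain ((fun Q => fv o Φ (Q + up Ω b)) ∘ ac σ) w := by
    refine Finsupp.mapDomain_congr fun Q hQ => ?_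
    change (GX.Xf f).act σ (fv o Φ (Q + up Ω b)) = fv o Φ (ac σ Q + up Ω b)
    rw [fv_act hD o σ (hs Q hQ)]
    refine congrArg (fv o Φ) ?_
    refine (act_add σ Q (up Ω b)).trans ?_
    exact congrArg (fun R => ac σ Q + R) (up_act σ b)
  rw [h1, Finsupp.mapDomain_comp]
  exact congrArg (Finsupp.mapDomain fun Q => fv o Φ (Q + up Ω b)) (hw.1 σ)

end act

end DN
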