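import Pool.Agent.Lib.MP_f80667_ag.Pe.GlE
import Pool.Agent.Lib.MP_f80667_ag.Pe.Cp

/-! The place of an extension of a number field given by an embedding. -/

open ZC BE PE IsDedekindDomain NumberField

namespace DN

variable {F F' : Type} [Field F] [NumberField F] [Field F'] [NumberField F'] [Algebra F F']

private theorem pla_int {K Ω : Type} [Field K] [Field Ω] [Algebra K Ω] (L : Ld K Ω) {y : Ω}
    (hy : IsIntegral ℤ y) : L.nm y ≤ 1 := by
  have h1 : IsIntegral L.V y := hy.tower_top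
  obtain ⟨z, hz⟩ := IsIntegrallyClosed.isIntegral_iff.1 h1
  rw [← hz]
  exact L.mem_V.1 z.2

/-- the numbers of absolute value less than `1` -/
private noncomputable def plaI {K Ω : Type} [Field K] [Field Ω] [Algebra K Ω] (L : Ld K Ω)
    (s : F' →+* Ω) : Ideal (𝓞 F') where
  carrier := {a | L.nm (s (algebraMap (𝓞 F') F' a)) < 1}
  add_mem' {a b} ha hb := by
    simp only [Set.mem_ofPred_eq] at ha hb ⊢
    rw [map_add, map_add]
    exact (L.add _ _).trans_lt (max_lt ha hb)
  zero_mem' := by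
    simp only [Set.mem_ofPred_eq]
    rw [map_zero, map_zero, L.zero]
    exact one_pos
  smul_mem' c {a} ha := by
    simp only [Set.mem_ofPred_eq] at ha ⊢
    rw [smul_eq_mul, map_mul, map_mul, L.mul]
    exact mul_lt_one_of_nonneg_of_lt_one_right
      (pla_int L (map_isIntegral_int s (RingOfIntegers.isIntegral_coe c))) (L.nonneg _) ha

omit [NumberField F'] in
private theorem mem_plaI {K Ω : Type} [Field K] [Field Ω] [Algebra K Ω] {L : Ld K Ω}
    {s : F' →+* Ω} {a : 𝓞 F'} : a ∈ plaI L s ↔ L.nm (s (algebraMap (𝓞 F') F' a)) < 1 := Iff.rfl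

/-- Proof: `x ↦ nm (σ x)` is a multiplicative ultrametric absolute value on `F'` which is nontrivial (`nm p < 1`) and `≤ 1` on `𝓞 F'` (integral over `ℤ`). Let `w` be the prime ideal of the `x` in `𝓞 F'` with `nm (σ x) < 1` (`≠ 0`, it contains `p`). If `w.valuation x = 1` then `x = a / b` with `a`, `b` in `𝓞 F'` outside `w`
(localization at `w`), so `nm (σ x) = 1`. Let `π` be a uniformizer (`w.valuation_exists_uniformizer`) and `c' = nm (σ π)`, `0 < c' < 1`: if `w.valuation x = exp (- n)`, then `x π ^ (- n)` is a unit at `w`, so `nm (σ x) = c' ^ n`.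
The values of `M = K (σ F')`, `K = F_v`: the elements of `M` are the sums of products `k σ (y)` with `k` in `K`, `y` in `F'` (the subalgebra generated by `σ F'` is the field `M` because `σ F'` is algebraic over `K`), so by `hd` each `x ≠ 0` in `M` is approximated by some `σ (y)` with `nm (x - σ y) < nm x`: `nm x = nm (σ y) = c' ^ n`. -/
theorem exists_pla (v : HeightOneSpectrum (𝓞 F)) (L : Ld (FK F v) (AlgebraicClosure (FK F v)))
    (hd : ∀ (x : FK F v) (ε : ℝ), 0 < ε →
      ∃ y : F, L.nm (algebraMap _ _ x - algebraMap F _ y) < ε)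
    (σ : F' →ₐ[F] AlgebraicClosure (FK F v)) :
    ∃ (w : HeightOneSpectrum (𝓞 F')) (c' : ℝ), 0 < c' ∧ c' < 1 ∧
      (∀ (x : F') (n : ℤ), w.valuation F' x = WithZero.exp (-n) → L.nm (σ x) = c' ^ n) ∧
      ∀ x ∈ IntermediateField.adjoin (FK F v) (Set.range σ), x ≠ 0 → ∃ n : ℤ, L.nm x = c' ^ n := by
  have hle : ∀ a : 𝓞 F', L.nm (σ (algebraMap (𝓞 F') F' a)) ≤ 1 := fun a =>
    pla_int L (map_isIntegral_int σ (RingOfIntegers.isIntegral_coe a))
  have hprime : (plaI L (σ : F' →+* AlgebraicClosure (FK F v))).IsPrime := by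
    refine Ideal.isPrime_iff.2 ⟨?_, ?_⟩
    · intro h
      have h1 : (1 : 𝓞 F') ∈ plaI L (σ : F' →+* AlgebraicClosure (FK F v)) := by
        rw [h]
        exact Submodule.mem_top
      rw [mem_plaI, map_one, map_one, L.one] at h1
      exact lt_irrefl _ h1
    · intro a b hab
      rw [mem_plaI] at hab ⊢
      rw [mem_plaI]
      by_contra hcon
      push Not at hcon
      rw [map_mul, map_mul, L.mul] at hab
      exact absurd hab (not_lt.2 (one_le_mul_of_one_le_of_one_le hcon.1 hcon.2))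
  have hbot : plaI L (σ : F' →+* AlgebraicClosure (FK F v)) ≠ ⊥ := by
    intro h
    have h1 : (L.p : 𝓞 F') ∈ plaI L (σ : F' →+* AlgebraicClosure (FK F v)) := by
      rw [mem_plaI, map_natCast, map_natCast]
      exact L.lt
    rw [h, Ideal.mem_bot] at h1
    exact L.pp.ne_zero (by exact_mod_cast h1)
  let w : HeightOneSpectrum (𝓞 F') := ⟨plaI L (σ : F' →+* AlgebraicClosure (FK F v)), hprime, hbot⟩
  have hw : ∀ a : 𝓞 F', a ∈ w.asIdeal ↔ L.nm (σ (algebraMap (𝓞 F') F' a)) < 1 := fun a => Iff.rfl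
  have hw1 : ∀ a : 𝓞 F', a ∉ w.asIdeal → L.nm (σ (algebraMap (𝓞 F') F' a)) = 1 := fun a ha =>
    le_antisymm (hle a) (not_lt.1 fun h => ha ((hw a).2 h))
  have hunit : ∀ x : F', w.valuation F' x = 1 → L.nm (σ x) = 1 := by
    intro x hx
    obtain ⟨n, d, hnd⟩ := w.exists_primeCompl_mul_eq_of_integer x hx.le
    have h1 : L.nm (σ (algebraMap (𝓞 F') F' d)) = 1 := hw1 _ d.2
    have h2 : w.valuation F' (algebraMap (𝓞 F') F' n) = 1 := by
      rw [← hnd, map_mul, hx, one_mul]
      exact w.valuation_eq_one_iff_notMem.2 d.2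
    have h3 : L.nm (σ (algebraMap (𝓞 F') F' n)) = 1 :=
      hw1 _ (w.valuation_eq_one_iff_notMem.1 h2)
    rw [← hnd, map_mul, L.mul, h1, mul_one] at h3
    exact h3
  obtain ⟨π, hπ0⟩ := w.valuation_exists_uniformizer' F'
  have hπ : w.valuation F' (algebraMap (𝓞 F') F' π) = WithZero.exp (-1 : ℤ) := hπ0
  have hc0 : 0 < L.nm (σ (algebraMap (𝓞 F') F' π)) := by
    refine L.pos fun h => ?_
    have h1 : (algebraMap (𝓞 F') F' π) = 0 := (map_eq_zero σ).1 h
    have h2 := hπ
    rw [h1, map_zero] at h2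
    exact WithZero.exp_ne_zero h2.symm
  have hc1 : L.nm (σ (algebraMap (𝓞 F') F' π)) < 1 := by
    refine (hw π).1 ?_
    rw [← HeightOneSpectrum.valuation_lt_one_iff_mem (K := F'), hπ]
    rw [← WithZero.exp_zero]
    exact WithZero.exp_lt_exp.2 (by norm_num)
  have hval : ∀ (x : F') (n : ℤ), w.valuation F' x = WithZero.exp (-n) →
      L.nm (σ x) = L.nm (σ (algebraMap (𝓞 F') F' π)) ^ n := by
    intro x n hx
    have h1 : w.valuation F' (x * (algebraMap (𝓞 F') F' π) ^ (-n)) = 1 := by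
      rw [map_mul, map_zpow₀, hx, hπ, ← WithZero.exp_zsmul, ← WithZero.exp_add]
      rw [show -n + -n • (-1 : ℤ) = 0 by simp, WithZero.exp_zero]
    have h2 := hunit _ h1
    rw [map_mul, map_zpow₀, L.mul, L.zpow, zpow_neg] at h2
    exact (mul_inv_eq_one₀ (zpow_ne_zero _ hc0.ne')).1 h2
  refine ⟨w, L.nm (σ (algebraMap (𝓞 F') F' π)), hc0, hc1, hval, ?_⟩
  have happ : ∀ x ∈ IntermediateField.adjoin (FK F v) (Set.range σ), ∀ ε : ℝ, 0 < ε →
      ∃ y : F', L.nm (x - σ y) < ε := by
    intro x hx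
    have hal : Algebra.IsAlgebraic (FK F v) (AlgebraicClosure (FK F v)) :=
      AlgebraicClosure.isAlgebraic _
    have hx' : x ∈ Algebra.adjoin (FK F v) (Set.range σ) := by
      rw [← IntermediateField.adjoin_toSubalgebra]
      exact hx
    refine Algebra.adjoin_induction (p := fun x _ => ∀ ε : ℝ, 0 < ε → ∃ y : F', L.nm (x - σ y) < ε)
      ?_ ?_ ?_ ?_ hx'
    · rintro _ ⟨y, rfl⟩ ε hε
      exact ⟨y, by rw [sub_self, L.zero]; exact hε⟩
    · intro r ε hε
      obtain ⟨y, hy⟩ := hd r ε hε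
      exact ⟨algebraMap F F' y, by rw [σ.commutes]; exact hy⟩
    · intro a b _ _ ha hb ε hε
      obtain ⟨y, hy⟩ := ha ε hε
      obtain ⟨z, hz⟩ := hb ε hε
      refine ⟨y + z, ?_⟩
      rw [map_add, show a + b - (σ y + σ z) = (a - σ y) + (b - σ z) by ring]
      exact (L.add _ _).trans_lt (max_lt hy hz)
    · intro a b _ _ ha hb ε hε
      have ha1 : 0 < L.nm a + 1 := by
        have := L.nonneg a
        linarith
      obtain ⟨z, hz⟩ := hb (ε / (L.nm a + 1)) (div_pos hε ha1)
      have hz1 : 0 < L.nm (σ z) + 1 := by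
        have := L.nonneg (σ z)
        linarith
      obtain ⟨y, hy⟩ := ha (ε / (L.nm (σ z) + 1)) (div_pos hε hz1)
      refine ⟨y * z, ?_⟩
      rw [map_mul, show a * b - σ y * σ z = a * (b - σ z) + (a - σ y) * σ z by ring]
      refine (L.add _ _).trans_lt (max_lt ?_ ?_)
      · rw [L.mul]
        rw [lt_div_iff₀ ha1] at hz
        have h1 := L.nonneg a
        have h2 := L.nonneg (b - σ z)
        nlinarith
      · rw [L.mul]
        rw [lt_div_iff₀ hz1] at hy
        have h1 := L.nonneg (σ z)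
        have h2 := L.nonneg (a - σ y)
        nlinarith
  intro x hx hx0
  obtain ⟨y, hy⟩ := happ x hx (L.nm x) (L.pos hx0)
  have h1 : L.nm (σ y) = L.nm x := L.eq_of_close (by rw [L.sub_comm]; exact hy)
  have hy0 : y ≠ 0 := by
    rintro rfl
    rw [map_zero, L.zero] at h1
    exact (L.pos hx0).ne h1
  have h2 : w.valuation F' y ≠ 0 := (Valuation.ne_zero_iff _).2 hy0
  refine ⟨-WithZero.log (w.valuation F' y), ?_⟩
  rw [← h1]
  apply hval
  rw [neg_neg, WithZero.exp_log h2]

end DN
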