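import Pool.Agent.Lib.MP_f80667_ag.Do.Glo
import Pool.Agent.Lib.MP_f80667_ag.Sp.Fin

/-! Varieties dominated by products of elliptic curves: the theorem. -/

open ZC BE PE IsDedekindDomain NumberField CV NE

namespace DN

variable {F F' : Type} [Field F] [NumberField F] [Field F'] [NumberField F'] [Algebra F F']
  {N n d : ℕ} {ι : Type} {f : ι → MvPolynomial (Fin N) F} {W : Fin n → WeierstrassCurve F'}
  [∀ i, (W i).IsElliptic] {Φ : Fin N → MvPolynomial (Fin n ⊕ Fin n) F'}
  {h : MvPolynomial (Fin N) F} {D : ℕ}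

/-- The prime numbers of the theorem. -/
def Pr (F : Type) {F' : Type} [Field F] [NumberField F] [Field F'] [NumberField F'] [Algebra F F']
    {n : ℕ} (W : Fin n → WeierstrassCurve F') [∀ i, (W i).IsElliptic] (D : ℕ) : Set ℕ :=
  {l | Plc W l ∧ ¬ l ∣ D * Module.finrank F F'}

/-- All prime numbers except finitely many. Proof: `plc_fin` (`Sp/Fin.lean`), the prime divisors of `D [F' : F] ≠ 0`. -/
theorem pr_fin (hD : D ≠ 0) : ∃ l₀ : ℕ, ∀ l : ℕ, l.Prime → l₀ < l → l ∈ Pr F W D := by
  obtain ⟨b, hb⟩ := (plc_fin W).bddAbove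
  have h0 : Module.Finite F F' := Module.Finite.of_restrictScalars_finite ℚ F F'
  have h1 : 0 < D * Module.finrank F F' :=
    Nat.mul_pos (Nat.pos_of_ne_zero hD) Module.finrank_pos
  refine ⟨b + D * Module.finrank F F', fun l hl hlt => ⟨?_, fun h2 => ?_⟩⟩
  · by_contra h2
    have := hb ⟨hl, h2⟩
    omega
  · have := Nat.le_of_dvd h1 h2
    omega

/-- The degree is not `0`. If `D = 0` is allowed, then `Pr F W 0` is empty. -/
theorem pr_zero : Pr F W 0 = ∅ := by
  ext l
  refine ⟨fun h => ?_, fun h => absurd h (Set.notMem_empty l)⟩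
  exact absurd (by rw [zero_mul]; exact dvd_zero l) h.2

end DN
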