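import Pool.Agent.Lib.MP_f80667_ag.Ep.Ge
import Pool.Agent.Lib.MP_f80667_ag.Ep.Ax4
import Pool.Agent.Lib.MP_f80667_ag.To.Pb

/-! The torsion of a group variety over a local field: the orders of the points of order a power of `l` are bounded. -/

open ZC BE PE CV IntermediateField MvPolynomial GX

namespace DN

section idm

variable {F : Type} [Field F] {N' k' : ℕ} {ι' : Type} (A : Gv F N' k' ι')

/-- The identity. -/
noncomputable def idM : Mf A.a A 1 where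
  Φ _ j := X j
  φ _ _ _ P := P

theorem idM_pv {E : Type} [CommRing E] [Algebra F E] (i : Fin 1) (x : Fin N' → E) :
    (idM A).pv i x = x := by
  funext j
  change aeval x (X j : MvPolynomial (Fin N') F) = x j
  rw [aeval_X]

theorem idM_ok : (idM A).Ok where
  ne E _ _ P x hx := ⟨0, by
    rw [idM_pv]
    exact co_ne hx⟩
  co E _ _ P x i hx _ := by
    rw [idM_pv]
    exact hx

end idm

variable {F : Type} [Field F] {N' k' : ℕ} {ι' : Type} {A : Gv F N' k' ι'}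
  {K Ω : Type} [Field K] [Field Ω] [Algebra K Ω] [Algebra F Ω]

/-- The difference of near points is near `0`. -/
theorem near_sub [IsAlgClosed Ω] (L : Ld K Ω) (hA : A.Ok) :
    letI := A.G.grp Ω
    ∃ C : ℝ, 1 ≤ C ∧ ∀ t : ℝ, 0 ≤ t → C * t ≤ 1 → ∀ P P' : (Xf A.a).pt Ω, Nrh A.a L t P P' →
      ∃ z, Nc L A (C * t) (P' - P) z := by
  let _ : AddCommGroup ((Xf A.a).pt Ω) := A.G.grp Ω
  change ∃ C : ℝ, 1 ≤ C ∧ ∀ t : ℝ, 0 ≤ t → C * t ≤ 1 → ∀ P P' : (Xf A.a).pt Ω,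
    Nrh A.a L t P P' → ∃ z, Nc L A (C * t) (P' - P) z
  obtain ⟨κ, hκ, h1⟩ := exists_den (M := idM A) L hA (idM_ok A) le_rfl one_pos
  obtain ⟨C, hC⟩ := exists_mcc (M := idM A) L hA (idM_ok A) le_rfl hκ
  refine ⟨C, hC.one, fun t ht hCt P P' hP => ?_⟩
  obtain ⟨x, x', hx, hx', hi, hi', ho, -, hxx⟩ := hP
  obtain ⟨j, hj⟩ := h1 P x hx hi (ho.imp fun i h => h.ge)
  have hc0 : aeval x ((idM A).om.c j) ≠ 0 := L.ne_zero (hκ.trans_le hj)
  obtain ⟨z, hz, -⟩ := hC.sub t ht hCt P P' x x' (fun n => x' n - x n) j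
    (fun l => (aeval x ((idM A).om.c j))⁻¹ * ∑ n, aeval x ((idM A).om.q j l n) * (x' n - x n))
    (P' - P) hx hx' hi hi' (fun n => by rw [L.sub_comm]; exact hxx n)
    (fun n => by
      rw [sub_self, L.zero]
      exact mul_nonneg ht ht) hj
    (fun l => by rw [mul_inv_cancel_left₀ hc0]) (sub_add_cancel P' P)
  exact ⟨z, hz⟩

/-- **There is no torsion near `0`** of order a power of `l`. -/
theorem near_tor (L : Ld K Ω) (hA : A.Ok) {l : ℕ} (hl : (l : Ω) ≠ 0) :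
    letI := A.G.grp Ω
    ∃ t₁ : ℝ, 0 < t₁ ∧ ∀ (R : (Xf A.a).pt Ω) (z : Fin N' → Ω), Nc L A t₁ R z →
      ∀ j : ℕ, l ^ j • R = 0 → R = 0 := by
  let _ : AddCommGroup ((Xf A.a).pt Ω) := A.G.grp Ω
  change ∃ t₁ : ℝ, 0 < t₁ ∧ ∀ (R : (Xf A.a).pt Ω) (z : Fin N' → Ω), Nc L A t₁ R z →
      ∀ j : ℕ, l ^ j • R = 0 → R = 0
  obtain ⟨t₀, ht₀, h0⟩ : ∃ t₀ : ℝ, 0 < t₀ ∧ ∀ (R : (Xf A.a).pt Ω) (z : Fin N' → Ω),
      Nc L A t₀ R z → (l : ℤ) • R = 0 → R = 0 := exists_tor L hA (q := (l : ℤ)) (by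
    rw [Int.cast_natCast]
    exact hl)
  obtain ⟨C, hC⟩ := exists_gcc L hA
  have hC0 : 0 < C := zero_lt_one.trans_le hC.one
  obtain ⟨t₁, ht1, ht10, hCt⟩ : ∃ t₁ : ℝ, 0 < t₁ ∧ t₁ ≤ t₀ ∧ C * t₁ ≤ 1 := by
    refine ⟨min t₀ (1 / C), lt_min ht₀ (div_pos one_pos hC0), min_le_left _ _, ?_⟩
    have h3 := mul_le_mul_of_nonneg_left (min_le_right t₀ (1 / C)) hC0.le
    rwa [mul_one_div_cancel hC0.ne'] at h3
  have hG : Gct L A C t₁ (C * (t₁ * t₁)) := ⟨hC, ht1.le, hCt, le_rfl⟩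
  refine ⟨t₁, ht1, fun R z hz j => ?_⟩
  induction j with
  | zero =>
    intro h
    rwa [pow_zero, one_smul] at h
  | succ j ih =>
    intro h
    refine ih ?_
    have h3 : Ltc L A t₁ (C * (t₁ * t₁)) R fun j => z j - algebraMap F Ω (A.o j) :=
      ⟨z, hz, fun j => by
        rw [sub_self, L.zero]
        exact hG.D0⟩
    obtain ⟨z', hz', -⟩ : Ltc L A t₁ (C * (t₁ * t₁)) (((l ^ j : ℕ) : ℤ) • R)
        (((l ^ j : ℕ) : ℤ) • fun j => z j - algebraMap F Ω (A.o j)) :=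
      ltc_zsmul hA hG h3 _
    rw [natCast_zsmul] at hz'
    refine h0 _ z' ⟨hz'.1, hz'.2.1, fun i => (hz'.2.2 i).trans ht10⟩ ?_
    rw [natCast_zsmul, smul_smul, ← pow_succ']
    exact h

/-- **The torsion is bounded.** -/
theorem bdd_tor [CharZero K] [Algebra F K] [IsScalarTower F K Ω] [IsAlgClosure K Ω]
    (L : Ld K Ω) (hA : A.Ok) {l : ℕ} (hl : l.Prime) :
    letI := A.G.grp Ω
    ∃ e : ℕ, ∀ R : (Xf A.a).pt Ω, (∀ γ : Ω ≃ₐ[K] Ω, (Xf A.a).act γ R = R) →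
      ∀ j : ℕ, l ^ j • R = 0 → l ^ e • R = 0 := by
  classical
  let _ : AddCommGroup ((Xf A.a).pt Ω) := A.G.grp Ω
  change ∃ e : ℕ, ∀ R : (Xf A.a).pt Ω, (∀ γ : Ω ≃ₐ[K] Ω, (Xf A.a).act γ R = R) →
      ∀ j : ℕ, l ^ j • R = 0 → l ^ e • R = 0
  have hO : IsAlgClosed Ω := IsAlgClosure.isAlgClosed K
  have hcz : CharZero Ω := charZero_of_injective_algebraMap (algebraMap K Ω).injective
  have hlΩ : (l : Ω) ≠ 0 := Nat.cast_ne_zero.2 hl.ne_zero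
  obtain ⟨t₁, ht1, h1⟩ : ∃ t₁ : ℝ, 0 < t₁ ∧ ∀ (R : (Xf A.a).pt Ω) (z : Fin N' → Ω),
      Nc L A t₁ R z → ∀ j : ℕ, l ^ j • R = 0 → R = 0 := near_tor L hA hlΩ
  obtain ⟨C, hC1, hC⟩ : ∃ C : ℝ, 1 ≤ C ∧ ∀ t : ℝ, 0 ≤ t → C * t ≤ 1 →
      ∀ P P' : (Xf A.a).pt Ω, Nrh A.a L t P P' → ∃ z, Nc L A (C * t) (P' - P) z :=
    near_sub L hA
  have hC0 : 0 < C := zero_lt_one.trans_le hC1
  obtain ⟨t, ht, ht', hCt, hCt1⟩ : ∃ t : ℝ, 0 < t ∧ t < 1 ∧ C * t ≤ 1 ∧ C * t ≤ t₁ := by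
    refine ⟨min (1 / (2 * C)) (t₁ / C), lt_min (div_pos one_pos (mul_pos two_pos hC0))
      (div_pos ht1 hC0), ?_, ?_, ?_⟩
    · refine (min_le_left _ _).trans_lt ?_
      rw [div_lt_one (mul_pos two_pos hC0)]
      linarith
    · have h3 := mul_le_mul_of_nonneg_left (min_le_left (1 / (2 * C)) (t₁ / C)) hC0.le
      have h4 : C * (1 / (2 * C)) = 1 / 2 := by
        field_simp
      rw [h4] at h3
      linarith
    · have h3 := mul_le_mul_of_nonneg_left (min_le_right (1 / (2 * C)) (t₁ / C)) hC0.le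
      rwa [mul_div_cancel₀ _ hC0.ne'] at h3
  obtain ⟨E, hE⟩ := fin_cls' (f := A.a) L hA.hm ht 1
  obtain ⟨-, hsy, htr, -⟩ := nrh_eqv (f := A.a) (L := L) hA.hm ht.le ht'
  refine ⟨E.card, fun R hR j hj => ?_⟩
  have hmul : ∀ n : ℕ, ∀ γ : Ω ≃ₐ[K] Ω, (Xf A.a).act γ (n • R) = n • R := by
    intro n γ
    have hadd : ∀ x y : (Xf A.a).pt Ω, (Xf A.a).act γ (x + y) =
        (Xf A.a).act γ x + (Xf A.a).act γ y := fun x y =>
      A.G.map_add Ω Ω (γ.restrictScalars F : Ω →ₐ[F] Ω) x y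
    have h2 := map_nsmul (AddMonoidHom.mk' ((Xf A.a).act γ) hadd) n R
    change (Xf A.a).act γ (n • R) = n • (Xf A.a).act γ R at h2
    rw [h2, hR γ]
  have hcl : ∀ n : ℕ, ∃ Q ∈ E, Nrh A.a L t (n • R) Q := by
    intro n
    refine hE ⊥ (n • R) inferInstance ?_ fun γ _ => hmul n γ
    rw [IntermediateField.finrank_bot]
  choose q hqE hq using hcl
  obtain ⟨a, ha, b, hb, hab, hqab⟩ := Finset.exists_ne_map_eq_of_card_lt_of_maps_to
    (s := Finset.range (E.card + 1)) (t := E) (by rw [Finset.card_range]; exact Nat.lt_succ_self _)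
    (f := q) (fun n _ => hqE n)
  obtain ⟨g, hg0, hgE, hg⟩ : ∃ g : ℕ, 0 < g ∧ g ≤ E.card ∧ g • R = 0 := by
    have key : ∀ a b : ℕ, a < b → b < E.card + 1 → q a = q b → ∃ g : ℕ, 0 < g ∧ g ≤ E.card ∧
        g • R = 0 := by
      intro a b hlt hb hqab
      refine ⟨b - a, Nat.sub_pos_of_lt hlt, by omega, ?_⟩
      have h3 : Nrh A.a L t (a • R) (b • R) := by
        refine htr _ _ _ (hq a) ?_
        rw [hqab]
        exact hsy _ _ (hq b)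
      obtain ⟨z, hz⟩ := hC t ht.le hCt _ _ h3
      have e : b • R - a • R = (b - a) • R := by
        rw [sub_eq_iff_eq_add, ← add_smul, Nat.sub_add_cancel hlt.le]
      rw [e] at hz
      refine h1 _ z ⟨hz.1, hz.2.1, fun i => (hz.2.2 i).trans hCt1⟩ j ?_
      rw [smul_comm, hj, smul_zero]
    rcases lt_or_gt_of_ne hab with h | h
    · exact key a b h (Finset.mem_range.1 hb) hqab
    · exact key b a h (Finset.mem_range.1 ha) hqab.symm
  have h3 : addOrderOf R ∣ l ^ j := addOrderOf_dvd_of_nsmul_eq_zero hj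
  obtain ⟨i, -, hi⟩ := (Nat.dvd_prime_pow hl).1 h3
  have h4 : addOrderOf R ≤ E.card :=
    (Nat.le_of_dvd hg0 (addOrderOf_dvd_of_nsmul_eq_zero hg)).trans hgE
  have h5 : i ≤ E.card := by
    rw [hi] at h4
    exact (Nat.lt_pow_self hl.one_lt).le.trans h4
  rw [← addOrderOf_dvd_iff_nsmul_eq_zero, hi]
  exact pow_dvd_pow l h5

end DN
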