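import Pool.Agent.Lib.MP_f80667_ag.Do.LocM
import Pool.Agent.Lib.MP_f80667_ag.Do.TorA
import Pool.Agent.Lib.MP_f80667_ag.Do.Fd
import Pool.Agent.Lib.MP_f80667_ag.Gq.B

/-! Varieties dominated by products of elliptic curves over number fields, with a morphism to a group variety. -/

open ZC BE PE Polynomial IntermediateField IsDedekindDomain NumberField CV NE

namespace DN

/-- The powers. -/
theorem dvG_pow {F : Type} [Field F] {ι : Type} {V : ι → Vr F} {K Ω : Type} [Field K]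
    [Algebra F K] [Field Ω] [Algebra K Ω] [Algebra F Ω] [IsScalarTower F K Ω] {l : ℕ}
    (h : DvG V K Ω l) (j : ℕ) : DvG V K Ω (l ^ j) := by
  induction j with
  | zero =>
    intro z hz hs
    refine ⟨z, hz, hs, ?_⟩
    rw [pow_zero, one_smul, sub_self]
    exact zero_mem _
  | succ j ih =>
    intro z hz hs
    obtain ⟨z', hz', hs', hr⟩ := h z hz hs
    obtain ⟨z'', hz'', hs'', hr'⟩ := ih z' hz' hs'
    refine ⟨z'', hz'', hs'', ?_⟩
    have h1 := add_mem hr (nsmul_mem hr' l)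
    have e : z - l • z' + l • (z' - l ^ j • z'') = z - l ^ (j + 1) • z'' := by
      rw [smul_sub, smul_smul, pow_succ']
      abel
    rwa [e] at h1

variable {F F' : Type} [Field F] [NumberField F] [Field F'] [NumberField F'] [Algebra F F']
  {N N' n d k k' : ℕ} {ι ι' : Type} {f : ι → MvPolynomial (Fin N) F} {A : GX.Gv F N' k' ι'}
  {M : GX.Mf f A k} {W : Fin n → WeierstrassCurve F'} [∀ i, (W i).IsElliptic]
  {Φ : Fin N → MvPolynomial (Fin n ⊕ Fin n) F'} {h : MvPolynomial (Fin N) F} {D : ℕ}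

/-- **One place.** -/
theorem dw_v (hf : GX.Nsg f d) (hA : A.Ok) (hM : M.Ok) (hD : Dom f W Φ h D) (hP : Plb W Φ h M)
    {l : ℕ} (hl : Plc W l) (h1 : ¬ l ∣ D) (h2 : ¬ l ∣ Module.finrank F F')
    (v : HeightOneSpectrum (𝓞 F)) (j : ℕ) :
    Dw M (FK F v) (AlgebraicClosure (FK F v)) (l ^ j) := by
  have hc : CharZero (FK F v) := charZero_of_injective_algebraMap (algebraMap F (FK F v)).injective
  obtain ⟨L, c, hc0, hc1, hL, hv, hd⟩ := exists_ldD v
  have hfin : FiniteDimensional F F' := FiniteDimensional.right ℚ F F'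
  obtain ⟨σ, hMf, hMc⟩ := exists_emb (F := F) (F' := F') (K := FK F v)
    (Ω := AlgebraicClosure (FK F v)) hl.pr h2
  obtain ⟨w, c', h0', h1', hw, hM'⟩ := exists_pla v L hd σ
  obtain ⟨E, hEe⟩ : ∃ E : IntermediateField (FK F v) (AlgebraicClosure (FK F v)),
      E = IntermediateField.adjoin (FK F v) (Set.range σ) := ⟨_, rfl⟩
  rw [← hEe] at hMf hMc hM'
  have hσM : ∀ x, σ x ∈ E := fun x => by
    rw [hEe]
    exact subset_adjoin _ _ ⟨x, rfl⟩
  let iΩ : Algebra F' (AlgebraicClosure (FK F v)) :=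
    (σ : F' →+* AlgebraicClosure (FK F v)).toAlgebra
  let iM : Algebra F' E :=
    ((σ : F' →+* AlgebraicClosure (FK F v)).codRestrict E hσM).toAlgebra
  have t1 : IsScalarTower F' E (AlgebraicClosure (FK F v)) :=
    IsScalarTower.of_algebraMap_eq fun _ => rfl
  have t2 : IsScalarTower F E (AlgebraicClosure (FK F v)) :=
    IsScalarTower.of_algebraMap_eq fun _ => rfl
  have t3 : IsScalarTower F F' (AlgebraicClosure (FK F v)) :=
    IsScalarTower.of_algebraMap_eq fun x => (σ.commutes x).symm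
  have t4 : IsScalarTower F F' E :=
    IsScalarTower.of_algebraMap_eq fun x => Subtype.ext (σ.commutes x).symm
  have hcl : IsAlgClosed (AlgebraicClosure (FK F v)) := inferInstance
  have hal : Algebra.IsAlgebraic (FK F v) (AlgebraicClosure (FK F v)) :=
    AlgebraicClosure.isAlgebraic _
  have hac : IsAlgClosure E (AlgebraicClosure (FK F v)) :=
    ⟨hcl, Algebra.IsAlgebraic.tower_top (K := FK F v) E⟩
  have hdv : DvG (fun i => Ev (W i)) E (AlgebraicClosure (FK F v)) l :=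
    dvG_plc hl (GX.xt L E) w h0' h1' (fun x n hx => hw x n hx) fun x hx =>
      hM' x x.2 fun h0 => hx (Subtype.ext h0)
  have hinf : ∀ i, Infinite (Pt (W i) E) := fun i => inf_pt (GX.xt L E) (W i)
  have hDm : Dw M E (AlgebraicClosure (FK F v)) (l ^ j) :=
    dw_X hf hA hM hD hP (pow_ne_zero j hl.pr.ne_zero)
      (((Nat.Prime.coprime_iff_not_dvd hl.pr).2 h1).pow_left j) (dvG_pow hdv j)
  exact dw_tr E (hMc.pow_right j) hDm

/-- **One place**: the kernel of the sum is divisible by `l`. Proof: `bdd_tor` gives `e`; `z = l ^ (e + 1) z'` modulo `ratEq` (`dw_v`); the sum of `z'` is a point of order a power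
of `l` over `F_v` (`mfS_act`, `RS.rs`), so `l ^ e z'` has the sum `0`. -/
theorem dvS_v (hf : GX.Nsg f d) (hA : A.Ok) (hM : M.Ok) (hD : Dom f W Φ h D) (hP : Plb W Φ h M)
    {l : ℕ} (hl : Plc W l) (h1 : ¬ l ∣ D) (h2 : ¬ l ∣ Module.finrank F F')
    (v : HeightOneSpectrum (𝓞 F)) : GX.DvS M (FK F v) l := by
  have hc : CharZero (FK F v) := charZero_of_injective_algebraMap (algebraMap F (FK F v)).injective
  obtain ⟨L, -⟩ := exists_ldD v
  let _ : AddCommGroup ((GX.Xf A.a).pt (AlgebraicClosure (FK F v))) := A.G.grp _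
  obtain ⟨e, he⟩ : ∃ e : ℕ, ∀ R : (GX.Xf A.a).pt (AlgebraicClosure (FK F v)),
      (∀ γ : AlgebraicClosure (FK F v) ≃ₐ[FK F v] AlgebraicClosure (FK F v),
        (GX.Xf A.a).act γ R = R) → ∀ j : ℕ, l ^ j • R = 0 → l ^ e • R = 0 :=
    bdd_tor L hA hl.pr
  intro z hz
  have hz0 : M.S (AlgebraicClosure (FK F v)) z.cy = 0 := hz
  obtain ⟨z', hz', hr⟩ := dw_v hf hA hM hD hP hl h1 h2 v (e + 1) z.1 z.2 hz
  have hs1 : M.S (AlgebraicClosure (FK F v)) (z.cy - l ^ (e + 1) • z') = 0 :=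
    RS.rs (K := FK F v) hf.hom hA hM hr
  have hs2 : l ^ (e + 1) • M.S (AlgebraicClosure (FK F v)) z' = 0 := by
    rw [map_sub, hz0, zero_sub, neg_eq_zero, map_nsmul] at hs1
    exact hs1
  have hs3 : l ^ e • M.S (AlgebraicClosure (FK F v)) z' = 0 := by
    refine he _ (fun γ => ?_) (e + 1) hs2
    have h3 := GX.mfS_act hM γ z'
    rw [← h3]
    congr 1
    exact hz'.1 γ
  refine ⟨⟨l ^ e • z', nsmul_mem hz' _⟩, ?_, ?_⟩
  · change M.S (AlgebraicClosure (FK F v)) (l ^ e • z') = 0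
    rw [map_nsmul]
    exact hs3
  · refine GX.cl_of ?_
    change z.cy - l • (l ^ e • z') ∈ _
    rw [smul_smul, ← pow_succ']
    exact hr

/-- **The theorem**, with a morphism to a group variety. -/
theorem alb_X (hf : GX.Nsg f d) (hA : A.Ok) (hM : M.Ok) (hD : Dom f W Φ h D)
    (hP : Plb W Φ h M) :
    (∀ l ∈ Pr F W D, ∀ v : HeightOneSpectrum (𝓞 F), GX.DvS M (FK F v) l) ∧
      (∀ m : ℕ, m ≠ 0 → Sf (Pr F W D) m → ∀ c : Fam (GX.Xf f), GX.AlbX M c →
        ∃ c' : Fam (GX.Xf f), GX.AlbX M c' ∧ c.cl = m • c'.cl) ∧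
      ∀ z : LHat (FA (GX.Xf f)), ImDeS (Pr F W D) z ↔ GX.SumX M (Pr F W D) z := by
  have h2 : 2 ∉ Pr F W D := fun h => h.1.odd rfl
  have key : ∀ l ∈ Pr F W D, ∀ v : HeightOneSpectrum (𝓞 F), GX.DvS M (FK F v) l :=
    fun l hl v => dvS_v hf hA hM hD hP hl.1 (fun h => hl.2 (h.mul_right _))
      (fun h => hl.2 (h.mul_left _)) v
  exact ⟨key, GX.famX_dv h2 fun l hl _ => key l hl, GX.imX_sum h2 fun l hl _ => key l hl⟩

end DN
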