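import Pool.Agent.Lib.MP_f80667_ag.Cv.Tc
import Pool.Agent.Lib.MP_f80667_ag.Pe.Pv
import Pool.Agent.Lib.MP_f80667_ag.Do.Fv

/-! Divisors of functions with control of the values. -/

open ZC BE PE CV NE

namespace DN

section gen

variable {F : Type} [Field F]

/-- `z` is the image of the divisor of a function on a curve, and the values at its zeros and poles are in `T`. -/
def Gn (V : Vr F) (K Ω : Type) [Field K] [Algebra F K] [Field Ω] [Algebra K Ω] [Algebra F Ω]
    (T : Set (V.pt Ω)) (z : V.pt Ω →₀ ℤ) : Prop :=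
  ∃ (E : Type) (_ : Field E) (_ : Algebra K E) (_ : Algebra F E) (_ : IsScalarTower F K E),
    IsFunField K E ∧ ∃ (g : E) (x : V.pt (AlgebraicClosure E)), g ≠ 0 ∧ V.Rat E x ∧
    ∃ (S : Finset (Place K E Ω)) (m : Place K E Ω → ℤ) (y : Place K E Ω → V.pt Ω),
      (∀ w, w ∉ S → g ∈ w.V ∧ g⁻¹ ∈ w.V) ∧
      (∀ w ∈ S, w.IsOrd g (m w) ∧ V.IsVal w x (y w) ∧ y w ∈ T) ∧
      z = ∑ w ∈ S, Finsupp.single (y w) (m w)

variable {V V' : Vr F} {K Ω : Type} [Field K] [Algebra F K] [Field Ω] [Algebra K Ω] [Algebra F Ω]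

theorem gn_mono {T T' : Set (V.pt Ω)} (h : T ⊆ T') {z : V.pt Ω →₀ ℤ} (hz : Gn V K Ω T z) :
    Gn V K Ω T' z := by
  obtain ⟨E, i1, i2, i3, i4, hE, g, x, hg, hx, S, m, y, hS, hv, rfl⟩ := hz
  exact ⟨E, i1, i2, i3, i4, hE, g, x, hg, hx, S, m, y, hS,
    fun w hw => ⟨(hv w hw).1, (hv w hw).2.1, h (hv w hw).2.2⟩, rfl⟩

theorem gn_ratEq {T : Set (V.pt Ω)} {z : V.pt Ω →₀ ℤ} (hz : Gn V K Ω T z) : z ∈ V.ratEq K Ω := by
  obtain ⟨E, i1, i2, i3, i4, hE, g, x, hg, hx, S, m, y, hS, hv, rfl⟩ := hz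
  exact AddSubgroup.subset_closure ⟨E, i1, i2, i3, i4, hE, g, x, hg, hx, S, m, y, hS,
    fun w hw => ⟨(hv w hw).1, (hv w hw).2.1⟩, rfl⟩

/-- Proof: `AddSubgroup.closure_induction`; `T` is the set of the `y w`. -/
theorem ratEq_gn {z : V.pt Ω →₀ ℤ} (hz : z ∈ V.ratEq K Ω) :
    ∃ T : Finset (V.pt Ω), z ∈ AddSubgroup.closure {z | Gn V K Ω (T : Set (V.pt Ω)) z} := by
  classical
  rw [Vr.ratEq] at hz
  induction hz using AddSubgroup.closure_induction with
  | mem z hz =>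
    obtain ⟨E, i1, i2, i3, i4, hE, g, x, hg, hx, S, m, y, hS, hv, rfl⟩ := hz
    exact ⟨S.image y, AddSubgroup.subset_closure ⟨E, i1, i2, i3, i4, hE, g, x, hg, hx, S, m, y, hS,
      fun w hw => ⟨(hv w hw).1, (hv w hw).2,
        Finset.mem_coe.2 (Finset.mem_image_of_mem y hw)⟩, rfl⟩⟩
  | zero => exact ⟨∅, zero_mem _⟩
  | add a b _ _ ha hb =>
    obtain ⟨T, hT⟩ := ha
    obtain ⟨T', hT'⟩ := hb
    refine ⟨T ∪ T', add_mem ?_ ?_⟩
    · refine AddSubgroup.closure_mono (fun u hu => ?_) hT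
      exact gn_mono (Finset.coe_subset.2 Finset.subset_union_left) hu
    · refine AddSubgroup.closure_mono (fun u hu => ?_) hT'
      exact gn_mono (Finset.coe_subset.2 Finset.subset_union_right) hu
  | neg a _ ha =>
    obtain ⟨T, hT⟩ := ha
    exact ⟨T, neg_mem hT⟩

/-- The image under a morphism. Proof: as `Mo.ratEq` (`Cv/Mo.lean`). -/
theorem gn_mo (φ : Mo V V') {T : Set (V.pt Ω)} {z : V.pt Ω →₀ ℤ} (hz : Gn V K Ω T z) :
    Gn V' K Ω (φ.f Ω '' T) (Finsupp.mapDomain (φ.f Ω) z) := by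
  obtain ⟨E, i1, i2, i3, i4, hE, g, x, hg, hx, S, m, y, hS, hv, rfl⟩ := hz
  rw [Finsupp.mapDomain_finsetSum]
  refine ⟨E, i1, i2, i3, i4, hE, g, φ.f _ x, hg, fun σ => ?_, S, m,
    fun w => φ.f Ω (y w), hS, fun w hw => ⟨(hv w hw).1, ?_, ⟨y w, (hv w hw).2.2, rfl⟩⟩, ?_⟩
  · change V'.map _ (φ.f _ x) = φ.f _ x
    rw [φ.nat]
    exact congrArg (φ.f _) (hx σ)
  · obtain ⟨W, h1, h2, h3⟩ := (hv w hw).2.1
    exact ⟨W, h1, h2, φ.red _ _ _ W x (y w) h3⟩
  · refine Finset.sum_congr rfl fun w _ => ?_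
    rw [Finsupp.mapDomain_single]

end gen

section cst

private theorem gr_aff {F : Type} [Field F] {L : Type} [Field L] [Algebra F L]
    {W : WeierstrassCurve F} {x y x' y' : L}
    (h : (W.baseChange L).toAffine.Nonsingular x y)
    (h' : (W.baseChange L).toAffine.Nonsingular x' y') (e1 : x = x') (e2 : y = y') :
    (Pt.aff x y h : Pt W L) = Pt.aff x' y' h' := by
  subst e1 e2
  rfl

/-- The map on points on affine points. -/
private theorem gr_map {F : Type} [Field F] {L : Type} [Field L] [Algebra F L]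
    {W : WeierstrassCurve F} {N : Type} [Field N] [Algebra F N] (σ : L →ₐ[F] N)
    {x y : L} (h : (W.baseChange L).toAffine.Nonsingular x y) :
    ∃ h' : (W.baseChange N).toAffine.Nonsingular (σ x) (σ y),
      Pt.map W σ (Pt.aff x y h) = Pt.aff (σ x) (σ y) h' := by
  classical
  exact ⟨_, rfl⟩

/-- A point over `M` is its own value. -/
private theorem gr_cst {F M Ω : Type} [Field F] [Field M] [Field Ω] [Algebra M Ω] [Algebra F M]
    [Algebra F Ω] [IsScalarTower F M Ω] {W : WeierstrassCurve F} {E : Type} [Field E] [Algebra M E]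
    [Algebra F E] [IsScalarTower F M E] (w : Place M E Ω) (P : Pt W M) :
    Pt.Red W w (Pt.map W (IsScalarTower.toAlgHom F M E) P)
      (Pt.map W (IsScalarTower.toAlgHom F M Ω) P) := by
  classical
  match P with
  | .zero => exact rfl
  | .some x y hxy =>
    obtain ⟨h', e⟩ := gr_map (W := W) (IsScalarTower.toAlgHom F M E) hxy
    obtain ⟨h'', e'⟩ := gr_map (W := W) (IsScalarTower.toAlgHom F M Ω) hxy
    change Pt.Red W w (Pt.map W (IsScalarTower.toAlgHom F M E) (Pt.aff x y hxy))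
      (Pt.map W (IsScalarTower.toAlgHom F M Ω) (Pt.aff x y hxy))
    rw [e, e']
    have e1 : w.res ⟨algebraMap M E x, w.mem x⟩ = algebraMap M Ω x := w.res_k x
    have e2 : w.res ⟨algebraMap M E y, w.mem y⟩ = algebraMap M Ω y := w.res_k y
    have hn : (W.baseChange Ω).toAffine.Nonsingular (w.res ⟨algebraMap M E x, w.mem x⟩)
        (w.res ⟨algebraMap M E y, w.mem y⟩) := by
      rw [e1, e2]
      exact h''
    exact Or.inr ⟨w.mem x, w.mem y, hn, gr_aff _ _ e1.symm e2.symm⟩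

end cst

section prod

variable {F' : Type} [Field F'] {n : ℕ} {W : Fin n → WeierstrassCurve F'} [∀ i, (W i).IsElliptic]
  {K Ω : Type} [Field K] [CharZero K] [Field Ω] [Algebra K Ω] [IsAlgClosed Ω] [Algebra F' K] [Algebra F' Ω]
  [IsScalarTower F' K Ω]

/-- The translation by a point over `K`. Proof: the same field and function, the point `x + b`; the point `b` over `K` is its own value (`pv_cst` in `Pe/Pv.lean`, for the places of the algebraic closure), `red_add'` (`Pe/Plc.lean`). -/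
theorem gn_tr (b : ∀ i, Pt (W i) K) {T : Set (∀ i, Pt (W i) Ω)} {z : (∀ i, Pt (W i) Ω) →₀ ℤ}
    (hz : Gn (Vpi fun i => Ev (W i)) K Ω T z) :
    Gn (Vpi fun i => Ev (W i)) K Ω ((fun Q : ∀ i, Pt (W i) Ω => Q + up Ω b) '' T)
      (Finsupp.mapDomain (fun Q : ∀ i, Pt (W i) Ω => Q + up Ω b) z) := by
  obtain ⟨E, i1, i2, i3, i4, hE, g, x, hg, hx, S, m, y, hS, hv, rfl⟩ := hz
  let x' : ∀ i, Pt (W i) (AlgebraicClosure E) := x
  let y' : Place K E Ω → ∀ i, Pt (W i) Ω := y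
  refine ⟨E, i1, i2, i3, i4, hE, g, fun i => x' i +
    Pt.map (W i) (IsScalarTower.toAlgHom F' K (AlgebraicClosure E)) (b i), hg, fun σ => ?_, S, m,
    fun w => y' w + up Ω b, hS,
    fun w hw => ⟨(hv w hw).1, ?_, ⟨y w, (hv w hw).2.2, rfl⟩⟩, ?_⟩
  · funext i
    have h1 : Pt.map (W i) (σ.restrictScalars F' : AlgebraicClosure E →ₐ[F'] AlgebraicClosure E)
        (x' i) = x' i := congrFun (hx σ) i
    change Pt.map (W i) (σ.restrictScalars F' : AlgebraicClosure E →ₐ[F'] AlgebraicClosure E)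
      (x' i + Pt.map (W i) (IsScalarTower.toAlgHom F' K (AlgebraicClosure E)) (b i)) =
      x' i + Pt.map (W i) (IsScalarTower.toAlgHom F' K (AlgebraicClosure E)) (b i)
    rw [map_add, h1, Pt.map_map']
    congr 2
    refine congrArg _ (AlgHom.ext fun a => ?_)
    change σ (algebraMap K (AlgebraicClosure E) a) = algebraMap K (AlgebraicClosure E) a
    rw [IsScalarTower.algebraMap_apply K E (AlgebraicClosure E)]
    exact σ.commutes _
  · obtain ⟨W', h1, h2, h3⟩ := (hv w hw).2.1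
    exact ⟨W', h1, h2, fun i => red_add' W' (h3 i) (gr_cst W' (b i))⟩
  · exact (Finsupp.mapDomain_finsetSum (f := fun Q : ∀ i, Pt (W i) Ω => Q + up Ω b)).trans
      (Finset.sum_congr rfl fun w _ => Finsupp.mapDomain_single)

end prod

end DN
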