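import Pool.Agent.Lib.MP_f80667_ag.Do.Def
import Pool.Agent.Lib.MP_f80667_ag.Sb.A

/-!
Projective varieties dominated by a product of elliptic curves, with a morphism to a group variety.

* `Plb W Φ h M`: the pull-back by `Φ` maps the cycles of degree `0` whose sum in the group variety is `0` to cycles whose sums in the
  elliptic curves are `0`.
-/

open ZC BE PE

namespace DN

variable {F F' : Type} [Field F] [Field F'] {N N' n k k' : ℕ} {ι ι' : Type}

/-- The pull-back by `Φ` of a cycle `z` of degree `0` on the part `h ≠ 0` of the variety `f = 0` has the sums `0` in the curves `W i` if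
the sum of `z` in the group variety `A` is `0`. -/
def Plb [Algebra F F'] {f : ι → MvPolynomial (Fin N) F} {A : GX.Gv F N' k' ι'}
    (W : Fin n → WeierstrassCurve F') (Φ : Fin N → MvPolynomial (Fin n ⊕ Fin n) F')
    (h : MvPolynomial (Fin N) F) (M : GX.Mf f A k) : Prop :=
  ∀ (L : Type) [Field L] [IsAlgClosed L] [Algebra F L] [Algebra F' L] [IsScalarTower F F' L]
    (z : (GX.Xf f).pt L →₀ ℤ),
    (∀ P ∈ z.support, ∃ x, GX.Co P x ∧ MvPolynomial.aeval x h ≠ 0) →
    (z.sum fun _ m => m) = 0 → M.S L z = (A.G.grp L).zero →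
      ∀ i, (z.sum fun P m => m • ∑ᶠ Q ∈ {Q | ∃ x, GX.Co P x ∧ Vl W Φ Q x}, Q i) = 0

end DN
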