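import Pool.Agent.Lib.MP_f80667_ag.Do.Loc
import Pool.Agent.Lib.MP_f80667_ag.Do.DefM
import Pool.Agent.Lib.MP_f80667_ag.Rs.M3

/-! The cycles of degree `0` with sum `0` in a group variety. -/

open ZC BE PE CV NE

namespace DN

section def1

variable {F : Type} [Field F] {N N' k k' : ℕ} {ι ι' : Type} {f : ι → MvPolynomial (Fin N) F}
  {A : GX.Gv F N' k' ι'}

/-- The cycles of degree `0` with sum `0` in `A` are the `m`-folds of cycles of degree `0` modulo rational equivalence. -/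
def Dw (M : GX.Mf f A k) (K Ω : Type) [Field K] [Field Ω] [Algebra K Ω] [Algebra F K] [Algebra F Ω]
    [IsScalarTower F K Ω] (m : ℕ) : Prop :=
  ∀ z ∈ (GX.Xf f).D0 K Ω, M.S Ω z = (A.G.grp Ω).zero →
    ∃ z' ∈ (GX.Xf f).D0 K Ω, z - m • z' ∈ (GX.Xf f).ratEq K Ω

/-- From an extension of degree prime to `m`. -/
theorem dw_tr {M : GX.Mf f A k} {K Ω : Type} [Field K] [CharZero K] [Field Ω] [Algebra K Ω]
    [IsAlgClosure K Ω] [Algebra F K] [Algebra F Ω] [IsScalarTower F K Ω]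
    (N : IntermediateField K Ω) [FiniteDimensional K N] [IsScalarTower F N Ω] {m : ℕ}
    (hc : (Module.finrank K N).Coprime m) (h : Dw M N Ω m) : Dw M K Ω m := by
  intro z hz hS
  obtain ⟨z', hz', hr⟩ := h z (D0_res hz) hS
  have hV := GX.fct f
  set t := vtr hV K N z' with ht
  have h3 : t ∈ (GX.Xf f).D0 K Ω := vtr_D0 hV N hz'
  have h1 : vtr hV K N (z - m • z') ∈ (GX.Xf f).ratEq K Ω := tr_ratEqV hV N hr
  rw [map_sub, map_nsmul, vtr_res hV N hz.1] at h1
  have hb := Nat.gcd_eq_gcd_ab (Module.finrank K N) m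
  rw [hc.gcd_eq_one, Nat.cast_one] at hb
  set a : ℤ := (Module.finrank K N).gcdA m
  set b : ℤ := (Module.finrank K N).gcdB m
  refine ⟨a • t + b • z, AddSubgroup.add_mem _ (AddSubgroup.zsmul_mem _ h3 _)
    (AddSubgroup.zsmul_mem _ hz _), ?_⟩
  have h4 : z - m • (a • t + b • z) = a • (Module.finrank K N • z - m • t) := by
    have h5 : z - m • (a • t + b • z) - a • (Module.finrank K N • z - m • t) =
        (1 - ((Module.finrank K N : ℤ) * a + m * b)) • z := by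
      simp only [← natCast_zsmul]
      module
    rw [← hb, sub_self, zero_smul] at h5
    exact sub_eq_zero.1 h5
  rw [h4]
  exact AddSubgroup.zsmul_mem _ h1 _

end def1

variable {F F' : Type} [Field F] [CharZero F] [Field F'] [Algebra F F'] {N N' n d k k' : ℕ}
  {ι ι' : Type} {f : ι → MvPolynomial (Fin N) F} {A : GX.Gv F N' k' ι'} {M : GX.Mf f A k}
  {W : Fin n → WeierstrassCurve F'} [∀ i, (W i).IsElliptic]
  {Φ : Fin N → MvPolynomial (Fin n ⊕ Fin n) F'} {h : MvPolynomial (Fin N) F} {D : ℕ} {K Ω : Type}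
  [Field K] [CharZero K] [Field Ω] [Algebra K Ω] [IsAlgClosure K Ω] [Algebra F K] [Algebra F Ω]
  [IsScalarTower F K Ω] [Algebra F' K] [Algebra F' Ω] [IsScalarTower F' K Ω]
  [IsScalarTower F F' K] [IsScalarTower F F' Ω]

/-- **The theorem over one field**, with a morphism to a group variety. Proof: `mv_D0`, `RS.rs`, `Plb`, `dv_core`. -/
theorem dw_X (hf : GX.Nsg f d) (hA : A.Ok) (hM : M.Ok) (hD : Dom f W Φ h D) (hP : Plb W Φ h M)
    [∀ i, Infinite (Pt (W i) K)] {m : ℕ} (hm : m ≠ 0) (hc : m.Coprime D)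
    (hd : DvG (fun i => Ev (W i)) K Ω m) : Dw M K Ω m := by
  intro z hz hS
  have hO : IsAlgClosed Ω := IsAlgClosure.isAlgClosed K
  rcases Nat.eq_zero_or_pos D with h0 | h0
  · subst h0
    have h1 : m = 1 := by simpa using hc
    subst h1
    refine ⟨z, hz, ?_⟩
    rw [one_smul, sub_self]
    exact zero_mem _
  obtain ⟨z₁, hz₁, hzz, hs₁⟩ := mv_D0 hf hD.hom hD.ne hz
  have hS₁ : M.S Ω z₁ = (A.G.grp Ω).zero := by
    let _ : AddCommGroup ((GX.Xf A.a).pt Ω) := A.G.grp Ω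
    have h1 : M.S Ω (z - z₁) = 0 := RS.rs (K := K) hf.hom hA hM hzz
    have h2 : M.S Ω z = 0 := hS
    change M.S Ω z₁ = 0
    rw [map_sub, h2, zero_sub, neg_eq_zero] at h1
    exact h1
  have H := hP Ω z₁ (fun P hP => by
    obtain ⟨x, hx⟩ := GX.exists_co P
    exact ⟨x, hx, hs₁ P hP x hx⟩) hz₁.2 hS₁
  obtain ⟨z', hz', hr⟩ := dv_core hD h0.ne' hm hc hd hz₁ hs₁ H
  refine ⟨z', hz', ?_⟩
  have h3 := add_mem hzz hr
  rwa [sub_add_sub_cancel] at h3

end DN
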