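import Pool.Agent.Lib.MP_f80667_ag.Do.Stp

/-! Translation by a multiple: points. -/

open ZC BE PE CV NE

set_option linter.unusedSectionVars false

namespace DN

variable {F F' : Type} [Field F] [Field F'] [Algebra F F'] {N n : ℕ} {ι : Type}
  {f : ι → MvPolynomial (Fin N) F} {W : Fin n → WeierstrassCurve F'} [∀ i, (W i).IsElliptic]
  {Φ : Fin N → MvPolynomial (Fin n ⊕ Fin n) F'} {h : MvPolynomial (Fin N) F} {D : ℕ} {K Ω : Type}
  [Field K] [CharZero K] [Field Ω] [Algebra K Ω] [IsAlgClosure K Ω] [Algebra F K] [Algebra F Ω]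
  [IsScalarTower F K Ω] [Algebra F' K] [Algebra F' Ω] [IsScalarTower F' K Ω]
  [IsScalarTower F F' K] [IsScalarTower F F' Ω]

/-- The point number `j` of the path from `P` to `P + m c`. -/
noncomputable def pa {L : Type} [Field L] [Algebra F' L] (m : ℕ) (c P : ∀ i, Pt (W i) L) (j : ℕ) :
    ∀ i, Pt (W i) L :=
  fun i => if (i : ℕ) < j then P i + m • c i else P i

/-- The point `c` is general for the point `P`. -/
def Gd (W : Fin n → WeierstrassCurve F') (Φ : Fin N → MvPolynomial (Fin n ⊕ Fin n) F') {Ω : Type}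
    [Field Ω] [Algebra F' Ω] (m : ℕ) (c P : ∀ i, Pt (W i) Ω) : Prop :=
  ∀ j : Fin n, pa m c P j ∈ Dn W Φ Ω ∧ pa m c P j + il j (c j) ∈ Dn W Φ Ω ∧
    pa m c P j + il j (m • c j) ∈ Dn W Φ Ω ∧ pa m c P j + il j (-(m • c j)) ∈ Dn W Φ Ω

/-- The cycle `∑ [fv (P_j + c_j)] - [fv P_j]`. -/
noncomputable def psi (o : (GX.Xf f).pt Ω) (Φ : Fin N → MvPolynomial (Fin n ⊕ Fin n) F') (m : ℕ)
    (c P : ∀ i, Pt (W i) Ω) : (GX.Xf f).pt Ω →₀ ℤ :=
  ∑ j : Fin n, (Finsupp.single (fv o Φ (pa m c P j + il j (c j))) 1 -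
    Finsupp.single (fv o Φ (pa m c P j)) 1)

private theorem psi_map_nsmul (i : Fin n) (m : ℕ) (x : Pt (W i) K) :
    Pt.map (W i) (IsScalarTower.toAlgHom F' K Ω) (m • x) =
      m • Pt.map (W i) (IsScalarTower.toAlgHom F' K Ω) x :=
  map_nsmul _ _ _

private theorem psi_map_neg (i : Fin n) (x : Pt (W i) K) :
    Pt.map (W i) (IsScalarTower.toAlgHom F' K Ω) (-x) =
      -Pt.map (W i) (IsScalarTower.toAlgHom F' K Ω) x :=
  map_neg _ _

private theorem psi_up_add (P Q : ∀ i, Pt (W i) K) : up Ω (P + Q) = up Ω P + up Ω Q := by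
  funext i
  exact map_add _ _ _

private theorem psi_up_smul (m : ℕ) (P : ∀ i, Pt (W i) K) : up Ω (m • P) = m • up Ω P := by
  funext i
  exact map_nsmul _ _ _

private theorem psi_up_il (j : Fin n) (x : Pt (W j) K) :
    up Ω (il (W := W) j x) = il j (Pt.map (W j) (IsScalarTower.toAlgHom F' K Ω) x) := by
  funext i
  unfold up il
  by_cases h : i = j
  · subst h
    rw [Pi.single_eq_same, Pi.single_eq_same]
  · rw [Pi.single_eq_of_ne h, Pi.single_eq_of_ne h]
    exact map_zero _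

private theorem psi_up_pa (m : ℕ) (c P : ∀ i, Pt (W i) K) (j : ℕ) :
    up Ω (pa m c P j) = pa m (up Ω c) (up Ω P) j := by
  funext i
  unfold up pa
  by_cases h : (i : ℕ) < j
  · rw [if_pos h, if_pos h, map_add, map_nsmul]
  · rw [if_neg h, if_neg h]

private theorem psi_pa_succ (m : ℕ) (c P : ∀ i, Pt (W i) K) (j : Fin n) :
    pa m c P ((j : ℕ) + 1) = pa m c P j + il j (m • c j) := by
  funext i
  unfold pa il
  rw [Pi.add_apply]
  by_cases h : i = j
  · subst h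
    rw [Pi.single_eq_same, if_pos (Nat.lt_succ_self _), if_neg (lt_irrefl _)]
  · rw [Pi.single_eq_of_ne h, add_zero]
    have h' : (i : ℕ) ≠ j := fun e => h (Fin.ext e)
    by_cases h2 : (i : ℕ) < j
    · rw [if_pos h2, if_pos (by omega)]
    · rw [if_neg h2, if_neg (by omega)]

private theorem psi_pa_zero {L : Type} [Field L] [Algebra F' L] (m : ℕ) (c P : ∀ i, Pt (W i) L) :
    pa m c P 0 = P := by
  funext i
  unfold pa
  rw [if_neg (Nat.not_lt_zero _)]

private theorem psi_pa_last {L : Type} [Field L] [Algebra F' L] (m : ℕ) (c P : ∀ i, Pt (W i) L) :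
    pa m c P n = P + m • c := by
  funext i
  unfold pa
  rw [if_pos i.2]
  rfl

/-- A point over `K`. Proof: `stp` for `pa m c P j`; `pa m c P (j + 1) = pa m c P j + il j (m • c j)`; telescoping sum (`Fin.sum_univ_eq_sum_range`, `Finset.sum_range_sub`). -/
theorem psi_pt (hD : Dom f W Φ h D) (o : (GX.Xf f).pt Ω) {m : ℕ} (P c : ∀ i, Pt (W i) K)
    (hc : ∀ i, c i ≠ 0 ∧ m • c i ≠ 0) (hg : Gd W Φ m (up Ω c) (up Ω P)) :
    Finsupp.single (fv o Φ (up Ω P + up Ω (m • c))) 1 - Finsupp.single (fv o Φ (up Ω P)) 1 -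
      m • psi o Φ m (up Ω c) (up Ω P) ∈ (GX.Xf f).ratEq K Ω := by
  classical
  have key : ∀ j : Fin n, Finsupp.single (fv o Φ (pa m (up Ω c) (up Ω P) ((j : ℕ) + 1))) (1 : ℤ) -
      Finsupp.single (fv o Φ (pa m (up Ω c) (up Ω P) j)) 1 -
      m • (Finsupp.single (fv o Φ (pa m (up Ω c) (up Ω P) j + il j (up Ω c j))) 1 -
        Finsupp.single (fv o Φ (pa m (up Ω c) (up Ω P) j)) 1) ∈ (GX.Xf f).ratEq K Ω := by
    intro j
    obtain ⟨g1, g2, g3, g4⟩ := hg j
    rw [← psi_up_pa] at g1 g2 g3 g4 ⊢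
    rw [← psi_up_pa, psi_pa_succ]
    have e2 : up Ω (pa m c P j + il j (c j)) = up Ω (pa m c P j) + il j (up Ω c j) := by
      rw [psi_up_add, psi_up_il]; rfl
    have e3 : up Ω (pa m c P j + il j (m • c j)) = up Ω (pa m c P j) + il j (m • up Ω c j) := by
      rw [psi_up_add, psi_up_il, psi_map_nsmul]; rfl
    have e4 : up Ω (pa m c P j + il j (-(m • c j))) =
        up Ω (pa m c P j) + il j (-(m • up Ω c j)) := by
      rw [psi_up_add, psi_up_il, psi_map_neg, psi_map_nsmul]; rfl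
    have := stp (K := K) (Ω := Ω) hD o (m := m) (pa m c P j) j (c j) (hc j).1 (hc j).2 g1
      (by rw [e2]; exact g2) (by rw [e3]; exact g3) (by rw [e4]; exact g4)
    rw [e2] at this
    exact this
  have hs := AddSubgroup.sum_mem _ (t := Finset.univ) fun (j : Fin n) _ => key j
  rw [Finset.sum_sub_distrib, ← Finset.smul_sum] at hs
  have ht : ∑ j : Fin n, (Finsupp.single (fv o Φ (pa m (up Ω c) (up Ω P) ((j : ℕ) + 1))) (1 : ℤ) -
      Finsupp.single (fv o Φ (pa m (up Ω c) (up Ω P) j)) 1) =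
      Finsupp.single (fv o Φ (up Ω P + up Ω (m • c))) 1 - Finsupp.single (fv o Φ (up Ω P)) 1 := by
    rw [Fin.sum_univ_eq_sum_range (fun j : ℕ =>
      Finsupp.single (fv o Φ (pa m (up Ω c) (up Ω P) (j + 1))) (1 : ℤ) -
        Finsupp.single (fv o Φ (pa m (up Ω c) (up Ω P) j)) 1) n, Finset.sum_range_sub
      (fun j : ℕ => Finsupp.single (fv o Φ (pa m (up Ω c) (up Ω P) j)) (1 : ℤ)) n,
      psi_pa_last, psi_pa_zero, psi_up_smul]
  rw [ht] at hs
  exact hs

end DN
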