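import Pool.Agent.Lib.MP_f80667_ag.Do.Dns
import Pool.Agent.Lib.MP_f80667_ag.Do.Psi
import Pool.Agent.Lib.MP_f80667_ag.Pe.Div

/-! General points. -/

open ZC BE PE CV NE

namespace DN

variable {F' : Type} [Field F'] {N n : ℕ} {W : Fin n → WeierstrassCurve F'} [∀ i, (W i).IsElliptic]
  {Φ : Fin N → MvPolynomial (Fin n ⊕ Fin n) F'} {K Ω : Type} [Field K] [CharZero K] [Field Ω]
  [Algebra K Ω] [IsAlgClosure K Ω] [Algebra F' K] [Algebra F' Ω] [IsScalarTower F' K Ω]

/-- The points with a given first coordinate. -/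
private theorem gnc_x {W : WeierstrassCurve F'} {L : Type} [Field L] [Algebra F' L] (x : L) :
    {Q : Pt W L | ∃ (y : L) (h : (W.baseChange L).toAffine.Nonsingular x y),
      Q = Pt.aff x y h}.Finite := by
  classical
  rcases Set.eq_empty_or_nonempty {Q : Pt W L | ∃ (y : L)
    (h : (W.baseChange L).toAffine.Nonsingular x y), Q = Pt.aff x y h} with h | ⟨Q₀, y₀, h₀, rfl⟩
  · rw [h]
    exact Set.finite_empty
  refine Set.Finite.subset (Set.toFinite {Pt.aff x y₀ h₀, -Pt.aff x y₀ h₀}) ?_
  rintro Q ⟨y, h, rfl⟩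
  have e₀ := (WeierstrassCurve.Affine.equation_iff _ _).1 h₀.1
  have e₁ := (WeierstrassCurve.Affine.equation_iff _ _).1 h.1
  have key : (y - y₀) * (y + y₀ + (W.baseChange L).a₁ * x + (W.baseChange L).a₃) = 0 := by
    linear_combination e₁ - e₀
  rcases mul_eq_zero.1 key with h2 | h2
  · left
    have h3 : y = y₀ := sub_eq_zero.1 h2
    subst h3
    rfl
  · right
    have h5 : -(Pt.aff x y₀ h₀ : Pt W L) = Pt.aff x
        (-y₀ - (W.baseChange L).a₁ * x - (W.baseChange L).a₃)
        ((WeierstrassCurve.Affine.nonsingular_neg ..).2 h₀) := rfl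
    rw [Set.mem_singleton_iff, h5]
    have h3 : y = -y₀ - (W.baseChange L).a₁ * x - (W.baseChange L).a₃ := by
      linear_combination h2
    subst h3
    rfl

/-- The torsion is finite. -/
private theorem gnc_tor {W : WeierstrassCurve F'} [W.IsElliptic] {L : Type} [Field L] [CharZero L]
    [IsAlgClosed L] [Algebra F' L] {m : ℕ} (hm : m ≠ 0) : {R : Pt W L | m • R = 0}.Finite := by
  classical
  obtain ⟨U, V, hUV, hdeg, hpt⟩ := div_xn (W := W) (Ω := L) m hm
  have hV0 : V ≠ 0 := by
    rintro rfl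
    obtain ⟨a, b, hab⟩ := hUV
    rw [mul_zero, add_zero] at hab
    have h1 : IsUnit U := IsUnit.of_mul_eq_one a (by rw [mul_comm]; exact hab)
    have h2 := Polynomial.natDegree_eq_zero_of_isUnit h1
    omega
  have hfin : (⋃ x ∈ V.roots.toFinset, {Q : Pt W L | ∃ (y : L)
      (h : (W.baseChange L).toAffine.Nonsingular x y), Q = Pt.aff x y h}).Finite :=
    Set.Finite.biUnion (Finset.finite_toSet _) fun x _ => gnc_x x
  refine (hfin.insert 0).subset fun R hR => ?_
  rcases Pt.cases' R with rfl | ⟨x, y, h, rfl⟩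
  · exact Set.mem_insert _ _
  · refine Set.mem_insert_of_mem _ ?_
    have hx : V.eval x = 0 := by
      by_contra hx
      obtain ⟨y', h', e⟩ := (hpt x y h).2 hx
      have h1 : m • (Pt.aff x y h : Pt W L) = 0 := hR
      rw [e] at h1
      exact WeierstrassCurve.Affine.Point.some_ne_zero h' h1
    refine Set.mem_iUnion₂.2 ⟨x, ?_, y, h, rfl⟩
    rw [Multiset.mem_toFinset, Polynomial.mem_roots hV0]
    exact hx

private theorem gnc_inj (W : WeierstrassCurve F') {L M : Type} [Field L] [Field M] [Algebra F' L]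
    [Algebra F' M] (σ : L →ₐ[F'] M) : Function.Injective (Pt.map W σ) := by
  classical
  exact WeierstrassCurve.Affine.Point.map_injective _

/-- The multiplication by `m` has finite fibres. Proof: the `m`-torsion of `E (Ω)` is finite (there are lemmas on the torsion in `Be/Tor*.lean`, `Pe/Div.lean`, `Sm/Div.lean`), `Pt.map` is injective. -/
theorem mul_fin (W : WeierstrassCurve F') [W.IsElliptic] {m : ℕ} (hm : m ≠ 0) (P Q : Pt W Ω) :
    {c : Pt W K | P + m • Pt.map W (IsScalarTower.toAlgHom F' K Ω) c = Q}.Finite := by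
  have hac : IsAlgClosed Ω := IsAlgClosure.isAlgClosed K
  have hcz : CharZero Ω := charZero_of_injective_algebraMap (algebraMap K Ω).injective
  have h1 : {R : Pt W Ω | P + m • R = Q}.Finite := by
    rcases Set.eq_empty_or_nonempty {R : Pt W Ω | P + m • R = Q} with h | ⟨R₀, h₀⟩
    · rw [h]
      exact Set.finite_empty
    · refine ((gnc_tor (W := W) (L := Ω) hm).image fun R => R₀ + R).subset fun R hR => ?_
      refine ⟨R - R₀, ?_, add_sub_cancel _ _⟩
      have e0 : P + m • R₀ = Q := h₀
      have e1 : P + m • R = Q := hR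
      have e2 : m • R = m • R₀ := add_left_cancel (e1.trans e0.symm)
      change m • (R - R₀) = 0
      rw [smul_sub, e2, sub_self]
  exact h1.preimage ((gnc_inj W _).injOn)

/-- **General points exist.** Proof: the set of the bad `c` is a finite union of thin sets (`thin_iUnion`, `thin_union`), `thin_avoid`. For `Q` in `Y₁`: `thin_comap` for `τ i c = Q i + m c` (`mul_fin`) and the complement of the domain (`thin_cmp` for the identity maps). For `P` in `Y₂` and `j` the four conditions of `Gd`: `thin_cmp` for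
`τ i c = P i + m c` (`i < j`), `P j + a c` with `a = 0, 1, m, - m` (`i = j`), `P i` (`i > j`), and `a₀ = 0` (`P` is in the domain). `m c i ≠ 0`: `thin_cyl`, `mul_fin`. -/
theorem exists_gc [∀ i, Infinite (Pt (W i) K)] {m : ℕ} (hm : m ≠ 0)
    (hne : (Dn W Φ Ω).Nonempty) (Y₁ Y₂ : Finset (∀ i, Pt (W i) Ω)) (h₂ : ∀ P ∈ Y₂, P ∈ Dn W Φ Ω) :
    ∃ c : ∀ i, Pt (W i) K, (∀ i, c i ≠ 0 ∧ m • c i ≠ 0) ∧
      (∀ Q ∈ Y₁, Q + up Ω (m • c) ∈ Dn W Φ Ω) ∧ ∀ P ∈ Y₂, Gd W Φ m (up Ω c) P := by
  classical
  obtain ⟨ε, hε⟩ : ∃ ε : ∀ i, Pt (W i) K →+ Pt (W i) Ω,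
      ε = fun i => Pt.map (W i) (IsScalarTower.toAlgHom F' K Ω) := ⟨_, rfl⟩
  have hfib : ∀ (i : Fin n) (k : ℕ) (_ : k ≠ 0) (P Q : Pt (W i) Ω),
      {c : Pt (W i) K | P + k • ε i c = Q}.Finite := by
    intro i k hk P Q
    rw [hε]
    exact mul_fin (W i) hk P Q
  have hneg : ∀ (i : Fin n) (P Q : Pt (W i) Ω),
      {c : Pt (W i) K | P + -(m • ε i c) = Q}.Finite := by
    intro i P Q
    refine (hfib i m hm Q P).subset fun c hc => ?_
    have h1 : P + -(m • ε i c) = Q := hc
    change Q + m • ε i c = P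
    rw [← h1]
    abel
  have hone : ∀ (i : Fin n) (P Q : Pt (W i) Ω), {c : Pt (W i) K | P + ε i c = Q}.Finite := by
    intro i P Q
    have h1 := hfib i 1 one_ne_zero P Q
    simpa only [one_smul] using h1
  -- the complement of the domain
  obtain ⟨R₀, hR₀⟩ := hne
  have hDn : Thin (fun i => Pt (W i) Ω) {Q | (fun i => Q i) ∉ Dn W Φ Ω} :=
    thin_cmp (A := fun i => Pt (W i) Ω) (fun _ Q => Q)
      (fun i => Or.inl fun Q => Set.Finite.subset (Set.finite_singleton Q) fun a ha => ha) R₀ hR₀
  have h1 : ∀ Q : ∀ i, Pt (W i) Ω, Thin (fun i => Pt (W i) K)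
      {c | (fun i => Q i + m • ε i (c i)) ∉ Dn W Φ Ω} := fun Q =>
    thin_comap (fun i c => Q i + m • ε i c) (fun i a => hfib i m hm (Q i) a) hDn
  -- the points of the paths
  have h3 : ∀ P ∈ Y₂, ∀ (j : Fin n) (τ : Pt (W j) K → Pt (W j) Ω)
      (_ : (∀ Q, {a | τ a = Q}.Finite) ∨ ∃ Q, ∀ a, τ a = Q) (_ : τ 0 = P j),
      Thin (fun i => Pt (W i) K) {c | (fun i => if h : i = j then
        (h ▸ τ (c j) : Pt (W i) Ω) else if (i : ℕ) < j then P i + m • ε i (c i) else P i)
          ∉ Dn W Φ Ω} := by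
    intro P hP j τ hτ h0
    have hcg : ∀ c : ∀ i, Pt (W i) K, (fun i => if h : i = j then
        (h ▸ τ (c j) : Pt (W i) Ω) else if (i : ℕ) < j then P i + m • ε i (c i) else P i)
        = fun i => (fun (i : Fin n) (a : Pt (W i) K) => if h : i = j then
          (h ▸ τ (h ▸ a) : Pt (W i) Ω) else if (i : ℕ) < j then P i + m • ε i a else P i) i
            (c i) := by
      intro c
      funext i
      by_cases h : i = j
      · subst h
        simp only [dif_pos]
      · simp only [dif_neg h]
    simp only [hcg]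
    refine thin_cmp (A := fun i => Pt (W i) K) (fun (i : Fin n) (a : Pt (W i) K) =>
      if h : i = j then (h ▸ τ (h ▸ a) : Pt (W i) Ω)
      else if (i : ℕ) < j then P i + m • ε i a else P i) (fun i => ?_) (fun _ => 0) ?_
    · by_cases h : i = j
      · subst h
        simp only [dif_pos]
        exact hτ
      · simp only [dif_neg h]
        by_cases h4 : (i : ℕ) < j
        · simp only [if_pos h4]
          exact Or.inl fun Q => hfib i m hm (P i) Q
        · simp only [if_neg h4]
          exact Or.inr ⟨P i, fun _ => rfl⟩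
    · have h5 : (fun i => if h : i = j then (h ▸ τ (h ▸ (0 : Pt (W i) K)) : Pt (W i) Ω)
          else if (i : ℕ) < j then P i + m • ε i 0 else P i) = P := by
        funext i
        by_cases h : i = j
        · subst h
          simp only [dif_pos]
          exact h0
        · simp only [dif_neg h, map_zero, smul_zero, add_zero, ite_self]
      rw [h5]
      exact h₂ P hP
  have h4 : Thin (fun i => Pt (W i) K) (((⋃ i : Fin n, {c | c i ∈ ({0} : Set (Pt (W i) K))}) ∪
      (⋃ i : Fin n, {c | c i ∈ {a : Pt (W i) K | (0 : Pt (W i) Ω) + m • ε i a = 0}})) ∪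
      ((⋃ Q : {Q // Q ∈ Y₁}, {c | (fun i => Q.1 i + m • ε i (c i)) ∉ Dn W Φ Ω}) ∪
      (⋃ P : {P // P ∈ Y₂}, ⋃ j : Fin n,
        (({c | (fun i => if h : i = j then (h ▸ (P.1 j) : Pt (W i) Ω) else
            if (i : ℕ) < j then P.1 i + m • ε i (c i) else P.1 i) ∉ Dn W Φ Ω} ∪
          {c | (fun i => if h : i = j then (h ▸ (P.1 j + ε j (c j)) : Pt (W i) Ω) else
            if (i : ℕ) < j then P.1 i + m • ε i (c i) else P.1 i) ∉ Dn W Φ Ω}) ∪
          ({c | (fun i => if h : i = j then (h ▸ (P.1 j + m • ε j (c j)) : Pt (W i) Ω) else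
            if (i : ℕ) < j then P.1 i + m • ε i (c i) else P.1 i) ∉ Dn W Φ Ω} ∪
          {c | (fun i => if h : i = j then (h ▸ (P.1 j + -(m • ε j (c j))) : Pt (W i) Ω) else
            if (i : ℕ) < j then P.1 i + m • ε i (c i) else P.1 i) ∉ Dn W Φ Ω}))))) := by
    refine thin_union (thin_union (thin_iUnion fun i => thin_cyl i (Set.finite_singleton _))
      (thin_iUnion fun i => thin_cyl i (hfib i m hm 0 0)))
      (thin_union (thin_iUnion fun Q => h1 Q.1) (thin_iUnion fun P => thin_iUnion fun j =>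
        thin_union (thin_union ?_ ?_) (thin_union ?_ ?_)))
    · exact h3 P.1 P.2 j (fun _ => P.1 j) (Or.inr ⟨_, fun _ => rfl⟩) rfl
    · exact h3 P.1 P.2 j (fun a => P.1 j + ε j a) (Or.inl fun Q => hone j _ Q)
        (by rw [map_zero, add_zero])
    · exact h3 P.1 P.2 j (fun a => P.1 j + m • ε j a) (Or.inl fun Q => hfib j m hm _ Q)
        (by rw [map_zero, smul_zero, add_zero])
    · exact h3 P.1 P.2 j (fun a => P.1 j + -(m • ε j a)) (Or.inl fun Q => hneg j _ Q)
        (by rw [map_zero, smul_zero, neg_zero, add_zero])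
  obtain ⟨c, hc⟩ := thin_avoid h4
  simp only [Set.mem_union, not_or, Set.mem_iUnion, not_exists] at hc
  obtain ⟨⟨c1, c2⟩, c3, c4⟩ := hc
  refine ⟨c, fun i => ⟨fun h => c1 i h, fun h => c2 i ?_⟩, fun Q hQ => ?_, fun P hP j => ?_⟩
  · change (0 : Pt (W i) Ω) + m • ε i (c i) = 0
    rw [← map_nsmul, h, map_zero, add_zero]
  · have h5 := not_not.1 (c3 ⟨Q, hQ⟩)
    have h6 : Q + up Ω (m • c) = fun i => Q i + m • ε i (c i) := by
      funext i
      rw [hε]
      change Q i + Pt.map (W i) _ (m • c i) = _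
      rw [map_nsmul]
    rw [h6]
    exact h5
  · obtain ⟨⟨d1, d2⟩, d3, d4⟩ := c4 ⟨P, hP⟩ j
    have hup : ∀ i, up Ω c i = ε i (c i) := by
      intro i
      rw [hε]
      rfl
    refine ⟨?_, ?_, ?_, ?_⟩
    · have h6 : pa m (up Ω c) P j = fun i => if h : i = j then (h ▸ (P j) : Pt (W i) Ω) else
          if (i : ℕ) < j then P i + m • ε i (c i) else P i := by
        funext i
        unfold pa
        rw [hup]
        by_cases h : i = j
        · subst h
          simp only [lt_irrefl, if_false, dif_pos]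
        · simp only [dif_neg h]
      rw [h6]
      exact not_not.1 d1
    · have h6 : pa m (up Ω c) P j + il j (up Ω c j) = fun i => if h : i = j then
          (h ▸ (P j + ε j (c j)) : Pt (W i) Ω) else
          if (i : ℕ) < j then P i + m • ε i (c i) else P i := by
        funext i
        rw [Pi.add_apply]
        unfold pa il
        rw [hup, hup]
        by_cases h : i = j
        · subst h
          simp only [lt_irrefl, if_false, dif_pos, Pi.single_eq_same]
        · simp only [dif_neg h, Pi.single_eq_of_ne h, add_zero]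
      rw [h6]
      exact not_not.1 d2
    · have h6 : pa m (up Ω c) P j + il j (m • up Ω c j) = fun i => if h : i = j then
          (h ▸ (P j + m • ε j (c j)) : Pt (W i) Ω) else
          if (i : ℕ) < j then P i + m • ε i (c i) else P i := by
        funext i
        rw [Pi.add_apply]
        unfold pa il
        rw [hup, hup]
        by_cases h : i = j
        · subst h
          simp only [lt_irrefl, if_false, dif_pos, Pi.single_eq_same]
        · simp only [dif_neg h, Pi.single_eq_of_ne h, add_zero]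
      rw [h6]
      exact not_not.1 d3
    · have h6 : pa m (up Ω c) P j + il j (-(m • up Ω c j)) = fun i => if h : i = j then
          (h ▸ (P j + -(m • ε j (c j))) : Pt (W i) Ω) else
          if (i : ℕ) < j then P i + m • ε i (c i) else P i := by
        funext i
        rw [Pi.add_apply]
        unfold pa il
        rw [hup, hup]
        by_cases h : i = j
        · subst h
          simp only [lt_irrefl, if_false, dif_pos, Pi.single_eq_same]
        · simp only [dif_neg h, Pi.single_eq_of_ne h, add_zero]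
      rw [h6]
      exact not_not.1 d4

end DN
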