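import Pool.Agent.Lib.MP_f80667_ag.Do.Gr
import Pool.Agent.Lib.MP_f80667_ag.Pe.AbB

/-! Abel's theorem for rational points with control of the values: the copies of the divisor theorems. -/

open ZC BE PE CV Polynomial

namespace DN

/-- A principal cycle with control of the values. -/
def PvT {F : Type} [Field F] (V : Vr F) (M Ω : Type) [Field M] [Field Ω] [Algebra M Ω] [Algebra F M] [Algebra F Ω]
    (T : Set (V.pt Ω)) (z : V.pt Ω →₀ ℤ) : Prop :=
  ∃ (E : Type) (_ : Field E) (_ : Algebra M E) (_ : Algebra F E) (_ : IsScalarTower F M E),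
    IsFunField M E ∧ ∃ (g : E) (ξ : V.pt E), g ≠ 0 ∧
      ∃ (S : Finset (Place M E Ω)) (m : Place M E Ω → ℤ) (y : Place M E Ω → V.pt Ω),
        (∀ w, w ∉ S → g ∈ w.V ∧ g⁻¹ ∈ w.V) ∧
        (∀ w ∈ S, w.IsOrd g (m w) ∧ V.red w ξ (y w) ∧ y w ∈ T) ∧
        z = ∑ w ∈ S, Finsupp.single (y w) (m w)

theorem pvT_mono {F : Type} [Field F] {V : Vr F} {M Ω : Type} [Field M] [Field Ω] [Algebra M Ω] [Algebra F M]
    [Algebra F Ω] {T T' : Set (V.pt Ω)} (h : T ⊆ T') {z : V.pt Ω →₀ ℤ} (hz : PvT V M Ω T z) : PvT V M Ω T' z := by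
  obtain ⟨E, i1, i2, i3, i4, hE, g, ξ, hg, S, m, y, hS, hv, rfl⟩ := hz
  exact ⟨E, i1, i2, i3, i4, hE, g, ξ, hg, S, m, y, hS,
    fun w hw => ⟨(hv w hw).1, (hv w hw).2.1, h (hv w hw).2.2⟩, rfl⟩

section conv

variable {F : Type} [Field F] {W : WeierstrassCurve F} {M Ω : Type} [Field M] [CharZero M] [Field Ω] [Algebra M Ω]
  [Algebra F M] [Algebra F Ω] [IsScalarTower F M Ω] [IsAlgClosed Ω]

private theorem lg_aff {L : Type} [Field L] [Algebra F L] {W : WeierstrassCurve F} {x y x' y' : L}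
    (h : (W.baseChange L).toAffine.Nonsingular x y)
    (h' : (W.baseChange L).toAffine.Nonsingular x' y') (e1 : x = x') (e2 : y = y') :
    (Pt.aff x y h : Pt W L) = Pt.aff x' y' h' := by
  subst e1 e2
  rfl

/-- The map on points on affine points. -/
private theorem lg_map {L : Type} [Field L] [Algebra F L] {W : WeierstrassCurve F} {N : Type}
    [Field N] [Algebra F N] (σ : L →ₐ[F] N)
    {x y : L} (h : (W.baseChange L).toAffine.Nonsingular x y) :
    ∃ h' : (W.baseChange N).toAffine.Nonsingular (σ x) (σ y),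
      Pt.map W σ (Pt.aff x y h) = Pt.aff (σ x) (σ y) h' := by
  classical
  exact ⟨_, rfl⟩

omit [CharZero M] [Algebra F M] [IsScalarTower F M Ω] [IsAlgClosed Ω] in
/-- The value does not change at a place above. -/
private theorem lg_up {W : WeierstrassCurve F} {E : Type} [Field E] [Algebra M E] [Algebra F E]
    (w : Place M E Ω) (W' : Place M (AlgebraicClosure E) Ω) (hW : Above w W')
    (P : Pt W E) (Q : Pt W Ω) (h : Pt.Red W w P Q) :
    Pt.Red W W' (Pt.map W (IsScalarTower.toAlgHom F E (AlgebraicClosure E)) P) Q := by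
  classical
  match P, h with
  | .zero, h => exact h
  | .some x y hxy, h =>
    obtain ⟨h', e⟩ := lg_map (W := W) (IsScalarTower.toAlgHom F E (AlgebraicClosure E)) hxy
    change Pt.Red W W' (Pt.map W (IsScalarTower.toAlgHom F E (AlgebraicClosure E))
      (Pt.aff x y hxy)) Q
    rw [e]
    rcases h with ⟨hx, rfl⟩ | ⟨hx, hy, hn, rfl⟩
    · exact Or.inl ⟨fun hc => hx ((hW.1 x).1 hc), rfl⟩
    · have hx' : algebraMap E (AlgebraicClosure E) x ∈ W'.V := (hW.1 x).2 hx
      have hy' : algebraMap E (AlgebraicClosure E) y ∈ W'.V := (hW.1 y).2 hy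
      have e1 : W'.res ⟨_, hx'⟩ = w.res ⟨x, hx⟩ := hW.2 x hx hx'
      have e2 : W'.res ⟨_, hy'⟩ = w.res ⟨y, hy⟩ := hW.2 y hy hy'
      have hn' : (W.baseChange Ω).toAffine.Nonsingular (W'.res ⟨_, hx'⟩) (W'.res ⟨_, hy'⟩) := by
        rw [e1, e2]
        exact hn
      exact Or.inr ⟨hx', hy', hn', lg_aff _ _ e1.symm e2.symm⟩

/-- An automorphism over `E` fixes the points over `E`. -/
private theorem lg_fix {W : WeierstrassCurve F} {E : Type} [Field E] [Algebra F E]
    (σ : AlgebraicClosure E ≃ₐ[E] AlgebraicClosure E) (P : Pt W E) :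
    Pt.map W (σ.restrictScalars F : AlgebraicClosure E →ₐ[F] AlgebraicClosure E)
      (Pt.map W (IsScalarTower.toAlgHom F E (AlgebraicClosure E)) P) =
      Pt.map W (IsScalarTower.toAlgHom F E (AlgebraicClosure E)) P := by
  rw [Pt.map_map']
  exact congrArg (fun τ => Pt.map W τ P) (AlgHom.ext fun x => σ.commutes x)

theorem pvT_gn {T : Set ((Ev W).pt Ω)} {z : (Ev W).pt Ω →₀ ℤ} (h : PvT (Ev W) M Ω T z) : Gn (Ev W) M Ω T z := by
  obtain ⟨E, i1, i2, i3, i4, hE, g, ξ, hg, S, m, y, hS, hv, rfl⟩ := h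
  refine ⟨E, i1, i2, i3, i4, hE, g,
    (Ev W).map (IsScalarTower.toAlgHom F E (AlgebraicClosure E)) ξ, hg, fun σ => ?_, S, m, y,
    hS, fun w hw => ⟨(hv w hw).1, ?_, (hv w hw).2.2⟩, rfl⟩
  · exact lg_fix σ ξ
  · obtain ⟨W', hW'⟩ := exists_above w
    exact ⟨W', hW'.1, hW'.2, lg_up w W' hW' ξ _ (hv w hw).2.1⟩

end conv

section dv

variable {F : Type} [Field F] {W : WeierstrassCurve F} [W.IsElliptic] {M E Ω : Type} [Field M]
  [CharZero M] [Algebra F M] [Field E] [Algebra M E] [Algebra F E] [IsScalarTower F M E] {s η : E}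
  {σ : E ≃ₐ[M] E} [Field Ω] [Algebra M Ω] [Algebra F Ω] [IsScalarTower F M Ω] [IsAlgClosed Ω]

theorem lgA_main [Algebra.IsAlgebraic M Ω] (h : Qd s η (TW W M) (NW W M) σ) {f : E} (hf : f ≠ 0)
    {w₀ : Place M E Ω} (hs : s ∉ w₀.V) (hp : ∀ w : Place M E Ω, w ≠ w₀ → f ∈ w.V) {d : ℕ}
    (hd : w₀.IsOrd f (-d)) (z : Pt W Ω →₀ ℤ) (h0 : ∀ P, 0 ≤ z P) (h00 : z 0 = 0)
    (hdz : (d : ℤ) ≤ dg z)
    (hz : ∀ (w : Place M E Ω) (P : Pt W Ω) (k : ℤ), P ≠ 0 → Pt.Red W w (gp h) P →
      w.IsOrd f k → z P ≤ k) :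
    PvT (Ev W) M Ω {Q : Pt W Ω | Q = 0 ∨ z Q ≠ 0} (z - Finsupp.single (0 : Pt W Ω) (dg z)) := by
  classical
  have hfw : ∀ P : Pt W Ω, ∃ w : Place M E Ω, Pt.Red W w (gp h) P := fun P => fw_plc h P
  choose φ hφ using hfw
  have hφi : Function.Injective φ := by
    intro P P' hPP
    have h1 := hφ P
    rw [hPP] at h1
    exact red_unique _ h1 (hφ P')
  have hord : ∀ w : Place M E Ω, ∃ k : ℤ, w.IsOrd f k := by
    intro w
    obtain ⟨π, hπ⟩ := Qb.exists_unif h.ff w
    exact hπ.isOrd h.ff hf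
  refine ⟨E, inferInstance, inferInstance, inferInstance, inferInstance, h.ff, f, gp h, hf, ?_⟩
  by_cases htr : Transcendental M f
  swap
  · -- constants
    rw [Transcendental, not_not] at htr
    have hz0 : z = 0 := by
      ext P
      by_cases hP : P = 0
      · rw [hP, h00]
        rfl
      · obtain ⟨k, hk⟩ := hord (φ P)
        have h1 := hk.eq_zero (dvA_alg _ htr) (dvA_alg _ htr.inv)
        have h2 := hz (φ P) P k hP (hφ P) hk
        have h3 := h0 P
        change z P = 0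
        omega
    refine ⟨∅, fun _ => 0, fun _ => (0 : Pt W Ω), fun w _ => ⟨dvA_alg _ htr, dvA_alg _ htr.inv⟩,
      fun w hw => absurd hw (Finset.notMem_empty w), ?_⟩
    rw [hz0, map_zero, Finsupp.single_zero, sub_zero, Finset.sum_empty]
    rfl
  have htr' : Transcendental M f⁻¹ := fun hal => htr (by simpa using hal.inv)
  obtain ⟨S, m, hS, hm⟩ := Bx.exists_zeros (Ω := Ω) h.ff htr
  obtain ⟨S', m', hS', hm'⟩ := Bx.exists_zeros (Ω := Ω) h.ff htr'
  have hsum := Dz.sum_zeros h.ff htr S m hS hm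
  have hsum' := Dz.sum_zeros h.ff htr' S' m' hS' hm'
  rw [qe_adj', ← hsum] at hsum'
  have hpos : ∀ w ∈ S, 0 < m w := fun w hw => qe_pos (hm w hw) ((hS w).1 hw)
  have hdg0 : 0 ≤ dg z := by
    rw [dvA_dg]
    exact Finset.sum_nonneg fun P _ => h0 P
  -- the poles
  have hS0 : ∀ w ∈ S', w = w₀ := by
    intro w hw
    by_contra hne
    exact dvA_not_both (hp w hne) ((hS' w).1 hw) hf
  have hle : ∑ w ∈ S, m w ≤ ∑ P ∈ z.support, z P := by
    rw [← hsum', ← dvA_dg]
    by_cases hw₀ : w₀ ∈ S'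
    · have h1 : S' = {w₀} := by
        ext w
        rw [Finset.mem_singleton]
        exact ⟨hS0 w, fun h2 => h2 ▸ hw₀⟩
      rw [h1, Finset.sum_singleton]
      have h2 := Place.IsOrd.unique rfl (Dz.ord_inv hd) (hm' w₀ hw₀)
      rw [← h2]
      omega
    · have h1 : S' = ∅ := by
        rw [Finset.eq_empty_iff_forall_notMem]
        intro w hw
        exact hw₀ (hS0 w hw ▸ hw)
      rw [h1, Finset.sum_empty]
      exact hdg0
  -- the zeros
  have hsupp : ∀ P ∈ z.support, P ≠ 0 ∧ 0 < z P := by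
    intro P hP
    rw [Finsupp.mem_support_iff] at hP
    refine ⟨?_, lt_of_le_of_ne (h0 P) (Ne.symm hP)⟩
    rintro rfl
    exact hP h00
  have hPS : ∀ P ∈ z.support, φ P ∈ S := by
    intro P hP
    obtain ⟨h1, h2⟩ := hsupp P hP
    obtain ⟨k, hk⟩ := hord (φ P)
    have h3 := hz (φ P) P k h1 (hφ P) hk
    rw [hS]
    exact dvA_nonunit hk (by omega)
  have hPm : ∀ P ∈ z.support, z P ≤ m (φ P) := fun P hP =>
    hz (φ P) P _ (hsupp P hP).1 (hφ P) (hm _ (hPS P hP))
  obtain ⟨hc1, hc2, hc3⟩ := dvA_count z.support z φ hφi S m hPS hPm hpos hle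
  -- the values
  have hell : (W.baseChange Ω).IsElliptic :=
    inferInstanceAs (W.map (algebraMap F Ω)).IsElliptic
  have hy : ∀ w : Place M E Ω, ∃ P : Pt W Ω, Pt.Red W w (gp h) P := fun w => exists_red w (gp h)
  choose y hy using hy
  have hyφ : ∀ P, y (φ P) = P := fun P => red_unique _ (hy (φ P)) (hφ P)
  have hy0 : y w₀ = 0 := by
    refine red_unique w₀ (hy w₀) ?_
    exact Or.inl ⟨hs, rfl⟩
  have hdisj : Disjoint S S' := by
    rw [Finset.disjoint_left]
    intro w hw hw'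
    exact dvA_not_both (w.V.nonunits_subset ((hS w).1 hw)) ((hS' w).1 hw') hf
  refine ⟨S ∪ S', fun w => if w ∈ S then m w else -(m' w), y, ?_, ?_, ?_⟩
  · intro w hw
    rw [Finset.mem_union, not_or, hS, hS', ValuationSubring.mem_nonunits_iff_or,
      ValuationSubring.mem_nonunits_iff_or, inv_inv, not_or, not_or, not_not, not_not] at hw
    exact ⟨hw.2.2, hw.1.2⟩
  · intro w hw
    refine ⟨?_, hy w, ?_⟩
    swap
    · rcases Finset.mem_union.1 hw with h2 | h2
      · rw [hc1] at h2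
        obtain ⟨P, hP, rfl⟩ := Finset.mem_image.1 h2
        right
        rw [hyφ]
        exact Finsupp.mem_support_iff.1 hP
      · left
        rw [hS0 w h2, hy0]
    change w.IsOrd f (if w ∈ S then m w else -(m' w))
    by_cases hwS : w ∈ S
    · rw [if_pos hwS]
      exact hm w hwS
    · rw [if_neg hwS]
      have h1 := Dz.ord_inv (hm' w ((Finset.mem_union.1 hw).resolve_left hwS))
      rwa [inv_inv] at h1
  · have hA : ∑ w ∈ S, Finsupp.single (y w) (if w ∈ S then m w else -(m' w)) = z := by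
      have h1 : ∀ w ∈ S, Finsupp.single (y w) (if w ∈ S then m w else -(m' w)) =
          Finsupp.single (y w) (m w) := fun w hw => by rw [if_pos hw]
      rw [Finset.sum_congr rfl h1, hc1, Finset.sum_image fun a _ b _ hab => hφi hab]
      have h2 : ∀ P ∈ z.support, Finsupp.single (y (φ P)) (m (φ P)) = Finsupp.single P (z P) :=
        fun P hP => by rw [hyφ, hc2 P hP]
      rw [Finset.sum_congr rfl h2]
      exact Finsupp.sum_single z
    have hB : ∑ w ∈ S', Finsupp.single (y w) (if w ∈ S then m w else -(m' w)) =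
        Finsupp.single (0 : Pt W Ω) (-dg z) := by
      have h1 : ∀ w ∈ S', Finsupp.single (y w) (if w ∈ S then m w else -(m' w)) =
          Finsupp.single (0 : Pt W Ω) (-(m' w)) := by
        intro w hw
        rw [if_neg (fun h2 => Finset.disjoint_left.1 hdisj h2 hw), hS0 w hw, hy0]
      rw [Finset.sum_congr rfl h1, ← Finsupp.single_finsetSum, Finset.sum_neg_distrib, hsum',
        hc3, dvA_dg]
    change z - Finsupp.single (0 : Pt W Ω) (dg z) = _
    rw [Finset.sum_union hdisj]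
    refine Eq.trans ?_ (congrArg₂ (· + ·) hA hB).symm
    rw [Finsupp.single_neg, sub_eq_add_neg]

theorem lg_dv [Algebra.IsAlgebraic M Ω] (h : Qd s η (TW W M) (NW W M) σ) {a b : M[X]}
    (hab : ¬(a = 0 ∧ b = 0)) (z : Pt W Ω →₀ ℤ) (h0 : ∀ P, 0 ≤ z P) (h00 : z 0 = 0)
    (hd : (2 * a.natDegree : ℤ) ≤ dg z) (hd' : b ≠ 0 → (2 * b.natDegree + 3 : ℤ) ≤ dg z)
    (hz : ∀ (w : Place M E Ω) (P : Pt W Ω) (k : ℤ), P ≠ 0 → Pt.Red W w (gp h) P →
      w.IsOrd (aeval s a + aeval s b * η) k → z P ≤ k) :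
    PvT (Ev W) M Ω {Q : Pt W Ω | Q = 0 ∨ z Q ≠ 0} (z - Finsupp.single (0 : Pt W Ω) (dg z)) := by
  have hf : aeval s a + aeval s b * η ≠ 0 := fun hf => hab (fw_indep h hf)
  obtain ⟨w₀, hw₀, h1, h2⟩ := dv_inf (Ω := Ω) h
  obtain ⟨hp, d, hd1, hd2⟩ := dv_pole h hab hw₀ h1 h2
  refine lgA_main h hf ((hw₀ w₀).2 rfl) hp hd1 z h0 h00 ?_ hz
  rcases hd2 with h3 | ⟨h3, h4⟩
  · omega
  · have h5 := hd' h3
    omega

end dv

section ab

variable {F : Type} [Field F] {W : WeierstrassCurve F} [W.IsElliptic] {K Ω : Type} [Field K]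
  [CharZero K] [Field Ω] [Algebra K Ω] [Algebra F K] [Algebra F Ω] [IsScalarTower F K Ω]
  [IsAlgClosure K Ω]

theorem lg_rat (l : List (Pt W K)) (h0 : ∀ P ∈ l, P ≠ 0) (hsum : l.sum = 0) :
    PvT (Ev W) K Ω {Q : Pt W Ω | Q = 0 ∨ ∃ P ∈ l, Q = Pt.map W (IsScalarTower.toAlgHom F K Ω) P}
      ((l.map fun P => Finsupp.single
        (Pt.map W (IsScalarTower.toAlgHom F K Ω) P) (1 : ℤ)).sum -
          Finsupp.single (0 : Pt W Ω) (l.length : ℤ)) := by
  classical
  have : IsAlgClosed Ω := IsAlgClosure.isAlgClosed K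
  have : Algebra.IsAlgebraic K Ω := IsAlgClosure.isAlgebraic
  obtain ⟨E, i1, i2, i3, i4, x, η, σ, hq⟩ := aba_fw W K
  obtain ⟨φ, hφ⟩ : ∃ φ : Pt W K → Pt W Ω, φ = Pt.map W (IsScalarTower.toAlgHom F K Ω) := ⟨_, rfl⟩
  have hφi : Function.Injective φ := by
    rw [hφ]
    exact WeierstrassCurve.Affine.Point.map_injective _
  have hφ0 : ∀ P, P ≠ 0 → φ P ≠ 0 := by
    intro P hP h
    apply hP
    apply hφi
    rw [h, hφ, map_zero]
  obtain ⟨a, b, hab, ha, hb, hI⟩ := cls (W := W.baseChange K) l h0 hsum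
  obtain ⟨z, hz⟩ : ∃ z : Pt W Ω →₀ ℤ, z = (l.map fun P => Finsupp.single (φ P) (1 : ℤ)).sum :=
    ⟨_, rfl⟩
  have hzv : ∀ Q, z Q = (l.countP fun P => φ P = Q) := by
    intro Q
    rw [hz]
    have : ∀ l : List (Pt W K), (l.map fun P => Finsupp.single (φ P) (1 : ℤ)).sum Q =
        (l.countP fun P => φ P = Q) := by
      intro l
      induction l with
      | nil => simp
      | cons P l ih =>
        rw [List.map_cons, List.sum_cons, Finsupp.add_apply, ih, List.countP_cons,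
          Finsupp.single_apply]
        simp only [decide_eq_true_eq]
        split_ifs
        · push_cast
          ring
        · push_cast
          ring
    exact this l
  have hdg : dg z = l.length := by
    rw [hz]
    have : ∀ l : List (Pt W K), dg (l.map fun P => Finsupp.single (φ P) (1 : ℤ)).sum =
        l.length := by
      intro l
      induction l with
      | nil => simp
      | cons P l ih =>
        rw [List.map_cons, List.sum_cons, map_add, ih, List.length_cons]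
        have : dg (Finsupp.single (φ P) (1 : ℤ)) = 1 := by
          unfold dg
          rw [Finsupp.liftAddHom_apply_single]
          rfl
        rw [this]
        push_cast
        ring
    exact this l
  rw [← hφ, ← hz, ← hdg]
  refine pvT_mono (T := {Q : Pt W Ω | Q = 0 ∨ z Q ≠ 0}) ?_ (lg_dv hq hab z ?_ ?_ ?_ ?_ ?_)
  · rintro Q (hQ | hQ)
    · exact Or.inl hQ
    · right
      rw [hzv, Ne, Nat.cast_eq_zero, ← Ne, ← Nat.pos_iff_ne_zero, List.countP_pos_iff] at hQ
      obtain ⟨P, hP, hPQ⟩ := hQ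
      simp only [decide_eq_true_eq] at hPQ
      exact ⟨P, hP, hPQ.symm⟩
  · intro P
    rw [hzv]
    positivity
  · rw [hzv, Nat.cast_eq_zero, List.countP_eq_zero]
    intro P hP
    simpa using hφ0 P (h0 P hP)
  · rw [hdg]
    exact_mod_cast ha
  · intro h
    rw [hdg]
    exact_mod_cast hb h
  · intro w Q k hQ hr hk
    obtain ⟨h1, h2, h3, hQ'⟩ := aba_red hq hQ hr
    obtain ⟨h4, h5⟩ := aba_res w h1 h2 a b
    by_cases h6 : ∃ P ∈ l, φ P = Q
    · obtain ⟨P, hP, hPQ⟩ := h6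
      have h7 : z Q = l.count P := by
        rw [hzv, ← hPQ]
        congr 1
        rw [List.count_eq_countP]
        refine List.countP_congr fun P' _ => ?_
        simp only [decide_eq_true_eq, beq_iff_eq]
        exact hφi.eq_iff
      rw [h7]
      obtain hP0 | ⟨x₀, y₀, hn, hPe⟩ := Pn.cases' (W := W.baseChange K) P
      · exact (h0 P hP hP0).elim
      · have h8 : ∃ h', Q = Pt.aff (algebraMap K Ω x₀) (algebraMap K Ω y₀) h' := by
          rw [← hPQ, hPe, hφ]
          exact ⟨_, rfl⟩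
        obtain ⟨h9, h10⟩ := h8
        obtain ⟨h11, h12⟩ : w.res ⟨x, h1⟩ = algebraMap K Ω x₀ ∧
            w.res ⟨η, h2⟩ = algebraMap K Ω y₀ :=
          Pn.aff_inj (W := W.baseChange Ω) (h := h3) (h' := h9) (hQ'.symm.trans h10)
        have hord := abb_ord (W := W) hq h1 h2 (hn := hn) h11 h12 hI
        rw [hPe]
        exact aba_pow hord (by
          rw [abb_coe]
          exact hk)
    · have h7 : z Q = 0 := by
        rw [hzv, Nat.cast_eq_zero, List.countP_eq_zero]
        intro P hP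
        simp only [decide_eq_true_eq]
        exact fun h => h6 ⟨P, hP, h⟩
      rw [h7]
      exact aba_nonneg hk h4

end ab

end DN
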