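import Pool.Agent.Lib.MP_f80667_ag.Do.Gr
import Pool.Agent.Lib.MP_f80667_ag.Do.LgA
import Pool.Agent.Lib.MP_f80667_ag.Pe.Ab

/-! Abel's theorem for rational points with control of the values. -/

open ZC BE PE CV Polynomial

namespace DN

variable {F : Type} [Field F] {W : WeierstrassCurve F} [W.IsElliptic] {K Ω : Type} [Field K]
  [CharZero K] [Field Ω] [Algebra K Ω] [Algebra F K] [Algebra F Ω] [IsScalarTower F K Ω]
  [IsAlgClosure K Ω]

/-- **Abel's theorem with control of the values.** Proof: copy of `abb_rat` (`Pe/AbB.lean`) with copies of `dv` (`Pe/Dv.lean`) and `dvA_main` (`Pe/DvA.lean`) which give `Gn` instead of `Pv`: the places used there are the place at infinity (value `0`) and the places with a value in the support of `z`, each value is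
taken at one place; a `Pv` whose point is over `E` gives a point over the algebraic closure of `E` as in `pv_ratEq_ev`. -/
theorem gn_rat (l : List (Pt W K)) (h0 : ∀ P ∈ l, P ≠ 0) (hsum : l.sum = 0) :
    Gn (Ev W) K Ω {Q : Pt W Ω | Q = 0 ∨ ∃ P ∈ l, Q = Pt.map W (IsScalarTower.toAlgHom F K Ω) P}
      ((l.map fun P => Finsupp.single
        (Pt.map W (IsScalarTower.toAlgHom F K Ω) P) (1 : ℤ)).sum -
          Finsupp.single (0 : Pt W Ω) (l.length : ℤ)) := by
  have : IsAlgClosed Ω := IsAlgClosure.isAlgClosed K
  exact pvT_gn (lg_rat l h0 hsum)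

end DN
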