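import Pool.Agent.Lib.MP_f80667_ag.Do.Rp
import Pool.Agent.Lib.MP_f80667_ag.Do.Lg

/-! Multiples of a point on one factor. -/

open ZC BE PE CV NE

namespace DN

variable {F F' : Type} [Field F] [Field F'] [Algebra F F'] {N n : ℕ} {ι : Type}
  {f : ι → MvPolynomial (Fin N) F} {W : Fin n → WeierstrassCurve F'} [∀ i, (W i).IsElliptic]
  {Φ : Fin N → MvPolynomial (Fin n ⊕ Fin n) F'} {h : MvPolynomial (Fin N) F} {D : ℕ} {K Ω : Type}
  [Field K] [CharZero K] [Field Ω] [Algebra K Ω] [IsAlgClosure K Ω] [Algebra F K] [Algebra F Ω]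
  [IsScalarTower F K Ω] [Algebra F' K] [Algebra F' Ω] [IsScalarTower F' K Ω]
  [IsScalarTower F F' K] [IsScalarTower F F' Ω]

/-- The point `Q` of the factor number `i` in the product. -/
noncomputable def il {L : Type} [Field L] [Algebra F' L] (i : Fin n) (Q : Pt (W i) L) :
    ∀ j, Pt (W j) L :=
  Pi.single (M := fun j => Pt (W j) L) i Q

omit [Algebra F F'] [∀ i, (W i).IsElliptic] [CharZero K] [IsAlgClosure K Ω] [Algebra F K]
  [Algebra F Ω] [IsScalarTower F K Ω] [IsScalarTower F F' K] [IsScalarTower F F' Ω] in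
private theorem stp_up (P : ∀ i, Pt (W i) K) (i : Fin n) (c : Pt (W i) K) :
    up Ω (P + il i c) =
      il i (Pt.map (W i) (IsScalarTower.toAlgHom F' K Ω) c) + up Ω P := by
  funext j
  change Pt.map (W j) (IsScalarTower.toAlgHom F' K Ω) (P j + il i c j) =
    il i (Pt.map (W i) (IsScalarTower.toAlgHom F' K Ω) c) j +
      Pt.map (W j) (IsScalarTower.toAlgHom F' K Ω) (P j)
  rw [map_add, add_comm]
  congr 1
  rcases eq_or_ne j i with rfl | h
  · unfold il
    rw [Pi.single_eq_same, Pi.single_eq_same]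
  · unfold il
    rw [Pi.single_eq_of_ne h, Pi.single_eq_of_ne h]
    exact map_zero (Pt.map (W j) (IsScalarTower.toAlgHom F' K Ω))

omit [∀ i, (W i).IsElliptic] in
private theorem stp_sc (i : Fin n) :
    (CV.sc (fun j => bpE (W j)) i).f Ω = (il i : Pt (W i) Ω → ∀ j, Pt (W j) Ω) := by
  funext x j
  unfold il
  rcases eq_or_ne j i with rfl | h
  · rw [Pi.single_eq_same]
    exact @Function.update_self (Fin n) (fun j => Pt (W j) Ω)
      (fun a b => Classical.propDecidable (a = b)) j x (fun j => 0)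
  · rw [Pi.single_eq_of_ne h]
    exact @Function.update_of_ne (Fin n) (fun j => Pt (W j) Ω)
      (fun a b => Classical.propDecidable (a = b)) j i h x (fun j => 0)

private theorem stp_list (hD : Dom f W Φ h D) (o : (GX.Xf f).pt Ω) (P : ∀ i, Pt (W i) K)
    (i : Fin n) (l : List (Pt (W i) K)) (h0 : ∀ Q ∈ l, Q ≠ 0) (hsum : l.sum = 0)
    (hz : up Ω P ∈ Dn W Φ Ω) (hl : ∀ Q ∈ l, up Ω (P + il i Q) ∈ Dn W Φ Ω) :
    (l.map fun Q => Finsupp.single (fv o Φ (up Ω (P + il i Q))) (1 : ℤ)).sum -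
      Finsupp.single (fv o Φ (up Ω P)) (l.length : ℤ) ∈ (GX.Xf f).ratEq K Ω := by
  have hac : IsAlgClosed Ω := IsAlgClosure.isAlgClosed K
  have h1 := gn_rat (F := F') (W := W i) (K := K) (Ω := Ω) l h0 hsum
  have h2 := gn_mo (CV.sc (fun j => bpE (W j)) i) h1
  rw [stp_sc] at h2
  have h3 := gn_tr P h2
  have e0 : (il i (0 : Pt (W i) Ω) : ∀ j, Pt (W j) Ω) = 0 := by
    unfold il
    exact Pi.single_zero i
  have h4 := gn_rp hD o (by
    rintro _ ⟨_, ⟨Q, hQ, rfl⟩, rfl⟩
    change il i Q + up Ω P ∈ Dn W Φ Ω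
    rcases hQ with rfl | ⟨R, hR, rfl⟩
    · rw [e0, zero_add]
      exact hz
    · rw [← stp_up]
      exact hl R hR) h3
  have e3 : ∀ z : Pt (W i) Ω →₀ ℤ,
      Finsupp.mapDomain (fv o Φ) (Finsupp.mapDomain (fun Q : ∀ j, Pt (W j) Ω => Q + up Ω P)
        (Finsupp.mapDomain (il i : Pt (W i) Ω → ∀ j, Pt (W j) Ω) z)) =
      Finsupp.mapDomain.addMonoidHom (fun x : Pt (W i) Ω => fv o Φ (il i x + up Ω P)) z := by
    intro z
    rw [← Finsupp.mapDomain_comp, ← Finsupp.mapDomain_comp]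
    rfl
  have h5 : Finsupp.mapDomain.addMonoidHom (fun x : Pt (W i) Ω => fv o Φ (il i x + up Ω P))
      ((l.map fun Q => Finsupp.single
        (Pt.map (W i) (IsScalarTower.toAlgHom F' K Ω) Q) (1 : ℤ)).sum -
          Finsupp.single (0 : Pt (W i) Ω) (l.length : ℤ)) ∈ (GX.Xf f).ratEq K Ω := by
    rw [← e3]
    exact h4
  rw [map_sub, map_list_sum, List.map_map] at h5
  have e1 : (⇑(Finsupp.mapDomain.addMonoidHom (M := ℤ)
        (fun x : Pt (W i) Ω => fv o Φ (il i x + up Ω P))) ∘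
      fun Q => Finsupp.single (Pt.map (W i) (IsScalarTower.toAlgHom F' K Ω) Q) (1 : ℤ)) =
      fun Q => Finsupp.single (fv o Φ (up Ω (P + il i Q))) (1 : ℤ) := by
    funext Q
    rw [Function.comp_apply, stp_up]
    exact Finsupp.mapDomain_single
  have e2 : Finsupp.mapDomain.addMonoidHom (fun x : Pt (W i) Ω => fv o Φ (il i x + up Ω P))
      (Finsupp.single (0 : Pt (W i) Ω) (l.length : ℤ)) =
      Finsupp.single (fv o Φ (up Ω P)) (l.length : ℤ) := by
    refine Finsupp.mapDomain_single.trans ?_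
    rw [e0, zero_add]
  rw [e1, e2] at h5
  exact h5

/-- Proof: `gn_rat` for the lists `c, ..., c, - m c` and `m c, - m c`, `gn_mo` for the embedding of the factor number `i` (`CV.sc` for the base points `0`: `bpE`), `gn_tr` for `P`, `gn_rp`; subtract. -/
theorem stp (hD : Dom f W Φ h D) (o : (GX.Xf f).pt Ω) {m : ℕ} (P : ∀ i, Pt (W i) K) (i : Fin n)
    (c : Pt (W i) K) (hc : c ≠ 0) (hmc : m • c ≠ 0)
    (h1 : up Ω P ∈ Dn W Φ Ω) (h2 : up Ω (P + il i c) ∈ Dn W Φ Ω)
    (h3 : up Ω (P + il i (m • c)) ∈ Dn W Φ Ω) (h4 : up Ω (P + il i (-(m • c))) ∈ Dn W Φ Ω) :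
    Finsupp.single (fv o Φ (up Ω (P + il i (m • c)))) 1 - Finsupp.single (fv o Φ (up Ω P)) 1 -
      m • (Finsupp.single (fv o Φ (up Ω (P + il i c))) 1 - Finsupp.single (fv o Φ (up Ω P)) 1) ∈
        (GX.Xf f).ratEq K Ω := by
  have hneg : -(m • c) ≠ 0 := neg_ne_zero.2 hmc
  have k1 := stp_list hD o P i (List.replicate m c ++ [-(m • c)])
    (by
      intro Q hQ
      rcases List.mem_append.1 hQ with hQ | hQ
      · rw [List.eq_of_mem_replicate hQ]
        exact hc
      · rw [List.mem_singleton.1 hQ]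
        exact hneg)
    (by rw [List.sum_append, List.sum_replicate, List.sum_singleton, add_neg_cancel]) h1
    (by
      intro Q hQ
      rcases List.mem_append.1 hQ with hQ | hQ
      · rw [List.eq_of_mem_replicate hQ]
        exact h2
      · rw [List.mem_singleton.1 hQ]
        exact h4)
  have k2 := stp_list hD o P i [m • c, -(m • c)]
    (by
      intro Q hQ
      rcases List.mem_pair.1 hQ with rfl | rfl
      · exact hmc
      · exact hneg)
    (by rw [List.sum_cons, List.sum_singleton, add_neg_cancel]) h1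
    (by
      intro Q hQ
      rcases List.mem_pair.1 hQ with rfl | rfl
      · exact h3
      · exact h4)
  have k3 := (GX.Xf f).ratEq K Ω |>.sub_mem k2 k1
  rw [List.map_append, List.sum_append, List.map_replicate, List.sum_replicate, List.length_append,
    List.length_replicate] at k3
  simp only [List.map_cons, List.map_nil, List.sum_cons, List.sum_nil, List.length_cons,
    List.length_nil, add_zero, zero_add] at k3
  have e : ∀ a : ℕ, Finsupp.single (fv o Φ (up Ω P)) (a : ℤ) =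
      a • Finsupp.single (fv o Φ (up Ω P)) (1 : ℤ) := by
    intro a
    rw [Finsupp.smul_single, nsmul_one]
  rw [e, e] at k3
  have e4 : ∀ A B C D : (GX.Xf f).pt Ω →₀ ℤ,
      A - B - m • (C - B) = A + D - (1 + 1) • B - (m • C + D - (m + 1) • B) := by
    intro A B C D
    rw [smul_sub, add_smul, add_smul, one_smul]
    abel
  rw [e4]
  exact k3

end DN
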