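import Pool.Agent.Lib.MP_f80667_ag.Do.Cnd
import Pool.Agent.Lib.MP_f80667_ag.Sp.Gl

/-! Products of elliptic curves over an extension of the completion: the prime numbers in `Plc`. -/

open ZC BE PE Polynomial IntermediateField IsDedekindDomain NumberField CV NE

namespace DN

variable {F : Type} [Field F] [NumberField F] {K Ω : Type} [Field K] [CharZero K] [Field Ω]
  [Algebra K Ω] [IsAlgClosure K Ω] [Algebra F K] [Algebra F Ω] [IsScalarTower F K Ω]

/-- Proof: as `dv_pl` (`Sp/Gl.lean`). `w.valuation l = 1`: as `dv_ne` (`Sp/Nf.lean`): `l ≠ L.p` because `nm l = 1`; `loc_po` with `po_five`, `po_ss` (`gdw`), `jcw`. `w.valuation l < 1`: `nm l < 1` and `nm L.p < 1` imply `L.p = l` (otherwise `a l + b p = 1`); `hW.unr`: `w.valuation l = exp (-1)`, so `c = nm l` and `hv` says that `L.Unr` holds; `loc_ss` for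
`C i • W i` (`gdw`, `jv_vc`, `jcw`), `dvG_vc`. -/
theorem dvG_plc {n : ℕ} {W : Fin n → WeierstrassCurve F} [∀ i, (W i).IsElliptic] {l : ℕ}
    (hW : Plc W l) (L : Ld K Ω) (w : HeightOneSpectrum (𝓞 F)) {c : ℝ} (h0 : 0 < c) (h1 : c < 1)
    (hL : ∀ (x : F) (n : ℤ), w.valuation F x = WithZero.exp (-n) → L.nm (algebraMap F Ω x) = c ^ n)
    (hv : ∀ x : K, x ≠ 0 → ∃ n : ℤ, L.nm (algebraMap K Ω x) = c ^ n) :
    DvG (fun i => Ev (W i)) K Ω l := by
  have hle : w.valuation F (l : F) ≤ 1 := by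
    have e : (l : F) = algebraMap (𝓞 F) F (l : 𝓞 F) := (map_natCast _ l).symm
    rw [e]
    exact w.valuation_le_one _
  rcases hle.lt_or_eq with h2 | h2
  · have hnl : L.nm (l : Ω) = c := by
      have h3 := hL (l : F) 1 (hW.unr w h2)
      rwa [map_natCast, zpow_one] at h3
    have hlp : l = L.p := by
      by_contra hne
      have h3 : ¬ L.p ∣ l := fun hd => hne ((Nat.prime_dvd_prime_iff_eq L.pp hW.pr).1 hd).symm
      have h4 := L.nat_unit h3
      rw [hnl] at h4
      exact h1.ne h4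
    have hU : L.Unr := by
      refine ⟨fun x hx => ?_⟩
      obtain ⟨m, hm⟩ := hv x hx
      exact ⟨m, by rw [hm, ← hlp, hnl]⟩
    choose C hC1 hC2 using hW.ss w (Or.inl h2)
    refine dvG_vc C ?_
    rw [hlp]
    refine loc_ss L (by rw [← hlp]; exact hW.odd) (fun i => gdw h0 h1 hL (hC1 i) (hC2 i))
      fun i => ?_
    rw [← hlp]
    exact jcw (jv_vc (C i) (hW.jv' w i)) h0 h1 hL hv
  · have hlp : l ≠ L.p := by
      intro h3
      have h4 := hL (l : F) 0 (by rw [h2, neg_zero, WithZero.exp_zero])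
      rw [map_natCast, zpow_zero, h3] at h4
      exact absurd L.lt (not_lt.2 h4.ge)
    refine loc_po L hW.pr (fun i => ?_) hlp fun i => jcw (hW.jv' w i) h0 h1 hL hv
    rcases le_or_gt 5 l with h5 | h5
    · exact po_five L (W i) hW.pr h5
    · have h3 : l = 3 := by
        have h4 : l ≠ 4 := by
          rintro rfl
          exact absurd hW.pr (by norm_num)
        have h6 := hW.pr.two_le
        have h7 := hW.odd
        omega
      obtain ⟨C, hi, h8⟩ := hW.ss w (Or.inr h3) i
      exact po_ss L hW.pr hW.odd (W i) C (gdw h0 h1 hL hi h8)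

end DN
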