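import Pool.Agent.Lib.MP_f80667_ag.Pe.Cp
import Pool.Agent.Lib.MP_f80667_ag.Do.Fv
import Pool.Agent.Lib.MP_f80667_ag.Do.InpA

/-! Elliptic curves over local fields have infinitely many points. -/

open ZC BE PE CV NE

namespace DN

open Classical in
private theorem inp_inj {F L M : Type} [Field F] [Field L] [Field M] [Algebra F L] [Algebra F M]
    (W : WeierstrassCurve F) (j : L →ₐ[F] M) : Function.Injective (Pt.map W j) :=
  WeierstrassCurve.Affine.Point.map_injective _

/-- Proof: let `t = p ^ k`, `k` large (so that `nm t < nm 4` and the numbers `a_i t` below have a norm `≤ nm 4 ^ 2 < 1`; all `a_i` have finite norms). A point `(t⁻², s t⁻³)` is on the curve if and only if `s ^ 2 + (a₁ t + a₃ t ^ 3) s = 1 + a₂ t ^ 2 + a₄ t ^ 4 + a₆ t ^ 6`. Let `s` in `Ω` be a root, `s' = - s - a₁ t - a₃ t ^ 3` the other root;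
`(s - 1) (s + 1)` is small, so `nm (s - 1) < nm 2` or `nm (s + 1) < nm 2`, in the second case exchange `s` and `s'`. Then `nm (s' - 1) = nm 2`. An automorphism `γ` over `K` maps `s` to `s` or `s'` and preserves the norm (`L.act`), `nm (γ s - 1) = nm (s - 1) < nm 2`, so `γ s = s`: `s` is in `K`
(`mem_of_fix` or `InfiniteGalois.mem_range_algebraMap_iff_fixed`). Different `k` give different `x`. -/
theorem inf_pt {F K Ω : Type} [Field F] [Field K] [CharZero K] [Field Ω] [Algebra K Ω]
    [IsAlgClosure K Ω] [Algebra F K] [Algebra F Ω] [IsScalarTower F K Ω] (L : Ld K Ω)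
    (W : WeierstrassCurve F) [W.IsElliptic] : Infinite (Pt W K) := by
  have : Infinite (Pt W (⊥ : IntermediateField K Ω)) :=
    Inpa.infinite_pt L.toLf (⊥ : IntermediateField K Ω) W
  exact Infinite.of_injective _ (inp_inj W (((IntermediateField.botEquiv K Ω).toAlgHom).restrictScalars
    F : (⊥ : IntermediateField K Ω) →ₐ[F] K))

end DN
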