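import Pool.Agent.Lib.MP_f80667_ag.Pe.GlE

/-! The absolute value of the completion of a number field: the number field is dense. -/

open ZC BE PE IsDedekindDomain NumberField

namespace DN

open HeightOneSpectrum in
/-- The number field is dense in its completion. -/
private theorem dns_lt {F : Type} [Field F] [NumberField F] (v : HeightOneSpectrum (𝓞 F))
    (x : v.adicCompletion F) {z : v.adicCompletion F} (hz : z ≠ 0) :
    ∃ y : F, (Valued.v (x - algebraMap F (v.adicCompletion F) y) : WithZero (Multiplicative ℤ)) <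
      Valued.v z := by
  have hs : {w : v.adicCompletion F |
      (Valued.v (w - x) : WithZero (Multiplicative ℤ)) < Valued.v z} ∈ nhds x := by
    rw [Valued.mem_nhds]
    have h' : (Valued.v : Valuation (v.adicCompletion F) (WithZero (Multiplicative ℤ))).restrict z
        ≠ 0 := by simp [hz]
    refine ⟨Units.mk0 _ h', fun w hw => ?_⟩
    rw [Set.mem_ofPred_eq, Units.val_mk0] at hw
    exact (Valuation.restrict_lt_iff _).1 hw
  obtain ⟨y, hy⟩ := (denseRange_algebraMap (R := 𝓞 F) F v).mem_nhds hs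
  refine ⟨y, ?_⟩
  rw [Valuation.map_sub_swap]
  exact hy

open Pool.Agent.Lib.MP_f80667_ag.LF IsLocalRing HeightOneSpectrum in
private theorem LdD_ad (F : Type) [Field F] [NumberField F] (v : HeightOneSpectrum (𝓞 F)) :
    ∃ (L : Lf (v.adicCompletion F) (AlgebraicClosure (v.adicCompletion F))) (c : ℝ), 0 < c ∧
      c < 1 ∧
      (∀ (x : F) (n : ℤ), v.valuation F x = WithZero.exp (-n) →
        L.nm (algebraMap F _ x) = c ^ n) ∧
      (∀ x : v.adicCompletion F, x ≠ 0 → ∃ n : ℤ, L.nm (algebraMap _ _ x) = c ^ n) ∧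
      (∀ M : IntermediateField (v.adicCompletion F) (AlgebraicClosure (v.adicCompletion F)),
        FiniteDimensional (v.adicCompletion F) M → ∀ r : ℝ, 0 ≤ r → r < 1 →
        ∀ x : ℕ → AlgebraicClosure (v.adicCompletion F), (∀ n, x n ∈ M) →
        (∀ n, L.nm (x (n + 1) - x n) ≤ r ^ n) → ∃ y ∈ M, ∀ n, L.nm (y - x n) ≤ r ^ n) ∧
      ∀ (x : v.adicCompletion F) (ε : ℝ), 0 < ε →
        ∃ y : F, L.nm (algebraMap _ _ x - algebraMap F _ y) < ε := by
  obtain ⟨L, hL, hcpl⟩ := LdA_R (v.adicCompletionIntegers F) (v.adicCompletion F)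
    (AlgebraicClosure (v.adicCompletion F))
  have hmem : ∀ x : v.adicCompletion F, L.nm (algebraMap _ _ x) ≤ 1 ↔
      Valued.v x ≤ (1 : WithZero (Multiplicative ℤ)) := by
    intro x
    rw [hL, ← mem_adicCompletionIntegers]
    constructor
    · rintro ⟨y, rfl⟩
      exact y.2
    · intro h
      exact ⟨⟨x, h⟩, rfl⟩
  have hone : L.nm (1 : AlgebraicClosure (v.adicCompletion F)) = 1 := by
    have h := L.mul 1 1
    rw [mul_one] at h
    have h0 : L.nm (1 : AlgebraicClosure (v.adicCompletion F)) ≠ 0 := fun h' =>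
      one_ne_zero ((L.zero_iff _).1 h')
    exact (mul_eq_left₀ h0).1 h.symm
  have hmul : ∀ x y : v.adicCompletion F, L.nm (algebraMap _ _ (x * y)) =
      L.nm (algebraMap _ _ x) * L.nm (algebraMap _ _ y) := by
    intro x y
    rw [map_mul, L.mul]
  have hinv : ∀ x : v.adicCompletion F, x ≠ 0 →
      L.nm (algebraMap _ _ x) * L.nm (algebraMap _ _ x⁻¹) = 1 := by
    intro x hx
    rw [← hmul, mul_inv_cancel₀ hx, map_one, hone]
  have hunit : ∀ x : v.adicCompletion F, Valued.v x = (1 : WithZero (Multiplicative ℤ)) →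
      L.nm (algebraMap _ _ x) = 1 := by
    intro x hx
    have hx0 : x ≠ 0 := by
      rintro rfl
      rw [map_zero] at hx
      exact zero_ne_one hx
    have h1 := (hmem x).2 hx.le
    have h2 := (hmem x⁻¹).2 (by rw [map_inv₀, hx, inv_one])
    have h3 := hinv x hx0
    nlinarith [L.nonneg (algebraMap _ (AlgebraicClosure (v.adicCompletion F)) x),
      L.nonneg (algebraMap _ (AlgebraicClosure (v.adicCompletion F)) x⁻¹)]
  have hval : ∀ z : F, Valued.v (algebraMap F (v.adicCompletion F) z) = v.valuation F z :=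
    fun z => valuedAdicCompletion_eq_valuation' v z
  obtain ⟨ϖ, hϖ⟩ := v.valuation_exists_uniformizer F
  have hϖ' : Valued.v (algebraMap F (v.adicCompletion F) ϖ) =
      (WithZero.exp (-1) : WithZero (Multiplicative ℤ)) := by
    rw [hval]
    exact hϖ
  have hϖ0 : algebraMap F (v.adicCompletion F) ϖ ≠ 0 := by
    intro h
    rw [h, map_zero] at hϖ'
    exact WithZero.exp_ne_zero hϖ'.symm
  set c : ℝ := L.nm (algebraMap _ _ (algebraMap F (v.adicCompletion F) ϖ)) with hc
  have hc0 : 0 < c := by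
    refine lt_of_le_of_ne (L.nonneg _) fun h => hϖ0 ?_
    have h1 := (L.zero_iff _).1 h.symm
    rwa [map_eq_zero] at h1
  have hc1 : c < 1 := by
    have h1 : c ≤ 1 := (hmem _).2 (by
      rw [hϖ', ← WithZero.exp_zero, WithZero.exp_le_exp]
      norm_num)
    refine lt_of_le_of_ne h1 fun h => ?_
    have h3 := hinv _ hϖ0
    rw [← hc, h, one_mul] at h3
    have h4 := (hmem _).1 h3.le
    rw [map_inv₀, hϖ', ← WithZero.exp_neg, ← WithZero.exp_zero, WithZero.exp_le_exp] at h4
    norm_num at h4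
  have hzp : ∀ n : ℤ, L.nm (algebraMap _ _ (algebraMap F (v.adicCompletion F) ϖ ^ n)) = c ^ n := by
    have hnat : ∀ n : ℕ, L.nm (algebraMap _ _ (algebraMap F (v.adicCompletion F) ϖ ^ n)) =
        c ^ n := by
      intro n
      induction n with
      | zero => rw [pow_zero, pow_zero, map_one, hone]
      | succ n ih => rw [pow_succ, pow_succ, hmul, ih]
    intro n
    obtain ⟨m, rfl | rfl⟩ := n.eq_nat_or_neg
    · rw [zpow_natCast, zpow_natCast, hnat]
    · rw [zpow_neg, zpow_neg, zpow_natCast, zpow_natCast, ← hnat]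
      exact eq_inv_of_mul_eq_one_right (hinv _ (pow_ne_zero m hϖ0))
  have hkey : ∀ (x : v.adicCompletion F) (n : ℤ),
      Valued.v x = (WithZero.exp (-n) : WithZero (Multiplicative ℤ)) →
      L.nm (algebraMap _ _ x) = c ^ n := by
    intro x n hx
    have h1 : x = x * algebraMap F (v.adicCompletion F) ϖ ^ (-n) *
        algebraMap F (v.adicCompletion F) ϖ ^ n := by
      rw [mul_assoc, ← zpow_add₀ hϖ0, neg_add_cancel, zpow_zero, mul_one]
    rw [h1, hmul, hzp, hunit, one_mul]
    rw [map_mul, map_zpow₀, hx, hϖ', ← WithZero.exp_zsmul, ← WithZero.exp_add,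
      ← WithZero.exp_zero, WithZero.exp_inj]
    simp
  have h1 : ∀ (x : F) (n : ℤ), v.valuation F x = WithZero.exp (-n) →
      L.nm (algebraMap F _ x) = c ^ n := by
    intro x n hx
    rw [IsScalarTower.algebraMap_apply F (v.adicCompletion F) (AlgebraicClosure
      (v.adicCompletion F)) x]
    refine hkey _ n ?_
    rw [hval]
    exact hx
  refine ⟨L, c, hc0, hc1, h1, ?_, hcpl, ?_⟩
  swap
  · intro x ε hε
    obtain ⟨N, hN⟩ := exists_pow_lt_of_lt_one hε hc1
    obtain ⟨y, hy⟩ := dns_lt v x (pow_ne_zero N hϖ0)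
    refine ⟨y, ?_⟩
    rw [IsScalarTower.algebraMap_apply F (v.adicCompletion F) (AlgebraicClosure
      (v.adicCompletion F)) y, ← map_sub]
    have e1 : x - algebraMap F (v.adicCompletion F) y =
        (x - algebraMap F (v.adicCompletion F) y) *
          (algebraMap F (v.adicCompletion F) ϖ ^ N)⁻¹ *
          algebraMap F (v.adicCompletion F) ϖ ^ N := by
      rw [mul_assoc, inv_mul_cancel₀ (pow_ne_zero N hϖ0), mul_one]
    have e2 : L.nm (algebraMap _ _ (algebraMap F (v.adicCompletion F) ϖ ^ N)) = c ^ N := by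
      have e3 := hzp (N : ℤ)
      rw [zpow_natCast, zpow_natCast] at e3
      exact e3
    rw [e1, hmul, e2]
    have e4 : L.nm (algebraMap _ (AlgebraicClosure (v.adicCompletion F))
        ((x - algebraMap F (v.adicCompletion F) y) *
          (algebraMap F (v.adicCompletion F) ϖ ^ N)⁻¹)) ≤ 1 := by
      rw [hmem, map_mul, map_inv₀]
      exact (mul_inv_le_one_of_le₀ hy.le zero_le)
    refine lt_of_le_of_lt ?_ hN
    exact mul_le_of_le_one_left (pow_nonneg hc0.le N) e4
  intro x hx
  have h0 : (Valued.v x : WithZero (Multiplicative ℤ)) ≠ 0 := (Valuation.ne_zero_iff _).2 hx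
  refine ⟨-WithZero.log (Valued.v x : WithZero (Multiplicative ℤ)), hkey x _ ?_⟩
  rw [neg_neg, WithZero.exp_log h0]

/-- Proof: `exists_ldE` (`Pe/GlE.lean`) with a copy of `LdA_ad` (`Pe/LdA.lean`) which gives in addition the last property: `hkey` there says `nm x = c ^ n` if `Valued.v x = exp (- n)`; choose `n` with `c ^ n < ε` and `y` in `F` with `Valued.v (x - y) < exp (- n)` (`F` is dense in its completion). -/
theorem exists_ldD {F : Type} [Field F] [NumberField F] (v : HeightOneSpectrum (𝓞 F)) :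
    ∃ (L : Ld (FK F v) (AlgebraicClosure (FK F v))) (c : ℝ), 0 < c ∧ c < 1 ∧
      (∀ (x : F) (n : ℤ), v.valuation F x = WithZero.exp (-n) → L.nm (algebraMap F _ x) = c ^ n) ∧
      (∀ x : FK F v, x ≠ 0 → ∃ n : ℤ, L.nm (algebraMap _ _ x) = c ^ n) ∧
      ∀ (x : FK F v) (ε : ℝ), 0 < ε → ∃ y : F, L.nm (algebraMap _ _ x - algebraMap F _ y) < ε := by
  obtain ⟨L, c, hc0, hc1, h1, h2, h3, h4⟩ := LdD_ad F v
  obtain ⟨p, n, hp, hn, hv⟩ := ldG_val F v
  have hpc : L.nm (p : AlgebraicClosure (FK F v)) = c ^ n := by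
    have h := h1 (p : F) n hv
    rw [map_natCast] at h
    exact h
  have hlt : L.nm (p : AlgebraicClosure (FK F v)) < 1 := by
    rw [hpc]
    exact zpow_lt_one₀ hc0 hc1 hn
  exact ⟨{ L with p := p, pp := hp, lt := hlt, cpl := h3 }, c, hc0, hc1, h1, h2, h4⟩

end DN
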