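import Mathlib

/-! Zeros of polynomial functions on an affine curve. -/

namespace DN

section one

variable {L : Type} [Field L]

/-- A polynomial function on an affine elliptic curve is `0` or has finitely many zeros. Proof: the equation of the curve is an irreducible polynomial in `L[X][Y]` (`WeierstrassCurve.Affine.irreducible_polynomial`), monic in `Y`: if it divides `p`, then `p` is `0` on the curve. Otherwise
the two polynomials are coprime in `L(X)[Y]` (Gauss) and there is a polynomial `r (X) ≠ 0` in the ideal which they generate: finitely many `X`, for each `X` finitely many `Y`. -/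
theorem fin_one (W : WeierstrassCurve L) (p : Polynomial (Polynomial L)) :
    {P : L × L | W.toAffine.Equation P.1 P.2 ∧ p.evalEval P.1 P.2 = 0}.Finite ∨
      ∀ P : L × L, W.toAffine.Equation P.1 P.2 → p.evalEval P.1 P.2 = 0 := by
  classical
  by_cases hd : W.toAffine.polynomial ∣ p
  · right
    rintro P hP
    obtain ⟨q, rfl⟩ := hd
    have h1 : W.toAffine.polynomial.evalEval P.1 P.2 = 0 := hP
    rw [Polynomial.evalEval_mul, h1, zero_mul]
  · left
    have hm := WeierstrassCurve.Affine.monic_polynomial (W := W.toAffine)
    have h1 : (AdjoinRoot.mk W.toAffine.polynomial p : W.toAffine.CoordinateRing) ≠ 0 := by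
      intro h
      exact hd (AdjoinRoot.mk_eq_zero.1 h)
    have hfin : Module.Finite (Polynomial L) W.toAffine.CoordinateRing := hm.finite_adjoinRoot
    have hint : IsIntegral (Polynomial L)
        (AdjoinRoot.mk W.toAffine.polynomial p : W.toAffine.CoordinateRing) :=
      Algebra.IsIntegral.isIntegral _
    have h2 := Ideal.comap_ne_bot_of_integral_mem (R := Polynomial L)
      (I := Ideal.span {(AdjoinRoot.mk W.toAffine.polynomial p : W.toAffine.CoordinateRing)})
      h1 (Ideal.subset_span rfl) hint
    obtain ⟨f, hf, hf0⟩ := Submodule.exists_mem_ne_zero_of_ne_bot h2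
    obtain ⟨q', hq'⟩ := Ideal.mem_span_singleton'.1 (Ideal.mem_comap.1 hf)
    obtain ⟨q, rfl⟩ := AdjoinRoot.mk_surjective q'
    have h3 : AdjoinRoot.mk W.toAffine.polynomial (Polynomial.C f - q * p) = 0 := by
      rw [map_sub, map_mul]
      have h4 : AdjoinRoot.mk W.toAffine.polynomial (Polynomial.C f)
          = algebraMap (Polynomial L) W.toAffine.CoordinateRing f := rfl
      rw [h4, ← hq', sub_self]
    obtain ⟨s, hs⟩ := AdjoinRoot.mk_eq_zero.1 h3
    have key : ∀ P : L × L, W.toAffine.Equation P.1 P.2 → p.evalEval P.1 P.2 = 0 →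
        f.eval P.1 = 0 := by
      intro P hP hp
      have h5 : (Polynomial.C f).evalEval P.1 P.2
          = q.evalEval P.1 P.2 * p.evalEval P.1 P.2
            + W.toAffine.polynomial.evalEval P.1 P.2 * s.evalEval P.1 P.2 := by
        rw [← Polynomial.evalEval_mul, ← Polynomial.evalEval_mul, ← Polynomial.evalEval_add, ← hs]
        congr 1
        ring
      have h6 : W.toAffine.polynomial.evalEval P.1 P.2 = 0 := hP
      rw [hp, h6, mul_zero, zero_mul, add_zero] at h5
      rwa [Polynomial.evalEval_C] at h5
    have hroots : ((f.roots.toFinset : Set L)).Finite := Finset.finite_toSet _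
    refine Set.Finite.subset (hroots.biUnion (t := fun x =>
      (({x} : Set L) ×ˢ ((((W.toAffine.polynomial.map (Polynomial.evalRingHom x)).roots.toFinset :
        Finset L) : Set L)))) fun x _ => (Set.finite_singleton x).prod (Finset.finite_toSet _)) ?_
    rintro ⟨x, y⟩ ⟨hP, hp⟩
    have h7 := key (x, y) hP hp
    rw [Set.mem_iUnion₂]
    refine ⟨x, ?_, ?_⟩
    · rw [Finset.mem_coe, Multiset.mem_toFinset, Polynomial.mem_roots hf0]
      exact h7
    · refine ⟨rfl, ?_⟩
      rw [Finset.mem_coe, Multiset.mem_toFinset, Polynomial.mem_roots (hm.map _).ne_zero,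
        Polynomial.IsRoot.def, Polynomial.map_evalRingHom_eval]
      exact hP

end one

end DN
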