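import Pool.Agent.Lib.MP_f80667_ag.Do.Thn
import Pool.Agent.Lib.MP_f80667_ag.Do.FinO
import Pool.Agent.Lib.MP_f80667_ag.Do.Fv

/-! The complement of the domain of a rational map is thin. -/

open ZC BE PE CV NE

namespace DN


variable {F' : Type} [Field F'] {N n : ℕ} {W : Fin n → WeierstrassCurve F'}
  {Φ : Fin N → MvPolynomial (Fin n ⊕ Fin n) F'} {Ω : Type} [Field Ω] [Algebra F' Ω]

private noncomputable def dnsX {W : WeierstrassCurve F'} : Pt W Ω → Ω
  | .zero => 0
  | .some x _ _ => x

private noncomputable def dnsY {W : WeierstrassCurve F'} : Pt W Ω → Ω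
  | .zero => 0
  | .some _ y _ => y

private lemma dns_aff {W : WeierstrassCurve F'} (Q : Pt W Ω) (hQ : Q ≠ 0) :
    ∃ h : (W.baseChange Ω).toAffine.Nonsingular (dnsX Q) (dnsY Q),
      Q = Pt.aff (dnsX Q) (dnsY Q) h := by
  match Q, hQ with
  | .zero, h => exact absurd rfl h
  | .some x y h, _ => exact ⟨h, rfl⟩

private lemma dns_aff_ne {W : WeierstrassCurve F'} {x y : Ω}
    (h : (W.baseChange Ω).toAffine.Nonsingular x y) : (Pt.aff x y h : Pt W Ω) ≠ 0 := by
  intro h1
  cases h1

open Classical in
/-- the value of `Φ_j` -/
private noncomputable def dnsV (W : Fin n → WeierstrassCurve F')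
    (p : MvPolynomial (Fin n ⊕ Fin n) F') (Q : ∀ i, Pt (W i) Ω) : Ω :=
  if ∀ i, Q i ≠ 0 then
    MvPolynomial.aeval (Sum.elim (fun i => dnsX (Q i)) (fun i => dnsY (Q i))) p else 0

private lemma dns_dn (j : Fin N) {Q : ∀ i, Pt (W i) Ω} (h : dnsV W (Φ j) Q ≠ 0) :
    Q ∈ Dn W Φ Ω := by
  classical
  by_cases hQ : ∀ i, Q i ≠ 0
  · rw [dnsV, if_pos hQ] at h
    refine ⟨fun k => MvPolynomial.aeval
      (Sum.elim (fun i => dnsX (Q i)) (fun i => dnsY (Q i))) (Φ k),
      fun i => dnsX (Q i), fun i => dnsY (Q i), fun i => (dns_aff (Q i) (hQ i)).choose,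
      funext fun i => (dns_aff (Q i) (hQ i)).choose_spec, ?_, fun k => rfl⟩
    intro h0
    exact h (congrFun h0 j)
  · rw [dnsV, if_neg hQ] at h
    exact absurd rfl h

private lemma dns_eval (p : MvPolynomial (Fin n ⊕ Fin n) F') (u : Fin n ⊕ Fin n → (Polynomial (Polynomial Ω)))
    (x y : Ω) : (MvPolynomial.aeval u p).evalEval x y
      = MvPolynomial.aeval (fun k => (u k).evalEval x y) p := by
  have h1 := MvPolynomial.eval₂_comp_left (Polynomial.evalEvalRingHom x y)
    (algebraMap F' (Polynomial (Polynomial Ω))) u p
  have h2 : (Polynomial.evalEvalRingHom x y).comp (algebraMap F' (Polynomial (Polynomial Ω))) = algebraMap F' Ω := by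
    ext a
    simp [Polynomial.algebraMap_apply]
  rw [h2] at h1
  exact h1

/-- one coordinate runs -/
private lemma dns_one (p : MvPolynomial (Fin n ⊕ Fin n) F') (Q : ∀ i, Pt (W i) Ω) (i : Fin n) :
    {P : Pt (W i) Ω | dnsV W p (Function.update Q i P) = 0}.Finite ∨
      ∀ P : Pt (W i) Ω, dnsV W p (Function.update Q i P) = 0 := by
  classical
  by_cases hall : ∀ k, k ≠ i → Q k ≠ 0
  · -- the polynomial
    let u : Fin n ⊕ Fin n → Polynomial (Polynomial Ω) := Sum.elim
      (fun k => if k = i then Polynomial.C Polynomial.X
        else Polynomial.C (Polynomial.C (dnsX (Q k))))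
      (fun k => if k = i then Polynomial.X else Polynomial.C (Polynomial.C (dnsY (Q k))))
    have key : ∀ P : Pt (W i) Ω, P ≠ 0 → dnsV W p (Function.update Q i P)
        = (MvPolynomial.aeval u p).evalEval (dnsX P) (dnsY P) := by
      intro P hP
      have h1 : ∀ k, Function.update Q i P k ≠ 0 := by
        intro k
        by_cases hk : k = i
        · subst hk
          rw [Function.update_self]
          exact hP
        · rw [Function.update_of_ne hk]
          exact hall k hk
      rw [dnsV, if_pos h1, dns_eval]
      congr 2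
      funext k
      rcases k with k | k
      · by_cases hk : k = i
        · subst hk
          simp [u, Polynomial.evalEval]
        · simp [u, hk]
      · by_cases hk : k = i
        · subst hk
          simp [u]
        · simp [u, hk]
    have hz : dnsV W p (Function.update Q i 0) = 0 := by
      rw [dnsV, if_neg]
      intro h
      exact h i (by rw [Function.update_self])
    rcases fin_one ((W i).baseChange Ω) (MvPolynomial.aeval u p) with h | h
    · left
      let g : Ω × Ω → Pt (W i) Ω := fun P =>
        if h : ((W i).baseChange Ω).toAffine.Nonsingular P.1 P.2 then Pt.aff P.1 P.2 h else 0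
      refine ((Set.finite_singleton (0 : Pt (W i) Ω)).union (h.image g)).subset ?_
      intro P hP
      by_cases h0 : P = 0
      · exact Or.inl h0
      · right
        obtain ⟨h1, h2⟩ := dns_aff P h0
        refine ⟨(dnsX P, dnsY P), ⟨h1.1, ?_⟩, ?_⟩
        · rw [← key P h0]
          exact hP
        · simp only [g]
          rw [dif_pos h1]
          exact h2.symm
    · right
      intro P
      by_cases h0 : P = 0
      · rw [h0]
        exact hz
      · rw [key P h0]
        obtain ⟨h1, -⟩ := dns_aff P h0
        exact h (dnsX P, dnsY P) h1.1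
  · right
    intro P
    push Not at hall
    obtain ⟨k, hk, hQk⟩ := hall
    rw [dnsV, if_neg]
    intro h
    exact h k (by rw [Function.update_of_ne hk]; exact hQk)

/-- **The complement of the domain is thin.** Every `τ i` is constant or has finite fibres. Proof: let `φ (a)` be the value `Φ_j` at the point `(τ i (a i))` if all `τ i (a i)` are affine, and `0` otherwise, for an index `j` with `Φ_j ≠ 0` at the point `(τ i (a₀ i))`. `thin_sf` for `φ`: as a function
of the coordinate number `i` it is constant if `τ i` is constant, it is `0` if one of the other coordinates is the point at infinity, and otherwise it is a polynomial in the affine coordinates of `τ i (a)`: `fin_one`, and `0` at the preimage of the point at infinity, which is finite. The points outside the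
preimage of the domain are zeros of `φ`. -/
theorem thin_cmp {A : Fin n → Type} (τ : ∀ i, A i → Pt (W i) Ω)
    (hτ : ∀ i, (∀ Q, {a | τ i a = Q}.Finite) ∨ ∃ Q, ∀ a, τ i a = Q) (a₀ : ∀ i, A i)
    (h0 : (fun i => τ i (a₀ i)) ∈ Dn W Φ Ω) :
    Thin A {a | (fun i => τ i (a i)) ∉ Dn W Φ Ω} := by
  classical
  obtain ⟨x, X, Y, hns, hQ, hx0, hx⟩ := h0
  obtain ⟨j, hj⟩ : ∃ j, x j ≠ 0 := by
    by_contra hcon
    push Not at hcon
    exact hx0 (funext hcon)
  have h2 : dnsV W (Φ j) (fun i => τ i (a₀ i)) ≠ 0 := by
    rw [hQ, dnsV, if_pos fun i => dns_aff_ne (hns i)]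
    rw [hx j] at hj
    exact hj
  refine thin_mono (fun a ha => ?_)
    (thin_sf (fun a => dnsV W (Φ j) (fun i => τ i (a i))) (fun x i => ?_) a₀ h2)
  · by_contra hcon
    exact ha (dns_dn j hcon)
  · have hu : ∀ a, (fun k => τ k (Function.update x i a k))
        = Function.update (fun k => τ k (x k)) i (τ i a) := by
      intro a
      funext k
      by_cases hk : k = i
      · subst hk
        rw [Function.update_self, Function.update_self]
      · rw [Function.update_of_ne hk, Function.update_of_ne hk]
    simp only [hu]
    rcases hτ i with hτ | ⟨Q, hQ⟩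
    · rcases dns_one (Φ j) (fun k => τ k (x k)) i with h | h
      · left
        exact h.preimage' fun b _ => hτ b
      · right
        exact fun a => h (τ i a)
    · by_cases h : dnsV W (Φ j) (Function.update (fun k => τ k (x k)) i Q) = 0
      · right
        intro a
        rw [hQ a]
        exact h
      · left
        refine Set.finite_empty.subset fun a ha => ?_
        rw [Set.mem_ofPred_eq, hQ a] at ha
        exact h ha

end DN
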