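import Pool.Agent.Lib.MP_f80667_ag.Mx.QdB
import Pool.Agent.Lib.MP_f80667_ag.Kf.Tp
import Pool.Agent.Lib.MP_f80667_ag.Cv.HdB
import Pool.Agent.Lib.MP_f80667_ag.Gx.XA

/-! Uniqueness of the values of points of projective varieties. -/

open ZC BE PE CV MX

namespace DN

/-- After the multiplication by a number a vector is integral with one coordinate equal to `1`. -/
private theorem ucx_norm {E : Type} [Field E] (V : ValuationSubring E) {N : ℕ} {r : Fin N → E}
    {i : Fin N} (hi : r i = 1) : ∃ k, r k ≠ 0 ∧ ∀ j, (r k)⁻¹ * r j ∈ V := by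
  classical
  obtain ⟨k, -, hk⟩ := Finset.exists_max_image Finset.univ (fun j => V.valuation (r j))
    ⟨i, Finset.mem_univ i⟩
  have h1 : V.valuation (r k) ≠ 0 := by
    intro h0
    have h2 := hk i (Finset.mem_univ i)
    rw [h0, hi, map_one] at h2
    exact absurd h2 (not_le.2 zero_lt_one)
  have h0 : r k ≠ 0 := (V.valuation.ne_zero_iff).1 h1
  refine ⟨k, h0, fun j => ?_⟩
  rw [← V.valuation_le_one_iff, map_mul, map_inv₀, mul_comm, ← div_eq_mul_inv]
  exact (div_le_one₀ (zero_lt_iff.2 h1)).2 (hk j (Finset.mem_univ j))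

/-- The coordinates of a value are the residues, up to a factor. -/
private theorem ucx_val {K E Ω : Type} [Field K] [Field E] [Field Ω] [Algebra K E] [Algebra K Ω]
    {w : Place K E Ω} {W : Place K (AlgebraicClosure E) Ω}
    (hW : ∀ a : E, algebraMap E (AlgebraicClosure E) a ∈ W.V ↔ a ∈ w.V)
    (hW' : ∀ (a : E) (h : a ∈ w.V) (h' : algebraMap E (AlgebraicClosure E) a ∈ W.V),
      W.res ⟨_, h'⟩ = w.res ⟨a, h⟩) {N : ℕ} {p : Fin N → AlgebraicClosure E}
    {y : Fin N → Ω} (hy : y ≠ 0) (h : ∀ i, ∃ h : p i ∈ W.V, W.res ⟨p i, h⟩ = y i)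
    {s : Fin N → E} (hs : ∀ i, s i ∈ w.V) {c : AlgebraicClosure E} {k : Fin N} (hk : s k = 1)
    (hp : ∀ i, p i = c * algebraMap E (AlgebraicClosure E) (s i)) :
    y k ≠ 0 ∧ ∀ i, y i = y k * w.res ⟨s i, hs i⟩ := by
  have h1 : ∀ i, y i = y k * w.res ⟨s i, hs i⟩ := by
    intro i
    obtain ⟨h2, h3⟩ := h i
    obtain ⟨h4, h5⟩ := h k
    have h6 : algebraMap E (AlgebraicClosure E) (s i) ∈ W.V := (hW _).2 (hs i)
    rw [← h3, ← h5, ← hW' (s i) (hs i) h6, ← map_mul]
    congr 1
    apply Subtype.ext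
    change p i = p k * algebraMap E (AlgebraicClosure E) (s i)
    rw [hp i, hp k, hk, map_one, mul_one]
  refine ⟨fun h0 => hy (funext fun i => ?_), h1⟩
  rw [h1 i, h0, zero_mul]
  rfl

/-- Proof: `gal`: apply `σ` to the coordinates of the value. `val`: a vector of coordinates of the point `x` can be chosen in `E` (one coordinate equal to `1`, Galois invariant: `GX.fp_mem` for `M = ⊥`); after multiplication
by an element of `E` all are in `w.V` and one of them is `1` (the one with the greatest valuation); the residues at both places `W` above `w` are the residues at `w`; the reduction of a point at a place is unique: two integral vectors of coordinates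
with a residue `≠ 0` differ by a unit. -/
instance ucX {F : Type} [Field F] {N : ℕ} {ι : Type} (f : ι → MvPolynomial (Fin N) F) :
    Uc (GX.Xf f) where
  gal := by
    intro K L Ω _ _ _ _ _ _ _ _ _ _ σ w x y h
    obtain ⟨P, Q, rfl, rfl, h1⟩ := h
    refine ⟨P, Q.mp (σ.restrictScalars F : Ω →ₐ[F] Ω), rfl, rfl, fun i => ?_⟩
    obtain ⟨h2, h3⟩ := h1 i
    exact ⟨h2, congrArg σ h3⟩
  val := by
    intro K E Ω _ _ _ _ _ _ _ _ _ _ _ w x y y' hx h h'
    have : CharZero E := charZero_of_injective_algebraMap (algebraMap K E).injective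
    obtain ⟨W, h1, h2, P, Q, rfl, rfl, h3⟩ := h
    obtain ⟨W', h1', h2', P', Q', hP', rfl, h3'⟩ := h'
    obtain ⟨i, hi⟩ : ∃ i, P.x i ≠ 0 := by
      by_contra hcon
      push Not at hcon
      exact P.ne (funext hcon)
    have hr : ∀ j, ∃ b : E, algebraMap E (AlgebraicClosure E) b = (P.x i)⁻¹ * P.x j := by
      intro j
      have h4 : (P.x i)⁻¹ * P.x j ∈ (⊥ : IntermediateField E (AlgebraicClosure E)) := by
        refine mem_of_fix _ fun γ _ => ?_
        obtain ⟨c, hc, h6⟩ := Quotient.exact (hx γ)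
        have e : ∀ l, P.x l = c * γ (P.x l) := fun l => congrFun h6 l
        calc γ ((P.x i)⁻¹ * P.x j) = (γ (P.x i))⁻¹ * γ (P.x j) := by rw [map_mul, map_inv₀]
          _ = (c * γ (P.x i))⁻¹ * (c * γ (P.x j)) := by
            rw [mul_inv, mul_mul_mul_comm, inv_mul_cancel₀ hc, one_mul]
          _ = (P.x i)⁻¹ * P.x j := by rw [← e i, ← e j]
      exact IntermediateField.mem_bot.1 h4
    choose r hr using hr
    have hri : r i = 1 := by
      apply (algebraMap E (AlgebraicClosure E)).injective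
      rw [hr i, inv_mul_cancel₀ hi, map_one]
    obtain ⟨k, hk, hs⟩ := ucx_norm w.V hri
    have hp : ∀ j, P.x j = P.x i * algebraMap E (AlgebraicClosure E) (r k) *
        algebraMap E (AlgebraicClosure E) ((r k)⁻¹ * r j) := by
      intro j
      rw [mul_assoc, ← map_mul, mul_inv_cancel_left₀ hk, hr j, mul_inv_cancel_left₀ hi]
    obtain ⟨c, hc, hcP⟩ := Quotient.exact hP'
    have hp' : ∀ j, P'.x j = c * (P.x i * algebraMap E (AlgebraicClosure E) (r k)) *
        algebraMap E (AlgebraicClosure E) ((r k)⁻¹ * r j) := by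
      intro j
      rw [mul_assoc, ← hp j]
      exact congrFun hcP j
    obtain ⟨a, b⟩ := ucx_val h1 h2 Q.ne h3 hs (inv_mul_cancel₀ hk) hp
    obtain ⟨a', b'⟩ := ucx_val h1' h2' Q'.ne h3' hs (inv_mul_cancel₀ hk) hp'
    refine Quotient.sound ⟨Q'.x k * (Q.x k)⁻¹, mul_ne_zero a' (inv_ne_zero a),
      funext fun j => ?_⟩
    rw [b' j, b j, mul_assoc, inv_mul_cancel_left₀ a]

end DN
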