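import Pool.Agent.Lib.MP_f80667_ag.Do.MvB
import Pool.Agent.Lib.MP_f80667_ag.Do.Gu
import Pool.Agent.Lib.MP_f80667_ag.Do.GuB

/-! The moving lemma for zero-cycles. -/

open ZC BE PE CV MX

namespace DN

variable {F : Type} [Field F] {N d : ℕ} {ι : Type} {f : ι → MvPolynomial (Fin N) F}

/-- A cycle over `M` is invariant under the group of `M`. -/
private theorem mvc_fx {V : Vr F} [Hf V] {K Ω : Type} [Field K] [Field Ω] [Algebra K Ω]
    [Algebra F K] [Algebra F Ω] [IsScalarTower F K Ω] {M : IntermediateField K Ω}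
    {z : V.pt Ω →₀ ℤ} (h : z ∈ V.cyc M Ω) : Fx M z := fun γ hγ =>
  h (IntermediateField.fixingSubgroupEquiv M ⟨γ, hγ⟩)

/-- The conjugates of a point outside `h = 0` are outside `h = 0`. -/
private theorem mvc_hn {h : MvPolynomial (Fin N) F} {K Ω : Type} [Field K] [Field Ω]
    [Algebra K Ω] [Algebra F K] [Algebra F Ω] [IsScalarTower F K Ω] (γ : Ω ≃ₐ[K] Ω)
    {Q : (GX.Xf f).pt Ω} (hQ : Hn h Q) : Hn h ((GX.Xf f).act γ Q) := by
  intro x hx h0
  have h1 := GX.co_act γ⁻¹ hx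
  rw [← act_mul Hf.out, inv_mul_cancel, act_one Hf.out] at h1
  refine hQ _ h1 ?_
  have h2 : MvPolynomial.aeval (fun i => γ⁻¹ (x i)) h =
      ((γ⁻¹ : Ω ≃ₐ[K] Ω).restrictScalars F) (MvPolynomial.aeval x h) := by
    have h3 := MvPolynomial.comp_aeval_apply (f := x)
      (((γ⁻¹ : Ω ≃ₐ[K] Ω).restrictScalars F : Ω ≃ₐ[F] Ω) : Ω →ₐ[F] Ω) h
    exact h3.symm
  rw [h2, h0, map_zero]

/-- The support of a norm. -/
private theorem mvc_nm {h : MvPolynomial (Fin N) F} {K Ω : Type} [Field K] [Field Ω]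
    [Algebra K Ω] [Algebra F K] [Algebra F Ω] [IsScalarTower F K Ω] {M : IntermediateField K Ω}
    [FiniteDimensional K M] [CharZero K] [IsAlgClosure K Ω] {z : (GX.Xf f).pt Ω →₀ ℤ}
    (hz : ∀ P ∈ z.support, Hn h P) :
    ∀ P ∈ (Nm (⊥ : IntermediateField K Ω) M z).support, Hn h P := by
  classical
  obtain ⟨s, -, -, -, h₃⟩ := nm_rep (K := K) (Ω := Ω) (bot_le : (⊥ : IntermediateField K Ω) ≤ M)
  rw [h₃]
  intro P hP
  have h1 := Finsupp.support_finsetSum hP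
  rw [Finset.mem_biUnion] at h1
  obtain ⟨γ, -, h2⟩ := h1
  rw [smul_def] at h2
  obtain ⟨Q, hQ, rfl⟩ := Finset.mem_image.1 (Finsupp.mapDomain_support h2)
  exact mvc_hn γ (hz Q hQ)

/-- The moving lemma for a point. -/
private theorem mvc_pt [CharZero F] (hf : GX.Nsg f d) {h : MvPolynomial (Fin N) F}
    (hh : ∃ e, h.IsHomogeneous e) (hn : h ∉ Ideal.span (Set.range f)) {K Ω : Type} [Field K]
    [CharZero K] [Algebra F K] [Field Ω] [Algebra K Ω] [Algebra F Ω] [IsScalarTower F K Ω]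
    [IsAlgClosure K Ω] {M : IntermediateField K Ω} (hM : FiniteDimensional K M)
    {x : (GX.Xf f).pt Ω} (hx : Fp (GX.Xf f) M x) :
    ∃ z' ∈ (GX.Xf f).cyc K Ω, Nm (⊥ : IntermediateField K Ω) M (Finsupp.single x 1) - z' ∈
      (GX.Xf f).ratEq K Ω ∧ ∀ P ∈ z'.support, Hn h P := by
  have iM : IsAlgClosure M Ω := ⟨IsAlgClosure.isAlgClosed K, inferInstance⟩
  have iC : CharZero M := charZero_of_injective_algebraMap (algebraMap K M).injective
  obtain ⟨y, hy⟩ := GX.exists_co x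
  obtain ⟨k, hk⟩ : ∃ k, y k ≠ 0 := by
    by_contra hcon
    push Not at hcon
    exact GX.co_ne hy (funext hcon)
  have hy' := GX.co_smul hf.hom hy (inv_ne_zero hk)
  have hyk : (fun i => (y k)⁻¹ * y i) k = 1 := inv_mul_cancel₀ hk
  have hyM : ∀ j, (y k)⁻¹ * y j ∈ M := fun j => GX.fp_mem hx hy' hyk j
  obtain ⟨z₁, hz₁, hz₂⟩ := mv_pt (k := M) (Ω := Ω) hf hh hn (x₀ := fun j => ⟨_, hyM j⟩) (P₀ := x) hy'
  have hfx : Fx M (Finsupp.single x 1 : (GX.Xf f).pt Ω →₀ ℤ) := fx_single hx 1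
  have hsub : Fx M (Finsupp.single x 1 - z₁) := mvc_fx (Qd.ratEq_le_cyc (GX.Xf f) hz₁)
  have hfz : Fx M z₁ := by
    have h1 := hfx.sub hsub
    rwa [sub_sub_cancel] at h1
  refine ⟨Nm (⊥ : IntermediateField K Ω) M z₁, GM.cyc_iff.2 (nm_fx bot_le hfz), ?_, mvc_nm hz₂⟩
  have h2 := nm_ratEq hz₁ hsub
  have h3 := nm_add (bot_le : (⊥ : IntermediateField K Ω) ≤ M) (Finsupp.single x 1 - z₁) z₁
  rw [sub_add_cancel] at h3
  rwa [h3, add_sub_cancel_right]

/-- The cycles which can be moved. -/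
private def mvcG (h : MvPolynomial (Fin N) F) (f : ι → MvPolynomial (Fin N) F) (K Ω : Type)
    [Field K] [Algebra F K] [Field Ω] [Algebra K Ω] [Algebra F Ω] [IsScalarTower F K Ω] :
    AddSubgroup ((GX.Xf f).pt Ω →₀ ℤ) where
  carrier := {z | ∃ z' ∈ (GX.Xf f).cyc K Ω, z - z' ∈ (GX.Xf f).ratEq K Ω ∧
    ∀ P ∈ z'.support, Hn h P}
  zero_mem' := ⟨0, zero_mem _, by rw [sub_zero]; exact zero_mem _, fun P hP => by simp at hP⟩
  add_mem' := by
    classical
    rintro a b ⟨a', ha1, ha2, ha3⟩ ⟨b', hb1, hb2, hb3⟩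
    refine ⟨a' + b', add_mem ha1 hb1, ?_, fun P hP => ?_⟩
    · have e : a + b - (a' + b') = (a - a') + (b - b') := by abel
      rw [e]
      exact add_mem ha2 hb2
    · rcases Finset.mem_union.1 (Finsupp.support_add hP) with h1 | h1
      · exact ha3 P h1
      · exact hb3 P h1
  neg_mem' := by
    rintro a ⟨a', ha1, ha2, ha3⟩
    refine ⟨-a', neg_mem ha1, ?_, fun P hP => ha3 P ?_⟩
    · have e : -a - -a' = -(a - a') := by abel
      rw [e]
      exact neg_mem ha2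
    · rwa [Finsupp.support_neg] at hP

/-- **The moving lemma.** Proof: the cycles `z` over `K` such that there is `z'` in `cyc K` with `z - z' ∈ ratEq` and the support of `z'` outside `h = 0` are a group `C`; `desc` (`GX.exists_fph`) for this group: for a point `x` over `M` (coordinates in `M`: `GX.fp_mem`, one coordinate equal to `1`)
`mv_pt` for `k = M` gives `z₁`, which is in `cyc M` (`ratEq_le_cyc`), take `Nm ⊥ M` (`nm_ratEq`, `nm_fx`); the norm of `z₁` is supported outside `h = 0` (`h` has coefficients in `F`). The degree: `ratEq_deg` (`Kf/Tp.lean`). -/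
theorem mv_D0 [CharZero F] (hf : GX.Nsg f d) {h : MvPolynomial (Fin N) F}
    (hh : ∃ e, h.IsHomogeneous e) (hn : h ∉ Ideal.span (Set.range f)) {K Ω : Type} [Field K]
    [CharZero K] [Algebra F K] [Field Ω] [Algebra K Ω] [Algebra F Ω] [IsScalarTower F K Ω]
    [IsAlgClosure K Ω] {z : (GX.Xf f).pt Ω →₀ ℤ} (hz : z ∈ (GX.Xf f).D0 K Ω) :
    ∃ z' ∈ (GX.Xf f).D0 K Ω, z - z' ∈ (GX.Xf f).ratEq K Ω ∧ ∀ P ∈ z'.support, Hn h P := by
  have h1 : z ∈ mvcG h f K Ω := desc (fun x => GX.exists_fph x) hz.1 fun M x hM hx _ =>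
    mvc_pt hf hh hn hM hx
  obtain ⟨z', h2, h3, h4⟩ := h1
  refine ⟨z', ⟨h2, ?_⟩, h3, h4⟩
  have h5 := ratEq_deg (GX.Xf f) h3
  have h6 : (GX.Xf f).deg Ω z = 0 := hz.2
  rw [map_sub, h6, zero_sub, neg_eq_zero] at h5
  exact h5

end DN
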