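import Pool.Agent.Lib.MP_f80667_ag.Do.Gr

/-! The push-forward of divisors of functions under a rational map. -/

open ZC BE PE CV NE

namespace DN

private theorem rp_ev {K L Ω F' : Type} [Field K] [Field L] [Field Ω] [Field F'] [Algebra K L]
    [Algebra K Ω] [Algebra F' K] [Algebra F' L] [Algebra F' Ω] [IsScalarTower F' K L]
    [IsScalarTower F' K Ω] (w : Place K L Ω) {σ : Type} {v : σ → L} {u : σ → Ω}
    (hv : ∀ i, ∃ h : v i ∈ w.V, w.res ⟨v i, h⟩ = u i) (p : MvPolynomial σ F') :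
    ∃ y : w.V, (y : L) = MvPolynomial.aeval v p ∧ w.res y = MvPolynomial.aeval u p := by
  induction p using MvPolynomial.induction_on with
  | C c =>
    refine ⟨⟨algebraMap K L (algebraMap F' K c), w.mem _⟩, ?_, ?_⟩
    · rw [MvPolynomial.aeval_C, IsScalarTower.algebraMap_apply F' K L]
    · rw [w.res_k, MvPolynomial.aeval_C, IsScalarTower.algebraMap_apply F' K Ω]
  | add p q hp hq =>
    obtain ⟨y, h1, h2⟩ := hp
    obtain ⟨y', h1', h2'⟩ := hq
    refine ⟨y + y', ?_, ?_⟩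
    · rw [map_add, ← h1, ← h1']
      rfl
    · rw [map_add, map_add, h2, h2']
  | mul_X p i hp =>
    obtain ⟨y, h1, h2⟩ := hp
    obtain ⟨h, h3⟩ := hv i
    refine ⟨y * ⟨v i, h⟩, ?_, ?_⟩
    · rw [map_mul, ← h1, MvPolynomial.aeval_X]
      rfl
    · rw [map_mul, map_mul, h2, h3, MvPolynomial.aeval_X]

private theorem rp_inj {F L : Type} [Field F] [Field L] [Algebra F L] {W : WeierstrassCurve F}
    {x y x' y' : L} {h : (W.baseChange L).toAffine.Nonsingular x y}
    {h' : (W.baseChange L).toAffine.Nonsingular x' y'}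
    (e : (Pt.aff x y h : Pt W L) = Pt.aff x' y' h') : x = x' ∧ y = y' :=
  WeierstrassCurve.Affine.Point.some.inj e

private theorem rp_red {F K L Ω : Type} [Field F] [Field K] [Field L] [Field Ω] [Algebra K L]
    [Algebra K Ω] [Algebra F L] [Algebra F Ω] {W : WeierstrassCurve F} (w : Place K L Ω)
    {P : Pt W L} {X Y : Ω} {hn : (W.baseChange Ω).toAffine.Nonsingular X Y}
    (h : Pt.Red W w P (Pt.aff X Y hn)) :
    ∃ (a b : L) (hab : (W.baseChange L).toAffine.Nonsingular a b), P = Pt.aff a b hab ∧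
      (∃ h : a ∈ w.V, w.res ⟨a, h⟩ = X) ∧ ∃ h : b ∈ w.V, w.res ⟨b, h⟩ = Y := by
  match P, h with
  | .zero, h => exact absurd h (WeierstrassCurve.Affine.Point.some_ne_zero _)
  | .some a b hab, h =>
    rcases h with ⟨-, h0⟩ | ⟨hx, hy, hn', e⟩
    · exact absurd h0 (WeierstrassCurve.Affine.Point.some_ne_zero _)
    · obtain ⟨e1, e2⟩ := rp_inj e
      exact ⟨a, b, hab, rfl, ⟨hx, e1.symm⟩, hy, e2.symm⟩

private theorem rp_map {F L M : Type} [Field F] [Field L] [Algebra F L] [Field M] [Algebra F M]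
    {W : WeierstrassCurve F} (σ : L →ₐ[F] M)
    {x y : L} (h : (W.baseChange L).toAffine.Nonsingular x y) :
    ∃ h' : (W.baseChange M).toAffine.Nonsingular (σ x) (σ y),
      Pt.map W σ (Pt.aff x y h) = Pt.aff (σ x) (σ y) h' := by
  classical
  exact ⟨_, rfl⟩

variable {F F' : Type} [Field F] [Field F'] [Algebra F F'] {N n : ℕ} {ι : Type}
  {f : ι → MvPolynomial (Fin N) F} {W : Fin n → WeierstrassCurve F'} [∀ i, (W i).IsElliptic]
  {Φ : Fin N → MvPolynomial (Fin n ⊕ Fin n) F'} {h : MvPolynomial (Fin N) F} {D : ℕ} {K Ω : Type}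
  [Field K] [CharZero K] [Field Ω] [Algebra K Ω] [IsAlgClosure K Ω] [Algebra F K] [Algebra F Ω]
  [IsScalarTower F K Ω] [Algebra F' K] [Algebra F' Ω] [IsScalarTower F' K Ω]
  [IsScalarTower F F' K] [IsScalarTower F F' Ω]

/-- **The push-forward.** Proof: if the set `S'` of the places of `S` with `m w ≠ 0` is empty then `z = 0`. Otherwise let `w` be in `S'` and let `w'` be the place of the algebraic closure of `E` at which the point `x` has the value `y w`, which is in the domain: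
affine with `Φ (y w) ≠ 0`. Then `x` is affine, its coordinates are in `w'.V` and the residues are the coordinates of `y w` (`Pt.Red`: otherwise `y w` would be the point at infinity), so `Φ_j (x)` is in `w'.V` with the residue `Φ_j (y w)`: the vector `Φ (x)` is not `0`; its class is a point of `f = 0` over the algebraic closure
of `E` (`Dom.eq`), it is Galois invariant, and its value at each `w` in `S'` is `fv o Φ (y w)` (`fv_eq`). The generator of `ratEq` is given by `E`, `g`, this point and `S'`: outside `S'` the function `g` is a unit (`IsOrd g 0`). The algebra `F → E` is the composition of `F → F' → E`. -/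
theorem gn_rp (hD : Dom f W Φ h D) (o : (GX.Xf f).pt Ω) {T : Set (∀ i, Pt (W i) Ω)}
    (hT : T ⊆ Dn W Φ Ω) {z : (∀ i, Pt (W i) Ω) →₀ ℤ} (hz : Gn (Vpi fun i => Ev (W i)) K Ω T z) :
    Finsupp.mapDomain (fv o Φ) z ∈ (GX.Xf f).ratEq K Ω := by
  classical
  obtain ⟨E, i1, i2, i3, i4, hE, g, x, hg, hx, S, m, y₀, hS, hv, hz1⟩ := hz
  obtain ⟨y, rfl⟩ : ∃ y : Place K E Ω → ∀ i, Pt (W i) Ω, y = y₀ := ⟨y₀, rfl⟩
  let i5 : Algebra F E := ((algebraMap F' E).comp (algebraMap F F')).toAlgebra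
  have i6 : IsScalarTower F F' E := IsScalarTower.of_algebraMap_eq fun _ => rfl
  have i7 : IsScalarTower F K E := by
    refine IsScalarTower.of_algebraMap_eq fun a => ?_
    rw [IsScalarTower.algebraMap_apply F F' E, IsScalarTower.algebraMap_apply F' K E,
      ← IsScalarTower.algebraMap_apply F F' K]
  have key : ∀ w ∈ S, ∃ (ξ : Fin N → Ω), Vl W Φ (y w) ξ ∧ ∃ W' : Place K (AlgebraicClosure E) Ω,
      (∀ a : E, algebraMap E (AlgebraicClosure E) a ∈ W'.V ↔ a ∈ w.V) ∧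
      (∀ (a : E) (h : a ∈ w.V) (h' : algebraMap E (AlgebraicClosure E) a ∈ W'.V),
        W'.res ⟨_, h'⟩ = w.res ⟨a, h⟩) ∧
      ∃ (a b : Fin n → AlgebraicClosure E) (hab : ∀ i, ((W i).baseChange
          (AlgebraicClosure E)).toAffine.Nonsingular (a i) (b i)),
        (x = fun i => Pt.aff (a i) (b i) (hab i)) ∧
        ∀ j, ∃ h : MvPolynomial.aeval (Sum.elim a b) (Φ j) ∈ W'.V, W'.res ⟨_, h⟩ = ξ j := by
    intro w hw
    obtain ⟨-, ⟨W', h1, h2, h3⟩, h4⟩ := hv w hw
    obtain ⟨ξ, hξ⟩ := hT h4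
    obtain ⟨X, Y, hXY, e, hne, hval⟩ := id hξ
    have h5 : ∀ i, Pt.Red (W i) W' (x i) (Pt.aff (X i) (Y i) (hXY i)) := fun i => by
      have h6 := h3 i
      rw [e] at h6
      exact h6
    choose a b hab h7 h8 h9 using fun i => rp_red W' (h5 i)
    refine ⟨ξ, hξ, W', h1, h2, a, b, hab, funext h7, fun j => ?_⟩
    have h10 : ∀ i : Fin n ⊕ Fin n, ∃ h : Sum.elim a b i ∈ W'.V,
        W'.res ⟨Sum.elim a b i, h⟩ = Sum.elim X Y i := by
      rintro (i | i)
      · exact h8 i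
      · exact h9 i
    obtain ⟨r, h11, h12⟩ := rp_ev W' h10 (Φ j)
    have h13 : MvPolynomial.aeval (Sum.elim a b) (Φ j) ∈ W'.V := by
      rw [← h11]
      exact r.2
    refine ⟨h13, ?_⟩
    rw [hval j, ← h12]
    exact congrArg W'.res (Subtype.ext h11.symm)
  have hz2 : z = ∑ w ∈ S, (Finsupp.single (y w) (m w) : (∀ i, Pt (W i) Ω) →₀ ℤ) := hz1
  rw [hz2, Finsupp.mapDomain_finsetSum]
  by_cases hS' : ∀ w ∈ S, m w = 0
  · have e0 : ∑ w ∈ S, Finsupp.mapDomain (fv (f := f) o Φ)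
        (Finsupp.single (y w) (m w) : (∀ i, Pt (W i) Ω) →₀ ℤ) = 0 :=
      Finset.sum_eq_zero fun w hw => by
        rw [hS' w hw, Finsupp.single_zero, Finsupp.mapDomain_zero]
    rw [e0]
    exact zero_mem _
  push Not at hS'
  obtain ⟨w₀, hw₀, -⟩ := hS'
  obtain ⟨ξ₀, hξ₀, W₀, -, -, a, b, hab, hxab, hval₀⟩ := key w₀ hw₀
  have hne : (fun j => MvPolynomial.aeval (Sum.elim a b) (Φ j)) ≠ 0 := by
    intro h0
    obtain ⟨X, Y, hXY, e, hne, -⟩ := hξ₀
    refine hne (funext fun j => ?_)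
    obtain ⟨h1, h2⟩ := hval₀ j
    rw [← h2]
    have h3 : (⟨MvPolynomial.aeval (Sum.elim a b) (Φ j), h1⟩ : W₀.V) = 0 :=
      Subtype.ext (congrFun h0 j)
    rw [h3, map_zero]
    rfl
  have hVl : Vl W Φ x fun j => MvPolynomial.aeval (Sum.elim a b) (Φ j) :=
    ⟨a, b, hab, hxab, hne, fun _ => rfl⟩
  obtain ⟨P, hP⟩ := GX.co_mk hne (hD.eq (AlgebraicClosure E) x _ hVl)
  refine AddSubgroup.subset_closure ⟨E, i1, i2, i5, i7, hE, g, P, hg, fun σ => ?_,
    S.filter fun w => m w ≠ 0, m, fun w => fv o Φ (y w), fun w hw => ?_, fun w hw => ?_, ?_⟩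
  · have h1 := GX.co_act σ hP
    refine GX.co_eq (x := fun j => MvPolynomial.aeval (Sum.elim a b) (Φ j)) ?_ hP
    have h2 : (fun j => σ (MvPolynomial.aeval (Sum.elim a b) (Φ j))) =
        fun j => MvPolynomial.aeval (Sum.elim a b) (Φ j) := by
      funext j
      have h3 := MvPolynomial.comp_aeval_apply (Sum.elim a b)
        (σ.restrictScalars F' : AlgebraicClosure E →ₐ[F'] AlgebraicClosure E) (Φ j)
      have h4 : (fun i => (σ.restrictScalars F' :
          AlgebraicClosure E →ₐ[F'] AlgebraicClosure E) (Sum.elim a b i)) = Sum.elim a b := by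
        have h5 : ∀ i, σ (a i) = a i ∧ σ (b i) = b i := fun i => by
          have h6 := congrFun (hx σ) i
          rw [hxab] at h6
          obtain ⟨h7, h8⟩ := rp_map (W := W i)
            (σ.restrictScalars F' : AlgebraicClosure E →ₐ[F'] AlgebraicClosure E) (hab i)
          exact rp_inj (h8.symm.trans h6)
        funext i
        rcases i with i | i
        · exact (h5 i).1
        · exact (h5 i).2
      rw [h4] at h3
      exact h3
    rwa [h2] at h1
  · by_cases h1 : w ∈ S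
    · have h2 : m w = 0 := by
        by_contra h3
        exact hw (Finset.mem_filter.2 ⟨h1, h3⟩)
      obtain ⟨⟨π, u, -, -, h4, h5, -, h6⟩, -⟩ := hv w h1
      rw [h2, zpow_zero, mul_one] at h6
      rw [h6]
      exact ⟨h4, h5⟩
    · exact hS w h1
  · have h1 := (Finset.mem_filter.1 hw).1
    obtain ⟨ξ, hξ, W', h2, h3, a', b', hab', hxab', hval⟩ := key w h1
    refine ⟨(hv w h1).1, W', h2, h3, ?_⟩
    obtain ⟨Q, hQ, hQx⟩ := hP
    obtain ⟨Q', hQ', hQx'⟩ := fv_co hD o hξ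
    refine ⟨Q, Q', hQ, hQ', fun j => ?_⟩
    have hab1 : ∀ i, a' i = a i ∧ b' i = b i := fun i =>
      rp_inj (congrFun (hxab'.symm.trans hxab) i)
    have e1 : a' = a := funext fun i => (hab1 i).1
    have e2 : b' = b := funext fun i => (hab1 i).2
    subst e1 e2
    obtain ⟨h4, h5⟩ := hval j
    rw [hQx, hQx']
    exact ⟨h4, h5⟩
  · rw [Finset.sum_filter_of_ne]
    · exact Finset.sum_congr rfl fun w _ => Finsupp.mapDomain_single
    · intro w _ h1 h2
      exact h1 (by rw [h2, Finsupp.single_zero])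

/-- **The push-forward after a translation.** Proof: `ratEq_gn` gives `T`; `closure_induction`, `gn_tr`, `gn_rp`. -/
theorem rp_all (hD : Dom f W Φ h D) (o : (GX.Xf f).pt Ω) {z : (∀ i, Pt (W i) Ω) →₀ ℤ}
    (hz : z ∈ (Vpi fun i => Ev (W i)).ratEq K Ω) :
    ∃ T : Finset (∀ i, Pt (W i) Ω), ∀ b : ∀ i, Pt (W i) K, (∀ Q ∈ T, Q + up Ω b ∈ Dn W Φ Ω) →
      Finsupp.mapDomain (fun Q => fv o Φ (Q + up Ω b)) z ∈ (GX.Xf f).ratEq K Ω := by
  have hc : IsAlgClosed Ω := IsAlgClosure.isAlgClosed K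
  obtain ⟨T, hT⟩ := ratEq_gn (V := Vpi fun i => Ev (W i)) hz
  refine ⟨T, fun b hb => ?_⟩
  have h1 : AddSubgroup.closure {z | Gn (Vpi fun i => Ev (W i)) K Ω
        (T : Set ((Vpi fun i => Ev (W i)).pt Ω)) z} ≤
      ((GX.Xf f).ratEq K Ω).comap
        (Finsupp.mapDomain.addMonoidHom fun Q : ∀ i, Pt (W i) Ω => fv o Φ (Q + up Ω b)) := by
    refine (AddSubgroup.closure_le _).2 ?_
    rintro (z : (∀ i, Pt (W i) Ω) →₀ ℤ) hz
    have h2 := gn_rp hD o (T := (fun Q : ∀ i, Pt (W i) Ω => Q + up Ω b) ''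
      (T : Set ((Vpi fun i => Ev (W i)).pt Ω))) (by
        rintro _ ⟨Q, hQ, rfl⟩
        exact hb Q hQ) (gn_tr b hz)
    have h3 : Finsupp.mapDomain (fun Q : ∀ i, Pt (W i) Ω => fv (f := f) o Φ (Q + up Ω b)) z =
        Finsupp.mapDomain (fv o Φ)
          (Finsupp.mapDomain (fun Q : ∀ i, Pt (W i) Ω => Q + up Ω b) z) :=
      Finsupp.mapDomain_comp (v := z) (f := fun Q : ∀ i, Pt (W i) Ω => Q + up Ω b)
        (g := fv o Φ)
    change Finsupp.mapDomain (fun Q : ∀ i, Pt (W i) Ω => fv (f := f) o Φ (Q + up Ω b)) z ∈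
      (GX.Xf f).ratEq K Ω
    rw [h3]
    exact h2
  exact h1 hT

end DN
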