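import Pool.Agent.Lib.MP_f80667_ag.Sp.Nf
import Pool.Agent.Lib.MP_f80667_ag.Sp.Vc
import Pool.Agent.Lib.MP_f80667_ag.Sp.Ls

/-! Products of elliptic curves over an extension of the completion. -/

open ZC BE PE Polynomial IntermediateField IsDedekindDomain NumberField CV NE

namespace DN

variable {F : Type} [Field F] [NumberField F] {K Ω : Type} [Field K] [CharZero K] [Field Ω]
  [Algebra K Ω] [IsAlgClosure K Ω] [Algebra F K] [Algebra F Ω] [IsScalarTower F K Ω] {L : Ld K Ω}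
  {w : HeightOneSpectrum (𝓞 F)} {c : ℝ}

/-- The valuation and the norm. -/
private theorem cn_le (h0 : 0 < c) (h1 : c < 1)
    (hL : ∀ (x : F) (n : ℤ), w.valuation F x = WithZero.exp (-n) → L.nm (algebraMap F Ω x) = c ^ n)
    {x : F} (hx : w.valuation F x ≤ 1) : L.nm (algebraMap F Ω x) ≤ 1 := by
  by_cases h : x = 0
  · rw [h, map_zero, L.zero]
    exact zero_le_one
  · have h2 : w.valuation F x ≠ 0 := (Valuation.ne_zero_iff _).2 h
    have h3 : w.valuation F x = WithZero.exp (-(-WithZero.log (w.valuation F x))) := by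
      rw [neg_neg, WithZero.exp_log h2]
    rw [hL x _ h3]
    have h4 : 0 ≤ -WithZero.log (w.valuation F x) := by
      rw [h3, ← WithZero.exp_zero, WithZero.exp_le_exp] at hx
      omega
    obtain ⟨m, hm⟩ := Int.eq_ofNat_of_zero_le h4
    rw [hm, zpow_natCast]
    exact pow_le_one₀ h0.le h1.le

/-- The valuation and the norm. -/
private theorem cn_lt (h0 : 0 < c) (h1 : c < 1)
    (hL : ∀ (x : F) (n : ℤ), w.valuation F x = WithZero.exp (-n) → L.nm (algebraMap F Ω x) = c ^ n)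
    {x : F} (hx : w.valuation F x < 1) : L.nm (algebraMap F Ω x) < 1 := by
  by_cases h : x = 0
  · rw [h, map_zero, L.zero]
    exact zero_lt_one
  · have h2 : w.valuation F x ≠ 0 := (Valuation.ne_zero_iff _).2 h
    have h3 : w.valuation F x = WithZero.exp (-(-WithZero.log (w.valuation F x))) := by
      rw [neg_neg, WithZero.exp_log h2]
    rw [hL x _ h3]
    have h4 : 0 < -WithZero.log (w.valuation F x) := by
      rw [h3, ← WithZero.exp_zero, WithZero.exp_lt_exp] at hx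
      omega
    obtain ⟨m, hm⟩ := Int.eq_ofNat_of_zero_le h4.le
    rw [hm] at h4
    rw [hm, zpow_natCast]
    exact pow_lt_one₀ h0.le h1 (by omega)

/-- The valuation and the norm. -/
private theorem cn_one
    (hL : ∀ (x : F) (n : ℤ), w.valuation F x = WithZero.exp (-n) → L.nm (algebraMap F Ω x) = c ^ n)
    {x : F} (hx : w.valuation F x = 1) : L.nm (algebraMap F Ω x) = 1 := by
  have h1 := hL x 0 (by rw [hx, neg_zero, WithZero.exp_zero])
  rw [h1, zpow_zero]

/-- The discriminant of an integral equation. -/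
private theorem cn_disc {W : WeierstrassCurve F}
    (hi : w.valuation F W.a₁ ≤ 1 ∧ w.valuation F W.a₂ ≤ 1 ∧ w.valuation F W.a₃ ≤ 1 ∧
      w.valuation F W.a₄ ≤ 1 ∧ w.valuation F W.a₆ ≤ 1) : w.valuation F W.Δ ≤ 1 := by
  obtain ⟨h1, h2, h3, h4, h6⟩ := hi
  have hn : ∀ m : ℕ, (m : F) ∈ (w.valuation F).integer := fun m => natCast_mem _ m
  have m1 : W.a₁ ∈ (w.valuation F).integer := h1
  have m2 : W.a₂ ∈ (w.valuation F).integer := h2
  have m3 : W.a₃ ∈ (w.valuation F).integer := h3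
  have m4 : W.a₄ ∈ (w.valuation F).integer := h4
  have m6 : W.a₆ ∈ (w.valuation F).integer := h6
  have n2 : (2 : F) ∈ (w.valuation F).integer := by exact_mod_cast hn 2
  have n4 : (4 : F) ∈ (w.valuation F).integer := by exact_mod_cast hn 4
  have n8 : (8 : F) ∈ (w.valuation F).integer := by exact_mod_cast hn 8
  have n9 : (9 : F) ∈ (w.valuation F).integer := by exact_mod_cast hn 9
  have n27 : (27 : F) ∈ (w.valuation F).integer := by exact_mod_cast hn 27
  have b2 : W.b₂ ∈ (w.valuation F).integer := add_mem (pow_mem m1 2) (mul_mem n4 m2)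
  have b4 : W.b₄ ∈ (w.valuation F).integer := add_mem (mul_mem n2 m4) (mul_mem m1 m3)
  have b6 : W.b₆ ∈ (w.valuation F).integer := add_mem (pow_mem m3 2) (mul_mem n4 m6)
  have b8 : W.b₈ ∈ (w.valuation F).integer :=
    sub_mem (add_mem (sub_mem (add_mem (mul_mem (pow_mem m1 2) m6)
      (mul_mem (mul_mem n4 m2) m6)) (mul_mem (mul_mem m1 m3) m4)) (mul_mem m2 (pow_mem m3 2)))
      (pow_mem m4 2)
  have hd : W.Δ ∈ (w.valuation F).integer :=
    add_mem (sub_mem (sub_mem (mul_mem (neg_mem (pow_mem b2 2)) b8) (mul_mem n8 (pow_mem b4 3)))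
      (mul_mem n27 (pow_mem b6 2))) (mul_mem (mul_mem (mul_mem n9 b2) b4) b6)
  exact hd

/-- Proof: copy of `gd_md` (`Sp/Nf.lean`). -/
theorem gdw (h0 : 0 < c) (h1 : c < 1)
    (hL : ∀ (x : F) (n : ℤ), w.valuation F x = WithZero.exp (-n) → L.nm (algebraMap F Ω x) = c ^ n)
    {W : WeierstrassCurve F}
    (hi : w.valuation F W.a₁ ≤ 1 ∧ w.valuation F W.a₂ ≤ 1 ∧ w.valuation F W.a₃ ≤ 1 ∧
      w.valuation F W.a₄ ≤ 1 ∧ w.valuation F W.a₆ ≤ 1)
    (h : w.valuation F W.Δ = 1 ∨ w.valuation F W.c₄ = 1) : L.Gd W ∨ L.Md W := by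
  have hit : L.It W := ⟨cn_le h0 h1 hL hi.1, cn_le h0 h1 hL hi.2.1, cn_le h0 h1 hL hi.2.2.1,
    cn_le h0 h1 hL hi.2.2.2.1, cn_le h0 h1 hL hi.2.2.2.2⟩
  by_cases hΔ : w.valuation F W.Δ = 1
  · exact Or.inl ⟨hit, cn_one hL hΔ⟩
  · exact Or.inr ⟨hit, cn_lt h0 h1 hL (lt_of_le_of_ne (cn_disc hi) hΔ),
      cn_one hL (h.resolve_left hΔ)⟩

/-- Proof: copy of `jc_of` (`Pe/GlE.lean`). -/
theorem jcw {l : ℕ} {W : WeierstrassCurve F} [W.IsElliptic] (h : Jv l w W) (h0 : 0 < c) (h1 : c < 1)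
    (hL : ∀ (x : F) (n : ℤ), w.valuation F x = WithZero.exp (-n) → L.nm (algebraMap F Ω x) = c ^ n)
    (hv : ∀ x : K, x ≠ 0 → ∃ n : ℤ, L.nm (algebraMap K Ω x) = c ^ n) : L.Jc l W := by
  intro π hπ n hn hln
  have hinj : Function.Injective (algebraMap F Ω) :=
    (algebraMap F Ω).injective
  have hΔ0 : L.nm (algebraMap F Ω W.Δ) ≠ 0 := by
    refine (L.pos ?_).ne'
    rw [Ne, map_eq_zero_iff _ hinj]
    exact W.isUnit_Δ.ne_zero
  have hπc : L.nm π = c := by
    obtain ⟨t, ht⟩ := w.valuation_exists_uniformizer F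
    have h2 := hL t 1 ht
    have ht0 : algebraMap F Ω t ≠ 0 :=
      L.ne_zero (by rw [h2, zpow_one]; exact h0)
    have htm : algebraMap F Ω t ∈
        (⊥ : IntermediateField K Ω) :=
      IntermediateField.mem_bot.2 ⟨algebraMap F K t,
        (IsScalarTower.algebraMap_apply F K Ω t).symm⟩
    obtain ⟨m, hm⟩ := hπ.val _ htm ht0
    obtain ⟨y, hy⟩ := IntermediateField.mem_bot.1 hπ.mem
    have hy0 : y ≠ 0 := by
      rintro rfl
      rw [map_zero] at hy
      have h3 := hπ.pos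
      rw [← hy, L.zero] at h3
      exact lt_irrefl _ h3
    obtain ⟨k, hk⟩ := hv y hy0
    rw [hy] at hk
    have h4 : c ^ (1 : ℤ) = c ^ (k * m) := by rw [← h2, hm, hk, zpow_mul]
    have h5 : (1 : ℤ) = k * m := zpow_right_injective₀ h0 h1.ne h4
    have h6 : 0 < k := by
      have h7 := hπ.lt
      rw [hk, ← zpow_zero c] at h7
      exact (zpow_lt_zpow_iff_right_of_lt_one₀ h0 h1).1 h7
    have h8 : k = 1 := by
      rcases Int.isUnit_iff.1 (IsUnit.of_mul_eq_one m h5.symm) with h9 | h9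
      · exact h9
      · omega
    rw [hk, h8, zpow_one]
  have hj : W.j * W.Δ = W.c₄ ^ 3 := by
    rw [WeierstrassCurve.j, mul_right_comm, ← W.coe_Δ', Units.inv_mul, one_mul]
  have hc40 : L.nm (algebraMap F Ω W.c₄) ^ 3 ≠ 0 := fun h2 =>
    hΔ0 (by rw [hn, h2, zero_mul])
  have hc4 : W.c₄ ≠ 0 := by
    intro h2
    apply hc40
    rw [h2, map_zero, L.zero, zero_pow three_ne_zero]
  have hj0 : W.j ≠ 0 := by
    intro h2
    rw [h2, zero_mul] at hj
    exact pow_ne_zero 3 hc4 hj.symm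
  have hvj : w.valuation F W.j ≠ 0 := (Valuation.ne_zero_iff _).2 hj0
  obtain ⟨m, hm⟩ : ∃ m : ℤ, w.valuation F W.j = WithZero.exp m :=
    ⟨WithZero.log (w.valuation F W.j), (WithZero.exp_log hvj).symm⟩
  have h2 := hL W.j (-m) (by rw [neg_neg]; exact hm)
  have h3 := congrArg (fun x => L.nm (algebraMap F Ω x)) hj
  simp only [map_mul, map_pow] at h3
  rw [L.mul, h2, L.pow, hn, hπc, mul_left_comm, ← zpow_natCast c n, ← zpow_add₀ h0.ne'] at h3
  have h4 := mul_left_cancel₀ hc40 (h3.trans (mul_one _).symm)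
  rw [← zpow_zero c] at h4
  have h5 : -m + n = 0 := zpow_right_injective₀ h0 h1.ne h4
  have h6 : m = n := by omega
  have h7 := h m hm (by rw [h6]; exact Int.natCast_dvd_natCast.2 hln)
  omega

end DN
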