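import Pool.Agent.Lib.MP_f80667_ag.Gx.PjA
import Pool.Agent.Lib.MP_f80667_ag.Gx.D
import Pool.Agent.Lib.MP_f80667_ag.Sp.Def

/-!
Projective varieties dominated by a product of elliptic curves: the definitions for the statement.

`F' / F` is an extension of fields, `W i` are elliptic curves over `F'`, `f = 0` is a projective variety over `F`.

* `Vl W Φ P x`: `x` is the value of the vector `Φ` of polynomials in the affine coordinates at the point `P` of the product.
* `Fb W Φ x`: the points of the product which are mapped to the point with the homogeneous coordinates `x`.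
* `Dom f W Φ h D`: `Φ` is a dominant rational map of degree `D` to the variety `f = 0`: the points `x` with `h (x) ≠ 0` have exactly `D`
  preimages.
* `Cst f W Φ h`: the sum of the coordinates number `i` of the preimages of `x` does not depend on `x`.
-/

open ZC BE PE

namespace DN

variable {F F' : Type} [Field F] [Field F'] {N n : ℕ} {ι : Type}

/-- `x ≠ 0` is the value of the vector `Φ` of polynomials at the point `P`, whose coordinates `P i = (X i, Y i)` are not the points at
infinity. -/
def Vl (W : Fin n → WeierstrassCurve F') (Φ : Fin N → MvPolynomial (Fin n ⊕ Fin n) F') {L : Type}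
    [Field L] [Algebra F' L] (P : ∀ i, Pt (W i) L) (x : Fin N → L) : Prop :=
  ∃ (X Y : Fin n → L) (h : ∀ i, ((W i).baseChange L).toAffine.Nonsingular (X i) (Y i)),
    (P = fun i => Pt.aff (X i) (Y i) (h i)) ∧ x ≠ 0 ∧
      ∀ j, x j = MvPolynomial.aeval (Sum.elim X Y) (Φ j)

/-- The preimages of the point with the homogeneous coordinates `x`. -/
def Fb (W : Fin n → WeierstrassCurve F') (Φ : Fin N → MvPolynomial (Fin n ⊕ Fin n) F') {L : Type}
    [Field L] [Algebra F' L] (x : Fin N → L) : Set (∀ i, Pt (W i) L) :=
  {P | ∃ c : L, c ≠ 0 ∧ Vl W Φ P fun j => c * x j}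

/-- `x` are coordinates of a point of the variety `f = 0` with `h (x) ≠ 0`. -/
def Gp (f : ι → MvPolynomial (Fin N) F) (h : MvPolynomial (Fin N) F) {L : Type} [Field L]
    [Algebra F L] (x : Fin N → L) : Prop :=
  x ≠ 0 ∧ (∀ i, MvPolynomial.aeval x (f i) = 0) ∧ MvPolynomial.aeval x h ≠ 0

/-- `Φ` is a dominant rational map of degree `D` from the product of the curves `W i` to the variety `f = 0`: its values are in
`f = 0`, and the points with `h ≠ 0`, a nonempty open set, have exactly `D` preimages. -/
structure Dom [Algebra F F'] (f : ι → MvPolynomial (Fin N) F) (W : Fin n → WeierstrassCurve F')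
    (Φ : Fin N → MvPolynomial (Fin n ⊕ Fin n) F') (h : MvPolynomial (Fin N) F) (D : ℕ) : Prop where
  eq : ∀ (L : Type) [Field L] [Algebra F L] [Algebra F' L] [IsScalarTower F F' L]
    (P : ∀ i, Pt (W i) L) (x : Fin N → L), Vl W Φ P x → ∀ i, MvPolynomial.aeval x (f i) = 0
  hom : ∃ e, h.IsHomogeneous e
  ne : h ∉ Ideal.span (Set.range f)
  deg : ∀ (L : Type) [Field L] [IsAlgClosed L] [Algebra F L] [Algebra F' L] [IsScalarTower F F' L]
    (x : Fin N → L), Gp f h x → (Fb W Φ x).ncard = D

/-- The sum of the coordinates number `i` of the preimages of `x` does not depend on `x`. -/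
def Cst [Algebra F F'] (f : ι → MvPolynomial (Fin N) F) (W : Fin n → WeierstrassCurve F')
    (Φ : Fin N → MvPolynomial (Fin n ⊕ Fin n) F') (h : MvPolynomial (Fin N) F) : Prop :=
  ∀ (L : Type) [Field L] [IsAlgClosed L] [Algebra F L] [Algebra F' L] [IsScalarTower F F' L]
    (x x' : Fin N → L), Gp f h x → Gp f h x' →
      ∀ i, ∑ᶠ P ∈ Fb W Φ x, P i = ∑ᶠ P ∈ Fb W Φ x', P i

end DN
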