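import Mathlib

/-! An embedding of a finite extension into a composite of degree prime to `l`. -/

namespace DN

open Polynomial in
private lemma emb_factor {K : Type} [Field K] {l : ℕ} {f : K[X]} (hf : f.Monic)
    (h : ¬ l ∣ f.natDegree) : ∃ p : K[X], Irreducible p ∧ p ∣ f ∧ ¬ l ∣ p.natDegree := by
  classical
  by_contra hcon
  push Not at hcon
  apply h
  have h0 : f ≠ 0 := hf.ne_zero
  have h1 : Associated (UniqueFactorizationMonoid.normalizedFactors f).prod f :=
    UniqueFactorizationMonoid.prod_normalizedFactors h0
  have h2 : f.natDegree = (UniqueFactorizationMonoid.normalizedFactors f).prod.natDegree :=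
    (natDegree_eq_of_degree_eq (degree_eq_degree_of_associated h1)).symm
  have h3 : (0 : K[X]) ∉ UniqueFactorizationMonoid.normalizedFactors f :=
    UniqueFactorizationMonoid.zero_notMem_normalizedFactors f
  rw [h2, natDegree_multiset_prod _ h3]
  refine Multiset.dvd_sum fun a ha => ?_
  obtain ⟨p, hp, rfl⟩ := Multiset.mem_map.1 ha
  exact hcon p (UniqueFactorizationMonoid.irreducible_of_normalized_factor p hp)
    (UniqueFactorizationMonoid.dvd_of_mem_normalizedFactors hp)

/-- Proof: `F' = F (α)` (primitive element), `q` the minimal polynomial of `α` over `F`, of degree `[F' : F]`. The degrees of the irreducible factors of `q` over `K` (`UniqueFactorizationMonoid.normalizedFactors`) have the sum `[F' : F]`, so one of them, `d`, is not divisible by `l`. Let `β` in `Ω` be a root of this factor, `σ α = β` (`AdjoinRoot` or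
`IntermediateField.algHomAdjoinIntegralEquiv`, `Algebra.adjoin.powerBasis`, `PowerBasis.lift`). `K (σ F') = K (β)` has the degree `d`. -/
theorem exists_emb {F F' K Ω : Type} [Field F] [CharZero F] [Field F'] [Algebra F F']
    [FiniteDimensional F F'] [Field K] [Algebra F K] [Field Ω] [Algebra K Ω] [IsAlgClosure K Ω]
    [Algebra F Ω] [IsScalarTower F K Ω] {l : ℕ} (hl : l.Prime) (hc : ¬ l ∣ Module.finrank F F') :
    ∃ σ : F' →ₐ[F] Ω, FiniteDimensional K (IntermediateField.adjoin K (Set.range σ)) ∧
      (Module.finrank K (IntermediateField.adjoin K (Set.range σ))).Coprime l := by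
  classical
  have : IsAlgClosed Ω := IsAlgClosure.isAlgClosed K
  set pb := Field.powerBasisOfFiniteOfSeparable F F' with hpb
  set q := minpoly F pb.gen with hq
  have hint : IsIntegral F pb.gen := pb.isIntegral_gen
  have hqm : q.Monic := minpoly.monic hint
  have hqd : q.natDegree = Module.finrank F F' := by
    rw [hq, pb.natDegree_minpoly, pb.finrank]
  have hm : (q.map (algebraMap F K)).Monic := hqm.map _
  have hmd : (q.map (algebraMap F K)).natDegree = Module.finrank F F' := by
    rw [hqm.natDegree_map, hqd]
  obtain ⟨p, hp, hpd, hpl⟩ := emb_factor (l := l) hm (by rw [hmd]; exact hc)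
  obtain ⟨β, hβ⟩ := IsAlgClosed.exists_aeval_eq_zero Ω p (Polynomial.degree_pos_of_irreducible hp).ne'
  have hβq : Polynomial.aeval β q = 0 := by
    have h1 : Polynomial.aeval β (q.map (algebraMap F K)) = 0 := by
      obtain ⟨s, hs⟩ := hpd
      rw [hs, map_mul, hβ, zero_mul]
    rwa [Polynomial.aeval_map_algebraMap] at h1
  set σ : F' →ₐ[F] Ω := pb.lift β hβq with hσ
  have hσg : σ pb.gen = β := pb.lift_gen β hβq
  have hadj : IntermediateField.adjoin K (Set.range σ) = IntermediateField.adjoin K {β} := by
    apply le_antisymm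
    · rw [IntermediateField.adjoin_le_iff]
      rintro _ ⟨x, rfl⟩
      obtain ⟨f, hf⟩ := pb.exists_eq_aeval' x
      have h2 : σ (Polynomial.aeval pb.gen f) = Polynomial.aeval β (f.map (algebraMap F K)) := by
        rw [← Polynomial.aeval_algHom_apply, hσg, Polynomial.aeval_map_algebraMap]
      rw [hf]
      change σ (Polynomial.aeval pb.gen f) ∈ _
      rw [h2]
      exact (Algebra.adjoin_le_iff.2 (IntermediateField.subset_adjoin K {β}) :
        Algebra.adjoin K {β} ≤ (IntermediateField.adjoin K {β}).toSubalgebra)
        (Polynomial.aeval_mem_adjoin_singleton K β)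
    · rw [IntermediateField.adjoin_le_iff]
      intro y hy
      rw [Set.mem_singleton_iff] at hy
      rw [hy]
      exact IntermediateField.subset_adjoin K _ ⟨pb.gen, hσg⟩
  have hβi : IsIntegral K β := by
    refine (isAlgebraic_iff_isIntegral).1 ⟨p, hp.ne_zero, hβ⟩
  have hdeg : (minpoly K β).natDegree = p.natDegree := by
    have h1 : minpoly K β ∣ p := minpoly.dvd K β hβ
    have h2 : Associated (minpoly K β) p :=
      (minpoly.irreducible hβi).associated_of_dvd hp h1
    exact Polynomial.natDegree_eq_of_degree_eq (Polynomial.degree_eq_degree_of_associated h2)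
  refine ⟨σ, ?_, ?_⟩
  · rw [hadj]
    exact IntermediateField.adjoin.finiteDimensional hβi
  · rw [hadj, IntermediateField.adjoin.finrank hβi, hdeg]
    exact ((Nat.Prime.coprime_iff_not_dvd hl).2 hpl).symm

end DN
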