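import Pool.Agent.Lib.MP_f80667_ag.Do.Psi
import Pool.Agent.Lib.MP_f80667_ag.Do.Gu
import Pool.Agent.Lib.MP_f80667_ag.Do.GuB

/-! Translation by a multiple: cycles. -/

open ZC BE PE CV NE MX

namespace DN

variable {F F' : Type} [Field F] [Field F'] [Algebra F F'] {N n : ℕ} {ι : Type}
  {f : ι → MvPolynomial (Fin N) F} {W : Fin n → WeierstrassCurve F'} [∀ i, (W i).IsElliptic]
  {Φ : Fin N → MvPolynomial (Fin n ⊕ Fin n) F'} {h : MvPolynomial (Fin N) F} {D : ℕ} {K Ω : Type}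
  [Field K] [CharZero K] [Field Ω] [Algebra K Ω] [IsAlgClosure K Ω] [Algebra F K] [Algebra F Ω]
  [IsScalarTower F K Ω] [Algebra F' K] [Algebra F' Ω] [IsScalarTower F' K Ω]
  [IsScalarTower F F' K] [IsScalarTower F F' Ω]

/-- The action is the map on the coordinates. -/
private theorem psib_act (γ : Ω ≃ₐ[K] Ω) (Q : ∀ i, Pt (W i) Ω) (i : Fin n) :
    ac γ Q i = Pt.map (W i) (γ.restrictScalars F' : Ω →ₐ[F'] Ω) (Q i) := rfl

private theorem psib_c (γ : Ω ≃ₐ[K] Ω) (c : ∀ i, Pt (W i) K) (i : Fin n) :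
    Pt.map (W i) (γ.restrictScalars F' : Ω →ₐ[F'] Ω) (up Ω c i) = up Ω c i :=
  congrFun (up_act γ c) i

private theorem psib_pa (γ : Ω ≃ₐ[K] Ω) (m : ℕ) (c : ∀ i, Pt (W i) K) (P : ∀ i, Pt (W i) Ω)
    (j : ℕ) : ac γ (pa m (up Ω c) P j) = pa m (up Ω c) (ac γ P) j := by
  funext i
  rw [psib_act, pa, pa]
  split_ifs with h
  · rw [map_add, map_nsmul, psib_c γ c i, psib_act]
  · rw [psib_act]

private theorem psib_il (γ : Ω ≃ₐ[K] Ω) (j : Fin n) (Q : ∀ i, Pt (W i) Ω) (a : Pt (W j) Ω) :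
    ac γ (Q + il j a) =
      ac γ Q + il j (Pt.map (W j) (γ.restrictScalars F' : Ω →ₐ[F'] Ω) a) := by
  classical
  funext i
  rw [psib_act, Pi.add_apply, Pi.add_apply, map_add, psib_act]
  refine congrArg₂ (· + ·) rfl ?_
  rw [il, il]
  rcases eq_or_ne i j with rfl | h
  · rw [Pi.single_eq_same, Pi.single_eq_same]
  · rw [Pi.single_eq_of_ne h, Pi.single_eq_of_ne h, map_zero]

private theorem psib_dn (γ : Ω ≃ₐ[K] Ω) {Q : ∀ i, Pt (W i) Ω} (hQ : Q ∈ Dn W Φ Ω) :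
    ac γ Q ∈ Dn W Φ Ω := dn_act γ hQ

/-- The general points are stable. -/
private theorem psib_gd (γ : Ω ≃ₐ[K] Ω) {m : ℕ} {c : ∀ i, Pt (W i) K} {P : ∀ i, Pt (W i) Ω}
    (h : Gd W Φ m (up Ω c) P) : Gd W Φ m (up Ω c) (ac γ P) := by
  intro j
  obtain ⟨h1, h2, h3, h4⟩ := h j
  have k1 := psib_dn γ h1
  have k2 := psib_dn γ h2
  have k3 := psib_dn γ h3
  have k4 := psib_dn γ h4
  rw [psib_pa] at k1
  rw [psib_il, psib_pa, psib_c] at k2
  rw [psib_il, psib_pa, map_nsmul, psib_c] at k3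
  rw [psib_il, psib_pa, map_neg, map_nsmul, psib_c] at k4
  exact ⟨k1, k2, k3, k4⟩

private theorem psib_fv (hD : Dom f W Φ h D) (o : (GX.Xf f).pt Ω) (γ : Ω ≃ₐ[K] Ω)
    {Q : ∀ i, Pt (W i) Ω} (hQ : Q ∈ Dn W Φ Ω) (a : ℤ) :
    γ • (Finsupp.single (fv o Φ Q) a : (GX.Xf f).pt Ω →₀ ℤ) =
      Finsupp.single (fv o Φ (ac γ Q)) a := by
  rw [CV.smul_single]
  exact congrArg (fun y => Finsupp.single y a) (fv_act hD o γ hQ)

/-- The cycle `psi` is equivariant at the general points. -/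
private theorem psib_psi (hD : Dom f W Φ h D) (o : (GX.Xf f).pt Ω) (γ : Ω ≃ₐ[K] Ω) {m : ℕ}
    {c : ∀ i, Pt (W i) K} {P : ∀ i, Pt (W i) Ω} (hP : Gd W Φ m (up Ω c) P) :
    γ • psi o Φ m (up Ω c) P = psi o Φ m (up Ω c) (ac γ P) := by
  rw [psi, psi, Finset.smul_sum]
  refine Finset.sum_congr rfl fun j _ => ?_
  obtain ⟨h1, h2, h3, h4⟩ := hP j
  rw [smul_sub, psib_fv hD o γ h2, psib_fv hD o γ h1, psib_il, psib_pa, psib_c]

private theorem psib_up (m : ℕ) (c : ∀ i, Pt (W i) K) :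
    up Ω (m • c) = m • (up Ω c : ∀ i, Pt (W i) Ω) :=
  funext fun i => map_nsmul (Pt.map (W i) (IsScalarTower.toAlgHom F' K Ω)) m (c i)

/-- The end of the path. -/
private theorem psib_end {m : ℕ} {c P : ∀ i, Pt (W i) Ω} (hn : 0 < n) (hP : Gd W Φ m c P) :
    P + m • c ∈ Dn W Φ Ω := by
  classical
  obtain ⟨-, -, h, -⟩ := hP ⟨n - 1, Nat.sub_lt hn one_pos⟩
  have e : pa m c P ((⟨n - 1, Nat.sub_lt hn one_pos⟩ : Fin n) : ℕ) +
      il ⟨n - 1, Nat.sub_lt hn one_pos⟩ (m • c ⟨n - 1, Nat.sub_lt hn one_pos⟩) = P + m • c := by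
    funext i
    rw [Pi.add_apply, Pi.add_apply, pa, il]
    rcases eq_or_ne i ⟨n - 1, Nat.sub_lt hn one_pos⟩ with rfl | hi
    · rw [if_neg (lt_irrefl _), Pi.single_eq_same]
      rfl
    · have h2 : (i : ℕ) < n - 1 := by
        have h3 : (i : ℕ) ≠ n - 1 := fun e => hi (Fin.ext e)
        have h4 := i.2
        omega
      rw [if_pos h2, Pi.single_eq_of_ne hi, add_zero]
      rfl
  rwa [e] at h

/-- The translation. -/
private noncomputable def psib_t (o : (GX.Xf f).pt Ω) (Φ : Fin N → MvPolynomial (Fin n ⊕ Fin n) F')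
    (m : ℕ) (c P : ∀ i, Pt (W i) Ω) : (GX.Xf f).pt Ω := fv o Φ (P + m • c)

/-- The difference for one point. -/
private noncomputable def psib_d (o : (GX.Xf f).pt Ω) (Φ : Fin N → MvPolynomial (Fin n ⊕ Fin n) F')
    (m : ℕ) (c P : ∀ i, Pt (W i) Ω) : (GX.Xf f).pt Ω →₀ ℤ :=
  Finsupp.single (fv o Φ (P + m • c)) 1 - Finsupp.single (fv o Φ P) 1 - m • psi o Φ m c P

private theorem psib_deq (hD : Dom f W Φ h D) (o : (GX.Xf f).pt Ω) (γ : Ω ≃ₐ[K] Ω) {m : ℕ}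
    {c : ∀ i, Pt (W i) K} {P : ∀ i, Pt (W i) Ω} (hP : Gd W Φ m (up Ω c) P) :
    γ • psib_d o Φ m (up Ω c) P = psib_d o Φ m (up Ω c) (ac γ P) := by
  rw [psib_d, psib_d, smul_sub, smul_sub, smul_comm γ m, psib_psi hD o γ hP]
  rcases Nat.eq_zero_or_pos n with hn | hn
  · have e : ∀ Q Q' : (∀ i, Pt (W i) Ω), Q = Q' := fun Q Q' => funext fun i =>
      absurd i.2 (by omega)
    rw [e (P + m • up Ω c) P, sub_self, e (ac γ P + m • up Ω c) (ac γ P), sub_self]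
  · have h1 : P ∈ Dn W Φ Ω := by
      have h2 := (hP ⟨0, hn⟩).1
      have e : pa m (up Ω c) P ((⟨0, hn⟩ : Fin n) : ℕ) = P := funext fun i => by
        rw [pa]
        exact if_neg (Nat.not_lt_zero _)
      rwa [e] at h2
    have e : ac γ (P + m • up Ω c) = ac γ P + m • up Ω c := by
      funext i
      rw [psib_act, Pi.add_apply, Pi.add_apply, map_add, Pi.smul_apply, map_nsmul, psib_c γ c i,
        psib_act]
    rw [psib_fv hD o γ h1, psib_fv hD o γ (psib_end hn hP), e]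

open Classical in
/-- The homomorphism given by a function on the general points. -/
private noncomputable def psib_H (m : ℕ) (c : ∀ i, Pt (W i) Ω)
    (d : (∀ i, Pt (W i) Ω) → ((GX.Xf f).pt Ω →₀ ℤ)) (Φ : Fin N → MvPolynomial (Fin n ⊕ Fin n) F') :
    ((Vpi fun i => Ev (W i)).pt Ω →₀ ℤ) →+ ((GX.Xf f).pt Ω →₀ ℤ) :=
  Finsupp.liftAddHom fun P : (Vpi fun i => Ev (W i)).pt Ω =>
    zmultiplesHom _ (if Gd W Φ m c P then d P else 0)

open Classical in
private theorem psib_H_single (m : ℕ) (c : ∀ i, Pt (W i) Ω)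
    (d : (∀ i, Pt (W i) Ω) → ((GX.Xf f).pt Ω →₀ ℤ)) (P : (Vpi fun i => Ev (W i)).pt Ω) (a : ℤ) :
    psib_H m c d Φ (Finsupp.single P a) = a • (if Gd W Φ m c P then d P else 0) := by
  rw [psib_H, Finsupp.liftAddHom_apply_single, zmultiplesHom_apply]

private theorem psib_H_smul (γ : Ω ≃ₐ[K] Ω) {m : ℕ} {c : ∀ i, Pt (W i) K}
    {d : (∀ i, Pt (W i) Ω) → ((GX.Xf f).pt Ω →₀ ℤ)}
    (hd : ∀ (γ : Ω ≃ₐ[K] Ω) (P : ∀ i, Pt (W i) Ω), Gd W Φ m (up Ω c) P →
      γ • d P = d (ac γ P)) (w : (Vpi fun i => Ev (W i)).pt Ω →₀ ℤ) :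
    psib_H m (up Ω c) d Φ (γ • w : (Vpi fun i => Ev (W i)).pt Ω →₀ ℤ) =
      γ • psib_H m (up Ω c) d Φ w := by
  classical
  have hin : ∀ (P : ∀ i, Pt (W i) Ω), ac γ⁻¹ (ac γ P) = P := fun P => by
    refine (act_mul (V := Vpi fun i => Ev (W i)) Hf.out γ⁻¹ γ P).symm.trans ?_
    rw [inv_mul_cancel]
    exact act_one (V := Vpi fun i => Ev (W i)) Hf.out P
  induction w using Finsupp.induction_linear with
  | zero => rw [smul_zero, map_zero, smul_zero]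
  | add a b ha hb => rw [smul_add, map_add, ha, hb, map_add, smul_add]
  | single P a =>
    rw [CV.smul_single]
    refine (psib_H_single m (up Ω c) d (ac γ P) a).trans ?_
    refine Eq.trans ?_ (congrArg (fun y => γ • y) (psib_H_single m (up Ω c) d P a)).symm
    rw [smul_comm γ a]
    congr 1
    by_cases hP : Gd W Φ m (up Ω c) P
    · rw [if_pos hP, if_pos (psib_gd γ hP), hd γ P hP]
    · rw [if_neg hP, if_neg, smul_zero]
      intro h'
      apply hP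
      have h2 := psib_gd γ⁻¹ h'
      rwa [hin] at h2

private theorem psib_H_sum {m : ℕ} {c : ∀ i, Pt (W i) Ω}
    {d : (∀ i, Pt (W i) Ω) → ((GX.Xf f).pt Ω →₀ ℤ)} {w : (Vpi fun i => Ev (W i)).pt Ω →₀ ℤ}
    (hg : ∀ P ∈ w.support, Gd W Φ m c P) :
    psib_H m c d Φ w = ∑ P ∈ w.support, w P • d P := by
  classical
  rw [psib_H, Finsupp.liftAddHom_apply, Finsupp.sum]
  refine Finset.sum_congr rfl fun P hP => ?_
  change zmultiplesHom _ (if Gd W Φ m c P then d P else 0) (w P) = _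
  rw [zmultiplesHom_apply, if_pos (hg P hP)]

/-- The difference for one point over `M`. -/
private theorem psib_M (hD : Dom f W Φ h D) (o : (GX.Xf f).pt Ω) {m : ℕ} (c : ∀ i, Pt (W i) K)
    (hc : ∀ i, c i ≠ 0 ∧ m • c i ≠ 0) {M : IntermediateField K Ω} [FiniteDimensional K M]
    {P : ∀ i, Pt (W i) Ω} (hP : Fp (Vpi fun i => Ev (W i)) M P) (hg : Gd W Φ m (up Ω c) P) :
    psib_d o Φ m (up Ω c) P ∈ (GX.Xf f).ratEq M Ω := by
  classical
  have i1 : IsAlgClosure M Ω := ⟨IsAlgClosure.isAlgClosed K, inferInstance⟩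
  have i2 : IsScalarTower F M Ω := IsScalarTower.of_algebraMap_eq fun _ => rfl
  have i3 : IsScalarTower F' M Ω := IsScalarTower.of_algebraMap_eq fun _ => rfl
  have i4 : IsScalarTower F F' M := IsScalarTower.of_algebraMap_eq fun x => Subtype.ext
    ((IsScalarTower.algebraMap_apply F F' Ω x))
  have i5 : CharZero M := charZero_of_injective_algebraMap (algebraMap K M).injective
  have hfx : ∀ (γ : Ω ≃ₐ[M] Ω) (i : Fin n), γ • (P i : Pt (W i) Ω) = P i := fun γ i => by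
    have h1 := congrFun (hP (γ.restrictScalars K) (by
      rw [IntermediateField.mem_fixingSubgroup_iff]
      exact fun x hx => γ.commutes ⟨x, hx⟩)) i
    exact h1
  have hcx : ∀ (γ : Ω ≃ₐ[M] Ω) (i : Fin n),
      γ • ((up Ω c : ∀ i, Pt (W i) Ω) i : Pt (W i) Ω) = (up Ω c : ∀ i, Pt (W i) Ω) i :=
    fun γ i => congrFun (up_act (γ.restrictScalars K) c) i
  choose P₀ hP₀ using fun i => exists_desc (K := M) (fun γ => hfx γ i)
  choose c₀ hc₀ using fun i => exists_desc (K := M) (fun γ => hcx γ i)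
  have e1 : up Ω P₀ = P := funext hP₀
  have e2 : up Ω c₀ = (up Ω c : ∀ i, Pt (W i) Ω) := funext hc₀
  have hinj : ∀ i, Function.Injective (Pt.map (W i) (IsScalarTower.toAlgHom F' K Ω)) := fun i =>
    WeierstrassCurve.Affine.Point.map_injective _
  have hne : ∀ i, c₀ i ≠ 0 ∧ m • c₀ i ≠ 0 := fun i => by
    refine ⟨fun h0 => (hc i).1 (hinj i ?_), fun h0 => (hc i).2 (hinj i ?_)⟩
    · rw [map_zero]
      refine (hc₀ i).symm.trans ?_
      rw [h0, map_zero]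
    · rw [map_zero, map_nsmul]
      have h1 := congrArg (fun y => m • y) (hc₀ i)
      refine h1.symm.trans ?_
      change m • Pt.map (W i) _ (c₀ i) = 0
      rw [← map_nsmul, h0, map_zero]
  have h1 := psi_pt (K := M) (Ω := Ω) hD o P₀ c₀ hne (by rwa [e1, e2])
  rw [psib_up, e1, e2] at h1
  exact h1

/-- A point of the product is a point over a finite extension. -/
private theorem psib_fp (x : (Vpi fun i => Ev (W i)).pt Ω) :
    ∃ M : IntermediateField K Ω, FiniteDimensional K M ∧ Fp (Vpi fun i => Ev (W i)) M x := by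
  choose M hM hx using fun i => Kp.fp (V := Ev (W i)) K Ω (x i)
  refine ⟨⨆ i, M i, IntermediateField.finiteDimensional_iSup_of_finite, fun γ hγ => ?_⟩
  funext i
  exact hx i γ ((IntermediateField.mem_fixingSubgroup_iff _ γ).2 fun a ha =>
    (IntermediateField.mem_fixingSubgroup_iff _ γ).1 hγ a (le_iSup M i ha))

private theorem psib_HN (H : ((Vpi fun i => Ev (W i)).pt Ω →₀ ℤ) →+ ((GX.Xf f).pt Ω →₀ ℤ))
    (hH : ∀ (γ : Ω ≃ₐ[K] Ω) (a : (Vpi fun i => Ev (W i)).pt Ω →₀ ℤ), H (γ • a) = γ • H a)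
    (M : IntermediateField K Ω) [FiniteDimensional K M]
    (a : (Vpi fun i => Ev (W i)).pt Ω →₀ ℤ) :
    H (Nm (⊥ : IntermediateField K Ω) M a) = Nm (⊥ : IntermediateField K Ω) M (H a) :=
  hom_nm H bot_le (fun γ _ a => hH γ a) a

private theorem psib_HS (hD : Dom f W Φ h D) (o : (GX.Xf f).pt Ω) {m : ℕ}
    (c : ∀ i, Pt (W i) K) (γ : Ω ≃ₐ[K] Ω) (a : (Vpi fun i => Ev (W i)).pt Ω →₀ ℤ) :
    psib_H m (up Ω c) (psib_d o Φ m (up Ω c)) Φ (γ • a) =
      γ • psib_H m (up Ω c) (psib_d o Φ m (up Ω c)) Φ a :=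
  psib_H_smul (d := psib_d o Φ m (up Ω c)) γ (fun γ _ hP => psib_deq hD o γ hP) a

private theorem psib_P (hD : Dom f W Φ h D) (o : (GX.Xf f).pt Ω) {m : ℕ} (c : ∀ i, Pt (W i) K)
    (hc : ∀ i, c i ≠ 0 ∧ m • c i ≠ 0) {M : IntermediateField K Ω} [FiniteDimensional K M]
    {P : ∀ i, Pt (W i) Ω} (hP : Fp (Vpi fun i => Ev (W i)) M P) (hg : Gd W Φ m (up Ω c) P) :
    Nm (⊥ : IntermediateField K Ω) M (psib_d o Φ m (up Ω c) P) ∈ (GX.Xf f).ratEq K Ω := by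
  refine nm_ratEq (V := GX.Xf f) (psib_M hD o c hc hP hg) fun γ hγ => ?_
  rw [psib_deq hD o γ hg]
  exact congrArg (psib_d o Φ m (up Ω c)) (hP γ hγ)

private theorem psib_C (hD : Dom f W Φ h D) (o : (GX.Xf f).pt Ω) {m : ℕ}
    {w : (Vpi fun i => Ev (W i)).pt Ω →₀ ℤ} (hw : w ∈ (Vpi fun i => Ev (W i)).cyc K Ω)
    (c : ∀ i, Pt (W i) K) (hc : ∀ i, c i ≠ 0 ∧ m • c i ≠ 0)
    (hg : ∀ P ∈ w.support, Gd W Φ m (up Ω c) P) :
    w ∈ ((GX.Xf f).ratEq K Ω).comap (psib_H m (up Ω c) (psib_d o Φ m (up Ω c)) Φ) := by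
  refine desc (V := Vpi fun i => Ev (W i)) (K := K) (Ω := Ω)
    psib_fp hw fun M P hM hP hPs => ?_
  have h1 : psib_H m (up Ω c) (psib_d o Φ m (up Ω c)) Φ
      (Nm (⊥ : IntermediateField K Ω) M (Finsupp.single P 1)) ∈ (GX.Xf f).ratEq K Ω := by
    rw [psib_HN (psib_H m (up Ω c) (psib_d o Φ m (up Ω c)) Φ) (psib_HS hD o c) M, psib_H_single,
      if_pos (hg P hPs), one_smul]
    exact psib_P hD o c hc hP (hg P hPs)
  exact h1

private theorem psib_e {m : ℕ} {w : (Vpi fun i => Ev (W i)).pt Ω →₀ ℤ} (o : (GX.Xf f).pt Ω)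
    (c : ∀ i, Pt (W i) Ω) (hg : ∀ P ∈ w.support, Gd W Φ m c P) :
    Finsupp.mapDomain (fun Q : (Vpi fun i => Ev (W i)).pt Ω => psib_t o Φ m c Q) w -
      Finsupp.mapDomain (fun Q : (Vpi fun i => Ev (W i)).pt Ω => fv o Φ Q) w -
        m • psib_H m c (psi o Φ m c) Φ w = psib_H m c (psib_d o Φ m c) Φ w := by
  rw [psib_H_sum hg, psib_H_sum hg, Finsupp.mapDomain, Finsupp.mapDomain, Finsupp.sum,
    Finsupp.sum, Finset.smul_sum, ← Finset.sum_sub_distrib, ← Finset.sum_sub_distrib]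
  refine Finset.sum_congr rfl fun P _ => ?_
  rw [psib_d, psib_t, smul_sub, smul_sub, Finsupp.smul_single, Finsupp.smul_single,
    smul_eq_mul, mul_one, smul_comm m]

private theorem psib_dg {m : ℕ} {w : (Vpi fun i => Ev (W i)).pt Ω →₀ ℤ} (o : (GX.Xf f).pt Ω)
    (c : ∀ i, Pt (W i) Ω) (hg : ∀ P ∈ w.support, Gd W Φ m c P) :
    (GX.Xf f).deg Ω (psib_H m c (psi o Φ m c) Φ w) = 0 := by
  rw [psib_H_sum hg, map_sum]
  refine Finset.sum_eq_zero fun P _ => ?_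
  rw [map_zsmul, psi, map_sum, Finset.sum_eq_zero, smul_zero]
  intro j _
  rw [map_sub, Vr.deg, Finsupp.liftAddHom_apply_single, Finsupp.liftAddHom_apply_single,
    sub_self]

private theorem psib_key (hD : Dom f W Φ h D) (o : (GX.Xf f).pt Ω) {m : ℕ}
    {w : (Vpi fun i => Ev (W i)).pt Ω →₀ ℤ} (hw : w ∈ (Vpi fun i => Ev (W i)).cyc K Ω)
    (c : ∀ i, Pt (W i) K) (hc : ∀ i, c i ≠ 0 ∧ m • c i ≠ 0)
    (hg : ∀ P ∈ w.support, Gd W Φ m (up Ω c) P) :
    (∑ P ∈ w.support, w P • psi o Φ m (up Ω c) P) ∈ (GX.Xf f).D0 K Ω ∧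
      Finsupp.mapDomain (fun Q : (Vpi fun i => Ev (W i)).pt Ω => psib_t o Φ m (up Ω c) Q) w -
        Finsupp.mapDomain (fun Q : (Vpi fun i => Ev (W i)).pt Ω => fv o Φ Q) w -
          m • (∑ P ∈ w.support, w P • psi o Φ m (up Ω c) P) ∈ (GX.Xf f).ratEq K Ω := by
  rw [← psib_H_sum (c := up Ω c) (d := psi o Φ m (up Ω c)) hg]
  refine ⟨⟨fun γ => ?_, ?_⟩, ?_⟩
  · have h1 := psib_H_smul (d := psi o Φ m (up Ω c)) γ (fun γ _ hP => psib_psi hD o γ hP) w
    rw [show γ • w = w from hw γ] at h1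
    exact h1.symm
  · exact psib_dg o (up Ω c) hg
  · rw [psib_e o (up Ω c) hg]
    exact psib_C hD o hw c hc hg

/-- **Translation by a multiple, explicit form.** The cycle is the sum of `w P` times `psi o Φ m (up Ω c) P` over the support of `w`. -/
theorem psi_sum (hD : Dom f W Φ h D) (o : (GX.Xf f).pt Ω) {m : ℕ}
    {w : (∀ i, Pt (W i) Ω) →₀ ℤ} (hw : w ∈ (Vpi fun i => Ev (W i)).cyc K Ω) (c : ∀ i, Pt (W i) K)
    (hc : ∀ i, c i ≠ 0 ∧ m • c i ≠ 0) (hg : ∀ P ∈ w.support, Gd W Φ m (up Ω c) P) :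
    (∑ P ∈ w.support, w P • psi o Φ m (up Ω c) P) ∈ (GX.Xf f).D0 K Ω ∧
      Finsupp.mapDomain (fun Q => fv o Φ (Q + up Ω (m • c))) w - Finsupp.mapDomain (fv o Φ) w -
        m • (∑ P ∈ w.support, w P • psi o Φ m (up Ω c) P) ∈ (GX.Xf f).ratEq K Ω := by
  have h1 := psib_key hD o hw c hc hg
  rw [psib_up]
  exact h1

/-- **Translation by a multiple.** Proof: `z` is the sum of `w P` times `psi o Φ m (up Ω c) P`, it is in `D0` (`fv_act`, `up_act`, `act_add`, compare `tr_mem`; the degree of `psi` is `0`). The difference is additive in `w` and equivariant: `desc` for the Galois stable set of the support of `w`; a point of the product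
fixed by the group of `M` is a point over `M` (`exists_desc` in `Be/Gal.lean`), `psi_pt` over `M` (the point `c` over `M`), then `nm_ratEq` (the elements of `ratEq` are in `cyc`: `ratEq_le_cyc`). -/
theorem psi_cyc (hD : Dom f W Φ h D) (o : (GX.Xf f).pt Ω) {m : ℕ}
    {w : (∀ i, Pt (W i) Ω) →₀ ℤ} (hw : w ∈ (Vpi fun i => Ev (W i)).cyc K Ω) (c : ∀ i, Pt (W i) K)
    (hc : ∀ i, c i ≠ 0 ∧ m • c i ≠ 0) (hg : ∀ P ∈ w.support, Gd W Φ m (up Ω c) P) :
    ∃ z ∈ (GX.Xf f).D0 K Ω,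
      Finsupp.mapDomain (fun Q => fv o Φ (Q + up Ω (m • c))) w - Finsupp.mapDomain (fv o Φ) w -
        m • z ∈ (GX.Xf f).ratEq K Ω := by
  have h1 := psi_sum hD o hw c hc hg
  exact ⟨_, h1.1, h1.2⟩

end DN
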