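import Pool.Agent.Lib.MP_f80667_ag.Do.Gnc
import Pool.Agent.Lib.MP_f80667_ag.Do.PsiB
import Pool.Agent.Lib.MP_f80667_ag.Do.Fib
import Pool.Agent.Lib.MP_f80667_ag.Do.Mvc

/-! The theorem over one field. -/

open ZC BE PE CV NE

namespace DN

variable {F F' : Type} [Field F] [CharZero F] [Field F'] [Algebra F F'] {N n d : ℕ} {ι : Type}
  {f : ι → MvPolynomial (Fin N) F} {W : Fin n → WeierstrassCurve F'} [∀ i, (W i).IsElliptic]
  {Φ : Fin N → MvPolynomial (Fin n ⊕ Fin n) F'} {h : MvPolynomial (Fin N) F} {D : ℕ} {K Ω : Type}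
  [Field K] [CharZero K] [Field Ω] [Algebra K Ω] [IsAlgClosure K Ω] [Algebra F K] [Algebra F Ω]
  [IsScalarTower F K Ω] [Algebra F' K] [Algebra F' Ω] [IsScalarTower F' K Ω]
  [IsScalarTower F F' K] [IsScalarTower F F' Ω]

/-- **The core.** Proof: if `z₁ = 0` we are done; otherwise there is a point `o`. `exists_pull_of`: `w` with `fv w = D z₁`. `DvG`: `w'` with `w - m w'` in `ratEq`.
`rp_all` gives `T`. `exists_gc` for `Y₁ = T ∪ supp w'`, `Y₂ = supp w` (the domain is not empty because `w ≠ 0`). `rp_all`: `fv (w + m c) = m u` modulo `ratEq`, `u = fv (w' + m c)` in `D0` (`tr_mem`). `psi_cyc`: `fv (w + m c) - fv w = m z₂` modulo `ratEq`. So `D z₁ = m (u - z₂)` modulo `ratEq`,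
and `α D + β m = 1`. (`up Ω (m • c)` is the image of the point `m • c` over `K`.) -/
theorem dv_core (hD : Dom f W Φ h D) (h0 : D ≠ 0) [∀ i, Infinite (Pt (W i) K)] {m : ℕ}
    (hm : m ≠ 0) (hc : m.Coprime D) (hd : DvG (fun i => Ev (W i)) K Ω m)
    {z₁ : (GX.Xf f).pt Ω →₀ ℤ} (hz₁ : z₁ ∈ (GX.Xf f).D0 K Ω) (hs₁ : ∀ P ∈ z₁.support, Hn h P)
    (H : ∀ i, (z₁.sum fun P m => m • ∑ᶠ Q ∈ {Q | ∃ x, GX.Co P x ∧ Vl W Φ Q x}, Q i) = 0) :
    ∃ z' ∈ (GX.Xf f).D0 K Ω, z₁ - m • z' ∈ (GX.Xf f).ratEq K Ω := by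
  by_cases h1 : z₁ = 0
  · subst h1
    refine ⟨0, zero_mem _, ?_⟩
    rw [smul_zero, sub_zero]
    exact zero_mem _
  obtain ⟨o, ho⟩ := Finsupp.support_nonempty_iff.2 h1
  obtain ⟨w, hw, hpr, hsw, hpw⟩ := exists_pull_of hD h0 o hz₁ hs₁ H
  obtain ⟨w'', hw'', -, hww''⟩ := hd w hw hpr
  obtain ⟨w', hwe⟩ : ∃ w' : (∀ i, Pt (W i) Ω) →₀ ℤ, w' = w'' := ⟨w'', rfl⟩
  have hw' : w' ∈ (Vpi fun i => Ev (W i)).D0 K Ω := by rw [hwe]; exact hw''
  have hww : w - m • w' ∈ (Vpi fun i => Ev (W i)).ratEq K Ω := by rw [hwe]; exact hww''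
  have hw0 : w ≠ 0 := by
    intro h2
    rw [h2, Finsupp.mapDomain_zero] at hpw
    rcases smul_eq_zero.1 hpw.symm with h3 | h3
    · exact h0 h3
    · exact h1 h3
  obtain ⟨Q₀, hQ₀⟩ := Finsupp.support_nonempty_iff.2 hw0
  obtain ⟨T, hT⟩ := rp_all hD o hww
  classical
  obtain ⟨c, hc0, hc1, hc2⟩ := exists_gc (K := K) (Φ := Φ) (m := m) hm ⟨Q₀, hsw Q₀ hQ₀⟩
    (T ∪ w'.support) w.support hsw
  have hr1 := hT (m • c) fun Q hQ => hc1 Q (Finset.mem_union_left _ hQ)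
  have hu := tr_mem hD o hw' (m • c) fun Q hQ => hc1 Q (Finset.mem_union_right _ hQ)
  obtain ⟨z₂, hz₂, hr2⟩ := psi_cyc hD o hw.1 c hc0 hc2
  set u := Finsupp.mapDomain (fun Q : ∀ i, Pt (W i) Ω => fv (f := f) o Φ (Q + up Ω (m • c))) w'
    with hu'
  set A := Finsupp.mapDomain (fun Q : ∀ i, Pt (W i) Ω => fv (f := f) o Φ (Q + up Ω (m • c))) w
    with hA
  have hr3 : A - m • u ∈ (GX.Xf f).ratEq K Ω := by
    have e : Finsupp.mapDomain (fun Q : ∀ i, Pt (W i) Ω => fv (f := f) o Φ (Q + up Ω (m • c)))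
        (w - m • w') = A - m • u := by
      have h3 := map_sub (Finsupp.mapDomain.addMonoidHom (M := ℤ)
        (fun Q : ∀ i, Pt (W i) Ω => fv (f := f) o Φ (Q + up Ω (m • c)))) w (m • w')
      have h4 := map_nsmul (Finsupp.mapDomain.addMonoidHom (M := ℤ)
        (fun Q : ∀ i, Pt (W i) Ω => fv (f := f) o Φ (Q + up Ω (m • c)))) m w'
      rw [h4] at h3
      exact h3
    rw [← e]
    exact hr1
  rw [hpw] at hr2
  have hr4 : D • z₁ - m • (u - z₂) ∈ (GX.Xf f).ratEq K Ω := by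
    have h3 := sub_mem hr3 hr2
    have e : A - m • u - (A - D • z₁ - m • z₂) = D • z₁ - m • (u - z₂) := by
      rw [smul_sub]
      abel
    rwa [e] at h3
  have hb : (m : ℤ) * Nat.gcdA m D + D * Nat.gcdB m D = 1 := by
    have h3 := Nat.gcd_eq_gcd_ab m D
    rw [hc.gcd_eq_one] at h3
    exact_mod_cast h3.symm
  refine ⟨Nat.gcdB m D • (u - z₂) + Nat.gcdA m D • z₁,
    add_mem (zsmul_mem (sub_mem hu hz₂) _) (zsmul_mem hz₁ _), ?_⟩
  have h3 := zsmul_mem hr4 (Nat.gcdB m D)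
  have e : Nat.gcdB m D • (D • z₁ - m • (u - z₂)) =
      z₁ - m • (Nat.gcdB m D • (u - z₂) + Nat.gcdA m D • z₁) := by
    have h4 : z₁ - m • (Nat.gcdB m D • (u - z₂) + Nat.gcdA m D • z₁) =
        ((m : ℤ) * Nat.gcdA m D + D * Nat.gcdB m D) • z₁ -
          m • (Nat.gcdB m D • (u - z₂) + Nat.gcdA m D • z₁) := by rw [hb, one_smul]
    rw [h4]
    module
  rw [e] at h3
  exact h3

/-- **The theorem over one field.** Proof: if `D = 0` then `m = 1`: trivial. `mv_D0`: `z = z₁` modulo `ratEq`, the support of `z₁` is outside `h = 0`; `dv_core`, `pull_sum`. -/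
theorem dm_X (hf : GX.Nsg f d) (hD : Dom f W Φ h D) (hC : Cst f W Φ h)
    [∀ i, Infinite (Pt (W i) K)] {m : ℕ} (hm : m ≠ 0) (hc : m.Coprime D)
    (hd : DvG (fun i => Ev (W i)) K Ω m) : Dm (GX.Xf f) K Ω m := by
  intro z hz
  rcases Nat.eq_zero_or_pos D with h0 | h0
  · subst h0
    have h1 : m = 1 := by simpa using hc
    subst h1
    refine ⟨z, hz, ?_⟩
    rw [one_smul, sub_self]
    exact zero_mem _
  obtain ⟨z₁, hz₁, hzz, hs₁⟩ := mv_D0 hf hD.hom hD.ne hz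
  obtain ⟨z', hz', hr⟩ := dv_core hD h0.ne' hm hc hd hz₁ hs₁ (pull_sum hD hC hz₁ hs₁)
  refine ⟨z', hz', ?_⟩
  have h3 := add_mem hzz hr
  rwa [sub_add_sub_cancel] at h3

end DN
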