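import Pool.Agent.Lib.MP_f80667_ag.Do.CndB
import Pool.Agent.Lib.MP_f80667_ag.Do.Pla
import Pool.Agent.Lib.MP_f80667_ag.Do.LdD
import Pool.Agent.Lib.MP_f80667_ag.Do.Emb
import Pool.Agent.Lib.MP_f80667_ag.Do.Inp
import Pool.Agent.Lib.MP_f80667_ag.Do.Loc
import Pool.Agent.Lib.MP_f80667_ag.Ng.W
import Pool.Agent.Lib.MP_f80667_ag.Pe.Kg
import Pool.Agent.Lib.MP_f80667_ag.Kf.Dtg

/-! Varieties dominated by products of elliptic curves over number fields. -/

open ZC BE PE Polynomial IntermediateField IsDedekindDomain NumberField CV NE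

namespace DN

variable {F F' : Type} [Field F] [NumberField F] [Field F'] [NumberField F'] [Algebra F F']
  {N n d : ℕ} {ι : Type} {f : ι → MvPolynomial (Fin N) F} {W : Fin n → WeierstrassCurve F'}
  [∀ i, (W i).IsElliptic] {Φ : Fin N → MvPolynomial (Fin n ⊕ Fin n) F'}
  {h : MvPolynomial (Fin N) F} {D : ℕ}

/-- **One place.** Proof: `exists_ldD`; `exists_emb` for `K = F_v`: `σ` and `M = K (σ F')` of degree prime to `l`; `M`, `Ω` are algebras over `F'` by `σ` (local instances, `IsScalarTower F F' M`, ...); `exists_pla`, `dvG_plc` for `GX.xt L M`, `inf_pt` for `GX.xt L M`, `dm_X` over `M`, `KM.dm_tr`. -/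
theorem dm_v (hf : GX.Nsg f d) (hD : Dom f W Φ h D) (hC : Cst f W Φ h) {l : ℕ} (hl : Plc W l)
    (h1 : ¬ l ∣ D) (h2 : ¬ l ∣ Module.finrank F F') (v : HeightOneSpectrum (𝓞 F)) :
    Dm (GX.Xf f) (FK F v) (AlgebraicClosure (FK F v)) l := by
  have hc : CharZero (FK F v) := charZero_of_injective_algebraMap (algebraMap F (FK F v)).injective
  obtain ⟨L, c, hc0, hc1, hL, hv, hd⟩ := exists_ldD v
  have hfin : FiniteDimensional F F' := FiniteDimensional.right ℚ F F'
  obtain ⟨σ, hMf, hMc⟩ := exists_emb (F := F) (F' := F') (K := FK F v)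
    (Ω := AlgebraicClosure (FK F v)) hl.pr h2
  obtain ⟨w, c', h0', h1', hw, hM⟩ := exists_pla v L hd σ
  obtain ⟨M, hMe⟩ : ∃ M : IntermediateField (FK F v) (AlgebraicClosure (FK F v)),
      M = IntermediateField.adjoin (FK F v) (Set.range σ) := ⟨_, rfl⟩
  rw [← hMe] at hMf hMc hM
  have hσM : ∀ x, σ x ∈ M := fun x => by
    rw [hMe]
    exact subset_adjoin _ _ ⟨x, rfl⟩
  let iΩ : Algebra F' (AlgebraicClosure (FK F v)) :=
    (σ : F' →+* AlgebraicClosure (FK F v)).toAlgebra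
  let iM : Algebra F' M :=
    ((σ : F' →+* AlgebraicClosure (FK F v)).codRestrict M hσM).toAlgebra
  have t1 : IsScalarTower F' M (AlgebraicClosure (FK F v)) :=
    IsScalarTower.of_algebraMap_eq fun _ => rfl
  have t2 : IsScalarTower F M (AlgebraicClosure (FK F v)) :=
    IsScalarTower.of_algebraMap_eq fun _ => rfl
  have t3 : IsScalarTower F F' (AlgebraicClosure (FK F v)) :=
    IsScalarTower.of_algebraMap_eq fun x => (σ.commutes x).symm
  have t4 : IsScalarTower F F' M :=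
    IsScalarTower.of_algebraMap_eq fun x => Subtype.ext (σ.commutes x).symm
  have hcl : IsAlgClosed (AlgebraicClosure (FK F v)) := inferInstance
  have hal : Algebra.IsAlgebraic (FK F v) (AlgebraicClosure (FK F v)) :=
    AlgebraicClosure.isAlgebraic _
  have hac : IsAlgClosure M (AlgebraicClosure (FK F v)) :=
    ⟨hcl, Algebra.IsAlgebraic.tower_top (K := FK F v) M⟩
  have hdv : DvG (fun i => Ev (W i)) M (AlgebraicClosure (FK F v)) l :=
    dvG_plc hl (GX.xt L M) w h0' h1' (fun x n hx => hw x n hx) fun x hx =>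
      hM x x.2 fun h0 => hx (Subtype.ext h0)
  have hinf : ∀ i, Infinite (Pt (W i) M) := fun i => inf_pt (GX.xt L M) (W i)
  have hDm : Dm (GX.Xf f) M (AlgebraicClosure (FK F v)) l :=
    dm_X hf hD hC hl.pr.ne_zero ((Nat.Prime.coprime_iff_not_dvd hl.pr).2 h1) hdv
  exact KM.dm_tr (GX.fct f) M hMc hDm

/-- All `m` with prime factors in `P`. Proof: induction on `m`, compare `KM.dm_pr` (`Km/Lo.lean`). -/
theorem dm_sf {V : Vr F} {K Ω : Type} [Field K] [Field Ω] [Algebra K Ω] [Algebra F K] [Algebra F Ω]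
    [IsScalarTower F K Ω] {P : Set ℕ} (h : ∀ l ∈ P, l.Prime → Dm V K Ω l) {m : ℕ} (hm : m ≠ 0)
    (hS : Sf P m) : Dm V K Ω m := by
  induction m using Nat.strong_induction_on with
  | _ m ih =>
    by_cases h1 : m = 1
    · subst h1
      intro z hz
      refine ⟨z, hz, ?_⟩
      rw [one_nsmul, sub_self]
      exact AddSubgroup.zero_mem _
    obtain ⟨l, hl, k, rfl⟩ := Nat.exists_prime_and_dvd h1
    have hk0 : k ≠ 0 := fun h0 => hm (by rw [h0, mul_zero])
    have hlt : k < l * k := lt_mul_of_one_lt_left (Nat.pos_of_ne_zero hk0) hl.one_lt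
    have ihk := ih k hlt hk0 fun q hq hqk => hS q hq (dvd_mul_of_dvd_right hqk l)
    intro z hz
    obtain ⟨z', hz', e'⟩ := h l (hS l hl (dvd_mul_right l k)) hl z hz
    obtain ⟨z'', hz'', e''⟩ := ihk z' hz'
    refine ⟨z'', hz'', ?_⟩
    have e : z - (l * k) • z'' = (z - l • z') + l • (z' - k • z'') := by
      rw [smul_sub, smul_smul]
      abel
    rw [e]
    exact AddSubgroup.add_mem _ e' (AddSubgroup.nsmul_mem _ e'' l)

/-- **The theorem.** Proof: `dm_v`, `dm_sf`, `dm_cl`, `fam_m` (`m` is odd), `im_m` (`Pe/Kg.lean`), compare `KM.main_Ku` (`Km/Gl.lean`). -/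
theorem qp_X (hf : GX.Nsg f d) (hD : Dom f W Φ h D) (hC : Cst f W Φ h) :
    QP (GX.Xf f) {l | Plc W l ∧ ¬ l ∣ D * Module.finrank F F'} := by
  have key : ∀ m : ℕ, m ≠ 0 → Sf {l | Plc W l ∧ ¬ l ∣ D * Module.finrank F F'} m →
      ∀ c : Fam (GX.Xf f), ∃ c' : Fam (GX.Xf f), c.cl = m • c'.cl := by
    intro m hm hS
    have h3 : Odd m := by
      rw [← Nat.not_even_iff_odd, even_iff_two_dvd]
      exact fun h' => (hS 2 Nat.prime_two h').1.odd rfl
    refine fam_m h3 fun v => dm_cl (dm_sf (fun l hl _ => ?_) hm hS)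
    exact dm_v hf hD hC hl.1 (fun h => hl.2 (h.mul_right _)) (fun h => hl.2 (h.mul_left _)) v
  exact ⟨key, im_m key⟩

end DN
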