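import Mathlib

/-! General points: the coordinates are chosen one after the other. -/

namespace ND

/-- **General points.** `G j`: sets of points such that from a point in `G j` one gets a point outside `G j` only for finitely many
values of one coordinate. `T j i`: maps with finite fibres, or constant. -/
theorem exists_gen {ι : Type} [Finite ι] [DecidableEq ι] {A B : ι → Type} {S : ∀ i, Set (A i)}
    (hS : ∀ i, (S i).Infinite) {J : Type} [Finite J] (G : J → Set (∀ i, B i))
    (hG : ∀ j, ∀ P ∈ G j, ∀ i, {b : B i | Function.update P i b ∉ G j}.Finite)
    (P0 : J → ∀ i, B i) (h0 : ∀ j, P0 j ∈ G j) (T : J → ∀ i, A i → B i)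
    (hT : ∀ j i, (∀ b, {a | T j i a = b}.Finite) ∨ ∀ a, T j i a = P0 j i) :
    ∃ c : ∀ i, A i, (∀ i, c i ∈ S i) ∧ ∀ j, (fun i => T j i (c i)) ∈ G j := by
  have := Fintype.ofFinite ι
  have key : ∀ s : Finset ι, ∃ c : ∀ i, A i, (∀ i, c i ∈ S i) ∧
      ∀ j, (fun i => if i ∈ s then T j i (c i) else P0 j i) ∈ G j := by
    intro s
    induction s using Finset.induction_on with
    | empty =>
      choose c hc using fun i => (hS i).nonempty
      exact ⟨c, hc, fun j => by simpa using h0 j⟩
    | insert i s hi ih =>
      obtain ⟨c, hc, h⟩ := ih
      have hfin : ∀ j, {a : A i | Function.update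
          (fun i => if i ∈ s then T j i (c i) else P0 j i) i (T j i a) ∉ G j}.Finite := by
        intro j
        have h1 := hG j _ (h j) i
        rcases hT j i with h2 | h2
        · exact Set.Finite.preimage' h1 fun b _ => h2 b
        · refine Set.finite_empty.subset fun a ha => ha ?_
          have e : Function.update (fun i => if i ∈ s then T j i (c i) else P0 j i) i (T j i a) =
              fun i => if i ∈ s then T j i (c i) else P0 j i := by
            rw [Function.update_eq_self_iff, if_neg hi]
            exact h2 a
          rw [e]
          exact h j
      obtain ⟨a, ha, hb⟩ := ((hS i).sdiff (Set.finite_iUnion hfin)).nonempty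
      refine ⟨Function.update c i a, fun i' => ?_, fun j => ?_⟩
      · rcases eq_or_ne i' i with rfl | hne
        · rw [Function.update_self]
          exact ha
        · rw [Function.update_of_ne hne]
          exact hc i'
      · have h3 : Function.update (fun i => if i ∈ s then T j i (c i) else P0 j i) i (T j i a) ∈
            G j := by
          by_contra hcon
          exact hb (Set.mem_iUnion.2 ⟨j, hcon⟩)
        have e : (fun i' => if i' ∈ insert i s then T j i' (Function.update c i a i')
            else P0 j i') =
            Function.update (fun i => if i ∈ s then T j i (c i) else P0 j i) i (T j i a) := by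
          funext i'
          rcases eq_or_ne i' i with rfl | hne
          · rw [Function.update_self, Function.update_self, if_pos (Finset.mem_insert_self _ _)]
          · rw [Function.update_of_ne hne, Function.update_of_ne hne]
            simp only [Finset.mem_insert, hne, false_or]
        rw [e]
        exact h3
  obtain ⟨c, hc, h⟩ := key Finset.univ
  exact ⟨c, hc, fun j => by simpa using h j⟩

end ND
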