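import Mathlib

/-! A function on a Weierstrass curve has finitely many zeros. -/

open Polynomial

namespace ND

variable {k : Type} [Field k] (W : WeierstrassCurve.Affine k)

open WeierstrassCurve.Affine in
/-- A polynomial which is not `0` at some point of the curve has finitely many zeros on the curve. -/
theorem zeros_fin (q : k[X][X]) {x₀ y₀ : k} (h0 : W.Equation x₀ y₀)
    (hq : q.evalEval x₀ y₀ ≠ 0) :
    {P : k × k | W.Equation P.1 P.2 ∧ q.evalEval P.1 P.2 = 0}.Finite := by
  classical
  obtain ⟨a, b, hab⟩ := CoordinateRing.exists_smul_basis_eq (W' := W) (CoordinateRing.mk W q)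
  have hev : ∀ x y, W.Equation x y → q.evalEval x y = a.eval x + b.eval x * y := by
    intro x y h
    have h1 : CoordinateRing.mk W q = CoordinateRing.mk W (C a + C b * X) := by
      rw [← hab, map_add, map_mul, Algebra.smul_def, Algebra.smul_def, mul_one]
      rfl
    obtain ⟨r, hr⟩ := AdjoinRoot.mk_eq_mk.1 h1
    have h2 := congrArg (evalEval x y) hr
    have h3 : W.polynomial.evalEval x y = 0 := h
    rw [evalEval_sub, evalEval_mul, h3, zero_mul, sub_eq_zero] at h2
    rw [h2]
    simp [evalEval]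
  have hN := CoordinateRing.norm_smul_basis (W' := W) a b
  rw [hab] at hN
  have hne : Algebra.norm k[X] (CoordinateRing.mk W q) ≠ 0 := by
    rw [Ne, Algebra.norm_eq_zero_iff_of_basis (CoordinateRing.basis W)]
    intro h
    obtain ⟨r, hr⟩ := AdjoinRoot.mk_eq_zero.1 h
    have h3 : W.polynomial.evalEval x₀ y₀ = 0 := h0
    rw [hr, evalEval_mul, h3, zero_mul] at hq
    exact hq rfl
  have hx : ∀ x y, W.Equation x y → q.evalEval x y = 0 →
      (Algebra.norm k[X] (CoordinateRing.mk W q)).IsRoot x := by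
    intro x y h h1
    rw [hev x y h] at h1
    rw [equation_iff] at h
    rw [hN, IsRoot.def]
    simp only [eval_sub, eval_pow, eval_mul, eval_add, eval_C, eval_X]
    linear_combination (a.eval x - b.eval x * (y + W.a₁ * x + W.a₃)) * h1 + (b.eval x) ^ 2 * h
  have hfin : ∀ x, {y | W.Equation x y}.Finite := by
    intro x
    obtain ⟨p, hp⟩ : ∃ p : k[X], p = X ^ 2 + (C (W.a₁ * x + W.a₃) * X +
      C (-(x ^ 3 + W.a₂ * x ^ 2 + W.a₄ * x + W.a₆))) := ⟨_, rfl⟩
    have hm : p.Monic := by
      rw [hp]
      exact monic_X_pow_add (degree_linear_le.trans_lt (by norm_num))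
    refine (p.roots.toFinset.finite_toSet).subset fun y hy => ?_
    rw [Finset.mem_coe, Multiset.mem_toFinset, mem_roots hm.ne_zero, IsRoot.def, hp]
    simp only [eval_add, eval_pow, eval_mul, eval_C, eval_X]
    have h := (equation_iff x y).1 hy
    linear_combination h
  obtain ⟨N, hNe⟩ : ∃ N, N = Algebra.norm k[X] (CoordinateRing.mk W q) := ⟨_, rfl⟩
  rw [← hNe] at hne hx
  refine ((N.roots.toFinset.finite_toSet).biUnion fun x _ => (hfin x).image (Prod.mk x)).subset ?_
  rintro ⟨x, y⟩ ⟨h, h1⟩
  refine Set.mem_biUnion (x := x) ?_ ⟨y, h, rfl⟩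
  rw [Finset.mem_coe, Multiset.mem_toFinset, mem_roots hne]
  exact hx x y h h1

end ND
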