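import Pool.Agent.Lib.MP_f80667_ag.Pe.Div
import Pool.Agent.Lib.MP_f80667_ag.Do.Gn
import Pool.Agent.Lib.MP_f80667_ag.Do.Gn2

/-!
General points of a product of elliptic curves.

* `cx`, `cy`: the coordinates of a point (`0` for the point at infinity). `cd P`: the coordinates of a point `P` of the product, indexed by
  `ι × Bool` (`false`: `x`, `true`: `y`).
* `Gd q`: the affine points (no coordinate is the point at infinity) at which the polynomial `q` is not `0`.
-/

open ZC BE PE Polynomial

namespace ND

section one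

variable {F : Type} [Field F] {W : WeierstrassCurve F} {Ω : Type} [Field Ω] [Algebra F Ω]

/-- The `x`-coordinate. -/
def cx : Pt W Ω → Ω
  | .zero => 0
  | .some x _ _ => x

/-- The `y`-coordinate. -/
def cy : Pt W Ω → Ω
  | .zero => 0
  | .some _ y _ => y

@[simp] theorem cx_aff (x y : Ω) (h : (W.baseChange Ω).toAffine.Nonsingular x y) :
    cx (Pt.aff x y h : Pt W Ω) = x := rfl

@[simp] theorem cy_aff (x y : Ω) (h : (W.baseChange Ω).toAffine.Nonsingular x y) :
    cy (Pt.aff x y h : Pt W Ω) = y := rfl

theorem exists_aff {P : Pt W Ω} (hP : P ≠ 0) :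
    ∃ h : (W.baseChange Ω).toAffine.Nonsingular (cx P) (cy P), P = Pt.aff (cx P) (cy P) h := by
  rcases Pt.cases' P with rfl | ⟨x, y, h, rfl⟩
  · exact absurd rfl hP
  · exact ⟨h, rfl⟩

/-- Finitely many points with the coordinates in a finite set. -/
theorem pts_fin {Z : Set (Ω × Ω)} (hZ : Z.Finite) :
    {P : Pt W Ω | P = 0 ∨ (cx P, cy P) ∈ Z}.Finite := by
  classical
  refine ((Set.finite_singleton (0 : Pt W Ω)).union (hZ.image fun z : Ω × Ω =>
    if h : (W.baseChange Ω).toAffine.Nonsingular z.1 z.2 then Pt.aff z.1 z.2 h else 0)).subset ?_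
  intro P hP
  by_cases h0 : P = 0
  · exact Or.inl h0
  · rcases hP with hP | hP
    · exact absurd hP h0
    · obtain ⟨h, e⟩ := exists_aff h0
      refine Or.inr ⟨(cx P, cy P), hP, ?_⟩
      change (if h : (W.baseChange Ω).toAffine.Nonsingular (cx P) (cy P) then
        Pt.aff (cx P) (cy P) h else 0) = P
      rw [dif_pos h]
      exact e.symm

/-- Finitely many points with the `x`-coordinate in a finite set. -/
theorem pts_fin_x {Z : Set Ω} (hZ : Z.Finite) :
    {P : Pt W Ω | P = 0 ∨ cx P ∈ Z}.Finite := by
  classical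
  have hfin : ∀ x, {y | (W.baseChange Ω).toAffine.Equation x y}.Finite := by
    intro x
    obtain ⟨p, hp⟩ : ∃ p : Polynomial Ω, p = X ^ 2 + (C ((W.baseChange Ω).a₁ * x +
      (W.baseChange Ω).a₃) * X + C (-(x ^ 3 + (W.baseChange Ω).a₂ * x ^ 2 +
        (W.baseChange Ω).a₄ * x + (W.baseChange Ω).a₆))) := ⟨_, rfl⟩
    have hm : p.Monic := by
      rw [hp]
      exact monic_X_pow_add (degree_linear_le.trans_lt (by norm_num))
    refine (p.roots.toFinset.finite_toSet).subset fun y hy => ?_
    rw [Finset.mem_coe, Multiset.mem_toFinset, mem_roots hm.ne_zero, IsRoot.def, hp]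
    simp only [eval_add, eval_pow, eval_mul, eval_C, eval_X]
    have h := (WeierstrassCurve.Affine.equation_iff x y).1 hy
    linear_combination h
  refine (pts_fin (hZ.biUnion fun x _ => (hfin x).image (Prod.mk x))).subset fun P hP => ?_
  by_cases h0 : P = 0
  · exact Or.inl h0
  · rcases hP with hP | hP
    · exact absurd hP h0
    · obtain ⟨h, -⟩ := exists_aff h0
      exact Or.inr (Set.mem_biUnion (x := cx P) hP ⟨cy P, h.1, rfl⟩)

/-- Multiplication by `n` has finite fibres. -/
theorem smul_fib [W.IsElliptic] [CharZero Ω] [IsAlgClosed Ω] {n : ℕ} (hn : n ≠ 0) (b : Pt W Ω) :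
    {a : Pt W Ω | n • a = b}.Finite := by
  classical
  obtain ⟨U, V, hUV, hdeg, hpt⟩ := div_xn (W := W) (Ω := Ω) n hn
  have hV0 : V ≠ 0 := by
    rintro rfl
    obtain ⟨a, b, hab⟩ := hUV
    rw [mul_zero, add_zero] at hab
    have h1 := natDegree_eq_zero_of_isUnit (isUnit_iff_exists_inv'.2 ⟨a, hab⟩)
    rw [natDegree_zero] at hdeg
    omega
  have hd : (C (cx b) * V).natDegree < U.natDegree := by
    have h1 : (C (cx b) * V).natDegree ≤ V.natDegree := natDegree_C_mul_le _ V
    omega
  have hd2 : (U - C (cx b) * V).natDegree = U.natDegree :=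
    natDegree_sub_eq_left_of_natDegree_lt hd
  have hU0 : U - C (cx b) * V ≠ 0 := by
    intro h
    rw [h, natDegree_zero] at hd2
    omega
  refine (pts_fin_x (Z := ((V * (U - C (cx b) * V)).roots.toFinset : Set Ω))
    (Finset.finite_toSet _)).subset fun a ha => ?_
  by_cases h0 : a = 0
  · exact Or.inl h0
  · obtain ⟨h, e⟩ := exists_aff h0
    refine Or.inr ?_
    rw [Finset.mem_coe, Multiset.mem_toFinset, mem_roots (mul_ne_zero hV0 hU0), IsRoot.def,
      eval_mul]
    by_cases hV : V.eval (cx a) = 0
    · rw [hV, zero_mul]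
    · obtain ⟨y', h', e'⟩ := (hpt (cx a) (cy a) h).2 hV
      have e'' : b = Pt.aff _ y' h' := by
        rw [← e', ← e]
        exact (ha : n • a = b).symm
      have e3 : cx b = U.eval (cx a) / V.eval (cx a) := by
        rw [e'']
        rfl
      rw [eval_sub, eval_mul, eval_C, e3, div_mul_cancel₀ _ hV, sub_self, mul_zero]

/-- The translates of the multiples: finite fibres. -/
theorem add_smul_fib [W.IsElliptic] [CharZero Ω] [IsAlgClosed Ω] {n : ℕ} (hn : n ≠ 0)
    (P b : Pt W Ω) : {a : Pt W Ω | P + n • a = b}.Finite := by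
  refine (smul_fib hn (b - P)).subset fun a ha => ?_
  have h : P + n • a = b := ha
  change n • a = b - P
  rw [← h, add_sub_cancel_left]

end one

section prod

variable {F : Type} [Field F] {ι : Type} {W : ι → WeierstrassCurve F} {Ω : Type} [Field Ω]
  [Algebra F Ω]

/-- The coordinates of a point of the product. -/
def cd (P : ∀ i, Pt (W i) Ω) (t : ι × Bool) : Ω := if t.2 then cy (P t.1) else cx (P t.1)

/-- The affine points at which `q` is not `0`. -/
def Gd (q : MvPolynomial (ι × Bool) F) : Set (∀ i, Pt (W i) Ω) :=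
  {P | (∀ i, P i ≠ 0) ∧ MvPolynomial.aeval (cd P) q ≠ 0}

/-- From a point of `Gd q` one leaves `Gd q` only for finitely many values of one coordinate. -/
theorem gd_upd [DecidableEq ι] {q : MvPolynomial (ι × Bool) F} {P : ∀ i, Pt (W i) Ω}
    (hP : P ∈ Gd q) (i : ι) :
    {b : Pt (W i) Ω | Function.update P i b ∉ (Gd q : Set (∀ i, Pt (W i) Ω))}.Finite := by
  classical
  obtain ⟨r, hr⟩ : ∃ r : Polynomial (Polynomial Ω), r = MvPolynomial.aeval
    (fun t : ι × Bool => if t.1 = i then (if t.2 then X else C X) else C (C (cd P t))) q :=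
    ⟨_, rfl⟩
  have hev : ∀ b : Pt (W i) Ω, r.evalEval (cx b) (cy b) =
      MvPolynomial.aeval (cd (Function.update P i b)) q := by
    intro b
    have hA : (evalEvalRingHom (cx b) (cy b)).comp (algebraMap F (Polynomial (Polynomial Ω))) =
        algebraMap F Ω := by
      refine RingHom.ext fun a => ?_
      change evalEval (cx b) (cy b) (algebraMap F (Polynomial (Polynomial Ω)) a) = _
      rw [IsScalarTower.algebraMap_apply F Ω (Polynomial (Polynomial Ω)),
        IsScalarTower.algebraMap_apply Ω (Polynomial Ω) (Polynomial (Polynomial Ω))]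
      simp [evalEval]
    have hB : (fun t : ι × Bool => evalEvalRingHom (cx b) (cy b)
        (if t.1 = i then (if t.2 then X else C X) else C (C (cd P t)))) =
        cd (Function.update P i b) := by
      funext t
      change evalEval (cx b) (cy b) _ = cd (Function.update P i b) t
      by_cases ht : t.1 = i
      · obtain ⟨i', t2⟩ := t
        have ht' : i' = i := ht
        subst ht'
        rw [if_pos rfl]
        unfold cd
        simp only [Function.update_self]
        cases t2 <;> simp [evalEval]
      · rw [if_neg ht]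
        unfold cd
        rw [Function.update_of_ne ht]
        simp [evalEval]
    rw [hr]
    change evalEvalRingHom (cx b) (cy b) _ = _
    rw [MvPolynomial.map_aeval, hA, hB]
    rfl
  obtain ⟨h0, hq⟩ := hP
  obtain ⟨hns, e⟩ := exists_aff (h0 i)
  have hq' : r.evalEval (cx (P i)) (cy (P i)) ≠ 0 := by
    rw [hev, Function.update_eq_self]
    exact hq
  refine (pts_fin (zeros_fin ((W i).baseChange Ω).toAffine r hns.1 hq')).subset fun b hb => ?_
  by_cases hb0 : b = 0
  · exact Or.inl hb0
  · obtain ⟨hb1, eb⟩ := exists_aff hb0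
    refine Or.inr ⟨hb1.1, ?_⟩
    by_contra hcon
    refine hb ⟨fun i' => ?_, ?_⟩
    · rcases eq_or_ne i' i with rfl | hne
      · rw [Function.update_self]
        exact hb0
      · rw [Function.update_of_ne hne]
        exact h0 i'
    · rw [← hev]
      exact hcon

end prod

end ND
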