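import Pool.Agent.Lib.MP_f80667_ag.Do.Gn3

/-!
General translations of a product of elliptic curves.

* `ic c`: the point of the product over `Ω` given by points `c i` over `K`.
* `stp l P c i k`: the point with the coordinates `P + l c` before `i`, `P + k c` at `i` and `P` after `i`.
-/

open ZC BE PE Polynomial

namespace ND

variable {F : Type} [Field F] {n : ℕ} {W : Fin n → WeierstrassCurve F} {K Ω : Type} [Field K]
  [Field Ω] [Algebra F K] [Algebra K Ω] [Algebra F Ω] [IsScalarTower F K Ω]

variable (Ω) in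
/-- The point over `Ω`. -/
noncomputable def ic (c : ∀ i, Pt (W i) K) (i : Fin n) : Pt (W i) Ω :=
  Pt.map (W i) (IsScalarTower.toAlgHom F K Ω) (c i)

/-- The points between `P` and `P + l c`. -/
noncomputable def stp (l : ℕ) (P c : ∀ i, Pt (W i) Ω) (i : Fin n) (k : ℤ) (i' : Fin n) :
    Pt (W i') Ω :=
  if i' < i then P i' + l • c i' else if i' = i then P i' + k • c i' else P i'

omit [IsScalarTower F K Ω] [Algebra F K] [Algebra K Ω] in
theorem add_zsmul_fib {V : WeierstrassCurve F} [V.IsElliptic] [CharZero Ω] [IsAlgClosed Ω] {k : ℤ}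
    (hk : k ≠ 0) (P b : Pt V Ω) : {a : Pt V Ω | P + k • a = b}.Finite := by
  have hn : k.natAbs ≠ 0 := Int.natAbs_ne_zero.2 hk
  rcases Int.natAbs_eq k with h | h
  · refine (add_smul_fib hn P b).subset fun a ha => ?_
    have h1 : P + k • a = b := ha
    rw [h, natCast_zsmul] at h1
    exact h1
  · refine (add_smul_fib hn (-P) (-b)).subset fun a ha => ?_
    have h1 : P + k • a = b := ha
    rw [h, neg_smul, natCast_zsmul] at h1
    change -P + k.natAbs • a = -b
    rw [← h1]
    abel

theorem map_inj (V : WeierstrassCurve F) :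
    Function.Injective (Pt.map V (IsScalarTower.toAlgHom F K Ω)) := by
  classical
  exact WeierstrassCurve.Affine.Point.map_injective (W' := V) (IsScalarTower.toAlgHom F K Ω)

/-- **General translations.** `q` a polynomial which is not `0` at some affine point, `Y`, `Z` finite sets of points, `q ≠ 0` on `Z`. For
some points `c_i` over `K` the points `y + l c`, `y ∈ Y`, and the points between `P` and `P + l c`, `P ∈ Z`, are affine points at which `q` is
not `0`. -/
theorem exists_c [∀ i, (W i).IsElliptic] [CharZero Ω] [IsAlgClosed Ω]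
    (hK : ∀ i, Infinite (Pt (W i) K)) {q : MvPolynomial (Fin n × Bool) F}
    (hq : (Gd q : Set (∀ i, Pt (W i) Ω)).Nonempty) {Y Z : Set (∀ i, Pt (W i) Ω)} (hY : Y.Finite)
    (hZ : Z.Finite) (hZq : Z ⊆ Gd q) {l : ℕ} (hl : l ≠ 0) (m : ℕ) :
    ∃ c : ∀ i, Pt (W i) K, (∀ y ∈ Y, y + l • ic Ω c ∈ (Gd q : Set (∀ i, Pt (W i) Ω))) ∧
      ∀ P ∈ Z, ∀ (i : Fin n) (k : ℤ), |k| ≤ m →
        stp l P (ic Ω c) i k ∈ (Gd q : Set (∀ i, Pt (W i) Ω)) := by
  classical
  obtain ⟨P₀, hP₀⟩ := hq
  have i1 : Finite Y := hY.to_subtype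
  have i2 : Finite Z := hZ.to_subtype
  let J : Type := Y ⊕ (Z × Fin n × (Finset.Icc (-(m : ℤ)) m))
  let T : J → ∀ i, Pt (W i) K → Pt (W i) Ω := fun j i a =>
    match j with
    | Sum.inl y => y.1 i + l • Pt.map (W i) (IsScalarTower.toAlgHom F K Ω) a
    | Sum.inr p => if i < p.2.1 then p.1.1 i + l • Pt.map (W i) (IsScalarTower.toAlgHom F K Ω) a
        else if i = p.2.1 then p.1.1 i + p.2.2.1 • Pt.map (W i) (IsScalarTower.toAlgHom F K Ω) a
        else p.1.1 i
  let P0 : J → ∀ i, Pt (W i) Ω := fun j => match j with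
    | Sum.inl _ => P₀
    | Sum.inr p => p.1.1
  have hfib : ∀ (i : Fin n) (P b : Pt (W i) Ω) (k : ℤ), k ≠ 0 →
      {a : Pt (W i) K | P + k • Pt.map (W i) (IsScalarTower.toAlgHom F K Ω) a = b}.Finite :=
    fun i P b k hk => (add_zsmul_fib hk P b).preimage (map_inj (W i)).injOn
  have hfib' : ∀ (i : Fin n) (P b : Pt (W i) Ω),
      {a : Pt (W i) K | P + l • Pt.map (W i) (IsScalarTower.toAlgHom F K Ω) a = b}.Finite := by
    intro i P b
    have h := hfib i P b l (by exact_mod_cast hl)
    simpa only [natCast_zsmul] using h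
  obtain ⟨c, -, hc⟩ := exists_gen (ι := Fin n) (A := fun i => Pt (W i) K)
    (B := fun i => Pt (W i) Ω) (S := fun i => Set.univ) (fun i => @Set.infinite_univ _ (hK i))
    (J := J) (fun _ => Gd q) (fun _ P hP i => gd_upd hP i) P0 (by
      rintro (y | p)
      · exact hP₀
      · exact hZq p.1.2) T (by
      rintro (y | p) i
      · exact Or.inl fun b => hfib' i _ b
      · rcases lt_trichotomy i p.2.1 with h | h | h
        · refine Or.inl fun b => ?_
          have e : ∀ a, T (Sum.inr p) i a =
              p.1.1 i + l • Pt.map (W i) (IsScalarTower.toAlgHom F K Ω) a := fun a => if_pos h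
          simp only [e]
          exact hfib' i _ b
        · have e : ∀ a, T (Sum.inr p) i a = p.1.1 i + p.2.2.1 • Pt.map (W i)
              (IsScalarTower.toAlgHom F K Ω) a := fun a => by
            change (if i < p.2.1 then _ else _) = _
            rw [if_neg (by rw [h]; exact lt_irrefl _), if_pos h]
          by_cases hk : p.2.2.1 = 0
          · refine Or.inr fun a => ?_
            rw [e, hk, zero_smul, add_zero]
          · refine Or.inl fun b => ?_
            simp only [e]
            exact hfib i _ b _ hk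
        · refine Or.inr fun a => ?_
          change (if i < p.2.1 then _ else _) = _
          rw [if_neg (not_lt.2 h.le), if_neg (ne_of_gt h)])
  refine ⟨c, fun y hy => hc (Sum.inl ⟨y, hy⟩), fun P hP i k hk => ?_⟩
  exact hc (Sum.inr (⟨P, hP⟩, i, ⟨k, Finset.mem_Icc.2 (abs_le.1 hk)⟩))

end ND
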