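import Pool.Agent.Lib.MP_f80667_ag.Pe.Ld

/-! An elliptic curve over a local field has infinitely many points. -/

open ZC BE PE Polynomial IntermediateField

namespace ND

section inf

variable {K Ω : Type} [Field K] [Field Ω] [Algebra K Ω] (L : Lf K Ω)

/-- A small change of a unit is a unit. -/
theorem nm_unit {x y : Ω} (hx : L.nm x = 1) (hy : L.nm y < 1) : L.nm (x + y) = 1 := by
  refine le_antisymm ((L.add x y).trans (max_le hx.le hy.le)) ?_
  have h := L.sub (x + y) y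
  rw [add_sub_cancel_right, hx] at h
  rcases le_max_iff.1 h with h1 | h1
  · exact h1
  · exact absurd hy (not_lt.2 h1)

/-- `|2| = 1` or `|3| = 1`. -/
theorem two_or_three : L.nm 2 = 1 ∨ L.nm 3 = 1 := by
  have h2 : L.nm 2 ≤ 1 := by exact_mod_cast L.nat_le 2
  have h3 : L.nm 3 ≤ 1 := by exact_mod_cast L.nat_le 3
  have h := L.sub 3 2
  rw [show (3 : Ω) - 2 = 1 by norm_num, L.one] at h
  rcases le_max_iff.1 h with h1 | h1
  · exact Or.inr (le_antisymm h3 h1)
  · exact Or.inl (le_antisymm h2 h1)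

variable (M : IntermediateField K Ω) [FiniteDimensional K M]

theorem hens_quad (h2 : L.nm 2 = 1) {b c : Ω} (hb : b ∈ M) (hc : c ∈ M) (hb1 : L.nm b < 1)
    (hc1 : L.nm c < 1) : ∃ y ∈ M, y ^ 2 + b * y = 1 + c ∧ L.nm y = 1 := by
  obtain ⟨d, hde⟩ : ∃ d : Ω, d = -(1 + c) := ⟨_, rfl⟩
  obtain ⟨f, hf⟩ : ∃ f : Polynomial Ω, f = X ^ 2 + (C b * X + C d) := ⟨_, rfl⟩
  have hm : f.Monic := by
    rw [hf]
    refine monic_X_pow_add ?_
    exact (degree_linear_le).trans_lt (by norm_num)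
  have hcm : d ∈ M := by
    rw [hde]
    exact M.neg_mem (M.add_mem M.one_mem hc)
  have hcn : L.nm d ≤ 1 := by
    rw [hde, L.neg]
    exact (nm_unit L L.one hc1).le
  have hco : ∀ i, f.coeff i ∈ M ∧ L.nm (f.coeff i) ≤ 1 := by
    intro i
    rw [hf]
    have h0 : L.nm (0 : Ω) ≤ 1 := by
      rw [(L.zero_iff 0).2 rfl]
      exact zero_le_one
    rcases i with _ | _ | _ | i
    · simp only [coeff_add, coeff_X_pow, coeff_C_mul, coeff_X, coeff_C]
      simpa using ⟨hcm, hcn⟩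
    · simp only [coeff_add, coeff_X_pow, coeff_C_mul, coeff_X, coeff_C]
      simpa using ⟨hb, hb1.le⟩
    · simp only [coeff_add, coeff_X_pow, coeff_C_mul, coeff_X, coeff_C]
      simpa using L.one.le
    · have h : (X ^ 2 + (C b * X + C d) : Polynomial Ω).coeff (i + 1 + 1 + 1) = 0 := by
        simp only [coeff_add, coeff_X_pow, coeff_C_mul, coeff_X, coeff_C]
        simp
      rw [h]
      exact ⟨M.zero_mem, h0⟩
  have he : L.nm (f.eval 1) < 1 := by
    have h : f.eval 1 = b - c := by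
      rw [hf]
      simp only [eval_add, eval_pow, eval_X, eval_mul, eval_C]
      rw [hde]
      ring
    rw [h]
    exact (L.sub b c).trans_lt (max_lt hb1 hc1)
  have hd : L.nm (f.derivative.eval 1) = 1 := by
    have h : f.derivative.eval 1 = 2 + b := by
      rw [hf]
      simp only [derivative_add, derivative_X_pow, derivative_mul, derivative_C, derivative_X,
        eval_add, eval_pow, eval_X, eval_mul, eval_C, eval_one, eval_zero]
      norm_num
    rw [h]
    exact nm_unit L h2 hb1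
  obtain ⟨y, hy, h0, h1⟩ := L.hens M inferInstance f hm hco 1 M.one_mem L.one.le he hd
  refine ⟨y, hy, ?_, ?_⟩
  · rw [hf] at h0
    simp only [eval_add, eval_pow, eval_X, eval_mul, eval_C] at h0
    rw [hde] at h0
    linear_combination h0
  · have h := nm_unit L L.one h1
    rwa [add_sub_cancel] at h

theorem hens_cub (h3 : L.nm 3 = 1) {a b c : Ω} (ha : a ∈ M) (hb : b ∈ M) (hc : c ∈ M)
    (ha1 : L.nm a < 1) (hb1 : L.nm b < 1) (hc1 : L.nm c < 1) :
    ∃ x ∈ M, x ^ 3 + a * x ^ 2 + b * x = 1 + c ∧ L.nm x = 1 := by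
  obtain ⟨d, hde⟩ : ∃ d : Ω, d = -(1 + c) := ⟨_, rfl⟩
  obtain ⟨f, hf⟩ : ∃ f : Polynomial Ω, f = X ^ 3 + (C a * X ^ 2 + C b * X + C d) := ⟨_, rfl⟩
  have hm : f.Monic := by
    rw [hf]
    refine monic_X_pow_add ?_
    exact (degree_quadratic_le).trans_lt (by norm_num)
  have hcm : d ∈ M := by
    rw [hde]
    exact M.neg_mem (M.add_mem M.one_mem hc)
  have hcn : L.nm d ≤ 1 := by
    rw [hde, L.neg]
    exact (nm_unit L L.one hc1).le
  have hco : ∀ i, f.coeff i ∈ M ∧ L.nm (f.coeff i) ≤ 1 := by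
    intro i
    rw [hf]
    have h0 : L.nm (0 : Ω) ≤ 1 := by
      rw [(L.zero_iff 0).2 rfl]
      exact zero_le_one
    rcases i with _ | _ | _ | _ | i
    · simp only [coeff_add, coeff_X_pow, coeff_C_mul, coeff_X, coeff_C]
      simpa using ⟨hcm, hcn⟩
    · simp only [coeff_add, coeff_X_pow, coeff_C_mul, coeff_X, coeff_C]
      simpa using ⟨hb, hb1.le⟩
    · simp only [coeff_add, coeff_X_pow, coeff_C_mul, coeff_X, coeff_C]
      simpa using ⟨ha, ha1.le⟩
    · simp only [coeff_add, coeff_X_pow, coeff_C_mul, coeff_X, coeff_C]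
      simpa using L.one.le
    · have h : (X ^ 3 + (C a * X ^ 2 + C b * X + C d) : Polynomial Ω).coeff
          (i + 1 + 1 + 1 + 1) = 0 := by
        simp only [coeff_add, coeff_X_pow, coeff_C_mul, coeff_X, coeff_C]
        simp
      rw [h]
      exact ⟨M.zero_mem, h0⟩
  have he : L.nm (f.eval 1) < 1 := by
    have h : f.eval 1 = (a + b) - c := by
      rw [hf]
      simp only [eval_add, eval_pow, eval_X, eval_mul, eval_C]
      rw [hde]
      ring
    rw [h]
    exact (L.sub _ c).trans_lt (max_lt ((L.add a b).trans_lt (max_lt ha1 hb1)) hc1)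
  have hd : L.nm (f.derivative.eval 1) = 1 := by
    have h : f.derivative.eval 1 = 3 + (a + a + b) := by
      rw [hf]
      simp only [derivative_add, derivative_X_pow, derivative_mul, derivative_C, derivative_X,
        eval_add, eval_pow, eval_X, eval_mul, eval_C, eval_one, eval_zero]
      norm_num
      ring
    rw [h]
    exact nm_unit L h3 ((L.add _ b).trans_lt (max_lt ((L.add a a).trans_lt (max_lt ha1 ha1)) hb1))
  obtain ⟨y, hy, h0, h1⟩ := L.hens M inferInstance f hm hco 1 M.one_mem L.one.le he hd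
  refine ⟨y, hy, ?_, ?_⟩
  · rw [hf] at h0
    simp only [eval_add, eval_pow, eval_X, eval_mul, eval_C] at h0
    rw [hde] at h0
    linear_combination h0
  · have h := nm_unit L L.one h1
    rwa [add_sub_cancel] at h

/-- A point of the curve `Y² + a₁ s X Y + a₃ s³ Y = X³ + a₂ s² X² + a₄ s⁴ X + a₆ s⁶` with units `X`, `Y` if the `a_i s` are small. -/
theorem small_pt {a₁ a₂ a₃ a₄ a₆ s : Ω} (h₁ : a₁ ∈ M) (h₂ : a₂ ∈ M) (h₃ : a₃ ∈ M) (h₄ : a₄ ∈ M)
    (h₆ : a₆ ∈ M) (hs : s ∈ M) (s1 : L.nm s ≤ 1) (s₁ : L.nm (a₁ * s) < 1)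
    (s₂ : L.nm (a₂ * s) < 1) (s₃ : L.nm (a₃ * s) < 1) (s₄ : L.nm (a₄ * s) < 1)
    (s₆ : L.nm (a₆ * s) < 1) :
    ∃ x ∈ M, ∃ y ∈ M, y ^ 2 + a₁ * s * x * y + a₃ * s ^ 3 * y =
      x ^ 3 + a₂ * s ^ 2 * x ^ 2 + a₄ * s ^ 4 * x + a₆ * s ^ 6 ∧ L.nm x = 1 ∧ L.nm y = 1 := by
  have key : ∀ (a : Ω) (n : ℕ), L.nm (a * s) < 1 → L.nm (a * s ^ (n + 1)) < 1 := by
    intro a n h
    induction n with
    | zero => rwa [zero_add, pow_one]
    | succ n ih =>
      rw [pow_succ, ← mul_assoc, L.mul]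
      exact (mul_le_of_le_one_right (L.nonneg _) s1).trans_lt ih
  have kM : ∀ (a : Ω) (n : ℕ), a ∈ M → a * s ^ n ∈ M := fun a n h => mul_mem h (pow_mem hs n)
  have e1 : L.nm (a₁ * s) < 1 := s₁
  have e2 := key a₂ 1 s₂
  have e3 := key a₃ 2 s₃
  have e4 := key a₄ 3 s₄
  have e6 := key a₆ 5 s₆
  norm_num at e2 e3 e4 e6
  have m1 : a₁ * s ∈ M := M.mul_mem h₁ hs
  have m2 := kM a₂ 2 h₂
  have m3 := kM a₃ 3 h₃
  have m4 := kM a₄ 4 h₄
  have m6 := kM a₆ 6 h₆
  rcases two_or_three L with h | h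
  · obtain ⟨y, hy, h0, h1⟩ := hens_quad L M h (b := a₁ * s + a₃ * s ^ 3)
      (c := a₂ * s ^ 2 + a₄ * s ^ 4 + a₆ * s ^ 6) (M.add_mem m1 m3)
      (M.add_mem (M.add_mem m2 m4) m6) ((L.add _ _).trans_lt (max_lt e1 e3))
      ((L.add _ _).trans_lt (max_lt ((L.add _ _).trans_lt (max_lt e2 e4)) e6))
    exact ⟨1, M.one_mem, y, hy, by linear_combination h0, L.one, h1⟩
  · obtain ⟨x, hx, h0, h1⟩ := hens_cub L M h (a := a₂ * s ^ 2) (b := a₄ * s ^ 4 - a₁ * s)
      (c := a₃ * s ^ 3 - a₆ * s ^ 6) m2 (M.sub_mem m4 m1) (M.sub_mem m3 m6) e2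
      ((L.sub _ _).trans_lt (max_lt e4 e1)) ((L.sub _ _).trans_lt (max_lt e3 e6))
    exact ⟨x, hx, 1, M.one_mem, by linear_combination -h0, h1, L.one⟩

end inf

section pts

variable {K Ω : Type} [Field K] [Field Ω] [Algebra K Ω] (L : Lf K Ω)
  (M : IntermediateField K Ω) [FiniteDimensional K M] {F : Type} [Field F] [Algebra F M]
  (W : WeierstrassCurve F) [W.IsElliptic]

/-- A point with the `x`-coordinate of norm `|s| ^ (-2)`. -/
theorem exists_large {s : Ω} (hs : s ∈ M) (s0 : s ≠ 0) (s1 : L.nm s ≤ 1)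
    (h : ∀ a : M, (a = algebraMap F M W.a₁ ∨ a = algebraMap F M W.a₂ ∨ a = algebraMap F M W.a₃ ∨
      a = algebraMap F M W.a₄ ∨ a = algebraMap F M W.a₆) → L.nm ((a : Ω) * s) < 1) :
    ∃ (x y : M) (_ : (W.baseChange M).toAffine.Nonsingular x y), L.nm ((x : Ω) * s ^ 2) = 1 := by
  obtain ⟨x, hx, y, hy, h0, h1, -⟩ := small_pt L M (a₁ := algebraMap F M W.a₁)
    (a₂ := algebraMap F M W.a₂) (a₃ := algebraMap F M W.a₃) (a₄ := algebraMap F M W.a₄)
    (a₆ := algebraMap F M W.a₆) (SetLike.coe_mem _) (SetLike.coe_mem _) (SetLike.coe_mem _)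
    (SetLike.coe_mem _) (SetLike.coe_mem _) hs s1 (h _ (by simp)) (h _ (by simp)) (h _ (by simp))
    (h _ (by simp)) (h _ (by simp))
  obtain ⟨s', rfl⟩ : ∃ s' : M, (s' : Ω) = s := ⟨⟨s, hs⟩, rfl⟩
  obtain ⟨x', rfl⟩ : ∃ x' : M, (x' : Ω) = x := ⟨⟨x, hx⟩, rfl⟩
  obtain ⟨y', rfl⟩ : ∃ y' : M, (y' : Ω) = y := ⟨⟨y, hy⟩, rfl⟩
  have s0' : s' ≠ 0 := by
    rintro rfl
    exact s0 rfl
  have h0' : y' ^ 2 + algebraMap F M W.a₁ * s' * x' * y' + algebraMap F M W.a₃ * s' ^ 3 * y' =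
      x' ^ 3 + algebraMap F M W.a₂ * s' ^ 2 * x' ^ 2 + algebraMap F M W.a₄ * s' ^ 4 * x' +
        algebraMap F M W.a₆ * s' ^ 6 := by
    apply Subtype.ext
    push_cast
    exact h0
  have hell : (W.baseChange M).IsElliptic := inferInstanceAs (W.map (algebraMap F M)).IsElliptic
  have heq : (W.baseChange M).toAffine.Equation (x' / s' ^ 2) (y' / s' ^ 3) := by
    rw [WeierstrassCurve.Affine.equation_iff]
    change (y' / s' ^ 3) ^ 2 + algebraMap F M W.a₁ * (x' / s' ^ 2) * (y' / s' ^ 3) +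
      algebraMap F M W.a₃ * (y' / s' ^ 3) = (x' / s' ^ 2) ^ 3 +
        algebraMap F M W.a₂ * (x' / s' ^ 2) ^ 2 + algebraMap F M W.a₄ * (x' / s' ^ 2) +
          algebraMap F M W.a₆
    field_simp
    linear_combination h0'
  refine ⟨x' / s' ^ 2, y' / s' ^ 3,
    (WeierstrassCurve.Affine.equation_iff_nonsingular).1 heq, ?_⟩
  have e : ((x' / s' ^ 2 : M) : Ω) * (s' : Ω) ^ 2 = (x' : Ω) := by
    have e' : (x' / s' ^ 2) * s' ^ 2 = x' := by field_simp
    have e'' := congrArg (fun z : M => (z : Ω)) e'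
    simpa using e''
  rw [e]
  exact h1

include L in
/-- **An elliptic curve over a local field has infinitely many points.** -/
theorem infinite_pt : Infinite (Pt W M) := by
  obtain ⟨π, hπ, p0, p1, -⟩ := L.unif M inferInstance
  obtain ⟨A, hA, hA1⟩ : ∃ A : ℝ, (∀ a : M, (a = algebraMap F M W.a₁ ∨ a = algebraMap F M W.a₂ ∨
      a = algebraMap F M W.a₃ ∨ a = algebraMap F M W.a₄ ∨ a = algebraMap F M W.a₆) →
      L.nm (a : Ω) ≤ A) ∧ 0 < A := by
    refine ⟨L.nm (algebraMap F M W.a₁ : M) + L.nm (algebraMap F M W.a₂ : M) +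
      L.nm (algebraMap F M W.a₃ : M) + L.nm (algebraMap F M W.a₄ : M) +
      L.nm (algebraMap F M W.a₆ : M) + 1, ?_, ?_⟩
    · rintro a (rfl | rfl | rfl | rfl | rfl) <;>
      linarith [L.nonneg (algebraMap F M W.a₁ : M), L.nonneg (algebraMap F M W.a₂ : M),
        L.nonneg (algebraMap F M W.a₃ : M), L.nonneg (algebraMap F M W.a₄ : M),
        L.nonneg (algebraMap F M W.a₆ : M)]
    · linarith [L.nonneg (algebraMap F M W.a₁ : M), L.nonneg (algebraMap F M W.a₂ : M),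
        L.nonneg (algebraMap F M W.a₃ : M), L.nonneg (algebraMap F M W.a₄ : M),
        L.nonneg (algebraMap F M W.a₆ : M)]
  obtain ⟨k₀, hk⟩ := exists_pow_lt_of_lt_one (inv_pos.2 hA1) p1
  have hπ0 : π ≠ 0 := by
    rintro rfl
    rw [(L.zero_iff 0).2 rfl] at p0
    exact lt_irrefl _ p0
  have hnp : ∀ n, L.nm (π ^ n) = L.nm π ^ n := by
    intro n
    induction n with
    | zero => rw [pow_zero, pow_zero, L.one]
    | succ n ih => rw [pow_succ, pow_succ, L.mul, ih]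
  have key : ∀ k : ℕ, ∃ (x y : M) (_ : (W.baseChange M).toAffine.Nonsingular x y),
      L.nm ((x : Ω) * (π ^ (k₀ + k)) ^ 2) = 1 := by
    intro k
    have hle : L.nm π ^ (k₀ + k) ≤ L.nm π ^ k₀ := pow_le_pow_of_le_one p0.le p1.le (by omega)
    refine exists_large L M W (pow_mem hπ _) (pow_ne_zero _ hπ0) ?_ fun a ha => ?_
    · rw [hnp]
      exact pow_le_one₀ p0.le p1.le
    · rw [L.mul, hnp]
      calc L.nm (a : Ω) * L.nm π ^ (k₀ + k) ≤ A * L.nm π ^ k₀ :=
            mul_le_mul (hA a ha) hle (pow_nonneg p0.le _) hA1.le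
        _ < A * A⁻¹ := mul_lt_mul_of_pos_left hk hA1
        _ = 1 := mul_inv_cancel₀ hA1.ne'
  choose x y hxy hx using key
  refine Infinite.of_injective (fun k : ℕ => (Pt.aff (x k) (y k) (hxy k) : Pt W M)) ?_
  intro k k' hkk
  have h1 : x k = x k' := by
    have h2 : (WeierstrassCurve.Affine.Point.some (x k) (y k) (hxy k) :
      (W.baseChange M).toAffine.Point) = WeierstrassCurve.Affine.Point.some (x k') (y k') (hxy k') :=
      hkk
    exact (WeierstrassCurve.Affine.Point.some.inj h2).1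
  have h2 := hx k
  have h3 := hx k'
  rw [h1, L.mul, ← pow_mul, hnp] at h2
  rw [L.mul, ← pow_mul, hnp] at h3
  have h4 : L.nm (x k' : Ω) ≠ 0 := by
    intro h
    rw [h, zero_mul] at h3
    exact zero_ne_one h3
  have h5 : L.nm π ^ ((k₀ + k) * 2) = L.nm π ^ ((k₀ + k') * 2) :=
    mul_left_cancel₀ h4 (h2.trans h3.symm)
  have h6 := pow_right_injective₀ p0 p1.ne h5
  omega

end pts

end ND

namespace ND

open IsDedekindDomain NumberField

/-- The case of the completions of a number field: finite extensions `M` of `F_v`. -/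
theorem infinite_fk {F : Type} [Field F] [NumberField F] (v : HeightOneSpectrum (𝓞 F))
    (M : IntermediateField (FK F v) (AlgebraicClosure (FK F v))) [FiniteDimensional (FK F v) M]
    {F' : Type} [Field F'] [Algebra F' M] (W : WeierstrassCurve F') [W.IsElliptic] :
    Infinite (Pt W M) := by
  obtain ⟨L, -, -, -, -⟩ := exists_ldg F v
  exact infinite_pt L.toLf M W

end ND
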