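import Pool.Agent.Lib.MP_f80667_ag.Do.Inf0

/-! An elliptic curve over a local field `K` has infinitely many points over `K` itself. -/

open ZC BE PE IntermediateField

namespace ND

/-- The case of the field `K` itself. -/
theorem infinite_K {F K Ω : Type} [Field F] [Field K] [Field Ω] [Algebra K Ω] [Algebra F K]
    [Algebra F Ω] [IsScalarTower F K Ω] (L : Lf K Ω) (W : WeierstrassCurve F) [W.IsElliptic] :
    Infinite (Pt W K) := by
  classical
  have h := infinite_pt L (⊥ : IntermediateField K Ω) (F := F) W
  let σ : (⊥ : IntermediateField K Ω) →ₐ[F] K :=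
    ((IntermediateField.botEquiv K Ω).toAlgHom).restrictScalars F
  exact Infinite.of_injective (Pt.map W σ)
    (WeierstrassCurve.Affine.Point.map_injective (W' := W) σ)

end ND
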