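import Pool.Agent.Lib.MP_f80667_ag.Gx.Pr
import Pool.Agent.Lib.MP_f80667_ag.Gm.GyAo

/-! The choice of a function on a plane curve. -/

open Polynomial GM

namespace DN

/-- Avoid finitely many lines of the plane (and the line `s = 0`). Proof: a line `a s + b t = c` over `Ω` with `(a, b) ≠ 0` contains for all `s` except at most one (if
`b = 0`) at most one `t` (if `b ≠ 0`): choose `s` outside a finite set, then `t` outside a finite set. -/
theorem exists_st {k Ω : Type} [Field k] [Infinite k] [Field Ω] [Algebra k Ω]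
    (B : Finset (Ω × Ω × Ω)) (hB : ∀ l ∈ B, l.1 ≠ 0 ∨ l.2.1 ≠ 0) :
    ∃ s t : k, s ≠ 0 ∧ ∀ l ∈ B, l.1 * algebraMap k Ω s + l.2.1 * algebraMap k Ω t ≠ l.2.2 := by
  classical
  have hinj : Function.Injective (algebraMap k Ω) := (algebraMap k Ω).injective
  have key : ∀ a b : Ω, {s : k | a ≠ 0 ∧ a * algebraMap k Ω s = b}.Finite := by
    intro a b
    refine Set.Subsingleton.finite ?_
    rintro s ⟨ha, hs⟩ s' ⟨-, hs'⟩
    exact hinj (mul_left_cancel₀ ha (hs.trans hs'.symm))
  have h1 : ({(0 : k)} ∪ ⋃ l ∈ (B : Set (Ω × Ω × Ω)),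
      {s : k | l.1 ≠ 0 ∧ l.1 * algebraMap k Ω s = l.2.2}).Finite :=
    (Set.finite_singleton 0).union (B.finite_toSet.biUnion fun l _ => key _ _)
  obtain ⟨s, hs⟩ := h1.exists_notMem
  have h2 : (⋃ l ∈ (B : Set (Ω × Ω × Ω)), {t : k | l.2.1 ≠ 0 ∧
      l.2.1 * algebraMap k Ω t = l.2.2 - l.1 * algebraMap k Ω s}).Finite :=
    B.finite_toSet.biUnion fun l _ => key _ _
  obtain ⟨t, ht⟩ := h2.exists_notMem
  refine ⟨s, t, fun h0 => hs (Or.inl h0), fun l hl h => ?_⟩
  by_cases h3 : l.2.1 = 0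
  · have h4 : l.1 ≠ 0 := (hB l hl).resolve_right fun h5 => h5 h3
    refine hs (Or.inr ?_)
    rw [Set.mem_iUnion₂]
    refine ⟨l, hl, h4, ?_⟩
    rw [h3, zero_mul, add_zero] at h
    exact h
  · apply ht
    rw [Set.mem_iUnion₂]
    exact ⟨l, hl, h3, by rw [← h, add_sub_cancel_left]⟩

variable {Ω : Type} [Field Ω]

/-- The points of the curve over finitely many `z`. Proof: for a root `z` of `q` the polynomial `g (z, Y)` is monic. -/
theorem fin_q {g : Polynomial (Polynomial Ω)} (hg : g.Monic) {q : Polynomial Ω} (hq : q ≠ 0) :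
    {P : Ω × Ω | ev₂ P g = 0 ∧ q.eval P.1 = 0}.Finite := by
  classical
  have h1 : (⋃ z ∈ (q.roots.toFinset : Set Ω),
      (fun y => (z, y)) '' ((g.map (evalRingHom z)).roots.toFinset : Set Ω)).Finite :=
    q.roots.toFinset.finite_toSet.biUnion fun z _ => (Finset.finite_toSet _).image _
  refine h1.subset ?_
  rintro ⟨z, y⟩ ⟨h2, h3⟩
  rw [Set.mem_iUnion₂]
  refine ⟨z, ?_, y, ?_, rfl⟩
  · rw [Finset.mem_coe, Multiset.mem_toFinset, mem_roots hq]
    exact h3
  · rw [Finset.mem_coe, Multiset.mem_toFinset, mem_roots (hg.map _).ne_zero]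
    change ((g.map (evalRingHom z)).eval y) = 0
    rw [map_evalRingHom_eval, ← ev₂_eq (z, y)]
    exact h2

/-- The zeros of `z ^ 2 + s (Y - w) + t z` on the curve, `s ≠ 0`. Proof: `Y = w - (z ^ 2 + t z) / s` is substituted in `g`: the polynomial `∑ g_j (z) Y (z) ^ j` has the degree
`2 n` if `n > 0` (the degree of the summand number `j` is at most `(n - j) + 2 j`, equality for `j = n`), and it is `1` for `n = 0`. -/
theorem fin_st {g : Polynomial (Polynomial Ω)} {n : ℕ} (hg : Mc 1 n g) {s : Ω} (hs : s ≠ 0) (t w : Ω) :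
    {P : Ω × Ω | ev₂ P g = 0 ∧ P.1 ^ 2 + s * (P.2 - w) + t * P.1 = 0}.Finite := by
  classical
  let Y : Polynomial Ω := C (-s⁻¹) * X ^ 2 + C (-(s⁻¹ * t)) * X + C w
  have hd : Y.natDegree = 2 := natDegree_quadratic (neg_ne_zero.2 (inv_ne_zero hs))
  have hl : Y.leadingCoeff = -s⁻¹ := leadingCoeff_quadratic (neg_ne_zero.2 (inv_ne_zero hs))
  have hG : g.eval Y ≠ 0 := by
    intro h0
    have h1 : (g.eval Y).coeff (n * 2) = 0 := by rw [h0, coeff_zero]
    rw [eval_eq_sum_range, hg.deg, Finset.sum_range_succ, coeff_add, finsetSum_coeff] at h1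
    have h2 : g.coeff n = 1 := by
      have h := hg.monic.coeff_natDegree
      rwa [hg.deg] at h
    have h3 : ∑ j ∈ Finset.range n, (g.coeff j * Y ^ j).coeff (n * 2) = 0 := by
      refine Finset.sum_eq_zero fun j hj => ?_
      rw [Finset.mem_range] at hj
      refine coeff_eq_zero_of_natDegree_lt ?_
      have h4 := hg.le j
      have h5 : (Y ^ j).natDegree = j * 2 := by rw [natDegree_pow, hd]
      have h6 : (g.coeff j * Y ^ j).natDegree ≤ (g.coeff j).natDegree + (Y ^ j).natDegree :=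
        natDegree_mul_le
      rw [h5] at h6
      omega
    rw [h2, h3, zero_add, one_mul] at h1
    have h7 : (Y ^ n).natDegree = n * 2 := by rw [natDegree_pow, hd]
    rw [← h7, coeff_natDegree, leadingCoeff_pow, hl] at h1
    exact pow_ne_zero n (neg_ne_zero.2 (inv_ne_zero hs)) h1
  have hf : ((fun z => (z, Y.eval z)) '' ((g.eval Y).roots.toFinset : Set Ω)).Finite :=
    (Finset.finite_toSet _).image _
  refine hf.subset ?_
  rintro ⟨z, y⟩ ⟨h2, h3⟩
  dsimp only at h3
  have hy : y = Y.eval z := by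
    change y = (C (-s⁻¹) * X ^ 2 + C (-(s⁻¹ * t)) * X + C w : Polynomial Ω).eval z
    simp only [eval_add, eval_mul, eval_C, eval_pow, eval_X]
    have h4 : s * y = s * w - z ^ 2 - t * z := by linear_combination h3
    have h5 : y = s⁻¹ * (s * y) := by rw [← mul_assoc, inv_mul_cancel₀ hs, one_mul]
    rw [h5, h4, mul_sub, mul_sub, ← mul_assoc, inv_mul_cancel₀ hs, one_mul]
    ring
  refine ⟨z, ?_, Prod.ext rfl hy.symm⟩
  rw [Finset.mem_coe, Multiset.mem_toFinset, mem_roots hG]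
  have e1 : g.eval₂ (evalRingHom z) (Y.eval z) = (g.eval Y).eval z := (eval₂_hom (evalRingHom z) Y)
  have e2 : g.eval₂ (evalRingHom z) ((C y).eval z) = (g.eval (C y)).eval z :=
    (eval₂_hom (evalRingHom z) (C y))
  have e3 : (g.eval (C y)).eval z = 0 := h2
  change (g.eval Y).eval z = 0
  rw [← e1, ← hy, ← e3, ← e2, eval_C]

end DN
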