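import Pool.Agent.Lib.MP_f80667_ag.Do.Rl
import Pool.Agent.Lib.MP_f80667_ag.Gx.Pr

/-! A plane curve chart through a given point. -/

open Polynomial GM

namespace DN

section aux

variable {F : Type} [Field F] {d : ℕ} {k : Type} [Field k] [Algebra F k]

/-- The line through `u` with the direction `b`. -/
private noncomputable def mcz (u b : Fin (d + 1) → k) : Fin (d + 1) → k[X] :=
  fun r => C (u r) + C (b r) * X

/-- The points of the line. -/
private def mcp {Ω : Type} [Field Ω] [Algebra k Ω] (u b : Fin (d + 1) → k) (z : Ω) :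
    Fin (d + 1) → Ω := fun r => algebraMap k Ω (u r) + algebraMap k Ω (b r) * z

/-- The restriction to the line. -/
private noncomputable def msb (u b : Fin (d + 1) → k) :
    Polynomial (MvPolynomial (Fin (d + 1)) F) →+* k[X][X] :=
  GX.pe (fun r => C (mcz u b r)) X

private theorem msb_map (u b : Fin (d + 1) → k) (Q : Polynomial (MvPolynomial (Fin (d + 1)) F)) :
    msb u b Q = Q.map (MvPolynomial.aeval (mcz u b) :
      MvPolynomial (Fin (d + 1)) F →ₐ[F] k[X]).toRingHom := by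
  rw [msb, GX.pe, Polynomial.coe_eval₂RingHom, Polynomial.map]
  congr 1
  refine MvPolynomial.ringHom_ext (fun c => ?_) fun i => ?_
  · change MvPolynomial.aeval (fun r => C (mcz u b r)) (MvPolynomial.C c) =
      C (MvPolynomial.aeval (mcz u b) (MvPolynomial.C c))
    rw [← MvPolynomial.algebraMap_eq, AlgHom.commutes, AlgHom.commutes]
    rfl
  · change MvPolynomial.aeval (fun r => C (mcz u b r)) (MvPolynomial.X i) =
      C (MvPolynomial.aeval (mcz u b) (MvPolynomial.X i))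
    rw [MvPolynomial.aeval_X, MvPolynomial.aeval_X]

private theorem mv_lin {Ω : Type} [Field Ω] [Algebra k Ω] [Algebra F Ω] [IsScalarTower F k Ω]
    (u b : Fin (d + 1) → k) (z : Ω) (P : MvPolynomial (Fin (d + 1)) F) :
    aeval z (MvPolynomial.aeval (mcz u b) P) = MvPolynomial.aeval (mcp u b z) P := by
  have h := MvPolynomial.comp_aeval_apply
    (φ := (Polynomial.aeval z : k[X] →ₐ[k] Ω).restrictScalars F) (f := mcz u b) (p := P)
  change aeval z (MvPolynomial.aeval (mcz u b) P) = _ at h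
  rw [h]
  congr 1
  congr 1
  funext r
  change aeval z (C (u r) + C (b r) * X) = _
  rw [map_add, map_mul, aeval_C, aeval_C, aeval_X]
  rfl

private theorem evk_msb {Ω : Type} [Field Ω] [Algebra k Ω] [Algebra F Ω] [IsScalarTower F k Ω]
    (u b : Fin (d + 1) → k) (P : Ω × Ω) (Q : Polynomial (MvPolynomial (Fin (d + 1)) F)) :
    evk P (msb u b Q) = GX.pe (mcp u b P.1) P.2 Q := by
  have h : (evk P : k[X][X] →ₐ[k] Ω).toRingHom.comp (msb (F := F) u b) =
      GX.pe (mcp u b P.1) P.2 := by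
    refine Polynomial.ringHom_ext (fun a => ?_) ?_
    · change evk P (msb u b (C a)) = _
      rw [msb, GX.pe_C, GX.pe_C]
      have h1 : MvPolynomial.aeval (fun r => C (mcz u b r)) a =
          C (MvPolynomial.aeval (mcz u b) a) := by
        have h2 := msb_map u b (C a)
        rw [msb, GX.pe_C, Polynomial.map_C] at h2
        exact h2
      rw [h1, evk_Cf, mv_lin]
    · change evk P (msb u b X) = _
      rw [msb, GX.pe_X, GX.pe_X, evk_Y]
  exact RingHom.congr_fun h Q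

private theorem mcz_deg (u b : Fin (d + 1) → k) {P : MvPolynomial (Fin (d + 1)) F} {e : ℕ}
    (hP : P.IsHomogeneous e) : (MvPolynomial.aeval (mcz u b) P).natDegree ≤ e := by
  rw [MvPolynomial.aeval_def, MvPolynomial.eval₂_eq]
  refine natDegree_sum_le_of_forall_le _ _ fun m hm => ?_
  have h1 : m.degree = e := by
    by_contra h
    exact MvPolynomial.mem_support_iff.1 hm (hP.coeff_eq_zero h)
  have h2 : (algebraMap F k[X] (MvPolynomial.coeff m P)).natDegree = 0 := by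
    rw [Polynomial.algebraMap_apply]
    exact natDegree_C _
  have h3 : ∀ r, (mcz u b r).natDegree ≤ 1 := by
    intro r
    refine (natDegree_add_le _ _).trans (max_le ?_ ?_)
    · rw [natDegree_C]
      exact Nat.zero_le 1
    · exact (natDegree_C_mul_le _ _).trans natDegree_X_le
  refine (natDegree_mul_le).trans ?_
  rw [h2, zero_add]
  refine (natDegree_prod_le _ _).trans ?_
  rw [← h1, Finsupp.degree_apply]
  refine Finset.sum_le_sum fun i _ => ?_
  refine (natDegree_pow_le).trans ?_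
  exact (Nat.mul_le_mul_left _ (h3 i)).trans (by rw [mul_one])

end aux

variable {F : Type} [Field F] {N d : ℕ} {ι : Type} {f : ι → MvPolynomial (Fin N) F}

/-- A chart through the point `x₀` over `k`. Proof: `GX.Nsg.exists_prj` and `Cov` give a projection `ψ` over `F` with `D (u (x₀)) ≠ 0` (if all `D_i (u_i (x₀))` are `0` then all
`X_k ^ s` vanish at `x₀ ≠ 0`), `ψ.cp (C ψ.D) ∉ (f)` because `x₀` is a zero of `f`; `exists_rl` gives `r`. Choose `b` in `k ^ (d + 1)` with `r (u (x₀) + b) ≠ 0` (`k` is infinite), `c (z) = u (x₀) + z b`,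
`g (z, Y) = G (c (z), Y)` (`homG`: the coefficient number `j` is homogeneous of degree `n - j`, so its degree in `z` is at most `n - j`), `A = ψ.A (c (z), Y)`, `δ = D (c (z))`, `q = δ r (c (z))`,
`w₀ = ψ.yv x₀`. Let `P = (z, Y)` be a point of the curve with `δ (z) ≠ 0`: `bez` gives `dY g ≠ 0`; `inu`: `u (A (P)) = D (c (z)) c (z)`, and `c (z) ≠ 0` because `D` is homogeneous of degree `≠ 0`: `A (P) ≠ 0`;
if `h (A (P)) = 0` then `r (D (c) c) = 0` (`A (P)` is a zero of `f` by `inX`), and `r` is homogeneous: `r (c (z)) = 0`. At `(0, w₀)`: `onG`, `onA` at `x₀` (some coordinate of `x₀` is not `0`). -/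
theorem exists_cht [CharZero F] (hf : GX.Nsg f d) {h : MvPolynomial (Fin N) F}
    (hh : ∃ e, h.IsHomogeneous e) (hn : h ∉ Ideal.span (Set.range f)) {k Ω : Type} [Field k]
    [CharZero k] [Algebra F k] [Field Ω] [Algebra k Ω] [Algebra F Ω] [IsScalarTower F k Ω]
    {x₀ : Fin N → k} (h0 : x₀ ≠ 0) (hx : ∀ i, MvPolynomial.aeval x₀ (f i) = 0) :
    ∃ (n : ℕ) (g : k[X][X]) (A : Fin N → k[X][X]) (δ q : k[X]) (s : ℕ) (w₀ : k),
      Mc 1 n g ∧ (∀ i, g ∣ C (δ ^ s) * MvPolynomial.aeval A (f i)) ∧ q ≠ 0 ∧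
      (∀ P : Ω × Ω, evk P g = 0 → aeval P.1 δ ≠ 0 →
        evk P (dY g) ≠ 0 ∧ (fun i => evk P (A i)) ≠ 0 ∧
          ∀ i, MvPolynomial.aeval (fun i => evk P (A i)) (f i) = 0) ∧
      (∀ P : Ω × Ω, evk P g = 0 → aeval P.1 q ≠ 0 → aeval P.1 δ ≠ 0 ∧
        MvPolynomial.aeval (fun i => evk P (A i)) h ≠ 0) ∧
      evk ((0, algebraMap k Ω w₀) : Ω × Ω) g = 0 ∧ aeval (0 : Ω) δ ≠ 0 ∧
      ∃ c : k, c ≠ 0 ∧ ∀ i, evk ((0, algebraMap k Ω w₀) : Ω × Ω) (A i) =
        algebraMap k Ω (c * x₀ i) := by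
  obtain ⟨m, ψs, hok, s₀, hcov⟩ := hf.exists_prj
  obtain ⟨k₀, hk₀⟩ := Function.ne_iff.1 h0
  have hk₀' : x₀ k₀ ≠ 0 := hk₀
  have hI : ∀ Q ∈ Ideal.span (Set.range f), MvPolynomial.aeval x₀ Q = 0 := by
    intro Q hQ
    have h1 : Ideal.span (Set.range f) ≤
        RingHom.ker (MvPolynomial.aeval x₀ : MvPolynomial (Fin N) F →ₐ[F] k) := by
      rw [Ideal.span_le]
      rintro _ ⟨i, rfl⟩
      exact hx i
    exact h1 hQ
  obtain ⟨i₀, hi₀⟩ : ∃ i, MvPolynomial.aeval ((ψs i).uv x₀) (ψs i).D ≠ 0 := by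
    by_contra hcon
    push Not at hcon
    have h1 : Ideal.span (Set.range f) ⊔
        Ideal.span (Set.range fun i => (ψs i).cp (Polynomial.C (ψs i).D)) ≤
        RingHom.ker (MvPolynomial.aeval x₀ : MvPolynomial (Fin N) F →ₐ[F] k) := by
      rw [sup_le_iff]
      refine ⟨fun Q hQ => hI Q hQ, ?_⟩
      rw [Ideal.span_le]
      rintro _ ⟨i, rfl⟩
      change MvPolynomial.aeval x₀ ((ψs i).cp (Polynomial.C (ψs i).D)) = 0
      rw [GX.cp_aeval, GX.pe_C]
      exact hcon i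
    have h2 : MvPolynomial.aeval x₀ (MvPolynomial.X k₀ ^ s₀ : MvPolynomial (Fin N) F) = 0 :=
      h1 (hcov k₀)
    rw [map_pow, MvPolynomial.aeval_X] at h2
    exact hk₀' (eq_zero_of_pow_eq_zero h2)
  have hψ : (ψs i₀).Ok f := hok i₀
  obtain ⟨ψ, hψe⟩ : ∃ ψ, ψ = ψs i₀ := ⟨_, rfl⟩
  rw [← hψe] at hψ hi₀
  clear hψe
  have hD : ψ.cp (Polynomial.C ψ.D) ∉ Ideal.span (Set.range f) := by
    intro h
    have h1 := hI _ h
    rw [GX.cp_aeval, GX.pe_C] at h1
    exact hi₀ h1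
  obtain ⟨r, hr0, ⟨er, hre⟩, hr⟩ := exists_rl hf hψ hD hh hn
  obtain ⟨v, hv⟩ : ∃ v : Fin (d + 1) → k, MvPolynomial.aeval v r ≠ 0 := by
    by_contra hcon
    push Not at hcon
    have h1 : MvPolynomial.map (algebraMap F k) r = 0 := by
      refine MvPolynomial.funext fun v => ?_
      rw [MvPolynomial.eval_map, map_zero]
      exact hcon v
    exact hr0 (MvPolynomial.map_injective _ (algebraMap F k).injective
      (h1.trans (map_zero _).symm))
  obtain ⟨b, hb⟩ : ∃ b : Fin (d + 1) → k, ∀ j, ψ.uv x₀ j + b j = v j :=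
    ⟨fun j => v j - ψ.uv x₀ j, fun j => add_sub_cancel _ _⟩
  obtain ⟨eD, heD, hDh⟩ := hψ.homD
  obtain ⟨s, hinX⟩ := hψ.inX
  have key : ∀ c : Fin (d + 1) → Ω, ∀ w : Ω, GX.pe c w ψ.G = 0 →
      MvPolynomial.aeval c ψ.D ≠ 0 →
      GX.pe c w (Polynomial.derivative ψ.G) ≠ 0 ∧ (fun i => GX.pe c w (ψ.A i)) ≠ 0 ∧
      (∀ i, MvPolynomial.aeval (fun i => GX.pe c w (ψ.A i)) (f i) = 0) ∧
      ψ.uv (fun i => GX.pe c w (ψ.A i)) = MvPolynomial.aeval c ψ.D • c := by
    intro c w hG hDc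
    have hu : ψ.uv (fun i => GX.pe c w (ψ.A i)) = MvPolynomial.aeval c ψ.D • c := by
      funext j
      obtain ⟨Q, hQ⟩ := hψ.inu j
      have h1 := congrArg (GX.pe c w) hQ
      rw [map_mul (GX.pe c w) ψ.G Q, hG, zero_mul, map_sub, map_sum, GX.pe_C, map_mul,
        MvPolynomial.aeval_X, sub_eq_zero] at h1
      change GX.lv (ψ.u j) _ = _
      rw [GX.lv, Pi.smul_apply, smul_eq_mul, ← h1]
      refine Finset.sum_congr rfl fun i _ => ?_
      rw [map_mul, GX.pe_C, ← MvPolynomial.algebraMap_eq, AlgHom.commutes]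
    refine ⟨fun h => ?_, fun h => ?_, fun i => ?_, hu⟩
    · obtain ⟨B, B', hB⟩ := hψ.bez
      have h1 := congrArg (GX.pe c w) hB
      rw [map_add, map_mul, map_mul, hG, h, mul_zero, mul_zero, add_zero, GX.pe_C] at h1
      exact hDc h1.symm
    · rw [h] at hu
      have h1 : ψ.uv (0 : Fin N → Ω) = 0 := by
        funext j
        change GX.lv (ψ.u j) (0 : Fin N → Ω) = 0
        rw [GX.lv]
        exact Finset.sum_eq_zero fun i _ => mul_zero _
      rw [h1] at hu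
      have h2 : c = 0 := (smul_eq_zero.1 hu.symm).resolve_left hDc
      have h3 := GX.aeval_smul_hom hDh c (0 : Ω)
      rw [zero_smul, zero_pow heD, zero_mul, ← h2] at h3
      exact hDc h3
    · obtain ⟨Q, hQ⟩ := hinX i
      have h1 := congrArg (GX.pe c w) hQ
      rw [map_mul, map_mul, hG, zero_mul, GX.pe_C, GX.pe_aeval, map_pow] at h1
      exact (mul_eq_zero.1 h1).resolve_left (pow_ne_zero _ hDc)
  have hm : ∀ Q : Polynomial (MvPolynomial (Fin (d + 1)) F), ∀ P : Ω × Ω,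
      evk P (msb (ψ.uv x₀) b Q) = GX.pe (mcp (ψ.uv x₀) b P.1) P.2 Q := fun Q P =>
    evk_msb _ _ P Q
  have hdG : dY (msb (ψ.uv x₀) b ψ.G) = msb (ψ.uv x₀) b (Polynomial.derivative ψ.G) := by
    rw [dY, msb_map, msb_map, Polynomial.derivative_map]
  have h00 : mcp (ψ.uv x₀) b (0 : Ω) = fun j => algebraMap k Ω (ψ.uv x₀ j) := by
    funext j
    rw [mcp, mul_zero, add_zero]
  have hpk : ∀ Q : Polynomial (MvPolynomial (Fin (d + 1)) F),
      evk ((0, algebraMap k Ω (ψ.yv x₀)) : Ω × Ω) (msb (ψ.uv x₀) b Q) =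
        algebraMap k Ω (GX.pe (ψ.uv x₀) (ψ.yv x₀) Q) := by
    intro Q
    rw [hm, h00]
    exact (GX.pe_hom (IsScalarTower.toAlgHom F k Ω) (ψ.uv x₀) (ψ.yv x₀) Q).symm
  refine ⟨ψ.G.natDegree, msb (ψ.uv x₀) b ψ.G, fun i => msb (ψ.uv x₀) b (ψ.A i),
    MvPolynomial.aeval (mcz (ψ.uv x₀) b) ψ.D,
    MvPolynomial.aeval (mcz (ψ.uv x₀) b) ψ.D * MvPolynomial.aeval (mcz (ψ.uv x₀) b) r, s,
    ψ.yv x₀, ⟨?_, ?_, ?_⟩, ?_, ?_, ?_, ?_, ?_, ?_, ?_⟩
  · rw [msb_map]
    exact hψ.mon.map _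
  · rw [msb_map]
    exact hψ.mon.natDegree_map _
  · intro j
    rw [msb_map, Polynomial.coeff_map, mul_one]
    exact mcz_deg _ _ (hψ.homG j)
  · intro i
    have h1 := map_dvd (msb (ψ.uv x₀) b) (hinX i)
    rw [map_mul] at h1
    have h2 : msb (ψ.uv x₀) b (Polynomial.C (ψ.D ^ s)) =
        C (MvPolynomial.aeval (mcz (ψ.uv x₀) b) ψ.D ^ s) := by
      rw [msb_map, Polynomial.map_C]
      congr 1
      exact map_pow _ _ _
    have h3 : msb (ψ.uv x₀) b (MvPolynomial.aeval ψ.A (f i)) =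
        MvPolynomial.aeval (fun i => msb (ψ.uv x₀) b (ψ.A i)) (f i) :=
      GX.pe_aeval _ _ _ _
    rw [h2, h3] at h1
    exact h1
  · refine mul_ne_zero (fun h => hi₀ ?_) fun h => hv ?_
    · have h1 := mv_lin (Ω := k) (ψ.uv x₀) b 0 ψ.D
      rw [h, map_zero] at h1
      have h2 : mcp (Ω := k) (ψ.uv x₀) b 0 = ψ.uv x₀ := by
        funext j
        rw [mcp, mul_zero, add_zero]
        rfl
      rw [h2] at h1
      exact h1.symm
    · have h1 := mv_lin (Ω := k) (ψ.uv x₀) b 1 r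
      rw [h, map_zero] at h1
      have h2 : mcp (Ω := k) (ψ.uv x₀) b 1 = v := by
        funext j
        rw [mcp, mul_one]
        exact hb j
      rw [h2] at h1
      exact h1.symm
  · intro P hP hδ
    rw [hm] at hP
    rw [mv_lin] at hδ
    obtain ⟨h1, h2, h3, -⟩ := key _ _ hP hδ
    rw [hdG, hm]
    simp only [hm]
    exact ⟨h1, h2, h3⟩
  · intro P hP hq
    rw [hm] at hP
    rw [map_mul, mv_lin, mv_lin] at hq
    obtain ⟨h1, h2⟩ := mul_ne_zero_iff.1 hq
    rw [mv_lin]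
    refine ⟨h1, fun h4 => h2 ?_⟩
    simp only [hm] at h4
    obtain ⟨-, -, h3, h5⟩ := key _ _ hP h1
    have h6 := hr Ω _ h3 h4
    rw [h5, GX.aeval_smul_hom hre] at h6
    exact (mul_eq_zero.1 h6).resolve_left (pow_ne_zero _ h1)
  · rw [hpk]
    obtain ⟨s', hs'⟩ := hψ.onG
    have h1 := hI _ (hs' k₀)
    rw [map_mul, map_pow, MvPolynomial.aeval_X, GX.cp_aeval] at h1
    rw [(mul_eq_zero.1 h1).resolve_left (pow_ne_zero _ hk₀'), map_zero]
  · rw [mv_lin, h00]
    intro h1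
    apply hi₀
    have h2 := MvPolynomial.comp_aeval_apply (φ := IsScalarTower.toAlgHom F k Ω)
      (f := ψ.uv x₀) (p := ψ.D)
    change algebraMap k Ω (MvPolynomial.aeval (ψ.uv x₀) ψ.D) =
      MvPolynomial.aeval (fun j => algebraMap k Ω (ψ.uv x₀ j)) ψ.D at h2
    rw [h1] at h2
    exact (map_eq_zero _).1 h2
  · refine ⟨MvPolynomial.aeval (ψ.uv x₀) ψ.D, hi₀, fun i => ?_⟩
    rw [hpk]
    congr 1
    obtain ⟨s', hs'⟩ := hψ.onA
    have h1 := hI _ (hs' k₀ i)
    rw [map_mul, map_pow, MvPolynomial.aeval_X, map_sub, map_mul, MvPolynomial.aeval_X,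
      GX.cp_aeval, GX.cp_aeval, GX.pe_C] at h1
    exact sub_eq_zero.1 ((mul_eq_zero.1 h1).resolve_left (pow_ne_zero _ hk₀'))

end DN
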