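import Pool.Agent.Lib.MP_f80667_ag.Do.MvA
import Pool.Agent.Lib.MP_f80667_ag.Do.Ln

/-! The moving lemma for a rational point. -/

open Polynomial GM

namespace DN

variable {F : Type} [Field F] {N d : ℕ} {ι : Type} {f : ι → MvPolynomial (Fin N) F}

/-- The point is not on the hypersurface `h = 0`. -/
def Hn (h : MvPolynomial (Fin N) F) {L : Type} [Field L] [Algebra F L] (P : (GX.Xf f).pt L) : Prop :=
  ∀ x, GX.Co P x → MvPolynomial.aeval x h ≠ 0

/-- Proof: `x` is homogeneous: two vectors of coordinates differ by a factor `c ≠ 0` (`MvPolynomial.IsHomogeneous`). -/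
theorem hn_of {h : MvPolynomial (Fin N) F} (hh : ∃ e, h.IsHomogeneous e) {L : Type} [Field L]
    [Algebra F L] {P : (GX.Xf f).pt L} {x : Fin N → L} (hx : GX.Co P x)
    (h0 : MvPolynomial.aeval x h ≠ 0) : Hn h P := by
  intro x' hx'
  obtain ⟨Q, hQ, rfl⟩ := hx
  obtain ⟨Q', hQ', rfl⟩ := hx'
  obtain ⟨e, he⟩ := hh
  rw [hQ] at hQ'
  obtain ⟨c, hc, h1⟩ := Quotient.exact hQ'
  have h2 : Q'.x = c • Q.x := h1
  rw [h2, ZCTr.aeval_smul he]
  exact mul_ne_zero (pow_ne_zero _ hc) h0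

section aux

variable {k Ω : Type} [Field k] [Field Ω] [Algebra k Ω]

private theorem mvb_dzx2 {R : Type} [CommRing R] (P : R × R) (u : R[X]) :
    ev₂ P (C u) = u.eval P.1 := by
  simp [ev₂]

private theorem mvb_evX {R : Type} [CommRing R] (P : R × R) :
    ev₂ P (X : R[X][X]) = P.2 := by
  simp [ev₂]

private theorem mvb_evx {R : Type} [CommRing R] (P : R × R) (s t w : R) :
    ev₂ P (C (X ^ 2) + C (C s) * (X - C (C w)) + C (C t * X) : R[X][X]) =
      P.1 ^ 2 + s * (P.2 - w) + t * P.1 := by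
  simp [ev₂]

private theorem mvb_evy {R : Type} [CommRing R] (P : R × R) (t : R) :
    ev₂ P (C ((X - C t) ^ 2) : R[X][X]) = (P.1 - t) ^ 2 := by
  simp [ev₂]

private theorem mvb_dYx {R : Type} [CommRing R] (s t w : R) :
    dY (C (X ^ 2) + C (C s) * (X - C (C w)) + C (C t * X) : R[X][X]) = C (C s) := by
  have e : (C (X ^ 2) + C (C s) * (X - C (C w)) + C (C t * X) : R[X][X]) =
      C (X ^ 2 + C t * X - C (s * w)) + C (C s) * X := by
    simp only [C_add, C_sub, C_mul, C_pow]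
    ring
  rw [e]
  unfold dY
  rw [derivative_add, derivative_C, derivative_C_mul, derivative_X, zero_add, mul_one]

private theorem mvb_dZx {R : Type} [CommRing R] (s t w : R) :
    dZ (C (X ^ 2) + C (C s) * (X - C (C w)) + C (C t * X) : R[X][X]) = C (2 * X + C t) := by
  have e : (C (X ^ 2) + C (C s) * (X - C (C w)) + C (C t * X) : R[X][X]) =
      C (X ^ 2 + C t * X - C (s * w)) + C (C s) * X := by
    simp only [C_add, C_sub, C_mul, C_pow]
    ring
  rw [e, dZ_add, dZ_C, dZ_mul, dZ_X, dZ_C, derivative_C, C_0, zero_mul, mul_zero, add_zero,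
    add_zero]
  congr 1
  simp only [derivative_sub, derivative_add, derivative_X_sq, derivative_C, derivative_mul,
    derivative_X]
  simp only [map_ofNat, zero_mul, mul_one, zero_add, sub_zero]

private theorem mvb_up_x (s t w : k) :
    up₂ (algebraMap k Ω) (C (X ^ 2) + C (C s) * (X - C (C w)) + C (C t * X) : k[X][X]) =
      C (X ^ 2) + C (C (algebraMap k Ω s)) * (X - C (C (algebraMap k Ω w))) +
        C (C (algebraMap k Ω t) * X) := by
  simp [up₂]

private theorem mvb_up_y (t : k) :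
    up₂ (algebraMap k Ω) (C ((X - C t) ^ 2) : k[X][X]) = C ((X - C (algebraMap k Ω t)) ^ 2) := by
  simp [up₂]

private theorem mvb_ut_x (s t w : k) :
    Ut 1 2 (C (X ^ 2) + C (C s) * (X - C (C w)) + C (C t * X) : k[X][X]) := by
  have e : (C (X ^ 2) + C (C s) * (X - C (C w)) + C (C t * X) : k[X][X]) - C (X ^ 2) =
      C (C t * X + C (- (s * w))) + C (C s) * X := by
    simp only [C_add, C_mul, C_pow, C_neg]
    ring
  intro j hj
  rw [e] at hj ⊢
  rw [coeff_add, coeff_C, coeff_C_mul, coeff_X] at hj ⊢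
  rcases j with _ | _ | j
  · simp only [if_true, one_ne_zero, if_false, mul_zero, add_zero, Nat.zero_mul]
    exact lt_of_le_of_lt natDegree_linear_le (by norm_num)
  · simp
  · exfalso
    apply hj
    simp

private theorem mvb_ut_y (t : k) : Ut 1 2 (C ((X - C t) ^ 2) : k[X][X]) := by
  have e : (C ((X - C t) ^ 2) : k[X][X]) - C (X ^ 2) = C (C (-2 * t) * X + C (t ^ 2)) := by
    rw [← C_sub]
    congr 1
    simp only [C_mul, C_pow, C_neg, map_ofNat]
    ring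
  intro j hj
  rw [e] at hj ⊢
  rw [coeff_C] at hj ⊢
  rcases j with _ | j
  · simp only [if_true, Nat.zero_mul, add_zero]
    exact lt_of_le_of_lt natDegree_linear_le (by norm_num)
  · exfalso
    apply hj
    simp

/-- The curve over the larger field. -/
private theorem mvb_mc {n : ℕ} {g : k[X][X]} (hg : Mc 1 n g) :
    Mc 1 n (up₂ (algebraMap k Ω) g) := by
  refine ⟨hg.monic.map _, ?_, fun j => ?_⟩
  · change (g.map _).natDegree = n
    rw [hg.monic.natDegree_map, hg.deg]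
  · change ((g.map (mapRingHom (algebraMap k Ω))).coeff j).natDegree ≤ _
    rw [coeff_map]
    exact (natDegree_map_le).trans (hg.le j)

end aux

/-- **Moving a rational point.** Proof: the chart of `exists_cht`; the bad points are the finitely many `P ≠ (0, w₀)` with `g (P) = 0`, `q (z) = 0` (`fin_q`); `exists_st` gives `s ≠ 0`, `t` in `k` such that
`x = z ^ 2 + s (Y - w₀) + t z` does not vanish at the bad points (the line `s (Y - w₀) + t z = - z ^ 2`, `(Y - w₀, z) ≠ 0`) and `t dY g (P₀) - s dZ g (P₀) ≠ 0` at `P₀ = (0, w₀)` (`dY g (P₀) ≠ 0`); `t₁` in `k`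
with `q (t₁) ≠ 0`, `y = (z - t₁) ^ 2`. `Ut 1 2 x`, `Ut 1 2 y`. `Φ` is the set of the zeros of `x` and `y` on the curve (`fin_st`, `fin_q`). At the points of `Φ` other than `P₀` we have `q ≠ 0`. `GX.pr_f` (`B = C (δ ^ s)`) for `pt P` with the coordinates `A (P)`; `odp_one` at `P₀` for `x`,
`odp_zero` at `P₀` for `y` (if `t₁ ≠ 0`; choose `t₁ ≠ 0`). `z` is the sum of the other terms with the opposite sign. -/
theorem mv_pt [CharZero F] (hf : GX.Nsg f d) {h : MvPolynomial (Fin N) F}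
    (hh : ∃ e, h.IsHomogeneous e) (hn : h ∉ Ideal.span (Set.range f)) {k Ω : Type} [Field k]
    [CharZero k] [Algebra F k] [Field Ω] [Algebra k Ω] [Algebra F Ω] [IsScalarTower F k Ω]
    [IsAlgClosure k Ω] {x₀ : Fin N → k} {P₀ : (GX.Xf f).pt Ω}
    (hP : GX.Co P₀ fun i => algebraMap k Ω (x₀ i)) :
    ∃ z : (GX.Xf f).pt Ω →₀ ℤ, Finsupp.single P₀ 1 - z ∈ (GX.Xf f).ratEq k Ω ∧
      ∀ P ∈ z.support, Hn h P := by
  classical
  obtain ⟨Q₀, hQ₀, hQx⟩ := hP
  have hinj : Function.Injective (algebraMap k Ω) := (algebraMap k Ω).injective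
  have hx0 : x₀ ≠ 0 := by
    rintro rfl
    apply Q₀.ne
    rw [hQx]
    funext i
    exact map_zero _
  have hx1 : ∀ i, MvPolynomial.aeval x₀ (f i) = 0 := by
    intro i
    have h1 := Q₀.eq i
    have h2 : (fun i => algebraMap k Ω (x₀ i)) = algebraMap k Ω ∘ x₀ := rfl
    rw [hQx, h2, MvPolynomial.aeval_algebraMap_apply] at h1
    exact hinj (by rw [h1, map_zero])
  obtain ⟨n, g, A, δ, q, m, w₀, hmc, hfA, hq, hch, hqh, hg0, hδ0, c, hc, hcA⟩ :=
    exists_cht (Ω := Ω) hf hh hn hx0 hx1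
  obtain ⟨p₀, hp₀⟩ : ∃ p : Ω × Ω, p = (0, algebraMap k Ω w₀) := ⟨_, rfl⟩
  rw [← hp₀] at hg0 hcA
  have hp1 : p₀.1 = 0 := by rw [hp₀]
  have hp2 : p₀.2 = algebraMap k Ω w₀ := by rw [hp₀]
  have hδp : aeval p₀.1 δ ≠ 0 := by rw [hp1]; exact hδ0
  have hdY := (hch p₀ hg0 hδp).1
  have hmcΩ : Mc 1 n (up₂ (algebraMap k Ω) g) := mvb_mc hmc
  have hqm : q.map (algebraMap k Ω) ≠ 0 := (Polynomial.map_ne_zero_iff hinj).2 hq
  have hqe : ∀ z : Ω, (q.map (algebraMap k Ω)).eval z = aeval z q := fun z =>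
    eval_map_algebraMap q z
  -- the bad points
  obtain ⟨B₀, hB₀⟩ : ∃ B₀ : Finset (Ω × Ω), ∀ P, P ∈ B₀ ↔
      ev₂ P (up₂ (algebraMap k Ω) g) = 0 ∧ (q.map (algebraMap k Ω)).eval P.1 = 0 :=
    ⟨(fin_q hmcΩ.monic hqm).toFinset, fun P => by rw [Set.Finite.mem_toFinset]; rfl⟩
  obtain ⟨ln, hln⟩ : ∃ ln : Ω × Ω → Ω × Ω × Ω, ∀ P, ln P =
      (P.2 - algebraMap k Ω w₀, P.1, -P.1 ^ 2) := ⟨_, fun _ => rfl⟩
  obtain ⟨s, t, hs, hst⟩ := exists_st (k := k)
    (insert (-evk p₀ (dZ g), evk p₀ (dY g), 0) ((B₀.erase p₀).image ln)) (by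
      intro l hl
      rcases Finset.mem_insert.1 hl with rfl | hl
      · exact Or.inr hdY
      · obtain ⟨P, hP, rfl⟩ := Finset.mem_image.1 hl
        by_contra hcon
        push Not at hcon
        rw [hln] at hcon
        apply (Finset.mem_erase.1 hP).1
        rw [hp₀]
        exact Prod.ext hcon.2 (sub_eq_zero.1 hcon.1))
  obtain ⟨t₁, ht₁⟩ : ∃ t₁ : k, (q * X).eval t₁ ≠ 0 := by
    by_contra hcon
    push Not at hcon
    exact mul_ne_zero hq X_ne_zero (Polynomial.funext fun r => by rw [hcon r, eval_zero])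
  rw [eval_mul, eval_X] at ht₁
  have ht2 := left_ne_zero_of_mul ht₁
  have ht3 := right_ne_zero_of_mul ht₁
  obtain ⟨x, hx⟩ : ∃ x : k[X][X], x = C (X ^ 2) + C (C s) * (X - C (C w₀)) + C (C t * X) :=
    ⟨_, rfl⟩
  obtain ⟨y, hy⟩ : ∃ y : k[X][X], y = C ((X - C t₁) ^ 2) := ⟨_, rfl⟩
  have hevx : ∀ P : Ω × Ω, evk P x = P.1 ^ 2 + algebraMap k Ω s * (P.2 - algebraMap k Ω w₀) +
      algebraMap k Ω t * P.1 := fun P => by
    rw [evk_eq, hx, mvb_up_x, mvb_evx]
  have hevy : ∀ P : Ω × Ω, evk P y = (P.1 - algebraMap k Ω t₁) ^ 2 := fun P => by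
    rw [evk_eq, hy, mvb_up_y, mvb_evy]
  have hsΩ : algebraMap k Ω s ≠ 0 := (_root_.map_ne_zero _).2 hs
  have hfx := fin_st hmcΩ hsΩ (algebraMap k Ω t) (algebraMap k Ω w₀)
  have hfy := fin_q hmcΩ.monic (X_sub_C_ne_zero (algebraMap k Ω t₁))
  obtain ⟨Φ, hΦ⟩ : ∃ Φ : Finset (Ω × Ω), ∀ P, P ∈ Φ ↔
      evk P g = 0 ∧ (evk P x = 0 ∨ evk P y = 0) := by
    have hfin : {P : Ω × Ω | evk P g = 0 ∧ (evk P x = 0 ∨ evk P y = 0)}.Finite := by
      refine (hfx.union hfy).subset ?_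
      rintro P ⟨h1, h2 | h2⟩
      · left
        exact ⟨h1, by rw [← hevx]; exact h2⟩
      · right
        refine ⟨h1, ?_⟩
        rw [hevy] at h2
        rw [eval_sub, eval_X, eval_C]
        exact pow_eq_zero_iff two_ne_zero |>.1 h2
    exact ⟨hfin.toFinset, fun P => by rw [Set.Finite.mem_toFinset]; rfl⟩
  have hqP : ∀ P ∈ Φ, P ≠ p₀ → aeval P.1 q ≠ 0 := by
    intro P hP hne h0
    obtain ⟨h1, h2⟩ := (hΦ P).1 hP
    rcases h2 with h2 | h2
    · have h3 : P ∈ B₀ := (hB₀ P).2 ⟨h1, by rw [hqe]; exact h0⟩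
      have h4 := hst (ln P) (Finset.mem_insert_of_mem
        (Finset.mem_image_of_mem _ (Finset.mem_erase.2 ⟨hne, h3⟩)))
      apply h4
      rw [hevx] at h2
      rw [hln]
      change (P.2 - algebraMap k Ω w₀) * algebraMap k Ω s + P.1 * algebraMap k Ω t = -P.1 ^ 2
      linear_combination h2
    · rw [hevy] at h2
      have h3 : P.1 = algebraMap k Ω t₁ := sub_eq_zero.1 (pow_eq_zero_iff two_ne_zero |>.1 h2)
      rw [h3, aeval_algebraMap_apply] at h0
      refine ht2 (hinj ?_)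
      rw [map_zero, ← h0]
      rfl
  have hδP : ∀ P ∈ Φ, aeval P.1 δ ≠ 0 := by
    intro P hP
    by_cases hne : P = p₀
    · rw [hne]
      exact hδp
    · exact (hqh P ((hΦ P).1 hP).1 (hqP P hP hne)).1
  -- the points of the variety
  have hQ : ∀ P : Ω × Ω, ∃ R : (GX.Xf f).pt Ω, P ∈ Φ → GX.Co R fun i => evk P (A i) := by
    intro P
    by_cases hP : P ∈ Φ
    · obtain ⟨-, h2, h3⟩ := hch P ((hΦ P).1 hP).1 (hδP P hP)
      exact ⟨Quotient.mk _ ⟨fun i => evk P (A i), h2, h3⟩, fun _ => ⟨_, rfl, rfl⟩⟩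
    · exact ⟨P₀, fun h => absurd h hP⟩
  choose pt hpt using hQ
  have key := GX.pr_f (ρ := 1) (n := n) (D := 2) (x := x) (y := y) (B := C (δ ^ m)) hfA hmc
    (by rw [hx]; exact mvb_ut_x s t w₀) (by rw [hy]; exact mvb_ut_y t₁) (Φ := Φ)
    (fun P hP => ⟨((hΦ P).1 hP).1, (hch P ((hΦ P).1 hP).1 (hδP P hP)).1, by
      rw [evk_Cf, map_pow]
      exact pow_ne_zero _ (hδP P hP)⟩)
    (fun P h1 h2 => (hΦ P).2 ⟨h1, h2⟩) hpt
  have hpΦ : p₀ ∈ Φ := (hΦ p₀).2 ⟨hg0, Or.inl (by rw [hevx, hp1, hp2]; ring)⟩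
  have hptp : pt p₀ = P₀ := by
    obtain ⟨Q, hQ1, hQ2⟩ := hpt p₀ hpΦ
    rw [hQ1, hQ₀]
    refine Quotient.sound ⟨algebraMap k Ω c⁻¹, (_root_.map_ne_zero _).2 (inv_ne_zero hc), ?_⟩
    rw [hQx]
    funext i
    have h1 : Q.x i = algebraMap k Ω (c * x₀ i) := by rw [hQ2]; exact hcA i
    change algebraMap k Ω (x₀ i) = algebraMap k Ω c⁻¹ * Q.x i
    rw [h1, ← map_mul, inv_mul_cancel_left₀ hc]
  have hdY' : ev₂ p₀ (dY (up₂ (algebraMap k Ω) g)) ≠ 0 := by
    rw [dY_up]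
    exact hdY
  have ho1 : odp (up₂ (algebraMap k Ω) g) p₀ (up₂ (algebraMap k Ω) x) = 1 := by
    refine odp_one hg0 hdY' ((hΦ p₀).1 hpΦ |>.2.resolve_right ?_) ?_
    · rw [hevy, hp1, zero_sub]
      exact pow_ne_zero _ (neg_ne_zero.2 ((_root_.map_ne_zero _).2 ht3))
    · have h1 := hst _ (Finset.mem_insert_self _ _)
      rw [hx, mvb_up_x, mvb_dZx, mvb_dYx, mvb_dzx2, mvb_dzx2, dY_up, dZ_up, eval_add, eval_mul,
        eval_X, eval_C, eval_C, hp1]
      intro h2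
      apply h1
      change -evk p₀ (dZ g) * algebraMap k Ω s + evk p₀ (dY g) * algebraMap k Ω t = 0
      rw [evk_eq, evk_eq]
      linear_combination h2
  have ho0 : odp (up₂ (algebraMap k Ω) g) p₀ (up₂ (algebraMap k Ω) y) = 0 := by
    refine odp_zero hg0 hdY' ?_
    change evk p₀ y ≠ 0
    rw [hevy, hp1, zero_sub]
    exact pow_ne_zero _ (neg_ne_zero.2 ((_root_.map_ne_zero _).2 ht3))
  refine ⟨-∑ P ∈ Φ.erase p₀, Finsupp.single (pt P)
    ((odp (up₂ (algebraMap k Ω) g) P (up₂ (algebraMap k Ω) x) : ℤ) -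
      odp (up₂ (algebraMap k Ω) g) P (up₂ (algebraMap k Ω) y)), ?_, ?_⟩
  · rw [sub_neg_eq_add]
    rw [← Finset.add_sum_erase _ _ hpΦ, ho1, ho0, hptp] at key
    simpa using key
  · intro P hP
    rw [Finsupp.support_neg] at hP
    obtain ⟨R, hR, hR2⟩ := Finset.mem_biUnion.1 (Finsupp.support_finset_sum hP)
    have hR3 : P = pt R := Finset.mem_singleton.1 (Finsupp.support_single_subset hR2)
    rw [hR3]
    obtain ⟨hR4, hR5⟩ := Finset.mem_erase.1 hR
    exact hn_of hh (hpt R hR5) (hqh R ((hΦ R).1 hR5).1 (hqP R hR5 hR4)).2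

end DN
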