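import Pool.Agent.Lib.MP_f80667_ag.Sp.NfB

/-! The theorem at a place for all fields with an absolute value of a place of the number field. -/

open ZC BE PE Polynomial IntermediateField IsDedekindDomain NumberField CV NE

namespace ND

variable {F : Type} [Field F] [NumberField F] {K Ω : Type} [Field K] [Field Ω] [Algebra K Ω]
  [Algebra F K] [Algebra F Ω]

/-- The absolute value `L` of `Ω` belongs to the place `w` of the number field `F`; `c` is the value of the uniformizers of `w` and of `K`. -/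
structure Lv (w : HeightOneSpectrum (𝓞 F)) (L : Ld K Ω) (c : ℝ) : Prop where
  c0 : 0 < c
  c1 : c < 1
  nm : ∀ (x : F) (n : ℤ), w.valuation F x = WithZero.exp (-n) → L.nm (algebraMap F Ω x) = c ^ n
  val : ∀ x : K, x ≠ 0 → ∃ n : ℤ, L.nm (algebraMap K Ω x) = c ^ n

variable {w : HeightOneSpectrum (𝓞 F)} {L : Ld K Ω} {c : ℝ}

/-- The valuation and the norm. -/
private theorem nd_le (h : Lv w L c) {x : F} (hx : w.valuation F x ≤ 1) :
    L.nm (algebraMap F Ω x) ≤ 1 := by
  by_cases h0 : x = 0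
  · rw [h0, map_zero, L.zero]
    exact zero_le_one
  · have h2 : w.valuation F x ≠ 0 := (Valuation.ne_zero_iff _).2 h0
    have h3 : w.valuation F x = WithZero.exp (-(-WithZero.log (w.valuation F x))) := by
      rw [neg_neg, WithZero.exp_log h2]
    rw [h.nm x _ h3]
    have h4 : 0 ≤ -WithZero.log (w.valuation F x) := by
      rw [h3, ← WithZero.exp_zero, WithZero.exp_le_exp] at hx
      omega
    obtain ⟨m, hm⟩ := Int.eq_ofNat_of_zero_le h4
    rw [hm, zpow_natCast]
    exact pow_le_one₀ h.c0.le h.c1.le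

/-- The valuation and the norm. -/
private theorem nd_lt (h : Lv w L c) {x : F} (hx : w.valuation F x < 1) :
    L.nm (algebraMap F Ω x) < 1 := by
  by_cases h0 : x = 0
  · rw [h0, map_zero, L.zero]
    exact zero_lt_one
  · have h2 : w.valuation F x ≠ 0 := (Valuation.ne_zero_iff _).2 h0
    have h3 : w.valuation F x = WithZero.exp (-(-WithZero.log (w.valuation F x))) := by
      rw [neg_neg, WithZero.exp_log h2]
    rw [h.nm x _ h3]
    have h4 : 0 < -WithZero.log (w.valuation F x) := by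
      rw [h3, ← WithZero.exp_zero, WithZero.exp_lt_exp] at hx
      omega
    obtain ⟨m, hm⟩ := Int.eq_ofNat_of_zero_le h4.le
    rw [hm] at h4
    rw [hm, zpow_natCast]
    exact pow_lt_one₀ h.c0.le h.c1 (by omega)

/-- The valuation and the norm. -/
private theorem nd_one (h : Lv w L c) {x : F} (hx : w.valuation F x = 1) :
    L.nm (algebraMap F Ω x) = 1 := by
  have h1 := h.nm x 0 (by rw [hx, neg_zero, WithZero.exp_zero])
  rw [h1, zpow_zero]

/-- The discriminant of an integral equation. -/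
private theorem nd_disc {v : HeightOneSpectrum (𝓞 F)} {W : WeierstrassCurve F}
    (hi : v.valuation F W.a₁ ≤ 1 ∧ v.valuation F W.a₂ ≤ 1 ∧ v.valuation F W.a₃ ≤ 1 ∧
      v.valuation F W.a₄ ≤ 1 ∧ v.valuation F W.a₆ ≤ 1) : v.valuation F W.Δ ≤ 1 := by
  obtain ⟨h1, h2, h3, h4, h6⟩ := hi
  have hn : ∀ m : ℕ, (m : F) ∈ (v.valuation F).integer := fun m => natCast_mem _ m
  have m1 : W.a₁ ∈ (v.valuation F).integer := h1
  have m2 : W.a₂ ∈ (v.valuation F).integer := h2
  have m3 : W.a₃ ∈ (v.valuation F).integer := h3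
  have m4 : W.a₄ ∈ (v.valuation F).integer := h4
  have m6 : W.a₆ ∈ (v.valuation F).integer := h6
  have n2 : (2 : F) ∈ (v.valuation F).integer := by exact_mod_cast hn 2
  have n4 : (4 : F) ∈ (v.valuation F).integer := by exact_mod_cast hn 4
  have n8 : (8 : F) ∈ (v.valuation F).integer := by exact_mod_cast hn 8
  have n9 : (9 : F) ∈ (v.valuation F).integer := by exact_mod_cast hn 9
  have n27 : (27 : F) ∈ (v.valuation F).integer := by exact_mod_cast hn 27
  have b2 : W.b₂ ∈ (v.valuation F).integer := add_mem (pow_mem m1 2) (mul_mem n4 m2)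
  have b4 : W.b₄ ∈ (v.valuation F).integer := add_mem (mul_mem n2 m4) (mul_mem m1 m3)
  have b6 : W.b₆ ∈ (v.valuation F).integer := add_mem (pow_mem m3 2) (mul_mem n4 m6)
  have b8 : W.b₈ ∈ (v.valuation F).integer :=
    sub_mem (add_mem (sub_mem (add_mem (mul_mem (pow_mem m1 2) m6)
      (mul_mem (mul_mem n4 m2) m6)) (mul_mem (mul_mem m1 m3) m4)) (mul_mem m2 (pow_mem m3 2)))
      (pow_mem m4 2)
  have hd : W.Δ ∈ (v.valuation F).integer :=
    add_mem (sub_mem (sub_mem (mul_mem (neg_mem (pow_mem b2 2)) b8) (mul_mem n8 (pow_mem b4 3)))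
      (mul_mem n27 (pow_mem b6 2))) (mul_mem (mul_mem (mul_mem n9 b2) b4) b6)
  exact hd

/-- Proof: as `gd_md` (`Sp/Nf.lean`), with `K` instead of `F_v`. -/
theorem gd_md (h : Lv w L c) {W : WeierstrassCurve F}
    (hi : w.valuation F W.a₁ ≤ 1 ∧ w.valuation F W.a₂ ≤ 1 ∧ w.valuation F W.a₃ ≤ 1 ∧
      w.valuation F W.a₄ ≤ 1 ∧ w.valuation F W.a₆ ≤ 1)
    (h' : w.valuation F W.Δ = 1 ∨ w.valuation F W.c₄ = 1) : L.Gd W ∨ L.Md W := by
  have hit : L.It W := ⟨nd_le h hi.1, nd_le h hi.2.1, nd_le h hi.2.2.1, nd_le h hi.2.2.2.1,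
    nd_le h hi.2.2.2.2⟩
  by_cases hΔ : w.valuation F W.Δ = 1
  · exact Or.inl ⟨hit, nd_one h hΔ⟩
  · exact Or.inr ⟨hit, nd_lt h (lt_of_le_of_ne (nd_disc hi) hΔ), nd_one h (h'.resolve_left hΔ)⟩

/-- Proof: as `jc_of` (`Pe/GlE.lean`), with `K` instead of `F_v`. -/
theorem jc_of [IsScalarTower F K Ω] (h : Lv w L c) {l : ℕ} {W : WeierstrassCurve F} [W.IsElliptic]
    (hj : Jv l w W) : L.Jc l W := by
  intro π hπ n hn hln
  have h0 := h.c0
  have h1 := h.c1
  have hinj : Function.Injective (algebraMap F Ω) := (algebraMap F Ω).injective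
  have hΔ0 : L.nm (algebraMap F Ω W.Δ) ≠ 0 := by
    refine (L.pos ?_).ne'
    rw [Ne, map_eq_zero_iff _ hinj]
    exact W.isUnit_Δ.ne_zero
  have hπc : L.nm π = c := by
    obtain ⟨t, ht⟩ := w.valuation_exists_uniformizer F
    have h2 := h.nm t 1 ht
    have ht0 : algebraMap F Ω t ≠ 0 := L.ne_zero (by rw [h2, zpow_one]; exact h0)
    have htm : algebraMap F Ω t ∈ (⊥ : IntermediateField K Ω) :=
      IntermediateField.mem_bot.2 ⟨algebraMap F K t,
        (IsScalarTower.algebraMap_apply F K Ω t).symm⟩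
    obtain ⟨m, hm⟩ := hπ.val _ htm ht0
    obtain ⟨y, hy⟩ := IntermediateField.mem_bot.1 hπ.mem
    have hy0 : y ≠ 0 := by
      rintro rfl
      rw [map_zero] at hy
      have h3 := hπ.pos
      rw [← hy, L.zero] at h3
      exact lt_irrefl _ h3
    obtain ⟨k, hk⟩ := h.val y hy0
    rw [hy] at hk
    have h4 : c ^ (1 : ℤ) = c ^ (k * m) := by rw [← h2, hm, hk, zpow_mul]
    have h5 : (1 : ℤ) = k * m := zpow_right_injective₀ h0 h1.ne h4
    have h6 : 0 < k := by
      have h7 := hπ.lt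
      rw [hk, ← zpow_zero c] at h7
      exact (zpow_lt_zpow_iff_right_of_lt_one₀ h0 h1).1 h7
    have h8 : k = 1 := by
      rcases Int.isUnit_iff.1 (IsUnit.of_mul_eq_one m h5.symm) with h9 | h9
      · exact h9
      · omega
    rw [hk, h8, zpow_one]
  have hj' : W.j * W.Δ = W.c₄ ^ 3 := by
    rw [WeierstrassCurve.j, mul_right_comm, ← W.coe_Δ', Units.inv_mul, one_mul]
  have hc40 : L.nm (algebraMap F Ω W.c₄) ^ 3 ≠ 0 := fun h2 => hΔ0 (by rw [hn, h2, zero_mul])
  have hc4 : W.c₄ ≠ 0 := by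
    intro h2
    apply hc40
    rw [h2, map_zero, L.zero, zero_pow three_ne_zero]
  have hj0 : W.j ≠ 0 := by
    intro h2
    rw [h2, zero_mul] at hj'
    exact pow_ne_zero 3 hc4 hj'.symm
  have hvj : w.valuation F W.j ≠ 0 := (Valuation.ne_zero_iff _).2 hj0
  obtain ⟨m, hm⟩ : ∃ m : ℤ, w.valuation F W.j = WithZero.exp m :=
    ⟨WithZero.log (w.valuation F W.j), (WithZero.exp_log hvj).symm⟩
  have h2 := h.nm W.j (-m) (by rw [neg_neg]; exact hm)
  have h3 := congrArg (fun x => L.nm (algebraMap F Ω x)) hj'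
  simp only [map_mul, map_pow] at h3
  rw [L.mul, h2, L.pow, hn, hπc, mul_left_comm, ← zpow_natCast c n, ← zpow_add₀ h0.ne'] at h3
  have h4 := mul_left_cancel₀ hc40 (h3.trans (mul_one _).symm)
  rw [← zpow_zero c] at h4
  have h5 : -m + n = 0 := zpow_right_injective₀ h0 h1.ne h4
  have h6 : m = n := by omega
  have h7 := hj m hm (by rw [h6]; exact Int.natCast_dvd_natCast.2 hln)
  omega

/-- The condition on the denominator of the `j`-invariant. -/
private theorem nd_jv {n : ℕ} {W : Fin n → WeierstrassCurve F} [∀ i, (W i).IsElliptic] {l : ℕ}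
    (h : Plc W l) (v : HeightOneSpectrum (𝓞 F)) (i : Fin n) : Jv l v (W i) := by
  intro k hk hd
  by_contra hc
  push Not at hc
  obtain ⟨m, rfl⟩ := Int.eq_ofNat_of_zero_le hc.le
  have h1 := h.jv v i m hk (Int.natCast_dvd_natCast.1 hd)
  rw [h1] at hc
  exact absurd hc (lt_irrefl _)

/-- **The places.** Proof: as `dv_ne`, `dv_eq`, `dv_pl` (`Sp/Nf.lean`, `Sp/NfB.lean`, `Sp/Gl.lean`), with `K` instead of `F_v`: if `w(l) = 1` then `l ≠ L.p`: `loc_po` with `po_five` or `po_ss`. Otherwise `w(l) = exp (-1)` (`Plc.unr`), `l = L.p` (`nat_unit`), `L.Unr`: the norms of the elements of `K` are powers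
of `c = nm l`; `loc_ss` for the curves `C i • W i` of `SsV`, `dvG_vc`. -/
theorem dv_lv [IsScalarTower F K Ω] [CharZero K] [IsAlgClosure K Ω] (h : Lv w L c) {n : ℕ}
    {W : Fin n → WeierstrassCurve F} [∀ i, (W i).IsElliptic] {l : ℕ} (hp : Plc W l) :
    DvG (fun i => Ev (W i)) K Ω l := by
  have hle : w.valuation F (l : F) ≤ 1 := by
    have e : (l : F) = algebraMap (𝓞 F) F (l : 𝓞 F) := (map_natCast _ l).symm
    rw [e]
    exact w.valuation_le_one _
  rcases hle.lt_or_eq with h1 | h1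
  · have hnl : L.nm (l : Ω) = c := by
      have h2 := h.nm (l : F) 1 (hp.unr w h1)
      rwa [map_natCast, zpow_one] at h2
    have hlp : l = L.p := by
      by_contra hne
      have h3 : ¬ L.p ∣ l := fun hd => hne ((Nat.prime_dvd_prime_iff_eq L.pp hp.pr).1 hd).symm
      have h4 := L.nat_unit h3
      rw [hnl] at h4
      exact h.c1.ne h4
    have hU : L.Unr := by
      refine ⟨fun x hx => ?_⟩
      obtain ⟨m, hm⟩ := h.val x hx
      exact ⟨m, by rw [hm, ← hlp, hnl]⟩
    choose C hC1 hC2 using hp.ss w (Or.inl h1)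
    refine dvG_vc C ?_
    rw [hlp]
    refine loc_ss L (by rw [← hlp]; exact hp.odd) (fun i => gd_md h (hC1 i) (hC2 i)) fun i => ?_
    rw [← hlp]
    exact jc_of h (jv_vc (C i) (nd_jv hp w i))
  · have hlp : l ≠ L.p := by
      intro h2
      have h3 := nd_one h h1
      rw [map_natCast, h2] at h3
      exact absurd L.lt (not_lt.2 h3.ge)
    refine loc_po L hp.pr (fun i => ?_) hlp fun i => jc_of h (nd_jv hp w i)
    rcases le_or_gt 5 l with h5 | h5
    · exact po_five L (W i) hp.pr h5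
    · have h3 : l = 3 := by
        have h4 : l ≠ 4 := by
          rintro rfl
          exact absurd hp.pr (by norm_num)
        have h6 := hp.pr.two_le
        have h7 := hp.odd
        omega
      obtain ⟨C, hi, h8⟩ := hp.ss w (Or.inr h3) i
      exact po_ss L hp.pr hp.odd (W i) C (gd_md h hi h8)

end ND
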