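import Mathlib

/-! The compositum. -/

open IntermediateField

namespace ND

/-- The compositum `M = K σ(F')`. Proof: the `K`-span of `σ(F')` is a subalgebra (the range of the map `K ⊗ F' → Ω`, `Algebra.TensorProduct.productMap` or `Algebra.TensorProduct.lift`, `Module.finrank_baseChange`), of finite dimension `≤ [F' : F]` and without zero divisors, so a field. -/
theorem exists_comp {F F' K Ω : Type} [Field F] [Field F'] [Algebra F F'] [FiniteDimensional F F']
    [Field K] [Field Ω] [Algebra K Ω] [Algebra F K] [Algebra F Ω] [IsScalarTower F K Ω]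
    (σ : F' →ₐ[F] Ω) : ∃ M : IntermediateField K Ω, FiniteDimensional K M ∧
      Module.finrank K M ≤ Module.finrank F F' ∧ (∀ x, σ x ∈ M) ∧
      ∀ m ∈ M, m ∈ Submodule.span K (Set.range σ) := by
  classical
  let b := Module.finBasis F F'
  have hspan : Submodule.span K (Set.range σ) = Submodule.span K (Set.range fun i => σ (b i)) := by
    apply le_antisymm
    · rw [Submodule.span_le]
      rintro _ ⟨x, rfl⟩
      rw [← b.sum_repr x, map_sum]
      refine Submodule.sum_mem _ fun i _ => ?_
      rw [map_smul, ← algebraMap_smul K (b.repr x i) (σ (b i))]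
      exact Submodule.smul_mem _ _ (Submodule.subset_span ⟨i, rfl⟩)
    · apply Submodule.span_mono
      rintro _ ⟨i, rfl⟩
      exact ⟨b i, rfl⟩
  have halg : ∀ x ∈ Set.range σ, IsAlgebraic K x := by
    rintro _ ⟨x, rfl⟩
    exact ((Algebra.IsAlgebraic.isAlgebraic (R := F) x).algHom σ).tower_top K
  have hsub : (IntermediateField.adjoin K (Set.range σ)).toSubalgebra =
      Algebra.adjoin K (Set.range σ) := IntermediateField.adjoin_toSubalgebra_of_isAlgebraic halg
  have hmod : Subalgebra.toSubmodule (Algebra.adjoin K (Set.range σ)) =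
      Submodule.span K (Set.range σ) := by
    rw [Algebra.adjoin_eq_span]
    have h1 : Submonoid.closure (Set.range σ) = MonoidHom.mrange (σ : F' →* Ω) := by
      rw [← Submonoid.closure_eq (MonoidHom.mrange (σ : F' →* Ω))]
      rfl
    rw [h1]
    rfl
  have hmem : ∀ m, m ∈ IntermediateField.adjoin K (Set.range σ) ↔
      m ∈ Submodule.span K (Set.range σ) := by
    intro m
    rw [← IntermediateField.mem_toSubalgebra, hsub, ← Subalgebra.mem_toSubmodule, hmod]
  have hfd : FiniteDimensional K (Submodule.span K (Set.range fun i => σ (b i))) :=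
    FiniteDimensional.span_of_finite K (Set.finite_range _)
  have e : (IntermediateField.adjoin K (Set.range σ)) ≃ₗ[K]
      (Submodule.span K (Set.range fun i => σ (b i))) :=
    { toFun := fun m => ⟨m.1, by rw [← hspan]; exact (hmem m.1).1 m.2⟩
      invFun := fun m => ⟨m.1, (hmem m.1).2 (by rw [hspan]; exact m.2)⟩
      left_inv := fun m => rfl
      right_inv := fun m => rfl
      map_add' := fun m m' => rfl
      map_smul' := fun k m => rfl }
  refine ⟨IntermediateField.adjoin K (Set.range σ), Module.Finite.equiv e.symm, ?_,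
    fun x => IntermediateField.subset_adjoin K _ ⟨x, rfl⟩, fun m hm => (hmem m).1 hm⟩
  rw [e.finrank_eq]
  refine (finrank_range_le_card (R := K) (fun i => σ (b i))).trans ?_
  rw [Fintype.card_fin]

end ND
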