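import Pool.Agent.Lib.MP_f80667_ag.Pe.Ld

/-! The place of a number field for an embedding. -/

open ZC BE PE Polynomial IntermediateField IsDedekindDomain NumberField

namespace ND

private theorem nw_le {F : Type} [Field F] [NumberField F] {K Ω : Type} [Field K] [Field Ω]
    [Algebra K Ω] (L : Ld K Ω) (σ : F →+* Ω) (x : 𝓞 F) :
    L.nm (σ (algebraMap (𝓞 F) F x)) ≤ 1 := by
  have h1 : IsIntegral ℤ (algebraMap (𝓞 F) F x) := x.2
  have h2 : IsIntegral ℤ (σ (algebraMap (𝓞 F) F x)) := h1.map σ.toIntAlgHom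
  have h3 : IsIntegral L.V (σ (algebraMap (𝓞 F) F x)) := h2.tower_top
  obtain ⟨y, hy⟩ := IsIntegrallyClosed.isIntegral_iff.1 h3
  rw [← hy]
  exact y.2

/-- The place. Proof: `nm (σ x) ≤ 1` for `x` in `𝓞 F` (an equation of integral dependence), `w = {x | nm (σ x) < 1}` is a prime ideal of `𝓞 F`, it contains `L.p`. If `w(x) ≤ 1` then `x = a / b` with `b` not in `w`, so `nm (σ x) ≤ 1`; `nm (σ u) = 1` if `w(u) = 1`; `c = nm (σ t)` for `w(t) = exp (-1)` (`HeightOneSpectrum.valuation_exists_uniformizer`), `t = a / b`, `a` in `w`: `c < 1`. -/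
theorem exists_w {F : Type} [Field F] [NumberField F] {K Ω : Type} [Field K] [CharZero K] [Field Ω]
    [Algebra K Ω] (L : Ld K Ω) (σ : F →+* Ω) : ∃ (w : HeightOneSpectrum (𝓞 F)) (c : ℝ), 0 < c ∧ c < 1 ∧
      ∀ (x : F) (n : ℤ), w.valuation F x = WithZero.exp (-n) → L.nm (σ x) = c ^ n := by
  have hσ : ∀ x : F, x ≠ 0 → σ x ≠ 0 := fun x hx => (map_ne_zero σ).2 hx
  set I : Ideal (𝓞 F) :=
    { carrier := {x | L.nm (σ (algebraMap (𝓞 F) F x)) < 1}
      add_mem' := by
        intro a b ha hb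
        simp only [Set.mem_ofPred_eq] at ha hb ⊢
        rw [map_add, map_add]
        exact (L.add _ _).trans_lt (max_lt ha hb)
      zero_mem' := by
        simp only [Set.mem_ofPred_eq]
        rw [map_zero, map_zero, L.zero]
        exact zero_lt_one
      smul_mem' := by
        intro a b hb
        simp only [Set.mem_ofPred_eq] at hb ⊢
        rw [smul_eq_mul, map_mul, map_mul, L.mul]
        exact mul_lt_one_of_nonneg_of_lt_one_right (nw_le L σ a) (L.nonneg _) hb } with hI
  have hmem : ∀ x : 𝓞 F, x ∈ I ↔ L.nm (σ (algebraMap (𝓞 F) F x)) < 1 := fun x => Iff.rfl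
  have hnot : ∀ x : 𝓞 F, x ∉ I → L.nm (σ (algebraMap (𝓞 F) F x)) = 1 := fun x hx =>
    le_antisymm (nw_le L σ x) (not_lt.1 fun h => hx ((hmem x).2 h))
  have hprime : I.IsPrime := by
    refine ⟨fun h => ?_, fun {a b} hab => ?_⟩
    · have h1 : (1 : 𝓞 F) ∈ I := by
        rw [h]
        trivial
      rw [hmem, map_one, map_one, L.one] at h1
      exact lt_irrefl _ h1
    · by_contra hcon
      push Not at hcon
      have h1 := hnot a hcon.1
      have h2 := hnot b hcon.2
      rw [hmem, map_mul, map_mul, L.mul, h1, h2, mul_one] at hab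
      exact lt_irrefl _ hab
  have hbot : I ≠ ⊥ := by
    intro h
    have h1 : ((L.p : ℕ) : 𝓞 F) ∈ I := by
      rw [hmem, map_natCast, map_natCast]
      exact L.lt
    rw [h, Ideal.mem_bot] at h1
    exact L.pp.ne_zero (by exact_mod_cast h1)
  set w : HeightOneSpectrum (𝓞 F) := ⟨I, hprime, hbot⟩ with hw
  have hwI : w.asIdeal = I := rfl
  have hle : ∀ x : F, w.valuation F x ≤ 1 → L.nm (σ x) ≤ 1 := by
    intro x hx
    obtain ⟨n, ⟨d, hd⟩, h1⟩ := w.exists_primeCompl_mul_eq_of_integer x hx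
    have h2 : L.nm (σ (algebraMap (𝓞 F) F d)) = 1 := hnot d hd
    have h3 := congrArg (fun z => L.nm (σ z)) h1
    simp only [map_mul, L.mul] at h3
    rw [h2, mul_one] at h3
    rw [h3]
    exact nw_le L σ n
  have hone : ∀ x : F, w.valuation F x = 1 → L.nm (σ x) = 1 := by
    intro x hx
    have h1 := hle x hx.le
    have h2 := hle x⁻¹ (by rw [map_inv₀, hx, inv_one])
    rw [map_inv₀, L.inv] at h2
    have hx0 : x ≠ 0 := by
      rintro rfl
      rw [map_zero] at hx
      exact zero_ne_one hx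
    have h3 : 0 < L.nm (σ x) := L.pos (hσ x hx0)
    refine le_antisymm h1 ?_
    by_contra h4
    push Not at h4
    have h5 := (one_lt_inv₀ h3).2 h4
    linarith
  obtain ⟨u, hu⟩ := w.valuation_exists_uniformizer' F
  set t : F := algebraMap (𝓞 F) F u with ht
  have hu' : w.valuation F t = WithZero.exp (-1 : ℤ) := hu
  have ht0 : t ≠ 0 := by
    intro h
    rw [h, map_zero] at hu'
    exact WithZero.exp_ne_zero hu'.symm
  have ht1 : L.nm (σ t) < 1 := by
    have h1 : u ∈ w.asIdeal := by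
      rw [← w.valuation_lt_one_iff_mem (K := F)]
      change w.valuation F t < 1
      rw [hu']
      rw [← WithZero.exp_zero]
      exact WithZero.exp_lt_exp.2 (by norm_num)
    exact (hmem u).1 h1
  refine ⟨w, L.nm (σ t), L.pos (hσ t ht0), ht1, fun x n hx => ?_⟩
  have h1 : w.valuation F (x * t ^ (-n)) = 1 := by
    rw [map_mul, map_zpow₀, hx, hu', ← WithZero.exp_zsmul, ← WithZero.exp_add]
    simp
  have h2 := hone _ h1
  rw [map_mul, map_zpow₀, L.mul, L.zpow, zpow_neg] at h2
  have h3 : L.nm (σ t) ^ n ≠ 0 := zpow_ne_zero _ (L.pos (hσ t ht0)).ne'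
  field_simp at h2
  exact h2

end ND
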