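import Pool.Agent.Lib.MP_f80667_ag.Do.NdA
import Pool.Agent.Lib.MP_f80667_ag.Do.NdB
import Pool.Agent.Lib.MP_f80667_ag.Do.NdC
import Pool.Agent.Lib.MP_f80667_ag.Do.NdD

/-! Curves over an extension of the number field. -/

open ZC BE PE Polynomial IntermediateField IsDedekindDomain NumberField CV NE

namespace ND

variable {F F' : Type} [Field F] [NumberField F] [Field F'] [NumberField F'] [Algebra F F']

/-- The elements of `M` are limits of elements of `σ(F')`. Proof: `m = Σ k_i σ(x_i)` (`Submodule.span`, induction), `k_i` is approximated by `f_i` in `F`, `σ` is `F`-linear. -/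
theorem exists_apx {v : HeightOneSpectrum (𝓞 F)}
    {L : Ld (FK F v) (AlgebraicClosure (FK F v))}
    (hd : ∀ (x : FK F v) (ε : ℝ), 0 < ε → ∃ y : F,
      L.nm (algebraMap (FK F v) (AlgebraicClosure (FK F v)) x -
        algebraMap F (AlgebraicClosure (FK F v)) y) < ε)
    (σ : F' →ₐ[F] AlgebraicClosure (FK F v)) {m : AlgebraicClosure (FK F v)}
    (hm : m ∈ Submodule.span (FK F v) (Set.range σ)) {ε : ℝ} (hε : 0 < ε) :
    ∃ y : F', L.nm (m - σ y) < ε := by
  induction hm using Submodule.span_induction generalizing ε with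
  | mem x hx =>
    obtain ⟨y, rfl⟩ := hx
    refine ⟨y, ?_⟩
    rw [sub_self, L.zero]
    exact hε
  | zero =>
    refine ⟨0, ?_⟩
    rw [map_zero, sub_zero, L.zero]
    exact hε
  | add x x' _ _ ih ih' =>
    obtain ⟨y, hy⟩ := ih hε
    obtain ⟨y', hy'⟩ := ih' hε
    refine ⟨y + y', ?_⟩
    have e : x + x' - σ (y + y') = (x - σ y) + (x' - σ y') := by
      rw [map_add]
      ring
    rw [e]
    exact (L.add _ _).trans_lt (max_lt hy hy')
  | smul k x _ ih =>
    have hk0 : 0 ≤ L.nm (algebraMap (FK F v) (AlgebraicClosure (FK F v)) k) := L.nonneg _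
    obtain ⟨y, hy⟩ := ih (div_pos hε (by linarith : 0 <
      L.nm (algebraMap (FK F v) (AlgebraicClosure (FK F v)) k) + 1))
    have hy0 : 0 ≤ L.nm (σ y) := L.nonneg _
    obtain ⟨f, hf⟩ := hd k (ε / (L.nm (σ y) + 1)) (div_pos hε (by linarith))
    refine ⟨f • y, ?_⟩
    have e : k • x - σ (f • y) =
        algebraMap (FK F v) (AlgebraicClosure (FK F v)) k * (x - σ y) +
        (algebraMap (FK F v) (AlgebraicClosure (FK F v)) k -
          algebraMap F (AlgebraicClosure (FK F v)) f) * σ y := by
      rw [Algebra.smul_def, Algebra.smul_def, map_mul, AlgHom.commutes]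
      ring
    rw [e]
    refine (L.add _ _).trans_lt (max_lt ?_ ?_)
    · rw [L.mul]
      rw [lt_div_iff₀ (by linarith)] at hy
      have h1 : 0 ≤ L.nm (x - σ y) := L.nonneg _
      nlinarith
    · rw [L.mul]
      rw [lt_div_iff₀ (by linarith)] at hf
      have h1 : 0 ≤ L.nm (algebraMap (FK F v) (AlgebraicClosure (FK F v)) k -
          algebraMap F (AlgebraicClosure (FK F v)) f) := L.nonneg _
      nlinarith

/-- **The theorem at the places of `F` for curves over `F'`.** Proof: `σ : F' → Ω` over `F` (`IsAlgClosed.lift`), `M` of `exists_comp`, the algebra structures of `σ`; `exists_ldD`, `L'` on `M` by `exists_bsL`, `exists_w` for `L'`; `Lv`: if `x` in `M` is not `0` there is `y` in `F'` with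
`nm (x - σ y) < nm x` (`exists_apx`), so `nm x = nm (σ y)` is a power of `c`; `dv_lv`. -/
theorem exists_dv (v : HeightOneSpectrum (𝓞 F)) {n : ℕ} {W : Fin n → WeierstrassCurve F'}
    [∀ i, (W i).IsElliptic] {l : ℕ} (hp : Plc W l) :
    ∃ (M : IntermediateField (FK F v) (AlgebraicClosure (FK F v))) (_ : Algebra F' M)
      (_ : Algebra F' (AlgebraicClosure (FK F v)))
      (_ : IsScalarTower F' M (AlgebraicClosure (FK F v))),
      FiniteDimensional (FK F v) M ∧ Module.finrank (FK F v) M ≤ Module.finrank F F' ∧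
      IsScalarTower F F' M ∧ IsScalarTower F F' (AlgebraicClosure (FK F v)) ∧
      DvG (fun i => Ev (W i)) M (AlgebraicClosure (FK F v)) l := by
  have hfin : FiniteDimensional F F' := by
    have : IsScalarTower ℚ F F' := inferInstance
    exact Module.Finite.right ℚ F F'
  have hF0 : CharZero (FK F v) :=
    charZero_of_injective_algebraMap (algebraMap F (FK F v)).injective
  obtain ⟨L, c₀, -, -, -, -, hd⟩ := exists_ldD v
  let σ : F' →ₐ[F] AlgebraicClosure (FK F v) := IsAlgClosed.lift
  obtain ⟨M, hM, hle, hσM, hspan⟩ := exists_comp (K := FK F v) σ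
  obtain ⟨L', -, hL'⟩ := L.exists_bsL M
  have hM0 : CharZero M := charZero_of_injective_algebraMap (algebraMap (FK F v) M).injective
  obtain ⟨w, c, hc0, hc1, hw⟩ := exists_w L' (σ : F' →+* AlgebraicClosure (FK F v))
  let τ : F' →+* M := (σ : F' →+* AlgebraicClosure (FK F v)).codRestrict M hσM
  let iM : Algebra F' M := τ.toAlgebra
  let iΩ : Algebra F' (AlgebraicClosure (FK F v)) :=
    (σ : F' →+* AlgebraicClosure (FK F v)).toAlgebra
  have hΩ : ∀ x : F', algebraMap F' (AlgebraicClosure (FK F v)) x = σ x := fun _ => rfl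
  have t1 : IsScalarTower F' M (AlgebraicClosure (FK F v)) :=
    IsScalarTower.of_algebraMap_eq fun _ => rfl
  have t2 : IsScalarTower F F' (AlgebraicClosure (FK F v)) :=
    IsScalarTower.of_algebraMap_eq fun x => (σ.commutes x).symm
  have t3 : IsScalarTower F F' M := by
    refine IsScalarTower.of_algebraMap_eq fun x => ?_
    apply Subtype.ext
    exact (σ.commutes x).symm
  refine ⟨M, iM, iΩ, t1, hM, hle, t3, t2, ?_⟩
  have hac : IsAlgClosure M (AlgebraicClosure (FK F v)) :=
    ⟨inferInstance, inferInstance⟩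
  refine dv_lv (w := w) (L := L') (c := c) ⟨hc0, hc1, fun x n hx => hw x n hx, ?_⟩ hp
  intro x hx
  have hx0 : (algebraMap M (AlgebraicClosure (FK F v)) x) ≠ 0 := by
    rw [ne_eq, map_eq_zero]
    exact hx
  have hpos : 0 < L.nm (algebraMap M (AlgebraicClosure (FK F v)) x) := L.pos hx0
  obtain ⟨y, hy⟩ := exists_apx hd σ (hspan _ x.2) hpos
  have e1 : L.nm (σ y) = L.nm (algebraMap M (AlgebraicClosure (FK F v)) x) := by
    have hy' : L.nm (algebraMap M (AlgebraicClosure (FK F v)) x - σ y) <
      L.nm (algebraMap M (AlgebraicClosure (FK F v)) x) := hy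
    refine le_antisymm ?_ ?_
    · have e : σ y = algebraMap M (AlgebraicClosure (FK F v)) x -
          (algebraMap M (AlgebraicClosure (FK F v)) x - σ y) := by ring
      rw [e]
      exact (L.sub _ _).trans (max_le le_rfl hy'.le)
    · by_contra hcon
      push Not at hcon
      have e : algebraMap M (AlgebraicClosure (FK F v)) x =
          (algebraMap M (AlgebraicClosure (FK F v)) x - σ y) + σ y := by ring
      have h2 := L.add (algebraMap M (AlgebraicClosure (FK F v)) x - σ y) (σ y)
      rw [← e] at h2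
      exact absurd (max_lt hy' hcon) (not_lt.2 h2)
  have hy0 : y ≠ 0 := by
    rintro rfl
    rw [map_zero, L.zero] at e1
    exact hpos.ne e1
  have hv0 : w.valuation F' y ≠ 0 := (Valuation.ne_zero_iff _).2 hy0
  refine ⟨-WithZero.log (w.valuation F' y), ?_⟩
  have h3 := hw y (-WithZero.log (w.valuation F' y)) (by rw [neg_neg, WithZero.exp_log hv0])
  rw [← h3, hL', hL']
  exact e1.symm

end ND
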