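import Pool.Agent.Lib.MP_f80667_ag.Do.NdE
import Pool.Agent.Lib.MP_f80667_ag.Km.Lo
import Pool.Agent.Lib.MP_f80667_ag.Pe.Kg
import Pool.Agent.Lib.MP_f80667_ag.Kf.Dtg

/-! From the local theorem to the number field. -/

open ZC BE PE Polynomial IntermediateField IsDedekindDomain NumberField CV NE KM

namespace ND

/-- From prime numbers to numbers with all prime factors in `P`. -/
theorem dm_of {F : Type} [Field F] {K Ω : Type} [Field K] [Field Ω] [Algebra K Ω] [Algebra F K]
    [Algebra F Ω] [IsScalarTower F K Ω] {V : Vr F} {P : Set ℕ}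
    (h : ∀ l ∈ P, l.Prime → Dm V K Ω l) (m : ℕ) (hm : m ≠ 0) (hS : Sf P m) : Dm V K Ω m := by
  induction m using induction_on_primes with
  | zero => exact absurd rfl hm
  | one =>
    intro z hz
    refine ⟨z, hz, ?_⟩
    rw [one_nsmul, sub_self]
    exact AddSubgroup.zero_mem _
  | prime_mul l k hl ih =>
    have ihk := ih (right_ne_zero_of_mul hm) fun q hq hqk => hS q hq (hqk.mul_left l)
    intro z hz
    obtain ⟨z', hz', e'⟩ := h l (hS l hl (dvd_mul_right l k)) hl z hz
    obtain ⟨z'', hz'', e''⟩ := ihk z' hz'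
    refine ⟨z'', hz'', ?_⟩
    have e : z - (l * k) • z'' = (z - l • z') + l • (z' - k • z'') := by
      rw [smul_sub, smul_smul]
      abel
    rw [e]
    exact AddSubgroup.add_mem _ e' (AddSubgroup.nsmul_mem _ e'' l)

variable {F : Type} [Field F] [NumberField F]

/-- **Q1 at the prime numbers in `P`** if the groups of zero-cycles of degree `0` at all finite places are divisible by them. -/
theorem qp_of {V : Vr F} {P : Set ℕ} (h2 : 2 ∉ P)
    (h : ∀ l ∈ P, l.Prime → ∀ v : HeightOneSpectrum (𝓞 F),
      Dm V (FK F v) (AlgebraicClosure (FK F v)) l) : QP V P := by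
  have key : ∀ m : ℕ, m ≠ 0 → Sf P m → ∀ c : Fam V, ∃ c' : Fam V, c.cl = m • c'.cl := by
    intro m hm hS
    have h3 : Odd m := by
      rw [← Nat.not_even_iff_odd, even_iff_two_dvd]
      exact fun h' => h2 (hS 2 Nat.prime_two h')
    exact fam_m h3 fun v => dm_cl (dm_of (fun l hl hp => h l hl hp v) m hm hS)
  exact ⟨key, im_m key⟩

/-- **Extensions.** The local theorem over the extensions `M` of `F_v` of degree at most `[F' : F]` which contain `F'`. -/
theorem qp_ext {F' : Type} [Field F'] [NumberField F'] [Algebra F F'] {V : Vr F} (hV : Fct V)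
    {n : ℕ} {W : Fin n → WeierstrassCurve F'} [∀ i, (W i).IsElliptic] {P : Set ℕ}
    (hP : ∀ l ∈ P, l.Prime → Plc W l ∧ Module.finrank F F' < l)
    (h : ∀ l ∈ P, l.Prime → ∀ (v : HeightOneSpectrum (𝓞 F))
      (M : IntermediateField (FK F v) (AlgebraicClosure (FK F v))) [Algebra F' M]
      [Algebra F' (AlgebraicClosure (FK F v))] [IsScalarTower F' M (AlgebraicClosure (FK F v))]
      [FiniteDimensional (FK F v) M] [IsScalarTower F F' M]
      [IsScalarTower F F' (AlgebraicClosure (FK F v))] [IsScalarTower F M (AlgebraicClosure (FK F v))],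
      DvG (fun i => Ev (W i)) M (AlgebraicClosure (FK F v)) l →
      Dm V M (AlgebraicClosure (FK F v)) l) : QP V P := by
  refine qp_of (fun h2 => (hP 2 h2 Nat.prime_two).1.odd rfl) fun l hl hp v => ?_
  have hc : CharZero (FK F v) := charZero_of_injective_algebraMap (algebraMap F (FK F v)).injective
  obtain ⟨M, i1, i2, i3, h1, h2, h3, h4, h5⟩ := exists_dv (F := F) v (hP l hl hp).1
  have hst : IsScalarTower F M (AlgebraicClosure (FK F v)) :=
    IsScalarTower.of_algebraMap_eq fun _ => rfl
  have hcop : (Module.finrank (FK F v) M).Coprime l := by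
    refine Nat.Coprime.symm ((Nat.Prime.coprime_iff_not_dvd hp).2 fun h' => ?_)
    have h6 := Nat.le_of_dvd Module.finrank_pos h'
    have h7 := (hP l hl hp).2
    omega
  exact dm_tr hV M hcop (h l hl hp v M h5)

end ND
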