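import Pool.Agent.Lib.MP_f80667_ag.De.Def
import Pool.Agent.Lib.MP_f80667_ag.Cv.Hat

/-!
The statement for a variety with morphisms to elliptic curves in terms of cycles.

* `Psf φ c c'`: the family `c'` is the push-forward of the family `c`. `IsPm φ z z'`: `z'` is the push-forward of `z`.
* `QsR s P`: the statement.
-/

open ZC BE PE CV IsDedekindDomain NumberField

namespace DN

variable {F : Type} [Field F] [NumberField F] {V V' : Vr F}

/-- The family `c'` of zero-cycles on `V'` is the push-forward of the family `c` by the morphism `φ`. -/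
def Psf (φ : Mo V V') (c : Fam V) (c' : Fam V') : Prop :=
  (∀ v, (c'.f v).cy = Finsupp.mapDomain (φ.f _) (c.f v).cy) ∧
    ∀ v, (c'.i v).cy = Finsupp.mapDomain (φ.f _) (c.i v).cy

/-- `z'` is the push-forward of `z`. -/
def IsPm (φ : Mo V V') (z : LHat (FA V)) (z' : LHat (FA V')) : Prop :=
  ∀ (m : ℕ+) (c : Fam V) (c' : Fam V'), Psf φ c c' → z.Rep m c.cl → z'.Rep m c'.cl

/-- The statement for the variety `V` with the morphisms `s i` to the curves `W i` and the prime numbers in `P`: for all `m ≠ 0` with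
all prime factors in `P` the class of a family is divisible by `m` if the classes of its push-forwards by the `s i` are; the components
at the prime numbers in `P` of an element `z` of the completion of `F^1_A(V)` are in the image of `Δ` if and only if this
holds for the push-forwards of `z` by the `s i`. -/
def QsR {n : ℕ} {W : Fin n → WeierstrassCurve F} (s : ∀ i, Mo V (Ev (W i))) (P : Set ℕ) : Prop :=
  (∀ m : ℕ, m ≠ 0 → Sf P m → ∀ c : Fam V,
    (∀ i, ∃ c' c'' : Fam (Ev (W i)), Psf (s i) c c' ∧ c'.cl = m • c''.cl) →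
      ∃ c₁ : Fam V, c.cl = m • c₁.cl) ∧
    ∀ (z : LHat (FA V)) (z' : ∀ i, LHat (FA (Ev (W i)))),
      (∀ i, IsPm (s i) z (z' i)) → (ImDeS P z ↔ ∀ i, ImDeS P (z' i))

theorem psf_iff {φ : Mo V V'} {c : Fam V} {c' : Fam V'} : Psf φ c c' ↔ c' = φ.ad c := by
  constructor
  · rintro ⟨h1, h2⟩
    exact Prod.ext (funext fun v => Subtype.ext (h1 v)) (funext fun v => Subtype.ext (h2 v))
  · rintro rfl
    exact ⟨fun _ => rfl, fun _ => rfl⟩

theorem isPm_iff {φ : Mo V V'} {z : LHat (FA V)} {z' : LHat (FA V')} :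
    IsPm φ z z' ↔ z' = LHat.map φ.fa z := by
  have key : ∀ m : ℕ+, ∃ c : Fam V, z.Rep m c.cl := by
    intro m
    obtain ⟨x, hx⟩ := z.exists_rep m
    obtain ⟨c, rfl⟩ := clA_surj x
    exact ⟨c, hx⟩
  constructor
  · intro h
    refine Subtype.ext (funext fun m => ?_)
    obtain ⟨c, hc⟩ := key m
    have h1 := h m c (φ.ad c) (psf_iff.2 rfl) hc
    have h2 := hc.map φ.fa
    exact h1.trans h2.symm
  · rintro rfl m c c' h hc
    rw [psf_iff] at h
    subst h
    exact hc.map φ.fa

theorem qsR_of {n : ℕ} {W : Fin n → WeierstrassCurve F} {s : ∀ i, Mo V (Ev (W i))} {P : Set ℕ}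
    (h : DN.Q.QsP s P) : QsR s P := by
  obtain ⟨h1, h2⟩ := h
  refine ⟨fun m hm hS c hc => ?_, fun z z' hz => ?_⟩
  · obtain ⟨y, hy⟩ := h1 m hm hS c.cl fun i => by
      obtain ⟨c', c'', hp, he⟩ := hc i
      rw [psf_iff] at hp
      subst hp
      exact ⟨c''.cl, he⟩
    obtain ⟨c₁, rfl⟩ := clA_surj y
    exact ⟨c₁, hy⟩
  · rw [h2 z]
    refine forall_congr' fun i => ?_
    rw [isPm_iff.1 (hz i)]

end DN
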