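import Pool.Agent.Lib.MP_f80667_ag.Gx.PjP
import Pool.Agent.Lib.MP_f80667_ag.Do.Def

/-! The image of the hypersurface `h = 0` under a projection. -/

open MvPolynomial

namespace DN

variable {F : Type} [Field F] {N d : ℕ} {ι : Type} {f : ι → MvPolynomial (Fin N) F}

private theorem rl_smul {L : Type} [Field L] [Algebra F L] {M : ℕ} {p : MvPolynomial (Fin M) F}
    {e : ℕ} (hF : p.IsHomogeneous e) (x : Fin M → L) (t : L) :
    aeval (fun i => t * x i) p = t ^ e * aeval x p := by
  rw [aeval_def, aeval_def, eval₂_eq, eval₂_eq, Finset.mul_sum]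
  refine Finset.sum_congr rfl fun m hm => ?_
  have h1 : m.degree = e := by
    by_contra h
    exact mem_support_iff.1 hm (hF.coeff_eq_zero h)
  have h3 : ∏ i ∈ m.support, (t * x i) ^ m i = t ^ e * ∏ i ∈ m.support, x i ^ m i := by
    rw [← h1, Finsupp.degree_apply, ← Finset.prod_pow_eq_pow_sum, ← Finset.prod_mul_distrib]
    exact Finset.prod_congr rfl fun i _ => mul_pow _ _ _
  rw [h3]
  ring

/-- The value of the composition. -/
private theorem rl_cu {L : Type} [Field L] [Algebra F L] (ψ : GX.Prj F N d) (x : Fin N → L)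
    (p : MvPolynomial (Fin (d + 1)) F) : aeval x (GX.cu ψ.u p) = aeval (ψ.uv x) p := by
  have h : (aeval x).comp (GX.cu ψ.u) = aeval (ψ.uv x) := by
    apply MvPolynomial.algHom_ext
    intro r
    rw [AlgHom.comp_apply, GX.cu, aeval_X, aeval_X, GX.lf, map_sum]
    refine Finset.sum_congr rfl fun j _ => ?_
    rw [map_mul, aeval_X]
    congr 1
    exact MvPolynomial.aeval_C x _
  exact DFunLike.congr_fun h p

/-- In the quotient. -/
private theorem rl_alg (hf : GX.Nsg f d) {ψ : GX.Prj F N d} (hψ : ψ.Ok f)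
    (hD : ψ.cp (Polynomial.C ψ.D) ∉ Ideal.span (Set.range f)) {h : MvPolynomial (Fin N) F}
    (hn : h ∉ Ideal.span (Set.range f)) :
    ∃ (p : MvPolynomial (Fin (d + 1)) F) (T : MvPolynomial (Fin N) F), p ≠ 0 ∧
      GX.cu ψ.u p - h * T ∈ Ideal.span (Set.range f) := by
  classical
  have hpr := hf.prime
  have hdim := hf.dim
  obtain ⟨s1, honG⟩ := hψ.onG
  obtain ⟨s2, honA⟩ := hψ.onA
  obtain ⟨I, hI⟩ : ∃ I : Ideal (MvPolynomial (Fin N) F), I = Ideal.span (Set.range f) := ⟨_, rfl⟩
  rw [← hI] at hD hpr hdim hn ⊢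
  simp only [← hI] at honG honA
  have : I.IsPrime := hpr
  have : IsDomain (MvPolynomial (Fin N) F ⧸ I) := Ideal.Quotient.isDomain I
  obtain ⟨x, hx⟩ : ∃ x : Fin (d + 1) → (MvPolynomial (Fin N) F ⧸ I),
      x = fun r => Ideal.Quotient.mk I (GX.lf (ψ.u r)) := ⟨_, rfl⟩
  have hcu : ∀ p : MvPolynomial (Fin (d + 1)) F,
      Ideal.Quotient.mk I (GX.cu ψ.u p) = aeval x p := by
    intro p
    have h : (Ideal.Quotient.mkₐ F I).comp (GX.cu ψ.u) = aeval x := by
      apply MvPolynomial.algHom_ext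
      intro r
      rw [AlgHom.comp_apply, GX.cu, aeval_X, aeval_X, hx]
      rfl
    exact DFunLike.congr_fun h p
  have hcD : ψ.cp (Polynomial.C ψ.D) = GX.cu ψ.u ψ.D := by
    rw [GX.Prj.cp, GX.pe, Polynomial.coe_eval₂RingHom, Polynomial.eval₂_C]
    rfl
  -- some coordinate is not zero
  obtain ⟨k, hk⟩ : ∃ k : Fin N, (X k : MvPolynomial (Fin N) F) ∉ I := by
    by_contra hcon
    push Not at hcon
    apply hD
    rw [← Ideal.Quotient.eq_zero_iff_mem, hcD, hcu]
    have hx0 : x = 0 := by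
      rw [hx]
      funext r
      rw [GX.lf, map_sum]
      refine Finset.sum_eq_zero fun j _ => ?_
      rw [map_mul, Ideal.Quotient.eq_zero_iff_mem.2 (hcon j), mul_zero]
    obtain ⟨e, he, hh⟩ := hψ.homD
    have hc : coeff 0 ψ.D = 0 := by
      refine hh.coeff_eq_zero ?_
      have h0 : (0 : Fin (d + 1) →₀ ℕ).degree = 0 := by simp
      rw [h0]
      exact Ne.symm he
    rw [hx0, aeval_zero, constantCoeff_eq, hc, map_zero]
  have hG : ψ.cp ψ.G ∈ I := by
    rcases hpr.mem_or_mem (honG k) with h | h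
    · exact absurd (hpr.mem_of_pow_mem _ h) hk
    · exact h
  have hA : ∀ j, ψ.cp (ψ.A j) - ψ.cp (Polynomial.C ψ.D) * X j ∈ I := by
    intro j
    rcases hpr.mem_or_mem (honA k j) with h | h
    · exact absurd (hpr.mem_of_pow_mem _ h) hk
    · exact h
  obtain ⟨S, hS⟩ : ∃ S : Subalgebra F (MvPolynomial (Fin N) F ⧸ I),
      S = Algebra.adjoin F (Set.range x) := ⟨_, rfl⟩
  have hmemS : ∀ p : MvPolynomial (Fin (d + 1)) F, aeval x p ∈ S := by
    intro p
    rw [hS, Algebra.adjoin_range_eq_range_aeval]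
    exact ⟨p, rfl⟩
  obtain ⟨y, hy⟩ : ∃ y, y = Ideal.Quotient.mk I (GX.lf ψ.y) := ⟨_, rfl⟩
  obtain ⟨φ, hφ⟩ : ∃ φ : MvPolynomial (Fin (d + 1)) F →+* S,
      ∀ p, ((φ p : S) : MvPolynomial (Fin N) F ⧸ I) = aeval x p :=
    ⟨(aeval x : MvPolynomial (Fin (d + 1)) F →ₐ[F] _).toRingHom.codRestrict S
      (fun p => hmemS p), fun p => rfl⟩
  have hpe : ∀ P : Polynomial (MvPolynomial (Fin (d + 1)) F),
      Ideal.Quotient.mk I (ψ.cp P) = Polynomial.aeval y (P.map φ) := by
    intro P
    rw [GX.Prj.cp, GX.pe, Polynomial.coe_eval₂RingHom, Polynomial.hom_eval₂, Polynomial.aeval_def,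
      Polynomial.eval₂_map, ← hy]
    congr 1
    apply RingHom.ext
    intro p
    change Ideal.Quotient.mk I (GX.cu ψ.u p) = ((φ p : S) : MvPolynomial (Fin N) F ⧸ I)
    rw [hcu, hφ]
  have hyi : IsIntegral S y := by
    refine ⟨ψ.G.map φ, hψ.mon.map φ, ?_⟩
    rw [← Polynomial.aeval_def, ← hpe]
    exact Ideal.Quotient.eq_zero_iff_mem.2 hG
  have hya : ∀ P : Polynomial S, IsAlgebraic S (Polynomial.aeval y P) := by
    intro P
    exact Algebra.isAlgebraic_adjoin_singleton_iff.mpr hyi.isAlgebraic _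
      (Polynomial.aeval_mem_adjoin_singleton _ _)
  have hXa : ∀ j, IsAlgebraic S (Ideal.Quotient.mk I (X j)) := by
    intro j
    have h1 : Ideal.Quotient.mk I (ψ.cp (Polynomial.C ψ.D)) * Ideal.Quotient.mk I (X j) =
        Polynomial.aeval y ((ψ.A j).map φ) := by
      rw [← hpe, ← map_mul]
      exact (Ideal.Quotient.eq.2 (hA j)).symm
    refine IsAlgebraic.of_mul (y := Ideal.Quotient.mk I (ψ.cp (Polynomial.C ψ.D)))
      (mem_nonZeroDivisors_of_ne_zero fun h0 => hD (Ideal.Quotient.eq_zero_iff_mem.1 h0)) ?_ ?_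
    · rw [hpe]
      exact hya _
    · rw [h1]
      exact hya _
  have halg : Algebra.IsAlgebraic S (MvPolynomial (Fin N) F ⧸ I) := by
    refine ⟨fun a => ?_⟩
    obtain ⟨p, rfl⟩ := Ideal.Quotient.mk_surjective a
    induction p using MvPolynomial.induction_on with
    | C c =>
      have h1 : Ideal.Quotient.mk I (C c) =
          algebraMap S (MvPolynomial (Fin N) F ⧸ I) (algebraMap F S c) := by
        rw [← IsScalarTower.algebraMap_apply]
        rfl
      rw [h1]
      exact isAlgebraic_algebraMap _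
    | add p q hp hq =>
      rw [map_add]
      exact hp.add hq
    | mul_X p j hp =>
      rw [map_mul]
      exact hp.mul (hXa j)
  have halg' : Algebra.IsAlgebraic (Algebra.adjoin F (Set.range x))
      (MvPolynomial (Fin N) F ⧸ I) := by
    rw [← hS]
    exact halg
  have hb := Algebra.IsAlgebraic.isTranscendenceBasis_of_le_trdeg_of_finite F x
    (by rw [hdim, Cardinal.mk_fin])
  obtain ⟨s, hs0, t, ht⟩ := (halg.isAlgebraic (Ideal.Quotient.mk I h)).exists_nonzero_dvd
    (mem_nonZeroDivisors_of_ne_zero fun h0 => hn (Ideal.Quotient.eq_zero_iff_mem.1 h0))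
  obtain ⟨T, rfl⟩ := Ideal.Quotient.mk_surjective t
  have hs1 : (s : MvPolynomial (Fin N) F ⧸ I) ∈
      (aeval x : MvPolynomial (Fin (d + 1)) F →ₐ[F] _).range := by
    rw [← Algebra.adjoin_range_eq_range_aeval, ← hS]
    exact s.2
  obtain ⟨p, hp⟩ := hs1
  refine ⟨p, T, fun h0 => hs0 ?_, ?_⟩
  · apply Subtype.ext
    rw [← hp, h0]
    exact map_zero _
  · rw [← Ideal.Quotient.eq, map_mul, hcu]
    exact hp.trans ht

/-- Let `R = F[X] / (f)`, a domain of transcendence degree `d + 1`. The classes of `u_0, ..., u_d` are a transcendence basis of `Frac R`: some `X_k` is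
not `0` in `R` (otherwise `R = F`, of transcendence degree `0`), so `hψ.onG`, `hψ.onA` give `G (u, y) = 0`, `A_j (u, y) = D (u) X_j` in `R`, `y` is
integral over `F[u]` (`G` is monic), and `D (u) ≠ 0` in `R`: `Frac R` is algebraic over `F (u)`, which is generated by `d + 1` elements. So `h` is algebraic
over `F[u]`: `∑ p_j (u) h ^ j = 0` in `R` with `p_0 ≠ 0` (`h ≠ 0` in the domain `R`, divide by a power of `h`; `u` is algebraically independent). Hence `p_0 (u (x)) = 0` for
all zeros `x` of `f` and `h`. Replace `x` by `λ x` (`f`, `h` are homogeneous, `L` is infinite): `p_0 (λ u (x)) = 0` for all `λ`, so all homogeneous components of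
`p_0` vanish at `u (x)`; `r` is a component `≠ 0`. -/
theorem exists_rl [CharZero F] (hf : GX.Nsg f d) {ψ : GX.Prj F N d} (hψ : ψ.Ok f)
    (hD : ψ.cp (Polynomial.C ψ.D) ∉ Ideal.span (Set.range f)) {h : MvPolynomial (Fin N) F}
    (hh : ∃ e, h.IsHomogeneous e) (hn : h ∉ Ideal.span (Set.range f)) :
    ∃ r : MvPolynomial (Fin (d + 1)) F, r ≠ 0 ∧ (∃ e, r.IsHomogeneous e) ∧
      ∀ (L : Type) [Field L] [Algebra F L] (x : Fin N → L), (∀ i, aeval x (f i) = 0) →
        aeval x h = 0 → aeval (ψ.uv x) r = 0 := by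
  classical
  obtain ⟨p, T, hp0, hpT⟩ := rl_alg hf hψ hD hn
  have key : ∀ (L : Type) [Field L] [Algebra F L] (x : Fin N → L), (∀ i, aeval x (f i) = 0) →
      aeval x h = 0 → aeval (ψ.uv x) p = 0 := by
    intro L _ _ x hx hx0
    have h1 : Ideal.span (Set.range f) ≤ RingHom.ker (aeval x : MvPolynomial (Fin N) F →ₐ[F] L) := by
      rw [Ideal.span_le]
      rintro _ ⟨i, rfl⟩
      exact hx i
    have h2 : aeval x (GX.cu ψ.u p - h * T) = 0 := h1 hpT
    rw [map_sub, map_mul, hx0, zero_mul, sub_zero, rl_cu] at h2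
    exact h2
  obtain ⟨e, he⟩ : ∃ e, homogeneousComponent e p ≠ 0 := by
    by_contra hcon
    push Not at hcon
    apply hp0
    rw [← sum_homogeneousComponent p]
    exact Finset.sum_eq_zero fun i _ => hcon i
  refine ⟨homogeneousComponent e p, he, ⟨e, homogeneousComponent_isHomogeneous e p⟩,
    fun L _ _ x hx hx0 => ?_⟩
  have : CharZero L := charZero_of_injective_algebraMap (algebraMap F L).injective
  obtain ⟨e0, hh0⟩ := hh
  have h1 : ∀ t : L, aeval (ψ.uv fun j => t * x j) p = 0 := by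
    intro t
    refine key L _ (fun i => ?_) ?_
    · obtain ⟨ei, hei⟩ := hf.hom i
      rw [rl_smul hei, hx i, mul_zero]
    · rw [rl_smul hh0, hx0, mul_zero]
  have h2 : ∀ t : L, (ψ.uv fun j => t * x j) = fun r => t * ψ.uv x r := by
    intro t
    funext r
    simp only [GX.Prj.uv, GX.lv]
    rw [Finset.mul_sum]
    exact Finset.sum_congr rfl fun j _ => by ring
  obtain ⟨P, hP⟩ : ∃ P : Polynomial L, P = ∑ i ∈ Finset.range (p.totalDegree + 1),
      Polynomial.C (aeval (ψ.uv x) (homogeneousComponent i p)) * Polynomial.X ^ i := ⟨_, rfl⟩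
  have h3 : P = 0 := by
    apply Polynomial.funext
    intro t
    rw [Polynomial.eval_zero, ← h1 t, h2, hP, Polynomial.eval_finsetSum]
    conv_rhs => rw [← sum_homogeneousComponent p]
    rw [map_sum]
    refine Finset.sum_congr rfl fun i _ => ?_
    rw [Polynomial.eval_mul, Polynomial.eval_C, Polynomial.eval_pow, Polynomial.eval_X,
      rl_smul (homogeneousComponent_isHomogeneous i p), mul_comm]
  by_cases hle : e < p.totalDegree + 1
  · have h4 : P.coeff e = aeval (ψ.uv x) (homogeneousComponent e p) := by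
      rw [hP, Polynomial.finsetSum_coeff]
      rw [Finset.sum_eq_single e]
      · rw [Polynomial.coeff_C_mul, Polynomial.coeff_X_pow, if_pos rfl, mul_one]
      · intro i _ hi
        rw [Polynomial.coeff_C_mul, Polynomial.coeff_X_pow, if_neg (Ne.symm hi), mul_zero]
      · intro h
        exact absurd (Finset.mem_range.2 hle) h
    rw [← h4, h3, Polynomial.coeff_zero]
  · exact absurd (homogeneousComponent_eq_zero e p (by omega)) he

end DN
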