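import Pool.Agent.Lib.MP_f80667_ag.Do.Fd
import Pool.Agent.Lib.MP_f80667_ag.Sb.A

/-!
Projective varieties dominated by products of elliptic curves: the definitions for the statement.

* `Nsp f d`: `f = 0` is a nonsingular projective variety of dimension `d`. `Tgc f x`: the tangent space of the cone.
* `Prm F W D`: the prime numbers of the theorem. `QPr V P`: the statement for the variety `V` and the prime numbers in `P`.
* `Gok A`: the properties of a group variety. `Sg M z`: the sum of `φ (z)`. `Pbk W Φ h M`: the pull-back of a cycle with sum `0` has sums `0`.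
* `Dvl M K l`: the kernel of the sum is `l`-divisible. `Alx M c`: the sums of a family are `0`. `Smx M P z`: the sums of `z` are those of
  the image of an element of the completion of `F^1(X)`.
* `Mor V V'`: morphisms. `Tra f W Φ h s`: the morphisms `s i` are the sums of the preimages. `Psf`, `IsPm`: push-forwards. `QsR s P`: the
  statement for the variety `V` with the morphisms `s i` and the prime numbers in `P`.
-/

open ZC BE PE NE DN IsDedekindDomain NumberField

namespace DS

section var

variable {F : Type} [Field F] {N : ℕ} {ι : Type}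

/-- The tangent space at `x` of the cone over the variety `f = 0`. -/
noncomputable def Tgc (f : ι → MvPolynomial (Fin N) F) (x : Fin N → F) : Submodule F (Fin N → F) :=
  ⨅ i, LinearMap.ker (∑ j, MvPolynomial.eval x (MvPolynomial.pderiv j (f i)) •
    (LinearMap.proj j : (Fin N → F) →ₗ[F] F))

/-- `f = 0` is a nonsingular projective variety of dimension `d`: the `f_i` are homogeneous and generate a prime ideal, the transcendence degree of the
homogeneous coordinate ring is `d + 1`, and at all points over the algebraic closure the tangent space of the cone has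
dimension at most `d + 1`. -/
structure Nsp (f : ι → MvPolynomial (Fin N) F) (d : ℕ) : Prop where
  hom : ∀ i, ∃ e, (f i).IsHomogeneous e
  prime : (Ideal.span (Set.range f)).IsPrime
  dim : Algebra.trdeg F (MvPolynomial (Fin N) F ⧸ Ideal.span (Set.range f)) = (d + 1 : ℕ)
  nsg : ∀ x : Fin N → AlgebraicClosure F, x ≠ 0 → (∀ i, MvPolynomial.aeval x (f i) = 0) →
    Module.finrank (AlgebraicClosure F)
      (Tgc (fun i => MvPolynomial.map (algebraMap F (AlgebraicClosure F)) (f i)) x) ≤ d + 1

end var

/-- The prime numbers of the theorem. -/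
def Prm (F : Type) {F' : Type} [Field F] [Field F'] [NumberField F'] [Algebra F F'] {n : ℕ}
    (W : Fin n → WeierstrassCurve F') [∀ i, (W i).IsElliptic] (D : ℕ) : Set ℕ :=
  {l | Plc W l ∧ ¬ l ∣ D * Module.finrank F F'}

/-- Q1 for `V` at the prime numbers in `P`, in the form `0 = 0`: the group `F^1_A(V)` is divisible by all `m ≠ 0` with all
prime factors in `P`, and the components at the prime numbers in `P` of every element of its completion are in the
image of `Δ`. -/
def QPr {F : Type} [Field F] [NumberField F] (V : Vr F) (P : Set ℕ) : Prop :=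
  (∀ m : ℕ, m ≠ 0 → Sf P m → ∀ c : Fam V, ∃ c' : Fam V, c.cl = m • c'.cl) ∧
    ∀ z : LHat (FA V), ImDeS P z

section alb

variable {F : Type} [Field F] {N N' n k k' : ℕ} {ι ι' : Type} {f : ι → MvPolynomial (Fin N) F}
  {A : GX.Gv F N' k' ι'}

/-- The vectors `m i` compute the differences of points. -/
structure Gok (A : GX.Gv F N' k' ι') : Prop where
  hm : ∀ i, ∃ e, (A.a i).IsHomogeneous e
  o1 : A.o A.j₀ = 1
  oc : GX.Co (A.G.grp F).zero A.o
  ne : ∀ (E : Type) [Field E] [Algebra F E] (P Q : (GX.Xf A.a).pt E) (x x' : Fin N' → E),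
    GX.Co P x → GX.Co Q x' → ∃ i, A.mv i x x' ≠ 0
  sub : ∀ (E : Type) [Field E] [Algebra F E] (P Q R : (GX.Xf A.a).pt E) (x x' : Fin N' → E)
    (i : Fin k'), GX.Co P x → GX.Co Q x' → (A.G.grp E).add R Q = P → A.mv i x x' ≠ 0 →
      GX.Co R (A.mv i x x')

/-- The sum of `φ (z)` is `0`. -/
def Sg0 (M : GX.Mf f A k) {E : Type} [Field E] [Algebra F E] (z : (GX.Xf f).pt E →₀ ℤ) : Prop :=
  letI := A.G.grp E
  (z.sum fun P m => m • M.φ E P) = 0

/-- The pull-back by `Φ` of a cycle `z` of degree `0` on the part `h ≠ 0` of the variety `f = 0` has the sums `0` in the curves `W i` if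
the sum of `φ (z)` in the group variety `A` is `0`. -/
def Pbk {F' : Type} [Field F'] [Algebra F F'] (W : Fin n → WeierstrassCurve F')
    (Φ : Fin N → MvPolynomial (Fin n ⊕ Fin n) F') (h : MvPolynomial (Fin N) F)
    (M : GX.Mf f A k) : Prop :=
  ∀ (L : Type) [Field L] [IsAlgClosed L] [Algebra F L] [Algebra F' L] [IsScalarTower F F' L]
    (z : (GX.Xf f).pt L →₀ ℤ),
    (∀ P ∈ z.support, ∃ x, GX.Co P x ∧ MvPolynomial.aeval x h ≠ 0) →
    (z.sum fun _ m => m) = 0 → Sg0 M z →
      ∀ i, (z.sum fun P m => m • ∑ᶠ Q ∈ {Q | ∃ x, GX.Co P x ∧ Vl W Φ Q x}, Q i) = 0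

/-- The kernel of the sum over `K` is `l`-divisible. -/
def Dvl (M : GX.Mf f A k) (K : Type) [Field K] [Algebra F K] (l : ℕ) : Prop :=
  ∀ z : Zc (GX.Xf f) K, Sg0 M z.cy → ∃ z' : Zc (GX.Xf f) K, Sg0 M z'.cy ∧ z.cl = l • z'.cl

variable [NumberField F]

/-- The sums are `0` at all places. -/
def Alx (M : GX.Mf f A k) (c : Fam (GX.Xf f)) : Prop :=
  (∀ v, Sg0 M (c.f v).cy) ∧ ∀ v, Sg0 M (c.i v).cy

/-- The sums of `z` are, at `P`, those of the image of an element of the completion of `F^1(X)`, at all finite places modulo `m` times the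
sums of cycles of degree `0`. -/
def Smx (M : GX.Mf f A k) (P : Set ℕ) (z : LHat (FA (GX.Xf f))) : Prop :=
  ∃ x : LHat (BE.Gp (GX.Xf f) F), ∀ m : ℕ+, Sf P m →
    ∃ (c : Zc (GX.Xf f) F) (c' d : Fam (GX.Xf f)), IsBcF c c' ∧ x.Rep m c.cl ∧ z.Rep m d.cl ∧
      ∀ v, ∃ u : Zc (GX.Xf f) (FK F v), Sg0 M ((c'.f v).cy - (d.f v).cy - (m : ℕ) • u.cy)

end alb

section mor

/-- A morphism of varieties over `F`: a natural map of points which is compatible with the reduction at the places of the extensions
`L / K`, `K` an extension of `F`. -/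
structure Mor {F : Type} [Field F] (V V' : Vr F) where
  f : ∀ (L : Type) [Field L] [Algebra F L], V.pt L → V'.pt L
  nat : ∀ (L M : Type) [Field L] [Field M] [Algebra F L] [Algebra F M] (σ : L →ₐ[F] M)
    (x : V.pt L), V'.map σ (f L x) = f M (V.map σ x)
  red : ∀ (K L Ω : Type) [Field K] [Field L] [Field Ω] [Algebra K L] [Algebra K Ω]
    [Algebra F K] [Algebra F L] [Algebra F Ω] [IsScalarTower F K L] [IsScalarTower F K Ω]
    (w : Place K L Ω) (x : V.pt L) (y : V.pt Ω), V.red w x y → V'.red w (f L x) (f Ω y)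

/-- The morphism `s i` maps a point `P` of the variety `f = 0` with `h (P) ≠ 0` to the sum of the coordinates number `i` of the
preimages of `P`. -/
def Tra {F : Type} [Field F] {N n : ℕ} {ι : Type} (f : ι → MvPolynomial (Fin N) F)
    (W : Fin n → WeierstrassCurve F) (Φ : Fin N → MvPolynomial (Fin n ⊕ Fin n) F)
    (h : MvPolynomial (Fin N) F) (s : ∀ i, Mor (GX.Xf f) (Ev (W i))) : Prop :=
  ∀ (L : Type) [Field L] [IsAlgClosed L] [Algebra F L] (x : Fin N → L) (P : (GX.Xf f).pt L),
    DN.Gp f h x → GX.Co P x → ∀ i, ∑ᶠ Q ∈ Fb W Φ x, Q i = (s i).f L P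

variable {F : Type} [Field F] [NumberField F] {V V' : Vr F}

/-- The family `c'` of zero-cycles on `V'` is the push-forward of the family `c` by the morphism `s`. -/
def Psf (s : Mor V V') (c : Fam V) (c' : Fam V') : Prop :=
  (∀ v, (c'.f v).cy = Finsupp.mapDomain (s.f _) (c.f v).cy) ∧
    ∀ v, (c'.i v).cy = Finsupp.mapDomain (s.f _) (c.i v).cy

/-- `z'` is the push-forward of `z`. -/
def IsPm (s : Mor V V') (z : LHat (FA V)) (z' : LHat (FA V')) : Prop :=
  ∀ (m : ℕ+) (c : Fam V) (c' : Fam V'), Psf s c c' → z.Rep m c.cl → z'.Rep m c'.cl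

/-- The statement for the variety `V` with the morphisms `s i` to the curves `W i` and the prime numbers in `P`: for all `m ≠ 0` with
all prime factors in `P` the class of a family is divisible by `m` if the classes of its push-forwards by the `s i` are; the components
at the prime numbers in `P` of an element `z` of the completion of `F^1_A(V)` are in the image of `Δ` if and only if this
holds for the push-forwards of `z` by the `s i`. -/
def QsR {n : ℕ} {W : Fin n → WeierstrassCurve F} (s : ∀ i, Mor V (Ev (W i))) (P : Set ℕ) : Prop :=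
  (∀ m : ℕ, m ≠ 0 → Sf P m → ∀ c : Fam V,
    (∀ i, ∃ c' c'' : Fam (Ev (W i)), Psf (s i) c c' ∧ c'.cl = m • c''.cl) →
      ∃ c₁ : Fam V, c.cl = m • c₁.cl) ∧
    ∀ (z : LHat (FA V)) (z' : ∀ i, LHat (FA (Ev (W i)))),
      (∀ i, IsPm (s i) z (z' i)) → (ImDeS P z ↔ ∀ i, ImDeS P (z' i))

end mor

end DS
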