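import Pool.Agent.Lib.MP_f80667_ag.Do.Sta
import Pool.Agent.Lib.MP_f80667_ag.Do.GloM
import Pool.Agent.Lib.MP_f80667_ag.Mt.Psm

/-! Varieties dominated by products of elliptic curves: the theorem in the form of the statement. -/

open ZC BE PE CV NE DN IsDedekindDomain NumberField

namespace DS

section var

variable {F : Type} [Field F] {N d : ℕ} {ι : Type} {f : ι → MvPolynomial (Fin N) F}

theorem tgc_eq (f : ι → MvPolynomial (Fin N) F) (x : Fin N → F) : Tgc f x = GX.tgs f x := by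
  ext t
  rw [Tgc, Submodule.mem_iInf, GX.mem_tgs]
  refine forall_congr' fun i => ?_
  rw [LinearMap.mem_ker, LinearMap.sum_apply]
  rfl

theorem nsg_of (hf : Nsp f d) : GX.Nsg f d where
  hom := hf.hom
  prime := hf.prime
  dim := hf.dim
  nsg x hx := by
    rw [← tgc_eq]
    refine hf.nsg x hx.1 fun i => ?_
    have h := hx.2 i
    rw [MvPolynomial.eval_map] at h
    exact h

end var

section alb

variable {F : Type} [Field F] {N N' n k k' : ℕ} {ι ι' : Type} {f : ι → MvPolynomial (Fin N) F}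
  {A : GX.Gv F N' k' ι'} {M : GX.Mf f A k}

theorem gok_of (h : Gok A) : A.Ok where
  hm := h.hm
  o1 := h.o1
  oc := h.oc
  ne := h.ne
  sub := h.sub

theorem sg0_iff {E : Type} [Field E] [Algebra F E] (z : (GX.Xf f).pt E →₀ ℤ) :
    Sg0 M z ↔ M.S E z = (A.G.grp E).zero := by
  let _ : AddCommGroup ((GX.Xf A.a).pt E) := A.G.grp E
  have h1 : M.S E z = z.sum fun P m => m • M.φ E P := by
    change Finsupp.liftAddHom (fun x => (zmultiplesHom ((GX.Xf A.a).pt E)) x)
      (Finsupp.mapDomain (M.φ E) z) = _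
    rw [Finsupp.liftAddHom_apply, Finsupp.sum_mapDomain_index]
    · rfl
    · intro b
      exact map_zero _
    · intro b m m'
      exact map_add _ m m'
  rw [h1]
  exact Iff.rfl

theorem plb_of {F' : Type} [Field F'] [Algebra F F'] {W : Fin n → WeierstrassCurve F'}
    {Φ : Fin N → MvPolynomial (Fin n ⊕ Fin n) F'} {h : MvPolynomial (Fin N) F}
    (hP : Pbk W Φ h M) : Plb W Φ h M :=
  fun L _ _ _ _ _ z h1 h2 h3 => hP L z h1 h2 ((sg0_iff z).2 h3)

theorem dvl_iff {K : Type} [Field K] [Algebra F K] {l : ℕ} : Dvl M K l ↔ GX.DvS M K l := by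
  have h : ∀ z : Zc (GX.Xf f) K, Sg0 M z.cy ↔ GX.Sz M z := fun z => sg0_iff z.cy
  refine forall_congr' fun z => ?_
  rw [h z]
  refine imp_congr Iff.rfl (exists_congr fun z' => ?_)
  rw [h z']

variable [NumberField F]

theorem alx_iff {c : Fam (GX.Xf f)} : Alx M c ↔ GX.AlbX M c :=
  and_congr (forall_congr' fun v => sg0_iff (c.f v).cy) (forall_congr' fun v => sg0_iff (c.i v).cy)

theorem smx_iff {P : Set ℕ} {z : LHat (FA (GX.Xf f))} : Smx M P z ↔ GX.SumX M P z := by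
  refine exists_congr fun x => forall_congr' fun m => imp_congr Iff.rfl ?_
  refine exists_congr fun c => exists_congr fun c' => exists_congr fun d => ?_
  refine and_congr Iff.rfl (and_congr Iff.rfl (and_congr Iff.rfl (forall_congr' fun v => ?_)))
  exact exists_congr fun u => sg0_iff _

end alb

/-- **The theorem** for an extension `F' / F`. -/
theorem main_A {F F' : Type} [Field F] [NumberField F] [Field F'] [NumberField F'] [Algebra F F']
    {N n d D : ℕ} {ι : Type} {f : ι → MvPolynomial (Fin N) F} {W : Fin n → WeierstrassCurve F'}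
    [∀ i, (W i).IsElliptic] {Φ : Fin N → MvPolynomial (Fin n ⊕ Fin n) F'}
    {h : MvPolynomial (Fin N) F} (hf : Nsp f d) (h0 : D ≠ 0) (hD : Dom f W Φ h D) :
    (∃ l₀ : ℕ, ∀ l : ℕ, l.Prime → l₀ < l → l ∈ Prm F W D) ∧
      (Cst f W Φ h → QPr (GX.Xf f) (Prm F W D)) ∧
      ∀ (N' k k' : ℕ) (ι' : Type) (A : GX.Gv F N' k' ι') (M : GX.Mf f A k), Gok A → M.Ok →
        Pbk W Φ h M →
        (∀ l ∈ Prm F W D, ∀ v : HeightOneSpectrum (𝓞 F), Dvl M (FK F v) l) ∧
        (∀ m : ℕ, m ≠ 0 → Sf (Prm F W D) m → ∀ c : Fam (GX.Xf f), Alx M c →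
          ∃ c' : Fam (GX.Xf f), Alx M c' ∧ c.cl = m • c'.cl) ∧
        ∀ z : LHat (FA (GX.Xf f)), ImDeS (Prm F W D) z ↔ Smx M (Prm F W D) z := by
  refine ⟨pr_fin h0, fun hC => qp_X (nsg_of hf) hD hC, fun N' k k' ι' A M hA hM hP => ?_⟩
  obtain ⟨h1, h2, h3⟩ := alb_X (nsg_of hf) (gok_of hA) hM hD (plb_of hP)
  refine ⟨fun l hl v => dvl_iff.2 (h1 l hl v), fun m hm hS c hc => ?_, fun z => ?_⟩
  · obtain ⟨c', h4, h5⟩ := h2 m hm hS c (alx_iff.1 hc)
    exact ⟨c', alx_iff.2 h4, h5⟩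
  · exact (h3 z).trans smx_iff.symm

/-- **The theorem** with morphisms to the curves. -/
theorem main_B {F : Type} [Field F] [NumberField F] {N n d D : ℕ} {ι : Type}
    {f : ι → MvPolynomial (Fin N) F} {W : Fin n → WeierstrassCurve F} [∀ i, (W i).IsElliptic]
    {Φ : Fin N → MvPolynomial (Fin n ⊕ Fin n) F} {h : MvPolynomial (Fin N) F}
    {s : ∀ i, Mor (GX.Xf f) (Ev (W i))} (hf : Nsp f d) (hD : Dom f W Φ h D)
    (hs : Tra f W Φ h s) : QsR s (Prm F W D) :=
  DN.T.qsR_of (DN.T.qs_P (nsg_of hf) hD hs)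

end DS
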