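import Mathlib

/-! Thin subsets of a product. -/

namespace DN

/-- Thin subsets of a product of `n` sets: for all but finitely many values of the first coordinate the fibre is thin. -/
def Thin : ∀ {n : ℕ} (A : Fin n → Type), Set (∀ i, A i) → Prop
  | 0, _, B => B = ∅
  | n + 1, A, B => {a : A 0 | ¬ Thin (fun i : Fin n => A i.succ)
      {x | (Fin.cons a x : ∀ i, A i) ∈ B}}.Finite

variable {n : ℕ} {A A' : Fin n → Type}

theorem thin_empty (A : Fin n → Type) : Thin A ∅ := by
  induction n with
  | zero => rfl
  | succ n ih =>
    refine Set.Finite.subset Set.finite_empty fun a ha => ?_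
    exact absurd (ih fun i : Fin n => A i.succ) ha

theorem thin_mono {B B' : Set (∀ i, A i)} (h : B ⊆ B') (hB : Thin A B') : Thin A B := by
  induction n with
  | zero => exact Set.subset_eq_empty h hB
  | succ n ih =>
    refine Set.Finite.subset hB fun a ha ha' => ha ?_
    exact ih (fun x hx => h hx) ha'

/-- Proof: induction on `n`. -/
theorem thin_union {B B' : Set (∀ i, A i)} (h : Thin A B) (h' : Thin A B') : Thin A (B ∪ B') := by
  induction n with
  | zero =>
    have e : B = ∅ := h
    have e' : B' = ∅ := h'
    change B ∪ B' = ∅
    rw [e, e', Set.union_empty]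
  | succ n ih =>
    refine (Set.Finite.union h h').subset fun a ha => ?_
    by_contra hc
    simp only [Set.mem_union, Set.mem_ofPred_eq, not_or, not_not] at hc
    exact ha (ih hc.1 hc.2)

theorem thin_iUnion {ι : Type} [Finite ι] {B : ι → Set (∀ i, A i)} (h : ∀ i, Thin A (B i)) :
    Thin A (⋃ i, B i) := by
  classical
  have : Fintype ι := Fintype.ofFinite ι
  have key : ∀ s : Finset ι, Thin A (⋃ i ∈ s, B i) := by
    intro s
    induction s using Finset.induction_on with
    | empty =>
      refine thin_mono (fun x hx => ?_) (thin_empty A)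
      simp at hx
    | insert i s _ ih =>
      refine thin_mono (fun x hx => ?_) (thin_union (h i) ih)
      simpa using hx
  refine thin_mono (fun x hx => ?_) (key Finset.univ)
  simpa using hx

/-- Proof: induction on `n`: choose the first coordinate outside a finite set. -/
theorem thin_avoid [∀ i, Infinite (A i)] {B : Set (∀ i, A i)} (h : Thin A B) : ∃ x, x ∉ B := by
  induction n with
  | zero =>
    have e : B = ∅ := h
    exact ⟨fun i => i.elim0, by rw [e]; exact Set.notMem_empty _⟩
  | succ n ih =>
    have hf : {a : A 0 | ¬ Thin (fun i : Fin n => A i.succ)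
      {x | (Fin.cons a x : ∀ i, A i) ∈ B}}.Finite := h
    obtain ⟨a, ha⟩ := hf.exists_notMem
    obtain ⟨x, hx⟩ := ih (not_not.1 ha)
    exact ⟨Fin.cons a x, hx⟩

/-- The preimage under maps with finite fibres. Proof: induction on `n`. -/
theorem thin_comap (τ : ∀ i, A' i → A i) (hτ : ∀ i a, {a' | τ i a' = a}.Finite)
    {B : Set (∀ i, A i)} (h : Thin A B) : Thin A' {x | (fun i => τ i (x i)) ∈ B} := by
  induction n with
  | zero =>
    have e : B = ∅ := h
    rw [e]
    rfl
  | succ n ih =>
    have hf : {a : A 0 | ¬ Thin (fun i : Fin n => A i.succ)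
      {x | (Fin.cons a x : ∀ i, A i) ∈ B}}.Finite := h
    refine (hf.preimage' (f := τ 0) fun b _ => hτ 0 b).subset fun a' ha' hc => ha' ?_
    refine thin_mono (fun x hx => ?_) (ih (fun i : Fin n => τ i.succ) (fun i => hτ i.succ) hc)
    change (Fin.cons (τ 0 a') (fun i : Fin n => τ i.succ (x i)) : ∀ i, A i) ∈ B
    have e : (Fin.cons (τ 0 a') (fun i : Fin n => τ i.succ (x i)) : ∀ i, A i) =
        fun i => τ i ((Fin.cons a' x : ∀ i, A' i) i) := by
      funext i
      refine Fin.cases ?_ (fun j => ?_) i
      · rfl
      · rfl
    rw [e]
    exact hx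

/-- The zeros of a function which has, as a function of each coordinate, finitely many zeros or is `0`. Proof: induction on `n`: for all but finitely many values `a` of the first coordinate `φ` is not `0` at the point `x₀` with the first coordinate replaced by `a`. -/
theorem thin_sf {R : Type} [Zero R] (φ : (∀ i, A i) → R)
    (hφ : ∀ (x : ∀ i, A i) (i : Fin n), {a | φ (Function.update x i a) = 0}.Finite ∨
      ∀ a, φ (Function.update x i a) = 0) (x₀ : ∀ i, A i) (h0 : φ x₀ ≠ 0) :
    Thin A {x | φ x = 0} := by
  induction n with
  | zero =>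
    change {x | φ x = 0} = ∅
    refine Set.eq_empty_of_forall_notMem fun x hx => h0 ?_
    rw [Subsingleton.elim x₀ x]
    exact hx
  | succ n ih =>
    rcases hφ x₀ 0 with h1 | h1
    · refine h1.subset fun a ha => ?_
      by_contra hc
      refine ha (ih (fun x => φ (Fin.cons a x)) (fun x i => ?_) (fun i => x₀ i.succ) ?_)
      · have h2 := hφ (Fin.cons a x) i.succ
        simp only [Fin.cons_update]
        exact h2
      · have e : (Fin.cons a (fun i : Fin n => x₀ i.succ) : ∀ i, A i) =
            Function.update x₀ 0 a := by
          funext i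
          refine Fin.cases ?_ (fun j => ?_) i
          · rw [Fin.cons_zero, Function.update_self]
          · rw [Fin.cons_succ, Function.update_of_ne (Fin.succ_ne_zero j)]
        rw [e]
        exact hc
    · exact absurd (by simpa using h1 (x₀ 0)) h0

/-- One coordinate in a finite set. -/
theorem thin_cyl (i : Fin n) {T : Set (A i)} (hT : T.Finite) : Thin A {x | x i ∈ T} := by
  induction n with
  | zero => exact i.elim0
  | succ n ih =>
    induction i using Fin.cases with
    | zero =>
      refine hT.subset fun a ha => ?_
      by_contra hc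
      refine ha (thin_mono (fun x hx => ?_) (thin_empty _))
      exact absurd hx hc
    | succ j =>
      refine Set.Finite.subset Set.finite_empty fun a ha => ?_
      exact absurd (ih (A := fun i : Fin n => A i.succ) j hT) ha

end DN
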